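import Pool.Agent.Lib.MP_adc574_ag_HP.LocE

/-!
# JOB LocG: the entries of `a` and of `l` are linearly independent over `κ(t)`

`K = κ(t)`, `∇ w = w' + ΓK w` on `K ^ ι` is irreducible (`hirr`). `jE` is injective (`F⟦X⟧` is a domain, `jE` a homomorphism with
`jE (pl p) ≠ 0` for `p ≠ 0`; in the statement it is a hypothesis).

* `indep_l`: suppose `∑ w_i jE(l_i) = 0`, `w ∈ K^ι` (`Fintype.linearIndependent_iff`, scalars act through `algebraMap K E`). Let
  `W = {w : ∑ algebraMap(w_i) jE(l_i) = 0}`, a `K`-subspace. It is `∇`-stable: clear denominators: it is enough to show for `w` with polynomial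
  entries (`w = q⁻¹ w̃`, `∇(q⁻¹ w̃) = (q⁻¹)' w̃ + q⁻¹ ∇ w̃`) that `∑ pl(w̃_i) l_i = 0` in `F⟦X⟧` implies `∑ (δ ∇ w̃)_i l_i = 0`, where
  `δ ∇ w̃ = δ w̃' + G w̃` has polynomial entries: apply `X d/dX` to `∑ pl(w̃_i) l_i = 0`:
  `0 = ∑ X pl(w̃_i') l_i + ∑_i pl(w̃_i) ((∑_m Γ m i l_m) - α l_i) = ∑ X pl(w̃_i') l_i + ∑_m l_m (Γ pl(w̃))_m`; multiply by `pl δ`:
  `0 = X ∑_m l_m (pl δ pl(w̃_m') + (pl G pl w̃)_m)`. So `W = ⊥` or `⊤` by `hirr`; if `W = ⊤` all `jE (l_i) = 0`, contradiction to `l0 ≠ 0`.
* `indep_a`: `W' = {z ∈ K^ι : ∑ z_i jE(a_i) = 0}` is stable under `z ↦ z' - ΓKᵀ z` (same computation with `X a' = - Γ a + α a`). Let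
  `U = {w : ∑ z_i w_i = 0 for all z ∈ W'}`; `∇ U ⊂ U`: `∑ z_i (∇ w)_i = (∑ z_i w_i)' - ∑ (z' - ΓKᵀ z)_i w_i = 0`. By `hirr` `U = ⊥` or `⊤`. If `U = ⊤` then
  `W' = ⊥`: done. If `U = ⊥` then `W' = ⊤` (a proper subspace of `K^ι` has a nonzero annihilator in `K^ι`: `Submodule.exists_dual_map_eq_bot...`,
  `Module.Dual` of `ι → K`, or `Submodule.dualAnnihilator`), so all `a_i = 0`, contradiction.
-/

set_option autoImplicit false

namespace MPadcHP

open MPadcLP

universe u

variable {ι : Type} [Fintype ι] [DecidableEq ι]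

open PowerSeries in
theorem indep_l {κ F E : Type u} [Field κ] [CharZero κ] [Field F] [Algebra κ F] [Field E]
    [Algebra (RatFunc κ) E] (τ : F) (δ : Polynomial κ) (hδ0 : δ ≠ 0)
    (G : Matrix ι ι (Polynomial κ)) (Γ : Matrix ι ι F⟦X⟧)
    (hΓ : ∀ i j, pl κ τ δ * Γ i j = X * pl κ τ (G i j)) (α : F)
    (l : ι → F⟦X⟧)
    (hl : ∀ j, X * derivative F (l j) = (∑ i, Γ i j * l i) - C α * l j)
    (hl0 : ∃ i, constantCoeff (l i) ≠ 0)
    (jE : F⟦X⟧ →+* E) (hinj : Function.Injective jE) (hjE : ∀ p : Polynomial κ, jE (pl κ τ p) =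
      algebraMap (RatFunc κ) E (algebraMap (Polynomial κ) (RatFunc κ) p))
    (ΓK : Matrix ι ι (RatFunc κ))
    (hΓK : ∀ i j, algebraMap (Polynomial κ) (RatFunc κ) δ * ΓK i j =
      algebraMap (Polynomial κ) (RatFunc κ) (G i j))
    (hirr : ∀ W : Submodule (RatFunc κ) (ι → RatFunc κ),
      (∀ w ∈ W, (fun i => DZ κ (w i) + ΓK.mulVec w i) ∈ W) → W = ⊥ ∨ W = ⊤) :
    LinearIndependent (RatFunc κ) fun i => jE (l i) := by
  classical
  let A := algebraMap (Polynomial κ) (RatFunc κ)
  let B := algebraMap (RatFunc κ) E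
  have hA0 : ∀ p : Polynomial κ, p ≠ 0 → A p ≠ 0 := by
    intro p hp h
    exact hp ((map_eq_zero_iff A (IsFractionRing.injective (Polynomial κ) (RatFunc κ))).1 h)
  let Λ : (ι → RatFunc κ) →ₗ[RatFunc κ] E :=
    Fintype.linearCombination (RatFunc κ) (fun i => jE (l i))
  have hΛ : ∀ w : ι → RatFunc κ, Λ w = ∑ i, B (w i) * jE (l i) := by
    intro w
    change Fintype.linearCombination (RatFunc κ) (fun i => jE (l i)) w = _
    rw [Fintype.linearCombination_apply]
    exact Finset.sum_congr rfl fun i _ => Algebra.smul_def _ _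
  have hstab : ∀ w ∈ LinearMap.ker Λ,
      (fun i => DZ κ (w i) + ΓK.mulVec w i) ∈ LinearMap.ker Λ := by
    intro w hw
    rw [LinearMap.mem_ker, hΛ] at hw ⊢
    obtain ⟨⟨q, hq⟩, hqw⟩ := IsLocalization.exist_integer_multiples_of_finite
      (nonZeroDivisors (Polynomial κ)) w
    have hq0 : q ≠ 0 := nonZeroDivisors.ne_zero hq
    choose v hv using hqw
    have hv' : ∀ i, A (v i) = A q * w i := by
      intro i
      have h1 := hv i
      rw [Algebra.smul_def] at h1
      exact h1
    -- the relation over the power series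
    have hS : ∑ i, pl κ τ (v i) * l i = 0 := by
      apply hinj
      rw [map_sum, map_zero]
      have h1 : ∀ i, jE (pl κ τ (v i) * l i) = B (A q) * (B (w i) * jE (l i)) := by
        intro i
        rw [map_mul, hjE]
        change B (A (v i)) * jE (l i) = _
        rw [hv', map_mul, mul_assoc]
      rw [Finset.sum_congr rfl fun i _ => h1 i, ← Finset.mul_sum, hw, mul_zero]
    have hD : ∑ i, (pl κ τ (Polynomial.derivative (v i)) * l i + pl κ τ (v i) * derivative F (l i))
        = 0 := by
      have h1 : derivative F (∑ i, pl κ τ (v i) * l i) = 0 := by rw [hS, map_zero]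
      rw [map_sum] at h1
      rw [← h1]
      apply Finset.sum_congr rfl
      intro i _
      rw [Derivation.leibniz, smul_eq_mul, smul_eq_mul, pl_derivative]
      ring
    have h2 : X * ∑ m, pl κ τ (δ * Polynomial.derivative (v m) + ∑ i, G m i * v i) * l m = 0 := by
      have h3 : pl κ τ δ * (X * ∑ i, (pl κ τ (Polynomial.derivative (v i)) * l i
          + pl κ τ (v i) * derivative F (l i))) = 0 := by
        rw [hD, mul_zero, mul_zero]
      have h4 : pl κ τ δ * (X * ∑ i, (pl κ τ (Polynomial.derivative (v i)) * l i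
          + pl κ τ (v i) * derivative F (l i))) =
          X * (∑ m, pl κ τ δ * pl κ τ (Polynomial.derivative (v m)) * l m)
          + (∑ i, ∑ m, pl κ τ (v i) * ((pl κ τ δ * Γ m i) * l m))
          - pl κ τ δ * C α * ∑ i, pl κ τ (v i) * l i := by
        rw [Finset.mul_sum, Finset.mul_sum, Finset.mul_sum, Finset.mul_sum, ← Finset.sum_add_distrib,
          ← Finset.sum_sub_distrib]
        apply Finset.sum_congr rfl
        intro i _
        have h5 : ∑ m, pl κ τ (v i) * ((pl κ τ δ * Γ m i) * l m) =
            pl κ τ (v i) * (pl κ τ δ * ∑ m, Γ m i * l m) := by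
          rw [Finset.mul_sum, Finset.mul_sum]
          apply Finset.sum_congr rfl
          intro m _
          ring
        rw [h5]
        have h6 := hl i
        calc pl κ τ δ * (X * (pl κ τ (Polynomial.derivative (v i)) * l i
              + pl κ τ (v i) * derivative F (l i)))
            = X * (pl κ τ δ * pl κ τ (Polynomial.derivative (v i)) * l i)
              + pl κ τ δ * pl κ τ (v i) * (X * derivative F (l i)) := by ring
          _ = _ := by
            rw [h6]
            ring
      rw [h3, hS, mul_zero, sub_zero] at h4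
      have h7 : ∑ i, ∑ m, pl κ τ (v i) * ((pl κ τ δ * Γ m i) * l m) =
          X * ∑ m, (∑ i, pl κ τ (G m i) * pl κ τ (v i)) * l m := by
        rw [Finset.sum_comm, Finset.mul_sum]
        apply Finset.sum_congr rfl
        intro m _
        rw [Finset.sum_mul, Finset.mul_sum]
        apply Finset.sum_congr rfl
        intro i _
        rw [hΓ]
        ring
      rw [h7, ← mul_add, ← Finset.sum_add_distrib] at h4
      rw [h4]
      congr 1
      apply Finset.sum_congr rfl
      intro m _
      rw [map_add, map_mul, map_sum, add_mul]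
      congr 2
      apply Finset.sum_congr rfl
      intro i _
      rw [map_mul]
    have h3 : ∑ m, pl κ τ (δ * Polynomial.derivative (v m) + ∑ i, G m i * v i) * l m = 0 := by
      rcases mul_eq_zero.1 h2 with h | h
      · exact absurd h X_ne_zero
      · exact h
    have h4 : ∑ m, B (A (δ * Polynomial.derivative (v m) + ∑ i, G m i * v i)) * jE (l m) = 0 := by
      have h5 := congrArg jE h3
      rw [map_sum, map_zero] at h5
      rw [← h5]
      apply Finset.sum_congr rfl
      intro m _
      rw [map_mul, hjE]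
    have h5 : ∀ m, A (δ * Polynomial.derivative (v m) + ∑ i, G m i * v i) =
        A δ * DK κ (A q) * w m + A δ * A q * (DZ κ (w m) + ΓK.mulVec w m) := by
      intro m
      have h6 : A (Polynomial.derivative (v m)) = DK κ (A q) * w m + A q * DK κ (w m) := by
        have h7 := DK_poly κ (v m)
        change DK κ (A (v m)) = A (Polynomial.derivative (v m)) at h7
        rw [← h7, hv', Derivation.leibniz, smul_eq_mul, smul_eq_mul]
        ring
      have h8 : ∑ i, A (G m i * v i) = A δ * (A q * ΓK.mulVec w m) := by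
        rw [Matrix.mulVec, dotProduct, Finset.mul_sum, Finset.mul_sum]
        apply Finset.sum_congr rfl
        intro i _
        rw [map_mul, hv']
        have h9 : A δ * ΓK m i = A (G m i) := hΓK m i
        rw [← h9]
        ring
      rw [map_add, map_mul, map_sum, h6, h8, DZ_apply]
      ring
    have h6 : B (A δ * A q) * ∑ m, B (DZ κ (w m) + ΓK.mulVec w m) * jE (l m) = 0 := by
      have h7 : ∑ m, B (A (δ * Polynomial.derivative (v m) + ∑ i, G m i * v i)) * jE (l m) =
          B (A δ * DK κ (A q)) * (∑ m, B (w m) * jE (l m)) +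
          B (A δ * A q) * ∑ m, B (DZ κ (w m) + ΓK.mulVec w m) * jE (l m) := by
        rw [Finset.mul_sum, Finset.mul_sum, ← Finset.sum_add_distrib]
        apply Finset.sum_congr rfl
        intro m _
        rw [h5 m, map_add, map_mul B (A δ * DK κ (A q)) (w m),
          map_mul B (A δ * A q) (DZ κ (w m) + ΓK.mulVec w m)]
        ring
      rw [h4, hw, mul_zero, zero_add] at h7
      exact h7.symm
    rcases mul_eq_zero.1 h6 with h | h
    · exfalso
      have h7 : A δ * A q = 0 := (map_eq_zero_iff B B.injective).1 h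
      rcases mul_eq_zero.1 h7 with h8 | h8
      · exact hA0 δ hδ0 h8
      · exact hA0 q hq0 h8
    · exact h
  rcases hirr (LinearMap.ker Λ) hstab with hW | hW
  · rw [Fintype.linearIndependent_iff]
    intro g hg
    have h1 : g ∈ LinearMap.ker Λ := by
      rw [LinearMap.mem_ker, hΛ, ← hg]
      exact Finset.sum_congr rfl fun i _ => (Algebra.smul_def _ _).symm
    rw [hW, Submodule.mem_bot] at h1
    intro i
    rw [h1]
    rfl
  · exfalso
    obtain ⟨i, hi⟩ := hl0
    have h1 : (Pi.single i 1 : ι → RatFunc κ) ∈ LinearMap.ker Λ := by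
      rw [hW]
      trivial
    rw [LinearMap.mem_ker, hΛ, Finset.sum_eq_single i] at h1
    · rw [Pi.single_eq_same, map_one, one_mul] at h1
      have h2 : l i = 0 := hinj (by rw [h1, map_zero])
      rw [h2] at hi
      exact hi (map_zero _)
    · intro b _ hb
      rw [Pi.single_eq_of_ne hb, map_zero, zero_mul]
    · intro h
      exact absurd (Finset.mem_univ i) h

omit [DecidableEq ι] in
open PowerSeries in
private theorem locgb_poly {κ F : Type u} [Field κ] [CharZero κ] [Field F] [Algebra κ F]
    (τ : F) (δ : Polynomial κ)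
    (G : Matrix ι ι (Polynomial κ)) (Γ : Matrix ι ι F⟦X⟧)
    (hΓ : ∀ i j, pl κ τ δ * Γ i j = X * pl κ τ (G i j)) (α : F)
    (a : ι → F⟦X⟧)
    (ha : ∀ i, X * derivative F (a i) = -(Γ.mulVec a i) + C α * a i)
    (p : ι → Polynomial κ) (hp : ∑ i, pl κ τ (p i) * a i = 0) :
    ∑ i, pl κ τ (δ * Polynomial.derivative (p i) - ∑ j, G j i * p j) * a i = 0 := by
  have h1 : X * derivative F (∑ i, pl κ τ (p i) * a i) = 0 := by
    rw [hp, map_zero, mul_zero]
  rw [map_sum, Finset.mul_sum] at h1
  have h2 : ∀ i ∈ (Finset.univ : Finset ι), X * derivative F (pl κ τ (p i) * a i) =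
      X * (pl κ τ (Polynomial.derivative (p i)) * a i) - pl κ τ (p i) * Γ.mulVec a i +
        C α * (pl κ τ (p i) * a i) := by
    intro i _
    have h3 := ha i
    rw [Derivation.leibniz, smul_eq_mul, smul_eq_mul, pl_derivative]
    calc X * (pl κ τ (p i) * derivative F (a i) + a i * pl κ τ (Polynomial.derivative (p i)))
        = pl κ τ (p i) * (X * derivative F (a i)) +
          X * (pl κ τ (Polynomial.derivative (p i)) * a i) := by ring
      _ = _ := by rw [h3]; ring
  rw [Finset.sum_congr rfl h2, Finset.sum_add_distrib, Finset.sum_sub_distrib, ← Finset.mul_sum,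
    ← Finset.mul_sum, hp, mul_zero, add_zero] at h1
  have h4 : pl κ τ δ * ∑ i, pl κ τ (p i) * Γ.mulVec a i =
      X * ∑ j, (∑ i, pl κ τ (G i j) * pl κ τ (p i)) * a j := by
    have h5 : ∀ i, pl κ τ δ * (pl κ τ (p i) * Γ.mulVec a i) =
        ∑ j, X * (pl κ τ (G i j) * pl κ τ (p i) * a j) := by
      intro i
      rw [Matrix.mulVec, dotProduct, Finset.mul_sum, Finset.mul_sum]
      refine Finset.sum_congr rfl ?_
      intro j _
      calc pl κ τ δ * (pl κ τ (p i) * (Γ i j * a j))
          = pl κ τ δ * Γ i j * (pl κ τ (p i) * a j) := by ring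
        _ = X * (pl κ τ (G i j) * pl κ τ (p i) * a j) := by rw [hΓ]; ring
    rw [Finset.mul_sum, Finset.sum_congr rfl (fun i _ => h5 i), Finset.sum_comm, Finset.mul_sum]
    refine Finset.sum_congr rfl ?_
    intro j _
    rw [← Finset.mul_sum, Finset.sum_mul]
  have h6 : X * ∑ i, pl κ τ (δ * Polynomial.derivative (p i) - ∑ j, G j i * p j) * a i = 0 := by
    have h7 : ∀ i ∈ (Finset.univ : Finset ι),
        pl κ τ (δ * Polynomial.derivative (p i) - ∑ j, G j i * p j) * a i =
          pl κ τ δ * (pl κ τ (Polynomial.derivative (p i)) * a i) -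
            (∑ j, pl κ τ (G j i) * pl κ τ (p j)) * a i := by
      intro i _
      rw [map_sub, map_mul, map_sum]
      simp only [map_mul]
      ring
    rw [Finset.sum_congr rfl h7, Finset.sum_sub_distrib, mul_sub, ← h4, ← Finset.mul_sum]
    calc X * (pl κ τ δ * ∑ i, pl κ τ (Polynomial.derivative (p i)) * a i) -
          pl κ τ δ * ∑ i, pl κ τ (p i) * Γ.mulVec a i
        = pl κ τ δ * (X * ∑ i, pl κ τ (Polynomial.derivative (p i)) * a i -
            ∑ i, pl κ τ (p i) * Γ.mulVec a i) := by ring
      _ = 0 := by rw [h1, mul_zero]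
  rcases mul_eq_zero.1 h6 with h8 | h8
  · exact absurd h8 X_ne_zero
  · exact h8

private theorem locgb_DK_mul (κ : Type u) [Field κ] (x y : RatFunc κ) :
    DK κ (x * y) = x * DK κ y + y * DK κ x := by
  rw [Derivation.leibniz, smul_eq_mul, smul_eq_mul]

open PowerSeries in
theorem indep_a {κ F E : Type u} [Field κ] [CharZero κ] [Field F] [Algebra κ F] [Field E]
    [Algebra (RatFunc κ) E] (τ : F) (δ : Polynomial κ) (hδ0 : δ ≠ 0)
    (G : Matrix ι ι (Polynomial κ)) (Γ : Matrix ι ι F⟦X⟧)
    (hΓ : ∀ i j, pl κ τ δ * Γ i j = X * pl κ τ (G i j)) (α : F)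
    (a : ι → F⟦X⟧)
    (ha : ∀ i, X * derivative F (a i) = -(Γ.mulVec a i) + C α * a i)
    (ha0 : ∃ i, constantCoeff (a i) ≠ 0)
    (jE : F⟦X⟧ →+* E) (hinj : Function.Injective jE) (hjE : ∀ p : Polynomial κ, jE (pl κ τ p) =
      algebraMap (RatFunc κ) E (algebraMap (Polynomial κ) (RatFunc κ) p))
    (ΓK : Matrix ι ι (RatFunc κ))
    (hΓK : ∀ i j, algebraMap (Polynomial κ) (RatFunc κ) δ * ΓK i j =
      algebraMap (Polynomial κ) (RatFunc κ) (G i j))
    (hirr : ∀ W : Submodule (RatFunc κ) (ι → RatFunc κ),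
      (∀ w ∈ W, (fun i => DZ κ (w i) + ΓK.mulVec w i) ∈ W) → W = ⊥ ∨ W = ⊤) :
    LinearIndependent (RatFunc κ) fun i => jE (a i) := by
  classical
  -- the relations
  let W' : Submodule (RatFunc κ) (ι → RatFunc κ) :=
    { carrier := {z | ∑ i, algebraMap (RatFunc κ) E (z i) * jE (a i) = 0}
      add_mem' := by
        intro z z' hz hz'
        have hz1 : ∑ i, algebraMap (RatFunc κ) E (z i) * jE (a i) = 0 := hz
        have hz2 : ∑ i, algebraMap (RatFunc κ) E (z' i) * jE (a i) = 0 := hz'
        have h1 : ∑ i, algebraMap (RatFunc κ) E ((z + z') i) * jE (a i) = 0 := by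
          simp only [Pi.add_apply, map_add, add_mul, Finset.sum_add_distrib, hz1, hz2, add_zero]
        exact h1
      zero_mem' := by
        have h1 : ∑ i, algebraMap (RatFunc κ) E ((0 : ι → RatFunc κ) i) * jE (a i) = 0 := by
          simp only [Pi.zero_apply, map_zero, zero_mul, Finset.sum_const_zero]
        exact h1
      smul_mem' := by
        intro c z hz
        have hz1 : ∑ i, algebraMap (RatFunc κ) E (z i) * jE (a i) = 0 := hz
        have h1 : ∑ i, algebraMap (RatFunc κ) E ((c • z) i) * jE (a i) = 0 := by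
          simp only [Pi.smul_apply, smul_eq_mul, map_mul, mul_assoc]
          rw [← Finset.mul_sum, hz1, mul_zero]
        exact h1 }
  have memW : ∀ z, z ∈ W' ↔ ∑ i, algebraMap (RatFunc κ) E (z i) * jE (a i) = 0 := fun z => Iff.rfl
  let L : (ι → RatFunc κ) → (ι → RatFunc κ) := fun z i => DK κ (z i) - ∑ j, ΓK j i * z j
  have hLdef : ∀ z i, L z i = DK κ (z i) - ∑ j, ΓK j i * z j := fun z i => rfl
  have hδ : algebraMap (Polynomial κ) (RatFunc κ) δ ≠ 0 := by
    rw [Ne, map_eq_zero_iff _ (IsFractionRing.injective (Polynomial κ) (RatFunc κ))]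
    exact hδ0
  have hpoly : ∀ p : ι → Polynomial κ,
      (fun i => algebraMap (Polynomial κ) (RatFunc κ) (p i)) ∈ W' →
        L (fun i => algebraMap (Polynomial κ) (RatFunc κ) (p i)) ∈ W' := by
    intro p hp
    rw [memW] at hp
    have h1 : ∑ i, pl κ τ (p i) * a i = 0 := by
      apply hinj
      rw [map_sum, map_zero, ← hp]
      refine Finset.sum_congr rfl ?_
      intro i _
      rw [map_mul, hjE]
    have h2 := locgb_poly τ δ G Γ hΓ α a ha p h1
    have h3 : algebraMap (Polynomial κ) (RatFunc κ) δ •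
        L (fun i => algebraMap (Polynomial κ) (RatFunc κ) (p i)) ∈ W' := by
      rw [memW]
      have h4 := congrArg jE h2
      rw [map_sum, map_zero] at h4
      rw [← h4]
      refine Finset.sum_congr rfl ?_
      intro i _
      rw [map_mul, hjE]
      congr 2
      have hL1 : L (fun i => algebraMap (Polynomial κ) (RatFunc κ) (p i)) i =
          DK κ (algebraMap (Polynomial κ) (RatFunc κ) (p i)) -
            ∑ j, ΓK j i * algebraMap (Polynomial κ) (RatFunc κ) (p j) := rfl
      rw [Pi.smul_apply, smul_eq_mul, hL1, DK_poly, map_sub, map_mul, map_sum, mul_sub,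
        Finset.mul_sum]
      congr 1
      refine Finset.sum_congr rfl ?_
      intro j _
      rw [map_mul, ← mul_assoc, hΓK]
    exact (Submodule.smul_mem_iff W' hδ).1 h3
  have hL : ∀ z ∈ W', L z ∈ W' := by
    intro z hz
    obtain ⟨b, hb⟩ := IsLocalization.exist_integer_multiples_of_finite
      (nonZeroDivisors (Polynomial κ)) (S := RatFunc κ) z
    choose p hp using hb
    have hb0 : (b : Polynomial κ) ≠ 0 := nonZeroDivisors.ne_zero b.2
    have hq : algebraMap (Polynomial κ) (RatFunc κ) (b : Polynomial κ) ≠ 0 := by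
      rw [Ne, map_eq_zero_iff _ (IsFractionRing.injective (Polynomial κ) (RatFunc κ))]
      exact hb0
    have hp' : ∀ i, algebraMap (Polynomial κ) (RatFunc κ) (p i) =
        algebraMap (Polynomial κ) (RatFunc κ) (b : Polynomial κ) * z i := by
      intro i
      rw [hp i, Algebra.smul_def]
    have h1 : (fun i => algebraMap (Polynomial κ) (RatFunc κ) (p i)) =
        algebraMap (Polynomial κ) (RatFunc κ) (b : Polynomial κ) • z := by
      funext i
      rw [hp', Pi.smul_apply, smul_eq_mul]
    have h2 : (fun i => algebraMap (Polynomial κ) (RatFunc κ) (p i)) ∈ W' := by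
      rw [h1]
      exact W'.smul_mem _ hz
    have h3 := hpoly p h2
    have h4 : L (fun i => algebraMap (Polynomial κ) (RatFunc κ) (p i)) =
        DK κ (algebraMap (Polynomial κ) (RatFunc κ) (b : Polynomial κ)) • z +
          algebraMap (Polynomial κ) (RatFunc κ) (b : Polynomial κ) • L z := by
      funext i
      have hL1 : L (fun i => algebraMap (Polynomial κ) (RatFunc κ) (p i)) i =
          DK κ (algebraMap (Polynomial κ) (RatFunc κ) (p i)) -
            ∑ j, ΓK j i * algebraMap (Polynomial κ) (RatFunc κ) (p j) := rfl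
      rw [Pi.add_apply, Pi.smul_apply, Pi.smul_apply, smul_eq_mul, smul_eq_mul, hL1, hLdef,
        hp', locgb_DK_mul, mul_sub, Finset.mul_sum]
      have h5 : ∀ j ∈ (Finset.univ : Finset ι),
          ΓK j i * algebraMap (Polynomial κ) (RatFunc κ) (p j) =
            algebraMap (Polynomial κ) (RatFunc κ) (b : Polynomial κ) * (ΓK j i * z j) := by
        intro j _
        rw [hp']
        ring
      rw [Finset.sum_congr rfl h5]
      ring
    have h5 : algebraMap (Polynomial κ) (RatFunc κ) (b : Polynomial κ) • L z ∈ W' := by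
      have h6 : algebraMap (Polynomial κ) (RatFunc κ) (b : Polynomial κ) • L z =
          L (fun i => algebraMap (Polynomial κ) (RatFunc κ) (p i)) -
            DK κ (algebraMap (Polynomial κ) (RatFunc κ) (b : Polynomial κ)) • z := by
        rw [h4, add_sub_cancel_left]
      rw [h6]
      exact W'.sub_mem h3 (W'.smul_mem _ hz)
    exact (Submodule.smul_mem_iff W' hq).1 h5
  -- the annihilator
  let U : Submodule (RatFunc κ) (ι → RatFunc κ) :=
    { carrier := {w | ∀ z ∈ W', ∑ i, z i * w i = 0}
      add_mem' := by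
        intro w w' hw hw' z hz
        have h1 := hw z hz
        have h2 := hw' z hz
        simp only [Pi.add_apply, mul_add, Finset.sum_add_distrib]
        rw [h1, h2, add_zero]
      zero_mem' := by
        intro z _
        simp only [Pi.zero_apply, mul_zero, Finset.sum_const_zero]
      smul_mem' := by
        intro c w hw z hz
        have h1 := hw z hz
        have h2 : ∀ i ∈ (Finset.univ : Finset ι), z i * (c • w) i = c * (z i * w i) := by
          intro i _
          rw [Pi.smul_apply, smul_eq_mul]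
          ring
        rw [Finset.sum_congr rfl h2, ← Finset.mul_sum, h1, mul_zero] }
  have memU : ∀ w, w ∈ U ↔ ∀ z ∈ W', ∑ i, z i * w i = 0 := fun w => Iff.rfl
  have hU : ∀ w ∈ U, (fun i => DZ κ (w i) + ΓK.mulVec w i) ∈ U := by
    intro w hw
    rw [memU] at hw ⊢
    intro z hz
    have h1 := hw z hz
    have h2 := hw (L z) (hL z hz)
    have h3 : DK κ (∑ i, z i * w i) = 0 := by rw [h1, map_zero]
    rw [map_sum, Finset.sum_congr rfl (fun i _ => locgb_DK_mul κ (z i) (w i)),
      Finset.sum_add_distrib] at h3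
    have h4 : ∑ i, L z i * w i = ∑ i, w i * DK κ (z i) - ∑ i, z i * ΓK.mulVec w i := by
      have h5 : ∀ i ∈ (Finset.univ : Finset ι), L z i * w i =
          w i * DK κ (z i) - ∑ j, z j * (ΓK j i * w i) := by
        intro i _
        rw [hLdef, sub_mul, Finset.sum_mul]
        congr 1
        · ring
        · refine Finset.sum_congr rfl ?_
          intro j _
          ring
      rw [Finset.sum_congr rfl h5, Finset.sum_sub_distrib, Finset.sum_comm]
      congr 1
      refine Finset.sum_congr rfl ?_
      intro j _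
      rw [Matrix.mulVec, dotProduct, Finset.mul_sum]
    rw [h4] at h2
    have h6 : ∀ i ∈ (Finset.univ : Finset ι), z i * (DZ κ (w i) + ΓK.mulVec w i) =
        z i * DK κ (w i) + z i * ΓK.mulVec w i := by
      intro i _
      rw [DZ_apply, mul_add]
    change ∑ i, z i * (DZ κ (w i) + ΓK.mulVec w i) = 0
    rw [Finset.sum_congr rfl h6, Finset.sum_add_distrib]
    linear_combination h3 - h2
  rcases hirr U hU with hU0 | hU1
  · exfalso
    have hW : W' ≠ ⊤ := by
      intro htop
      obtain ⟨i, hi⟩ := ha0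
      have h1 : (Pi.single i 1 : ι → RatFunc κ) ∈ W' := by
        rw [htop]
        exact Submodule.mem_top
      rw [memW, Finset.sum_eq_single i] at h1
      · rw [Pi.single_eq_same, map_one, one_mul] at h1
        have h2 : a i = 0 := by
          apply hinj
          rw [h1, map_zero]
        rw [h2, map_zero] at hi
        exact hi rfl
      · intro j _ hji
        rw [Pi.single_eq_of_ne hji, map_zero, zero_mul]
      · intro h
        exact absurd (Finset.mem_univ i) h
    obtain ⟨f, hf0, hf⟩ := Submodule.exists_le_ker_of_lt_top W' (lt_top_iff_ne_top.2 hW)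
    have h1 : (fun i => f (Pi.single i 1)) ∈ U := by
      rw [memU]
      intro z hz
      have h2 := hf hz
      rw [LinearMap.mem_ker, LinearMap.pi_apply_eq_sum_univ f z] at h2
      rw [← h2]
      refine Finset.sum_congr rfl ?_
      intro i _
      rw [smul_eq_mul]
      congr 2
      funext j
      rw [Pi.single_apply]
      by_cases hij : i = j
      · rw [if_pos hij, if_pos hij.symm]
      · rw [if_neg hij, if_neg (fun h => hij h.symm)]
    rw [hU0, Submodule.mem_bot] at h1
    apply hf0
    refine LinearMap.pi_ext' ?_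
    intro i
    refine LinearMap.ext_ring ?_
    have h2 := congrFun h1 i
    simpa using h2
  · rw [Fintype.linearIndependent_iff]
    intro z hz i
    have h1 : z ∈ W' := by
      rw [memW, ← hz]
      refine Finset.sum_congr rfl ?_
      intro j _
      rw [Algebra.smul_def]
    have h2 : (Pi.single i 1 : ι → RatFunc κ) ∈ U := by
      rw [hU1]
      exact Submodule.mem_top
    have h3 := (memU _).1 h2 z h1
    rw [Finset.sum_eq_single i] at h3
    · rwa [Pi.single_eq_same, mul_one] at h3
    · intro j _ hji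
      rw [Pi.single_eq_of_ne hji, mul_zero]
    · intro h
      exact absurd (Finset.mem_univ i) h

end MPadcHP
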