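import Pool.Agent.Lib.MP_adc574_ag_HP.TheoremC
import Pool.Agent.Lib.MP_adc574_ag_HP.PCoreA
import Pool.Agent.Lib.MP_adc574_ag_HP.UltAlg

/-!
# From Theorem C to reductions modulo `p` (ultraproduct)

`core`: everything is defined over a finitely generated domain `R` of characteristic 0. For every
`h ≠ 0` in `R[t]` and every `p₀` there are a prime `p > p₀`, a field `E` of characteristic `p` and
`ψ : R → E` with `h ^ ψ ≠ 0` such that the Hasse-Witt determinant of `Φ ^ ψ - t x_0 ^ d` over `E(t)` is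
not zero.
-/

set_option autoImplicit false

namespace MPadcHP

open MvPolynomial MPadcGM

universe u

section

variable (U : Ultrafilter ℕ) {R : Type u} [CommRing R] {n : ℕ} (w : Fin n → ℕ) (d : ℕ)
  (Φ : MvPolynomial (Fin (n + 1)) R) (M : ℕ) (δ : Polynomial R) (ξ : Fin n → Polynomial R)
  (p : ℕ → ℕ) (E : ℕ → Type u) [hE : ∀ i, Field (E i)] (ψ : ∀ i, R →+* E i)

/-- The pencil over the ultraproduct. -/
noncomputable def pdat : Dat (Ult U E) n :=
  ⟨w, d, (aff Φ).map (uphi U E ψ), M, δ.map (uphi U E ψ), fun j => (ξ j).map (uphi U E ψ)⟩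

theorem pdat_ok (hw : ∀ i, 0 < w i) (hd : 0 < d)
    (hΦ : Φ.IsWeightedHomogeneous (Fin.cons 1 w : Fin (n + 1) → ℕ) d)
    (hjac : ∀ e : Fin n →₀ ℕ, M ≤ wt w e → monomial e (1 : R) ∈ Jac (bdr Φ))
    (hξ : ∀ j, X j - Polynomial.aeval (aff Φ) (ξ j) ∈ Jac (aff Φ))
    (hδ : Polynomial.aeval (aff Φ) δ ∈ Jac (aff Φ))
    (hirr : ∀ i, Irreducible (δ.map (ψ i))) : (pdat U w d Φ M δ ξ E ψ).Ok where
  w_pos := hw
  d_pos := hd
  deg := by
    change DegLe w d ((aff Φ).map (uphi U E ψ))
    rw [← aff_map]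
    exact degLe_aff w d _ (isWeightedHomogeneous_map _ hΦ)
  jac := by
    intro e he
    change monomial e (1 : Ult U E) ∈ Jac (part w d ((aff Φ).map (uphi U E ψ)))
    rw [← aff_map, part_aff w d _ (isWeightedHomogeneous_map _ hΦ), bdr_map]
    have h1 := mem_Jac_map (uphi U E ψ) (hjac e he)
    rw [map_monomial, map_one] at h1
    exact h1
  irr := irreducible_ult U E ψ δ (Filter.Eventually.of_forall hirr)
  ann := by
    change Polynomial.aeval ((aff Φ).map (uphi U E ψ)) (δ.map (uphi U E ψ)) ∈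
      Jac ((aff Φ).map (uphi U E ψ))
    rw [aeval_map_map]
    exact mem_Jac_map _ hδ
  gen := by
    intro j
    change X j - Polynomial.aeval ((aff Φ).map (uphi U E ψ)) ((ξ j).map (uphi U E ψ)) ∈
      Jac ((aff Φ).map (uphi U E ψ))
    rw [aeval_map_map]
    have h1 := mem_Jac_map (uphi U E ψ) (hξ j)
    rw [map_sub, map_X] at h1
    exact h1

end

/-- A derivation of a field from an additive map. -/
def mkz {L : Type u} [Field L] (D : L →+ L) (h : ∀ a b, D (a * b) = a * D b + b * D a) :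
    Derivation ℤ L L :=
  Derivation.mk' D.toIntLinearMap h

theorem mkz_apply {L : Type u} [Field L] (D : L →+ L)
    (h : ∀ a b, D (a * b) = a * D b + b * D a) (x : L) : mkz D h x = D x := rfl

theorem DK_mul (κ : Type u) [Field κ] (a b : RatFunc κ) :
    (DK κ).toLinearMap.toAddMonoidHom (a * b) = a * (DK κ).toLinearMap.toAddMonoidHom b +
      b * (DK κ).toLinearMap.toAddMonoidHom a :=
  (DK κ).leibniz a b

theorem sign_aux {L : Type u} [Field L] {n : ℕ} (c : MvPolynomial (Fin n) L →ₗ[L] L) (k : ℕ)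
    (e : Fin n →₀ ℕ) : -((k : L) + 1) * c (monomial e 1 * -1) = ((k : L) + 1) * c (monomial e 1) := by
  rw [mul_neg, mul_one, map_neg, neg_mul_neg]

theorem uper_aff {R : Type u} [CommRing R] {n : ℕ} (w : Fin n → ℕ)
    (d : ℕ) (Φ : MvPolynomial (Fin (n + 1)) R)
    (hΦ : Φ.IsWeightedHomogeneous (Fin.cons 1 w : Fin (n + 1) → ℕ) d) (U : Ultrafilter ℕ)
    (p : ℕ → ℕ) (E : ℕ → Type u) [∀ i, Field (E i)] (ψ : ∀ i, R →+* E i)
    (hlarge : ∀ m : ℕ, ∀ᶠ i in (U : Filter ℕ), m < p i) (v : Fin (n + 1) →₀ ℕ)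
    (hv : ∑ i, (Fin.cons 1 w : Fin (n + 1) → ℕ) i * (v i + 1) = d) (k : ℕ)
    (e : Fin (n + 1) →₀ ℕ)
    (he : ∑ i, (Fin.cons 1 w : Fin (n + 1) → ℕ) i * (e i + 1) = (k + 1) * d) :
    uper U (fun i => RatFunc (E i)) (peq d Φ) p (fun i => pred (ψ i)) v k (monomial e 1) =
      uper U (fun i => RatFunc (E i)) (paeq Φ) p (fun i => pred (ψ i)) v.tail k
        (monomial e.tail 1) := by
  rw [uper_monomial, uper_monomial, ultMk_eq]
  filter_upwards [hlarge k] with i hi
  rw [← aff_peq d Φ, ← aff_map]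
  exact cart_aff (p i) (by omega) w d _ (isWeightedHomogeneous_map _ (peq_homog w d Φ hΦ)) v hv k
    (by omega) e he

theorem core {R : Type u} [CommRing R] [IsDomain R] [CharZero R] [Algebra.FiniteType ℤ R]
    {n : ℕ} (hn : 2 ≤ n) (w : Fin n → ℕ) (hw : ∀ i, 0 < w i) (d : ℕ) (hd : 0 < d)
    (Φ : MvPolynomial (Fin (n + 1)) R)
    (hΦ : Φ.IsWeightedHomogeneous (Fin.cons 1 w : Fin (n + 1) → ℕ) d) (M : ℕ)
    (hjac : ∀ e : Fin n →₀ ℕ, M ≤ wt w e → monomial e (1 : R) ∈ Jac (bdr Φ))
    (ξ : Fin n → Polynomial R) (hξ : ∀ j, X j - Polynomial.aeval (aff Φ) (ξ j) ∈ Jac (aff Φ))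
    (δ : Polynomial R) (hδ : Polynomial.aeval (aff Φ) δ ∈ Jac (aff Φ))
    (hI : ∀ r : R, r ≠ 0 → ∀ p₀ : ℕ, ∃ p : ℕ, p.Prime ∧ p₀ < p ∧
      ∃ (E : Type u) (_ : Field E) (_ : CharP E p) (ψ : R →+* E), ψ r ≠ 0 ∧
        Irreducible (δ.map ψ))
    (h : Polynomial R) (hh : h ≠ 0) (p₀ : ℕ) :
    ∃ p : ℕ, p.Prime ∧ p₀ < p ∧ ∃ (E : Type u) (_ : Field E) (_ : CharP E p) (ψ : R →+* E),
      h.map ψ ≠ 0 ∧
      (hasseWitt p (Fin.cons 1 w : Fin (n + 1) → ℕ) d
        ((Φ.map ψ).map (algebraMap E (RatFunc E)) - C RatFunc.X * X 0 ^ d)).det ≠ 0 := by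
  classical
  by_contra hcon
  push Not at hcon
  obtain ⟨p, E, hE, hchar, ψ, hp, hψ⟩ := exists_seq δ hI p₀
  let U : Ultrafilter ℕ := Filter.hyperfilter ℕ
  have hge : ∀ m : ℕ, ∀ᶠ i in (U : Filter ℕ), m ≤ i := by
    intro m
    apply Filter.hyperfilter_le_cofinite
    rw [Filter.mem_cofinite]
    refine (Set.finite_lt_nat m).subset ?_
    intro i hi
    simp only [Set.mem_compl_iff, Set.mem_ofPred_eq, not_le] at hi
    exact hi
  have hlarge : ∀ m : ℕ, ∀ᶠ i in (U : Filter ℕ), m < p i := by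
    intro m
    filter_upwards [hge m] with i hi
    exact lt_of_le_of_lt hi (hp i).2.2.1
  have hne : ∀ x : R, x ≠ 0 → ∀ᶠ i in (U : Filter ℕ), ψ i x ≠ 0 := by
    intro x hx
    obtain ⟨m, hm⟩ := hψ x hx
    filter_upwards [hge m] with i hi
    exact hm i hi
  have hρ : Function.Injective (uphi U E ψ) := by
    rw [injective_iff_map_eq_zero]
    intro x hx
    by_contra hx0
    rw [uphi_apply, ultMk_eq_zero] at hx
    obtain ⟨i, hi1, hi2⟩ := (hx.and (hne x hx0)).exists
    exact hi2 hi1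
  have hcz : CharZero (Ult U E) := charZero_of_injective_ringHom hρ
  have hφne : ∀ a : Polynomial R, a ≠ 0 → ∀ᶠ i in (U : Filter ℕ), pred (ψ i) a ≠ 0 := by
    intro a ha
    obtain ⟨l, hl⟩ : ∃ l, a.coeff l ≠ 0 := by
      by_contra hc
      push Not at hc
      exact ha (Polynomial.ext fun l => by rw [hc, Polynomial.coeff_zero])
    filter_upwards [hne _ hl] with i hi
    exact pred_ne_zero (ψ i) hi
  obtain ⟨j, hjC, hjX, hjcl⟩ := exists_ultRat U E
  let _ : Algebra (RatFunc (Ult U E)) (Ult U fun i => RatFunc (E i)) := j.toAlgebra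
  have hjalg : ∀ x, algebraMap (RatFunc (Ult U E)) (Ult U fun i => RatFunc (E i)) x = j x :=
    fun x => rfl
  -- the derivation
  obtain ⟨DL, hDL⟩ := exists_ultD U (fun i => RatFunc (E i))
    (fun i => mkz (DK (E i)).toLinearMap.toAddMonoidHom (DK_mul (E i)))
  have hD : ∀ x, DL (algebraMap (RatFunc (Ult U E)) (Ult U fun i => RatFunc (E i)) x) =
      algebraMap (RatFunc (Ult U E)) (Ult U fun i => RatFunc (E i)) (DK (Ult U E) x) := by
    intro x
    rw [hjalg, hjalg]
    refine DK_unique (Ult U E) j DL ?_ ?_ x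
    · intro a
      obtain ⟨y, rfl⟩ := ultMk_surjective U E a
      rw [hjC]
      refine (hDL _).trans ?_
      rw [ultMk_eq_zero]
      exact Filter.Eventually.of_forall fun i => DK_C (E i) (y i)
    · rw [hjX]
      refine (hDL _).trans ?_
      have h1 : (fun i => mkz (DK (E i)).toLinearMap.toAddMonoidHom (DK_mul (E i)) RatFunc.X) =
          1 := by
        funext i
        exact DK_X (E i)
      rw [h1, map_one]
  -- the Jacobian ideal
  have hδ0 : δ ≠ 0 := by
    intro h0
    apply (hp 0).2.2.2.ne_zero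
    rw [h0, Polynomial.map_zero]
  obtain ⟨a, M', ha, hJ⟩ := peq_jac w hw d hd Φ hΦ M hjac δ hδ0 hδ
  have hW : ∀ i, 0 < (Fin.cons 1 w : Fin (n + 1) → ℕ) i := by
    intro i
    refine Fin.cases ?_ (fun j => ?_) i
    · exact Nat.one_pos
    · exact hw j
  -- the periods
  have heqn : (paeq Φ).map (uphi U (fun i => RatFunc (E i)) fun i => pred (ψ i)) =
      (pdat U w d Φ M δ ξ E ψ).eqn (Ult U fun i => RatFunc (E i)) := by
    change _ = (((aff Φ).map (uphi U E ψ)).map (algebraMap (Ult U E) (RatFunc (Ult U E)))).map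
      (algebraMap (RatFunc (Ult U E)) (Ult U fun i => RatFunc (E i))) -
      C (algebraMap (RatFunc (Ult U E)) (Ult U fun i => RatFunc (E i)) RatFunc.X)
    rw [paeq, map_sub, map_C, map_map, map_map, map_map]
    have h1 : (uphi U (fun i => RatFunc (E i)) fun i => pred (ψ i)).comp Polynomial.C =
        (algebraMap (RatFunc (Ult U E)) (Ult U fun i => RatFunc (E i))).comp
          ((algebraMap (Ult U E) (RatFunc (Ult U E))).comp (uphi U E ψ)) := by
      apply RingHom.ext
      intro r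
      rw [RingHom.comp_apply, RingHom.comp_apply, RingHom.comp_apply, hjalg, uphi_apply, uphi_apply,
        hjC]
      apply congrArg
      funext i
      exact pred_C (ψ i) r
    have h2 : uphi U (fun i => RatFunc (E i)) (fun i => pred (ψ i)) Polynomial.X =
        algebraMap (RatFunc (Ult U E)) (Ult U fun i => RatFunc (E i)) RatFunc.X := by
      rw [hjalg, hjX, uphi_apply]
      apply congrArg
      funext i
      exact pred_X (ψ i)
    rw [h1, h2, RingHom.comp_assoc]
  have hcharR : ∀ i, CharP (RatFunc (E i)) (p i) := fun i => by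
    have := hchar i
    exact charP_of_injective_algebraMap (algebraMap (E i) (RatFunc (E i))).injective (p i)
  let D : Derivation ℤ (Polynomial R) (Polynomial R) :=
    (Polynomial.derivative' (R := R)).restrictScalars ℤ
  have hDφ : ∀ i (x : Polynomial R), mkz (DK (E i)).toLinearMap.toAddMonoidHom (DK_mul (E i))
      (pred (ψ i) x) = pred (ψ i) (D x) := by
    intro i x
    change DK (E i) (algebraMap (Polynomial (E i)) (RatFunc (E i)) (x.map (ψ i))) =
      algebraMap (Polynomial (E i)) (RatFunc (E i)) ((Polynomial.derivative x).map (ψ i))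
    rw [DK_poly, Polynomial.derivative_map]
  have hDf : coeffD D (paeq Φ) = -1 := by
    ext e : 1
    have h1 : coeff e (coeffD D (paeq Φ)) = D (coeff e (paeq Φ)) := by
      rw [coeffD, coeff_sum]
      simp only [coeff_monomial]
      rw [Finset.sum_ite_eq']
      split_ifs with h
      · rfl
      · rw [notMem_support_iff.1 h, map_zero]
    rw [h1, paeq, coeff_sub, coeff_map, coeff_C, coeff_neg, coeff_one, map_sub]
    have h2 : D (Polynomial.C (coeff e (aff Φ))) = 0 := Polynomial.derivative_C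
    rw [h2, zero_sub]
    split_ifs
    · rw [neg_inj]
      exact Polynomial.derivative_X
    · rw [map_zero]
  have hind := fun hlam => uper_indep_at U (fun i => RatFunc (E i)) (peq d Φ) p
    (fun i => pred (ψ i)) (Fin.cons 1 w : Fin (n + 1) → ℕ) d
    (M' + ∑ i, (Fin.cons 1 w : Fin (n + 1) → ℕ) i) hlam
  have hdet := theoremC hn (pdat U w d Φ M δ ξ E ψ)
    (pdat_ok U w d Φ M δ ξ E ψ hw hd hΦ hjac hξ hδ fun i => (hp i).2.2.2) DL hD ?_
    (V := expo (Fin.cons 1 w : Fin (n + 1) → ℕ) d)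
    (fun v => uper U (fun i => RatFunc (E i)) (paeq Φ) p (fun i => pred (ψ i)) v.1.tail) ?_ ?_
    (fun v => v.1.tail) ?_ ?_
  · -- the determinant
    apply hdet
    have h1 : (Matrix.of fun a b : expo (Fin.cons 1 w : Fin (n + 1) → ℕ) d =>
        uper U (fun i => RatFunc (E i)) (paeq Φ) p (fun i => pred (ψ i)) b.1.tail 0
          (monomial a.1.tail 1)) =
        (ultMk U fun i => RatFunc (E i)).mapMatrix
          (Matrix.of fun (a b : expo (Fin.cons 1 w : Fin (n + 1) → ℕ) d) (i : ℕ) =>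
          hasseWitt (p i) (Fin.cons 1 w : Fin (n + 1) → ℕ) d ((peq d Φ).map (pred (ψ i))) a b) := by
      ext a b
      rw [Matrix.of_apply, ← uper_aff w d Φ hΦ U p E ψ hlarge b.1 ((mem_expo hW).1 b.2) 0 a.1
        (by rw [(mem_expo hW).1 a.2]; ring), uper_monomial]
      simp only [RingHom.mapMatrix_apply, Matrix.map_apply, Matrix.of_apply]
      rfl
    rw [h1, ← RingHom.map_det, ultMk_eq_zero]
    obtain ⟨l, hl⟩ : ∃ l, h.coeff l ≠ 0 := by
      by_contra hc
      push Not at hc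
      exact hh (Polynomial.ext fun l => by rw [hc, Polynomial.coeff_zero])
    filter_upwards [hne _ hl] with i hi
    have h3 := (Pi.evalRingHom (fun i => RatFunc (E i)) i).map_det
      (Matrix.of fun (a b : expo (Fin.cons 1 w : Fin (n + 1) → ℕ) d) (i : ℕ) =>
          hasseWitt (p i) (Fin.cons 1 w : Fin (n + 1) → ℕ) d ((peq d Φ).map (pred (ψ i))) a b)
    rw [Pi.evalRingHom_apply] at h3
    rw [h3]
    have h4 : (Pi.evalRingHom (fun i => RatFunc (E i)) i).mapMatrix
        (Matrix.of fun (a b : expo (Fin.cons 1 w : Fin (n + 1) → ℕ) d) (i : ℕ) =>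
          hasseWitt (p i) (Fin.cons 1 w : Fin (n + 1) → ℕ) d ((peq d Φ).map (pred (ψ i))) a b) =
        hasseWitt (p i) (Fin.cons 1 w : Fin (n + 1) → ℕ) d ((peq d Φ).map (pred (ψ i))) := by
      ext a b
      rfl
    rw [h4, peq_map]
    refine hcon (p i) (hp i).1 (hp i).2.1 (E i) (hE i) (hchar i) (ψ i) ?_
    intro h0
    apply hi
    rw [← Polynomial.coeff_map, h0, Polynomial.coeff_zero]
  · -- algebraically closed
    intro x hx
    obtain ⟨P, hP, hPx⟩ := hx
    rw [Polynomial.aeval_def] at hPx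
    exact hjcl x P hP hPx
  · -- periods
    intro v
    refine ⟨?_, ?_, ?_⟩
    · intro k P
      rw [← heqn]
      exact uper_mul U (fun i => RatFunc (E i)) (paeq Φ) p (fun i => pred (ψ i)) hlarge _ k P
    · intro k i Q
      rw [← heqn]
      exact uper_exact U (fun i => RatFunc (E i)) (paeq Φ) p (fun i => pred (ψ i))
        (fun i => (hp i).1) hcharR hlarge _ k i Q
    · intro k e
      have h1 := uper_deriv U (fun i => RatFunc (E i)) (paeq Φ) p (fun i => pred (ψ i))
        (fun i => (hp i).1) hcharR hlarge D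
        (fun i => mkz (DK (E i)).toLinearMap.toAddMonoidHom (DK_mul (E i))) hDφ DL hDL
        v.1.tail k e
      have h3 : (-1 : MvPolynomial (Fin n) (Polynomial R)).map
          (uphi U (fun i => RatFunc (E i)) fun i => pred (ψ i)) = -1 := by
        rw [map_neg, map_one]
      rw [hDf, h3] at h1
      exact h1.trans (sign_aux _ k e)
  · -- independence
    intro lam hlam
    have hk₀ : M' + ∑ i, (Fin.cons 1 w : Fin (n + 1) → ℕ) i ≤
        ((M' + ∑ i, (Fin.cons 1 w : Fin (n + 1) → ℕ) i) + 2) * d :=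
      le_trans (by omega) (Nat.le_mul_of_pos_right _ hd)
    refine hind ?_ lam ?_
    · filter_upwards [hlarge (M' + ∑ i, (Fin.cons 1 w : Fin (n + 1) → ℕ) i + 1), hφne a ha] with
        i hi1 hi2 lam hlam
      have := hcharR i
      have : Fact (p i).Prime := ⟨(hp i).1⟩
      exact cart_indep (p i) (Fin.cons 1 w : Fin (n + 1) → ℕ) hW d ((peq d Φ).map (pred (ψ i)))
        (isWeightedHomogeneous_map _ (peq_homog w d Φ hΦ)) M'
        (M' + ∑ i, (Fin.cons 1 w : Fin (n + 1) → ℕ) i) hk₀ (by omega)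
        (hJ (pred (ψ i)) hi2) lam hlam
    · intro e he
      have he' := (mem_expo hW).1 he
      have h1 := hlam (M' + ∑ i, (Fin.cons 1 w : Fin (n + 1) → ℕ) i) e.tail ?_
      · rw [← h1]
        refine Finset.sum_congr rfl fun v _ => ?_
        rw [uper_aff w d Φ hΦ U p E ψ hlarge v.1 ((mem_expo hW).1 v.2) _ e he']
      · rw [sum_cons_eq] at he'
        change wtp w e.tail < d * _
        rw [mul_comm d]
        omega
  · -- injectivity
    intro v v' hvv
    apply Subtype.ext
    have h1 := (mem_expo hW).1 v.2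
    have h2 := (mem_expo hW).1 v'.2
    rw [sum_cons_eq] at h1 h2
    change v.1.tail = v'.1.tail at hvv
    rw [hvv] at h1
    have h3 : v.1 0 = v'.1 0 := by omega
    rw [← Finsupp.cons_tail v.1, ← Finsupp.cons_tail v'.1, hvv, h3]
  · intro v
    have h1 := (mem_expo hW).1 v.2
    rw [sum_cons_eq] at h1
    change wtp w v.1.tail < d
    omega

end MPadcHP
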