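import Mathlib

/-! # The derivation `d / dt` of `κ(t)` -/

set_option autoImplicit false

namespace MPadcHP

universe u

theorem exists_DK (κ : Type u) [Field κ] :
    ∃ D : Derivation κ (RatFunc κ) (RatFunc κ), D RatFunc.X = 1 := by
  have het : Algebra.FormallyEtale (Polynomial κ) (RatFunc κ) :=
    Algebra.FormallyEtale.of_isLocalization (Rₘ := RatFunc κ) (nonZeroDivisors (Polynomial κ))
  have hbc : IsBaseChange (RatFunc κ) (KaehlerDifferential.map κ κ (Polynomial κ) (RatFunc κ)) :=
    KaehlerDifferential.isBaseChange_of_formallyEtale κ (Polynomial κ) (RatFunc κ)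
  let d : Derivation κ (Polynomial κ) (RatFunc κ) :=
    (Algebra.linearMap (Polynomial κ) (RatFunc κ)).compDer (Polynomial.derivative' (R := κ))
  refine ⟨(hbc.lift d.liftKaehlerDifferential).compDer (KaehlerDifferential.D κ (RatFunc κ)), ?_⟩
  have h1 : KaehlerDifferential.D κ (RatFunc κ) (algebraMap (Polynomial κ) (RatFunc κ) Polynomial.X)
      = KaehlerDifferential.map κ κ (Polynomial κ) (RatFunc κ)
        (KaehlerDifferential.D κ (Polynomial κ) Polynomial.X) := by
    rw [KaehlerDifferential.map_D]
  rw [← RatFunc.algebraMap_X]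
  change hbc.lift d.liftKaehlerDifferential
    (KaehlerDifferential.D κ (RatFunc κ) (algebraMap (Polynomial κ) (RatFunc κ) Polynomial.X)) = 1
  rw [h1, hbc.lift_eq, Derivation.liftKaehlerDifferential_comp_D]
  change algebraMap (Polynomial κ) (RatFunc κ) (Polynomial.derivative Polynomial.X) = 1
  rw [Polynomial.derivative_X, map_one]

/-- The derivation `d / dt` of `κ(t)`. -/
noncomputable def DK (κ : Type u) [Field κ] : Derivation κ (RatFunc κ) (RatFunc κ) :=
  Classical.choose (exists_DK κ)

theorem DK_X (κ : Type u) [Field κ] : DK κ RatFunc.X = 1 := Classical.choose_spec (exists_DK κ)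

theorem DK_C (κ : Type u) [Field κ] (a : κ) : DK κ (algebraMap κ (RatFunc κ) a) = 0 :=
  (DK κ).map_algebraMap a

theorem DK_poly (κ : Type u) [Field κ] (p : Polynomial κ) :
    DK κ (algebraMap (Polynomial κ) (RatFunc κ) p) =
      algebraMap (Polynomial κ) (RatFunc κ) (Polynomial.derivative p) := by
  induction p using Polynomial.induction_on' with
  | add p q hp hq => simp [hp, hq]
  | monomial n a =>
    rw [← Polynomial.C_mul_X_pow_eq_monomial]
    simp only [map_mul, map_pow, Derivation.leibniz, Derivation.leibniz_pow, RatFunc.algebraMap_X,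
      DK_X, Polynomial.derivative_C_mul, Polynomial.derivative_X_pow, RatFunc.algebraMap_C,
      smul_eq_mul, nsmul_eq_mul, map_natCast]
    have h : DK κ (RatFunc.C a) = 0 := by
      have := DK_C κ a
      rwa [RatFunc.algebraMap_eq_C] at this
    rw [h]
    ring

private theorem DK_quot {E : Type*} [Field E] (D' : E → E)
    (hl : ∀ a b, D' (a * b) = a * D' b + b * D' a) (a b : E) (hb : b ≠ 0) :
    D' (a / b) = (D' a * b - a * D' b) / b ^ 2 := by
  have h1 : D' a = D' (a / b * b) := by rw [div_mul_cancel₀ _ hb]
  rw [hl] at h1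
  rw [h1]
  field_simp
  ring

/-- A derivation of `κ(t)` into an extension field is determined by its values on constants and
on `t`. -/
theorem DK_unique (κ : Type u) [Field κ] {L : Type*} [Field L] (j : RatFunc κ →+* L)
    (D : Derivation ℤ L L) (hC : ∀ a : κ, D (j (algebraMap κ (RatFunc κ) a)) = 0)
    (hX : D (j RatFunc.X) = 1) (x : RatFunc κ) : D (j x) = j (DK κ x) := by
  have hp : ∀ p : Polynomial κ, D (j (algebraMap (Polynomial κ) (RatFunc κ) p)) =
      j (algebraMap (Polynomial κ) (RatFunc κ) (Polynomial.derivative p)) := by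
    intro p
    induction p using Polynomial.induction_on' with
    | add p q hp hq => simp [hp, hq]
    | monomial n a =>
      rw [← Polynomial.C_mul_X_pow_eq_monomial]
      have h : D (j (RatFunc.C a)) = 0 := by
        have := hC a
        rwa [RatFunc.algebraMap_eq_C] at this
      simp only [map_mul, map_pow, Derivation.leibniz, Derivation.leibniz_pow, RatFunc.algebraMap_X,
        hX, Polynomial.derivative_C_mul, Polynomial.derivative_X_pow, RatFunc.algebraMap_C,
        smul_eq_mul, nsmul_eq_mul, map_natCast, h]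
      ring
  obtain ⟨p, q, hq, rfl⟩ := IsFractionRing.div_surjective (A := Polynomial κ) x
  have hq0 : algebraMap (Polynomial κ) (RatFunc κ) q ≠ 0 := by
    have := nonZeroDivisors.ne_zero hq
    simpa using this
  have hjq : j (algebraMap (Polynomial κ) (RatFunc κ) q) ≠ 0 := by simpa using hq0
  have e2 : DK κ (algebraMap (Polynomial κ) (RatFunc κ) p / algebraMap (Polynomial κ) (RatFunc κ) q)
      = (DK κ (algebraMap (Polynomial κ) (RatFunc κ) p) * algebraMap (Polynomial κ) (RatFunc κ) q -
        algebraMap (Polynomial κ) (RatFunc κ) p * DK κ (algebraMap (Polynomial κ) (RatFunc κ) q)) /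
        (algebraMap (Polynomial κ) (RatFunc κ) q) ^ 2 :=
    DK_quot (DK κ) (fun a b => by rw [Derivation.leibniz, smul_eq_mul, smul_eq_mul]) _ _ hq0
  rw [e2, map_div₀, DK_quot D (fun a b => by rw [Derivation.leibniz, smul_eq_mul, smul_eq_mul])
    _ _ hjq, hp, hp, DK_poly, DK_poly]
  simp only [map_div₀, map_sub, map_mul, map_pow]

end MPadcHP
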