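import Mathlib
import Pool.Agent.Lib.MP_adc574_ag_GM.Defs
import Pool.Agent.Lib.MP_adc574_ag_LP.EvAct
import Pool.Agent.Lib.MP_adc574_ag_HP.DK

/-!
# Hypersurface pencils `φ = t`: definitions

`φ` is a polynomial in `x_1, …, x_n` (weights `w i > 0`) of weighted degree `≤ d`. All pole orders:
`[P]_k` is the class of `P dx / (φ - t) ^ (k + 1)`.
-/

set_option autoImplicit false

namespace MPadcHP

open MvPolynomial

universe u

section Weights

variable {n : ℕ}

/-- The weighted degree of an exponent. -/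
def wt (w : Fin n → ℕ) (e : Fin n →₀ ℕ) : ℕ := ∑ i, w i * e i

/-- The weighted degree of an exponent plus the sum of the weights. -/
def wtp (w : Fin n → ℕ) (e : Fin n →₀ ℕ) : ℕ := ∑ i, w i * (e i + 1)

variable {R : Type*} [CommRing R]

/-- All monomials of `P` have weighted degree `≤ N`. -/
def DegLe (w : Fin n → ℕ) (N : ℕ) (P : MvPolynomial (Fin n) R) : Prop :=
  ∀ e ∈ P.support, wt w e ≤ N

/-- All monomials of `P` have weighted degree `N`. -/
def Hom (w : Fin n → ℕ) (N : ℕ) (P : MvPolynomial (Fin n) R) : Prop :=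
  ∀ e ∈ P.support, wt w e = N

/-- The homogeneous part of degree `N`. -/
noncomputable def part (w : Fin n → ℕ) (N : ℕ) :
    MvPolynomial (Fin n) R →ₗ[R] MvPolynomial (Fin n) R :=
  weightedHomogeneousComponent w N

/-- The divergence of a polynomial vector field. -/
noncomputable def dvg (B : Fin n → MvPolynomial (Fin n) R) : MvPolynomial (Fin n) R :=
  ∑ i, pderiv i (B i)

/-- The Jacobian ideal (of the affine polynomial). -/
noncomputable def Jac (φ : MvPolynomial (Fin n) R) : Ideal (MvPolynomial (Fin n) R) :=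
  Ideal.span (Set.range fun j => pderiv j φ)

/-- Antisymmetric matrices of polynomials. -/
def Asym (A : Fin n → Fin n → MvPolynomial (Fin n) R) : Prop :=
  (∀ i, A i i = 0) ∧ ∀ i j, A i j = - A j i

/-- `∑ j, (∑ i, ∂_i A_ij) h_j`. -/
noncomputable def zz (A : Fin n → Fin n → MvPolynomial (Fin n) R)
    (h : Fin n → MvPolynomial (Fin n) R) : MvPolynomial (Fin n) R :=
  ∑ j, (∑ i, pderiv i (A i j)) * h j

/-- The coefficientwise derivation of a polynomial. -/
noncomputable def cder (D : Derivation ℤ R R) (P : MvPolynomial (Fin n) R) :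
    MvPolynomial (Fin n) R :=
  ∑ e ∈ P.support, monomial e (D (coeff e P))

end Weights

/-- The data of a pencil `φ = t`. -/
structure Dat (κ : Type u) [Field κ] (n : ℕ) where
  w : Fin n → ℕ
  d : ℕ
  φ : MvPolynomial (Fin n) κ
  M : ℕ
  δ : Polynomial κ
  ξ : Fin n → Polynomial κ

variable {κ : Type u} [Field κ] {n : ℕ}

/-- The conditions: `φ` has degree `≤ d`, its part of degree `d` is quasi-smooth (all monomials of
degree `≥ M` are in its Jacobian ideal), and `κ[x] / (∂φ)` is generated by `φ`, which is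
annihilated by the irreducible polynomial `δ`. -/
structure Dat.Ok (S : Dat κ n) : Prop where
  w_pos : ∀ i, 0 < S.w i
  d_pos : 0 < S.d
  deg : DegLe S.w S.d S.φ
  jac : ∀ e : Fin n →₀ ℕ, S.M ≤ wt S.w e → monomial e (1 : κ) ∈ Jac (part S.w S.d S.φ)
  irr : Irreducible S.δ
  ann : Polynomial.aeval S.φ S.δ ∈ Jac S.φ
  gen : ∀ j, X j - Polynomial.aeval S.φ (S.ξ j) ∈ Jac S.φ

/-- `ψ = d φ - ∑ w_i x_i ∂_i φ`; all its monomials have degree `< d`. -/
noncomputable def Dat.psi (S : Dat κ n) : MvPolynomial (Fin n) κ :=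
  (S.d : κ) • S.φ - ∑ i, ((S.w i : ℕ) : κ) • (X i * pderiv i S.φ)

/-- The Gauss-Manin module of the pencil over `K = κ(t)`, `t = RatFunc.X`: `br P` is the class of
`P dx / (φ - t)`, `nab` is the connection `d / dt`. -/
structure IsGM (S : Dat κ n) {H : Type u} [AddCommGroup H] [Module (RatFunc κ) H] [Module κ H] (nab : H →ₗ[κ] H)
    (br : MvPolynomial (Fin n) κ →ₗ[κ] H) : Prop where
  leib : ∀ (x : RatFunc κ) (h : H), nab (x • h) = DK κ x • h + x • nab h
  mul : ∀ P, br (S.φ * P) = (RatFunc.X : RatFunc κ) • br P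
  exa : ∀ i Q, nab (br (Q * pderiv i S.φ)) = br (pderiv i Q)
  lev : ∀ A : Fin n → Fin n → MvPolynomial (Fin n) κ, Asym A →
    br (zz A fun j => pderiv j S.φ) = 0
  span : Submodule.span (RatFunc κ) (Set.range br) = ⊤

/-- `[P]_k`. -/
noncomputable def lv {H : Type u} [AddCommGroup H] [Module κ H] (nab : H →ₗ[κ] H)
    (br : MvPolynomial (Fin n) κ →ₗ[κ] H) (k : ℕ) : MvPolynomial (Fin n) κ →ₗ[κ] H :=
  ((k.factorial : κ)⁻¹) • ((nab ^ k).comp br)

/-- The primitive part: the span of the `[x ^ e]_k` with `wtp e < d (k + 1)`. -/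
noncomputable def Hprim (S : Dat κ n) {H : Type u} [AddCommGroup H] [Module (RatFunc κ) H]
    [Module κ H] (nab : H →ₗ[κ] H) (br : MvPolynomial (Fin n) κ →ₗ[κ] H) :
    Submodule (RatFunc κ) H :=
  Submodule.span (RatFunc κ)
    {h | ∃ (k : ℕ) (e : Fin n →₀ ℕ), wtp S.w e < S.d * (k + 1) ∧ h = lv nab br k (monomial e 1)}

/-- The lattice spanned by the `[x ^ e]_j`, `j ≤ k`, over `κ[t]`. -/
noncomputable def EE {H : Type u} [AddCommGroup H] [Module κ H] [Module (Polynomial κ) H]
    (nab : H →ₗ[κ] H) (br : MvPolynomial (Fin n) κ →ₗ[κ] H) (k : ℕ) :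
    Submodule (Polynomial κ) H :=
  Submodule.span (Polynomial κ)
    {h | ∃ (j : ℕ) (e : Fin n →₀ ℕ), j ≤ k ∧ h = lv nab br j (monomial e 1)}

/-- `x = 0` or `d deg x ≤ N`. -/
def Bd (d : ℕ) (N : ℤ) (x : RatFunc κ) : Prop := x = 0 ∨ (d : ℤ) * x.intDegree ≤ N

/-- The filtration at infinity. -/
noncomputable def VV (S : Dat κ n) {H : Type u} [AddCommGroup H] [Module (RatFunc κ) H]
    [Module κ H] (nab : H →ₗ[κ] H) (br : MvPolynomial (Fin n) κ →ₗ[κ] H) (q : ℤ) :
    Submodule κ H :=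
  Submodule.span κ
    {h | ∃ (j : ℤ) (k : ℕ) (e : Fin n →₀ ℕ), wtp S.w e < S.d * (k + 1) ∧
      S.d * j + wtp S.w e - S.d * (k + 1) ≤ q ∧
      h = (RatFunc.X : RatFunc κ) ^ j • lv nab br k (monomial e 1)}

/-- The affine equation `φ - t` over an extension of `κ(t)`. -/
noncomputable def Dat.eqn (S : Dat κ n) (L : Type u) [Field L] [Algebra (RatFunc κ) L] :
    MvPolynomial (Fin n) L :=
  (S.φ.map (algebraMap κ (RatFunc κ))).map (algebraMap (RatFunc κ) L) -
    C (algebraMap (RatFunc κ) L RatFunc.X)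

/-- `c` is a formal period of `f = φ - t` (so `df/dt = -1`) with values in `L`: `c k P` is the
period of `P dx / f ^ (k + 1)`. -/
structure IsPer {L : Type u} [Field L] (f : MvPolynomial (Fin n) L) (DL : Derivation ℤ L L)
    (c : ℕ → MvPolynomial (Fin n) L →ₗ[L] L) : Prop where
  mul : ∀ k P, c (k + 1) (P * f) = c k P
  exact : ∀ k i Q, c (k + 1) (f * pderiv i Q - ((k : L) + 1) • (Q * pderiv i f)) = 0
  deriv : ∀ k e, DL (c k (monomial e 1)) = ((k : L) + 1) * c (k + 1) (monomial e 1)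

section Forms

variable {m ι : Type} [DecidableEq m]

/-- Alternating coordinate arrays. -/
def Alt {E : Type*} [CommRing E] (c : (m → ι) → E) : Prop :=
  (∀ (σ : m → ι) (j k : m), j ≠ k → c (σ ∘ Equiv.swap j k) = - c σ) ∧
  ∀ (σ : m → ι) (j k : m), j ≠ k → σ j = σ k → c σ = 0

end Forms

end MPadcHP
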