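import Pool.Agent.Lib.MP_adc574_ag_HP.FamA
import Pool.Agent.Lib.MP_adc574_ag_HP.Defs

/-!
# Finiteness

`spn_of_jac`: let `M = N * ∑ w_i + 1` (or any bound): every exponent `e` with `wt w e ≥ M` has `e i ≥ N` for some `i`, so
`monomial e 1 = ∑ j, B j * pderiv j (part w d g)`; `part w d g` is homogeneous of degree `d` and `pderiv j` of it of degree `d - w j`, so `B j` can be replaced by its
homogeneous component of degree `wt e - (d - w j)` (compare the components of degree `wt e`; if `wt e < d - w j` the component is `0`). Let `s = {e | wt w e < M}` (finite: `e i ≤ wt w e`; e.g. the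
image of the box, or `Finset.Iic` / `Set.Finite.toFinset`). Claim: every `P` with all monomials of weight `≤ T` is in the span `Σ` of the `monomial e 1`, `e ∈ s`, over `th g` (`Σ` is closed under sums and
multiplication by `th g c`). Strong induction on `T`, by linearity `P = monomial e 1`, `wt e = T ≥ M`: `monomial e 1 = ∑ B j * pderiv j g - ∑ B j * pderiv j (g - part w d g)`, `pderiv j g = - th g (X j)`, `B j` has
weight `< T` since `w j < d`, and `B j * pderiv j (g - part w d g)` has weight `≤ T - (d - w j) + (d - 1 - w j) < T` (all monomials of `g - part w d g` have weight `< d`).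
`Spn.map`: lift `P` to `P'` with `map f P' = P` (`MvPolynomial.map_surjective`), `th_map`, `map_monomial`.
-/

set_option autoImplicit false

namespace MPadcHP

open MvPolynomial

private theorem FamB_weight {n : ℕ} (w : Fin n → ℕ) (e : Fin n →₀ ℕ) : Finsupp.weight w e = wt w e := by
  rw [Finsupp.weight_apply, Finsupp.sum_fintype]
  · unfold wt
    apply Finset.sum_congr rfl
    intro i _
    rw [smul_eq_mul, mul_comm]
  · intro i
    rw [zero_smul]

private theorem FamB_wt_add {n : ℕ} (w : Fin n → ℕ) (a b : Fin n →₀ ℕ) : wt w (a + b) = wt w a + wt w b := by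
  unfold wt
  rw [← Finset.sum_add_distrib]
  apply Finset.sum_congr rfl
  intro i _
  rw [Finsupp.add_apply, mul_add]

private theorem FamB_wt_single {n : ℕ} (w : Fin n → ℕ) (j : Fin n) : wt w (Finsupp.single j 1) = w j := by
  unfold wt
  rw [Finset.sum_eq_single j]
  · rw [Finsupp.single_eq_same, mul_one]
  · intro i _ hij
    rw [Finsupp.single_eq_of_ne hij, mul_zero]
  · intro h
    exact absurd (Finset.mem_univ j) h

/-- strict degree bound `wt e + c < T` written without subtraction -/
private def FamB_Lt {R : Type*} [CommRing R] {n : ℕ} (w : Fin n → ℕ) (a T : ℕ) (P : MvPolynomial (Fin n) R) : Prop :=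
  ∀ e ∈ P.support, wt w e + a ≤ T

private theorem FamB_sum_mem {R : Type*} [CommRing R] {n : ℕ} (g : MvPolynomial (Fin n) R) (s : Finset (Fin n →₀ ℕ))
    (P : MvPolynomial (Fin n) R)
    (h : ∀ e ∈ P.support, ∃ c : (Fin n →₀ ℕ) → MvPolynomial (Fin n) R, (monomial e 1 : MvPolynomial (Fin n) R) = ∑ e ∈ s, th g (c e) * monomial e 1) :
    ∃ c : (Fin n →₀ ℕ) → MvPolynomial (Fin n) R, P = ∑ e ∈ s, th g (c e) * monomial e 1 := by
  classical
  choose! c hc using h
  refine ⟨fun e' => ∑ e ∈ P.support, C (coeff e P) * c e e', ?_⟩
  have h1 : ∀ e' ∈ s, th g (∑ e ∈ P.support, C (coeff e P) * c e e') * monomial e' 1 =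
      ∑ e ∈ P.support, C (coeff e P) * (th g (c e e') * monomial e' 1) := by
    intro e' _
    rw [map_sum, Finset.sum_mul]
    apply Finset.sum_congr rfl
    intro e _
    rw [map_mul, th_C, mul_assoc]
  rw [Finset.sum_congr rfl h1, Finset.sum_comm]
  conv_lhs => rw [P.as_sum]
  apply Finset.sum_congr rfl
  intro e he
  rw [← Finset.mul_sum, ← hc e he, C_mul_monomial, mul_one]

theorem spn_of_jac {R : Type*} [CommRing R] {n : ℕ} (w : Fin n → ℕ) (hw : ∀ i, 0 < w i) (d : ℕ) (hwd : ∀ i, w i < d)
    (g : MvPolynomial (Fin n) R) (hg : DegLe w d g) (N : ℕ)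
    (hN : ∀ i, (X i : MvPolynomial (Fin n) R) ^ N ∈ Jac (part w d g)) : ∃ s, Spn g s := by
  classical
  -- finiteness of the set of small exponents
  have hfin : ∀ M : ℕ, {e : Fin n →₀ ℕ | wt w e < M}.Finite := by
    intro M
    apply Set.Finite.subset (Set.finite_Iic (Finsupp.equivFunOnFinite.symm (fun _ : Fin n => M)))
    intro e he
    rw [Set.mem_Iic]
    intro i
    have h1 : w i * e i ≤ wt w e := Finset.single_le_sum (f := fun i => w i * e i) (fun _ _ => Nat.zero_le _) (Finset.mem_univ i)
    have h2 : e i ≤ w i * e i := Nat.le_mul_of_pos_left _ (hw i)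
    have h3 : wt w e < M := he
    show e i ≤ M
    omega
  set M : ℕ := N * ∑ i, w i + 1 with hM
  let s : Finset (Fin n →₀ ℕ) := (hfin M).toFinset
  have hs : ∀ e, e ∈ s ↔ wt w e < M := by
    intro e
    rw [Set.Finite.mem_toFinset]
    rfl
  refine ⟨s, ?_⟩
  -- parts
  set p := part w d g with hp
  have hpsupp : ∀ e ∈ p.support, wt w e = d := by
    intro e he
    rw [hp, mem_support_iff, part, coeff_weightedHomogeneousComponent] at he
    by_contra hne
    rw [FamB_weight, if_neg hne] at he
    exact he rfl
  have hrsupp : ∀ e ∈ (g - p).support, wt w e + 1 ≤ d := by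
    intro e he
    rw [mem_support_iff, coeff_sub, hp, part, coeff_weightedHomogeneousComponent, FamB_weight] at he
    by_cases h : wt w e = d
    · rw [if_pos h, sub_self] at he
      exact absurd rfl he
    · rw [if_neg h, sub_zero] at he
      have := hg e (mem_support_iff.mpr he)
      omega
  -- the division step
  have hdiv : ∀ e : Fin n →₀ ℕ, M ≤ wt w e → (monomial e 1 : MvPolynomial (Fin n) R) ∈ Jac p := by
    intro e he
    have hex : ∃ i, N ≤ e i := by
      by_contra hcon
      push Not at hcon
      have : wt w e ≤ N * ∑ i, w i := by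
        unfold wt
        rw [Finset.mul_sum]
        apply Finset.sum_le_sum
        intro i _
        rw [mul_comm N]
        exact Nat.mul_le_mul_left _ (hcon i).le
      omega
    obtain ⟨i, hi⟩ := hex
    have h0 : e - Finsupp.single i N + Finsupp.single i N = e := by
      ext j
      rw [Finsupp.add_apply, Finsupp.tsub_apply]
      by_cases hj : i = j
      · subst hj
        rw [Finsupp.single_eq_same]
        omega
      · rw [Finsupp.single_eq_of_ne' hj]
        omega
    have h1 : (monomial e 1 : MvPolynomial (Fin n) R) = monomial (e - Finsupp.single i N) 1 * X i ^ N := by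
      rw [X_pow_eq_monomial, monomial_mul, mul_one, h0]
    rw [h1]
    exact Ideal.mul_mem_left _ _ (hN i)
  -- homogeneous coefficients
  have hhom : ∀ e : Fin n →₀ ℕ, M ≤ wt w e → ∃ B : Fin n → MvPolynomial (Fin n) R,
      (monomial e 1 : MvPolynomial (Fin n) R) = ∑ j, B j * pderiv j p ∧
      ∀ j, ∀ a ∈ (B j).support, wt w a + d = wt w e + w j := by
    intro e he
    have h1 := hdiv e he
    rw [Jac, Ideal.mem_span_range_iff_exists_fun] at h1
    obtain ⟨A, hA⟩ := h1
    let B : Fin n → MvPolynomial (Fin n) R := fun j =>
      if d ≤ wt w e + w j then weightedHomogeneousComponent w (wt w e + w j - d) (A j) else 0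
    have hBs : ∀ j, ∀ a ∈ (B j).support, wt w a + d = wt w e + w j := by
      intro j a ha
      simp only [B] at ha
      split_ifs at ha with hc
      · rw [mem_support_iff, coeff_weightedHomogeneousComponent, FamB_weight] at ha
        by_contra hne
        rw [if_neg (by omega)] at ha
        exact ha rfl
      · rw [support_zero] at ha
        exact absurd ha (Finset.notMem_empty _)
    refine ⟨B, ?_, hBs⟩
    -- compare coefficients
    have hd : ∀ j, ∀ b : Fin n →₀ ℕ, coeff b (pderiv j p) ≠ 0 → wt w b + w j = d := by
      intro j b hb
      have h2 : coeff b (pderiv j p) = coeff (b + Finsupp.single j 1) p * (b j + 1) := by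
        rw [coeff_pderiv]
      rw [h2] at hb
      have h3 : b + Finsupp.single j 1 ∈ p.support := by
        rw [mem_support_iff]
        intro h0
        rw [h0, zero_mul] at hb
        exact hb rfl
      have h4 := hpsupp _ h3
      rw [FamB_wt_add, FamB_wt_single] at h4
      exact h4
    ext m
    have hA' : coeff m (monomial e 1 : MvPolynomial (Fin n) R) = ∑ j, coeff m (A j * pderiv j p) := by
      rw [← hA, coeff_sum]
    have hterm : ∀ j, coeff m (B j * pderiv j p) = if wt w m = wt w e then coeff m (A j * pderiv j p) else 0 := by
      intro j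
      rw [coeff_mul, coeff_mul]
      split_ifs with hme
      · apply Finset.sum_congr rfl
        intro ab hab
        rw [Finset.HasAntidiagonal.mem_antidiagonal] at hab
        by_cases hz : coeff ab.2 (pderiv j p) = 0
        · rw [hz, mul_zero, mul_zero]
        · have h5 := hd j ab.2 hz
          have h6 : wt w ab.1 + wt w ab.2 = wt w e := by
            rw [← FamB_wt_add, hab, hme]
          have h7 : coeff ab.1 (B j) = coeff ab.1 (A j) := by
            simp only [B]
            rw [if_pos (by omega), coeff_weightedHomogeneousComponent, FamB_weight, if_pos (by omega)]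
          rw [h7]
      · apply Finset.sum_eq_zero
        intro ab hab
        rw [Finset.HasAntidiagonal.mem_antidiagonal] at hab
        by_cases hz : coeff ab.2 (pderiv j p) = 0
        · rw [hz, mul_zero]
        · have h5 := hd j ab.2 hz
          have h6 : wt w ab.1 + wt w ab.2 = wt w m := by
            rw [← FamB_wt_add, hab]
          have h7 : coeff ab.1 (B j) = 0 := by
            by_contra hne
            have := hBs j ab.1 (mem_support_iff.mpr hne)
            omega
          rw [h7, zero_mul]
    rw [coeff_sum]
    rw [Finset.sum_congr rfl (fun j _ => hterm j)]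
    by_cases hme : wt w m = wt w e
    · simp only [if_pos hme]
      exact hA'
    · simp only [if_neg hme, Finset.sum_const_zero]
      rw [coeff_monomial, if_neg]
      intro h
      rw [h] at hme
      exact hme rfl
  -- strong induction
  have main : ∀ T : ℕ, ∀ e : Fin n →₀ ℕ, wt w e = T →
      ∃ c : (Fin n →₀ ℕ) → MvPolynomial (Fin n) R, (monomial e 1 : MvPolynomial (Fin n) R) = ∑ e ∈ s, th g (c e) * monomial e 1 := by
    intro T
    induction T using Nat.strong_induction_on with
    | _ T ih =>
      intro e heT
      by_cases hlt : wt w e < M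
      · refine ⟨fun e' => if e' = e then 1 else 0, ?_⟩
        rw [Finset.sum_eq_single e]
        · simp only [if_true, map_one, one_mul]
        · intro b _ hb
          simp only [if_neg hb, map_zero, zero_mul]
        · intro h
          exact absurd ((hs e).mpr hlt) h
      · obtain ⟨B, hB, hBs⟩ := hhom e (by omega)
        -- each B j is in the span, and so is B j * pderiv j (g - p)
        have hBj : ∀ j, ∃ c : (Fin n →₀ ℕ) → MvPolynomial (Fin n) R, B j = ∑ e ∈ s, th g (c e) * monomial e 1 := by
          intro j
          apply FamB_sum_mem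
          intro a ha
          have h1 := hBs j a ha
          have h2 := hwd j
          exact ih (wt w a) (by omega) a rfl
        have hBr : ∀ j, ∃ c : (Fin n →₀ ℕ) → MvPolynomial (Fin n) R,
            B j * pderiv j (g - p) = ∑ e ∈ s, th g (c e) * monomial e 1 := by
          intro j
          apply FamB_sum_mem
          intro m hm
          have hm' := mem_support_iff.mp hm
          rw [coeff_mul] at hm'
          obtain ⟨ab, hab, hne⟩ := Finset.exists_ne_zero_of_sum_ne_zero hm'
          rw [Finset.HasAntidiagonal.mem_antidiagonal] at hab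
          have ha : ab.1 ∈ (B j).support := by
            rw [mem_support_iff]
            intro h0
            rw [h0, zero_mul] at hne
            exact hne rfl
          have hb : coeff ab.2 (pderiv j (g - p)) ≠ 0 := by
            intro h0
            rw [h0, mul_zero] at hne
            exact hne rfl
          rw [coeff_pderiv] at hb
          have hb' : ab.2 + Finsupp.single j 1 ∈ (g - p).support := by
            rw [mem_support_iff]
            intro h0
            rw [h0, zero_mul] at hb
            exact hb rfl
          have h3 := hrsupp _ hb'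
          rw [FamB_wt_add, FamB_wt_single] at h3
          have h1 := hBs j ab.1 ha
          have h2 : wt w m = wt w ab.1 + wt w ab.2 := by
            rw [← FamB_wt_add, hab]
          exact ih (wt w m) (by omega) m rfl
        choose c1 hc1 using hBj
        choose c2 hc2 using hBr
        refine ⟨fun e' => ∑ j, (- (X j * c1 j e') - c2 j e'), ?_⟩
        have hsplit : (monomial e 1 : MvPolynomial (Fin n) R) = ∑ j, (B j * pderiv j g - B j * pderiv j (g - p)) := by
          rw [hB]
          apply Finset.sum_congr rfl
          intro j _
          rw [map_sub]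
          ring
        rw [hsplit]
        have hj : ∀ j, B j * pderiv j g - B j * pderiv j (g - p) =
            ∑ e' ∈ s, th g (- (X j * c1 j e') - c2 j e') * monomial e' 1 := by
          intro j
          rw [hc2 j]
          conv_lhs => rw [hc1 j]
          rw [Finset.sum_mul, ← Finset.sum_sub_distrib]
          apply Finset.sum_congr rfl
          intro e' _
          rw [map_sub, map_neg, map_mul, th_X]
          ring
        rw [Finset.sum_congr rfl (fun j _ => hj j), Finset.sum_comm]
        apply Finset.sum_congr rfl
        intro e' _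
        rw [map_sum, Finset.sum_mul]
  intro P
  exact FamB_sum_mem g s P (fun e _ => main (wt w e) e rfl)

theorem Spn.map {R R' : Type*} [CommRing R] [CommRing R'] {n : ℕ} {f : R →+* R'} (hf : Function.Surjective f)
    {g : MvPolynomial (Fin n) R} {s : Finset (Fin n →₀ ℕ)} (h : Spn g s) : Spn (map f g) s := by
  intro P
  obtain ⟨P', rfl⟩ := MvPolynomial.map_surjective f hf P
  obtain ⟨c, hc⟩ := h P'
  refine ⟨fun e => MvPolynomial.map f (c e), ?_⟩
  conv_lhs => rw [hc]
  rw [map_sum]
  apply Finset.sum_congr rfl
  intro e _
  rw [map_mul, th_map, map_monomial, map_one]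

end MPadcHP
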