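import Pool.Agent.Lib.MP_adc574_ag_HP.FamD

/-!
# The Hessian and the dual polynomial

`hess_det_ne`: for every `l` let `P l` be an equation of minimal degree for `X l` (`exists_isMin`). `0 = pderiv k (ez g (X l) (P l))` and `ez_pderiv` (`pderiv k (X l) = if l = k then 1 else 0`) say that the matrix
`(ez g (X l) (pb i (P l)))_{l i}` times `hess g` (`hess g i k = pderiv k (pderiv i g)`) is the diagonal matrix with entries `ez g (X l) (derivative (P l)) ≠ 0` (`IsMin.deriv_ne`), whose determinant is a nonzero product; `Matrix.det_mul`.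
`dual_identity`: `pderiv l (vv g) = - ∑ i, X i * pderiv l (pderiv i g)`. `0 = pderiv l (ez g (vv g) m)` and `ez_pderiv` give
`∑ i, (ez g (vv g) (pb i m) + ez g (vv g) (derivative m) * X i) * hess g i l = 0` for all `l`; the determinant of `hess g` is not zero, so the vector is zero (`Matrix.eq_zero_of_vecMul_eq_zero`).
-/

set_option autoImplicit false

namespace MPadcHP

open MvPolynomial

section

variable {κ : Type*} [Field κ] [CharZero κ] {n : ℕ} {g : MvPolynomial (Fin n) κ} {s : Finset (Fin n →₀ ℕ)}

theorem hess_det_ne (h : Spn g s) : (hess g).det ≠ 0 := by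
  have hinj := th_injective h
  choose P hP using fun l : Fin n => exists_isMin h (X l : MvPolynomial (Fin n) κ)
  set A : Matrix (Fin n) (Fin n) (MvPolynomial (Fin n) κ) := Matrix.of fun l i => ez g (X l) (pb i (P l)) with hA
  have hAH : A * hess g = Matrix.diagonal fun l => ez g (X l) (Polynomial.derivative (P l)) := by
    ext1 l k
    rw [Matrix.mul_apply, Matrix.diagonal_apply]
    have h1 := ez_pderiv g (X l) (P l) k
    rw [(hP l).2.1, map_zero] at h1
    have h2 : pderiv k (X l : MvPolynomial (Fin n) κ) = if l = k then 1 else 0 := by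
      rw [pderiv_X]
      by_cases hlk : l = k
      · subst hlk
        rw [Pi.single_eq_same, if_pos rfl]
      · rw [Pi.single_eq_of_ne hlk, if_neg hlk]
    rw [h2] at h1
    have h3 : ∑ j, A l j * hess g j k = ∑ i, ez g (X l) (pb i (P l)) * pderiv k (pderiv i g) := by
      refine Finset.sum_congr rfl fun i _ => ?_
      simp only [hA, hess, Matrix.of_apply]
    rw [h3]
    by_cases hlk : l = k
    · rw [if_pos hlk] at h1 ⊢
      linear_combination h1
    · rw [if_neg hlk] at h1 ⊢
      linear_combination h1
  intro h0
  have h1 : (A * hess g).det = 0 := by rw [Matrix.det_mul, h0, mul_zero]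
  rw [hAH, Matrix.det_diagonal] at h1
  obtain ⟨l, -, hl⟩ := Finset.prod_eq_zero_iff.mp h1
  exact (hP l).deriv_ne hinj hl

theorem dual_identity (h : Spn g s) {m : Polynomial (MvPolynomial (Fin n) κ)} (hm : IsMin g (vv g) m) (i : Fin n) :
    ez g (vv g) (pb i m) + ez g (vv g) (Polynomial.derivative m) * X i = 0 := by
  have hv : ∀ l, pderiv l (vv g) = - ∑ j, X j * pderiv l (pderiv j g) := by
    intro l
    rw [vv, map_sub, map_sum]
    have h1 : ∑ j, pderiv l (X j * pderiv j g) = pderiv l g + ∑ j, X j * pderiv l (pderiv j g) := by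
      have h2 : ∀ j : Fin n, pderiv l (X j * pderiv j g) = (if j = l then pderiv j g else 0) + X j * pderiv l (pderiv j g) := by
        intro j
        rw [pderiv_mul, pderiv_X]
        by_cases hjl : j = l
        · subst hjl
          rw [Pi.single_eq_same, if_pos rfl, one_mul]
        · rw [Pi.single_eq_of_ne hjl, if_neg hjl, zero_mul]
      rw [Finset.sum_congr rfl fun j _ => h2 j, Finset.sum_add_distrib, Finset.sum_ite_eq' Finset.univ l]
      simp only [Finset.mem_univ, if_true]
    rw [h1]
    ring
  have hvec : (fun i => ez g (vv g) (pb i m) + ez g (vv g) (Polynomial.derivative m) * X i) = 0 := by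
    refine Matrix.eq_zero_of_vecMul_eq_zero (hess_det_ne h) ?_
    funext l
    have h1 := ez_pderiv g (vv g) m l
    rw [hm.2.1, map_zero, hv] at h1
    rw [Pi.zero_apply, Matrix.vecMul, dotProduct]
    have h2 : ∑ i, (ez g (vv g) (pb i m) + ez g (vv g) (Polynomial.derivative m) * X i) * hess g i l =
        ∑ i, ez g (vv g) (pb i m) * pderiv l (pderiv i g) +
          ez g (vv g) (Polynomial.derivative m) * ∑ j, X j * pderiv l (pderiv j g) := by
      rw [Finset.mul_sum, ← Finset.sum_add_distrib]
      refine Finset.sum_congr rfl fun i _ => ?_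
      simp only [hess, Matrix.of_apply]
      ring
    rw [h2]
    linear_combination h1
  exact congrFun hvec i

end

end MPadcHP
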