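import Pool.Agent.Lib.MP_adc574_ag_HP.FamA

/-!
# Semicontinuity

Notation `𝔪 = ker f`. (1) Every `P` with `map f P = 0` is `∑ e ∈ s, th g (μ e) * monomial e 1` with `map f (μ e) = 0`: `P = ∑ e, monomial e (a e)`, `f (a e) = 0`, apply `Spn` to `monomial e 1` and multiply by `C (a e)`
(`th_C`; sum over the support of `P`). (2) Lift `c₀` to `c` and `q e` to `r e` (`MvPolynomial.map_surjective`, `Polynomial.map_surjective`; keep the degree `< N`: lift coefficientwise, `∑ j ∈ range N, C (lift (coeff j)) * X ^ j`, or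
`Polynomial.lifts_and_natDegree_eq..`). `map f (th g c * monomial e 1 - ez g z (r e)) = 0` (`th_map`, `ez_map`), so by (1)
`th g c * monomial e 1 - ∑ e' ∈ s, th g (μ e e') * monomial e' 1 = ez g z (r e)`, `map f (μ e e') = 0`. (3) Let `A = c • 1 - (μ e e')` (square matrix over `S` indexed by `s`); `map f (det A) = c₀ ^ card s ≠ 0` (`RingHom.map_det`), so `D := det A ≠ 0`.
The adjugate gives `th g D * monomial e 1 = ∑ e' ∈ s, th g (adj e e') * ez g z (r e')` (`Matrix.adjugate_mul`) `= ez g z (r' e)`, `r' e = ∑ C (adj e e') * r e'` of degree `< N`. (4) By `Spn` for `P = z ^ N`: `th g D * z ^ N = ez g z r''`,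
`r''` of degree `< N`: `m = C D * X ^ N - r''`, the coefficient of `X ^ N` is `D ≠ 0`.
-/

set_option autoImplicit false

namespace MPadcHP

open MvPolynomial

private theorem FamH_rep {R F : Type*} [CommRing R] [Field F] {n : ℕ} (f : R →+* F)
    (g : MvPolynomial (Fin n) R) (s : Finset (Fin n →₀ ℕ)) (hs : Spn g s)
    (P : MvPolynomial (Fin n) R) (hP : map f P = 0) :
    ∃ μ : (Fin n →₀ ℕ) → MvPolynomial (Fin n) R, (∀ e, map f (μ e) = 0) ∧
      P = ∑ e ∈ s, th g (μ e) * monomial e 1 := by
  choose γ hγ using fun e' : Fin n →₀ ℕ => hs (monomial e' 1)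
  refine ⟨fun e => ∑ e' ∈ P.support, C (coeff e' P) * γ e' e, fun e => ?_, ?_⟩
  · rw [map_sum]
    refine Finset.sum_eq_zero fun e' _ => ?_
    have h0 : f (coeff e' P) = 0 := by
      rw [← coeff_map, hP, coeff_zero]
    rw [map_mul, map_C, h0, C_0, zero_mul]
  · have h1 : P = ∑ e' ∈ P.support, C (coeff e' P) * monomial e' 1 := by
      conv_lhs => rw [P.as_sum]
      refine Finset.sum_congr rfl fun e' _ => ?_
      rw [C_mul_monomial, mul_one]
    conv_lhs => rw [h1]
    simp only [map_sum, map_mul, th_C, Finset.sum_mul]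
    rw [Finset.sum_comm]
    refine Finset.sum_congr rfl fun e' _ => ?_
    conv_lhs => rw [hγ e', Finset.mul_sum]
    refine Finset.sum_congr rfl fun e _ => ?_
    rw [mul_assoc]

private theorem FamH_lift {R F : Type*} [CommRing R] [Field F] {n : ℕ} (f : R →+* F)
    (hf : Function.Surjective f) (N : ℕ) (q : Polynomial (MvPolynomial (Fin n) F)) (hq : q.natDegree < N) :
    ∃ r : Polynomial (MvPolynomial (Fin n) R), r.map (map f) = q ∧
      r ∈ Polynomial.degreeLT (MvPolynomial (Fin n) R) N := by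
  have h1 : q ∈ Polynomial.lifts (map f : MvPolynomial (Fin n) R →+* MvPolynomial (Fin n) F) := by
    rw [Polynomial.mem_lifts]
    exact Polynomial.map_surjective _ (map_surjective f hf) q
  obtain ⟨r, hr, hd⟩ := Polynomial.exists_degree_eq_of_mem_lifts h1
  refine ⟨r, hr, ?_⟩
  rw [Polynomial.mem_degreeLT, hd]
  exact lt_of_le_of_lt Polynomial.degree_le_natDegree (by exact_mod_cast hq)

theorem semicont {R F : Type*} [CommRing R] [Field F] {n : ℕ} (f : R →+* F) (hf : Function.Surjective f)
    (g z : MvPolynomial (Fin n) R) (s : Finset (Fin n →₀ ℕ)) (hs : Spn g s) (N : ℕ)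
    (c₀ : MvPolynomial (Fin n) F) (hc₀ : c₀ ≠ 0) (q : (Fin n →₀ ℕ) → Polynomial (MvPolynomial (Fin n) F))
    (hq : ∀ e ∈ s, (q e).natDegree < N)
    (h : ∀ e ∈ s, th (map f g) c₀ * monomial e 1 = ez (map f g) (map f z) (q e)) :
    ∃ m : Polynomial (MvPolynomial (Fin n) R), m ≠ 0 ∧ m.natDegree ≤ N ∧ ez g z m = 0 := by
  classical
  obtain ⟨c, hc⟩ := map_surjective f hf c₀
  choose r hr hrd using fun e : s => FamH_lift f hf N (q e.1) (hq e.1 e.2)
  have hP : ∀ e : s, map f (th g c * monomial e.1 1 - ez g z (r e)) = 0 := by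
    intro e
    rw [map_sub, map_mul, th_map, ez_map, hr, hc, map_monomial, map_one, h e.1 e.2, sub_self]
  choose μ hμ hμ' using fun e : s => FamH_rep f g s hs _ (hP e)
  set A : Matrix s s (MvPolynomial (Fin n) R) := c • (1 : Matrix s s (MvPolynomial (Fin n) R)) -
    Matrix.of (fun e e' : s => μ e e'.1) with hA
  set D : MvPolynomial (Fin n) R := A.det with hD
  have hD0 : D ≠ 0 := by
    intro h0
    have h1 : map f D = 0 := by rw [h0, map_zero]
    have h2 : (map f : MvPolynomial (Fin n) R →+* MvPolynomial (Fin n) F).mapMatrix A =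
        c₀ • (1 : Matrix s s (MvPolynomial (Fin n) F)) := by
      ext1 e e'
      rw [RingHom.mapMatrix_apply, Matrix.map_apply, hA, Matrix.sub_apply, Matrix.of_apply, map_sub,
        hμ, sub_zero, Matrix.smul_apply, Matrix.smul_apply, smul_eq_mul, smul_eq_mul, map_mul, hc,
        Matrix.one_apply, Matrix.one_apply]
      split_ifs <;> simp
    rw [hD, RingHom.map_det, h2, Matrix.det_smul, Matrix.det_one, mul_one] at h1
    exact pow_ne_zero _ hc₀ h1
  have hrow : ∀ e : s, ∑ e' : s, th g (A e e') * monomial e'.1 1 = ez g z (r e) := by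
    intro e
    have h1 := hμ' e
    rw [← Finset.sum_coe_sort s] at h1
    have h2 : ∀ e' : s, th g (A e e') * monomial e'.1 1 =
        (if e = e' then th g c * monomial e'.1 1 else 0) - th g (μ e e'.1) * monomial e'.1 1 := by
      intro e'
      rw [hA, Matrix.sub_apply, Matrix.of_apply, map_sub, sub_mul, Matrix.smul_apply,
        Matrix.one_apply, smul_eq_mul]
      split_ifs with hee
      · rw [mul_one]
      · rw [mul_zero, map_zero, zero_mul]
    rw [Finset.sum_congr rfl fun e' _ => h2 e', Finset.sum_sub_distrib, ← h1,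
      Finset.sum_ite_eq Finset.univ e, if_pos (Finset.mem_univ _)]
    ring
  have hadj : ∀ e₀ : s, th g D * monomial e₀.1 1 =
      ez g z (∑ e : s, Polynomial.C (A.adjugate e₀ e) * r e) := by
    intro e₀
    have h1 : ∀ e' : s, ∑ e : s, A.adjugate e₀ e * A e e' = if e₀ = e' then D else 0 := by
      intro e'
      have h2 := congrFun (congrFun (Matrix.adjugate_mul A) e₀) e'
      rw [Matrix.mul_apply, Matrix.smul_apply, Matrix.one_apply, smul_eq_mul] at h2
      rw [h2]
      split_ifs
      · rw [mul_one]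
      · rw [mul_zero]
    have h3 : ∑ e' : s, th g (∑ e : s, A.adjugate e₀ e * A e e') * monomial e'.1 1 =
        th g D * monomial e₀.1 1 := by
      rw [Finset.sum_congr rfl fun e' _ => by rw [h1 e']]
      rw [Finset.sum_eq_single e₀]
      · rw [if_pos rfl]
      · intro e' _ hne
        rw [if_neg (Ne.symm hne), map_zero, zero_mul]
      · intro hn
        exact absurd (Finset.mem_univ _) hn
    rw [← h3]
    simp only [map_sum, map_mul, ez_C, Finset.sum_mul]
    rw [Finset.sum_comm]
    refine Finset.sum_congr rfl fun e _ => ?_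
    rw [← hrow e, Finset.mul_sum]
    refine Finset.sum_congr rfl fun e' _ => ?_
    rw [mul_assoc]
  obtain ⟨d, hd⟩ := hs (z ^ N)
  rw [← Finset.sum_coe_sort s] at hd
  set r'' : Polynomial (MvPolynomial (Fin n) R) :=
    ∑ e₀ : s, Polynomial.C (d e₀.1) * ∑ e : s, Polynomial.C (A.adjugate e₀ e) * r e with hr''
  have hr''d : r'' ∈ Polynomial.degreeLT (MvPolynomial (Fin n) R) N := by
    refine Submodule.sum_mem _ fun e₀ _ => ?_
    rw [← Polynomial.smul_eq_C_mul]
    refine Submodule.smul_mem _ _ (Submodule.sum_mem _ fun e _ => ?_)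
    rw [← Polynomial.smul_eq_C_mul]
    exact Submodule.smul_mem _ _ (hrd e)
  rw [Polynomial.mem_degreeLT] at hr''d
  have hcoef : (Polynomial.C D * Polynomial.X ^ N - r'').coeff N = D := by
    rw [Polynomial.coeff_sub, Polynomial.coeff_C_mul_X_pow, if_pos rfl,
      Polynomial.coeff_eq_zero_of_degree_lt hr''d, sub_zero]
  refine ⟨Polynomial.C D * Polynomial.X ^ N - r'', ?_, ?_, ?_⟩
  · intro h0
    rw [h0, Polynomial.coeff_zero] at hcoef
    exact hD0 hcoef.symm
  · refine (Polynomial.natDegree_sub_le_of_le (Polynomial.natDegree_C_mul_X_pow_le _ _)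
      (Polynomial.natDegree_le_of_degree_le (le_of_lt hr''d))).trans (max_le le_rfl le_rfl)
  · rw [map_sub, map_mul, map_pow, ez_C, ez_X, hd, hr'', map_sum, Finset.mul_sum, sub_eq_zero]
    refine Finset.sum_congr rfl fun e₀ _ => ?_
    rw [map_mul, ez_C, ← hadj e₀]
    ring

end MPadcHP
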