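import Pool.Agent.Lib.MP_adc574_ag_HP.FamD

/-!
# Representation of the monomials by polynomials in `z`

Let `K = FractionRing S`, `L = FractionRing B` (`S`, `B` both `MvPolynomial (Fin n) F`), `j : K →+* L` the lift of `(algebraMap B L).comp (th g)` (`IsFractionRing.lift`, `hinj`), `Z = algebraMap B L z`, `E := Polynomial.eval₂RingHom j Z : K[T] →+* L`; for
`p ∈ S[T]`: `E (p.map (algebraMap S K)) = algebraMap B L (ez g z p)`. `m₁ := m.map (algebraMap S K)` is irreducible (`IsMin.irreducible`), `E m₁ = 0`. `q₁ := q.map ..`, `E q₁ ≠ 0`, so `m₁ ∤ q₁` and `m₁`, `q₁` are coprime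
(`Irreducible.coprime_iff_not_dvd`, `IsCoprime`): `u q₁ + v m₁ = 1`, `E u * E q₁ = 1`. So `algebraMap B L (X i) = E (u * (r i).map ..)`, and `algebraMap B L (monomial e 1) = E (∏ (u * (r i).map ..) ^ e i) = E Q_e`, `Q_e` the remainder modulo `m₁`
(`EuclideanDomain.mod` or `%`; `Polynomial.natDegree_mod_lt`, `m₁.natDegree = m.natDegree > 0`). Clear denominators: `C (algebraMap a_e) * Q_e = Q'_e.map` with `a_e ≠ 0` (`IsLocalization.integerNormalization`), the degree does not change; common denominator `c₀ = ∏ e ∈ s, a_e`,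
`Q e = C (∏ other a) * Q'_e`. Finally injectivity of `algebraMap B L`.
-/

set_option autoImplicit false

namespace MPadcHP

open MvPolynomial

private theorem FamR_gen {S B : Type*} [CommRing S] [IsDomain S] [CommRing B] [IsDomain B]
    (θ : S →+* B) (hinj : Function.Injective θ) (z : B) {m : Polynomial S}
    (hm0 : Polynomial.eval₂ θ z m = 0)
    (hirr : Irreducible (m.map (algebraMap S (FractionRing S)))) (hdeg : 0 < m.natDegree)
    (q : Polynomial S) (hq : Polynomial.eval₂ θ z q ≠ 0) :
    ∃ Rp : Submonoid B, (∀ x : B, ∀ r : Polynomial S, Polynomial.eval₂ θ z q * x =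
        Polynomial.eval₂ θ z r → x ∈ Rp) ∧
      ∀ b ∈ Rp, ∃ a : S, a ≠ 0 ∧ ∃ Q : Polynomial S, Q.natDegree < m.natDegree ∧
        θ a * b = Polynomial.eval₂ θ z Q := by
  obtain ⟨ι, hι⟩ : ∃ ι : B →+* FractionRing B, ι = algebraMap B (FractionRing B) := ⟨_, rfl⟩
  have hιinj : Function.Injective ι := by
    rw [hι]
    exact IsFractionRing.injective B (FractionRing B)
  have hg : Function.Injective (ι.comp θ) := by
    rw [RingHom.coe_comp]
    exact hιinj.comp hinj
  obtain ⟨j, hj⟩ : ∃ j : FractionRing S →+* FractionRing B,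
      ∀ x : S, j (algebraMap S (FractionRing S) x) = ι (θ x) :=
    ⟨IsFractionRing.lift hg, fun x => IsFractionRing.lift_algebraMap hg x⟩
  obtain ⟨E, hE⟩ : ∃ E : Polynomial (FractionRing S) →+* FractionRing B,
      ∀ p, E p = Polynomial.eval₂ j (ι z) p := ⟨Polynomial.eval₂RingHom j (ι z), fun p => rfl⟩
  have hmap : ∀ p : Polynomial S, E (p.map (algebraMap S (FractionRing S))) =
      ι (Polynomial.eval₂ θ z p) := by
    intro p
    rw [hE, Polynomial.eval₂_map, Polynomial.hom_eval₂]
    congr 1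
    ext x
    exact hj x
  have hEm : E (m.map (algebraMap S (FractionRing S))) = 0 := by rw [hmap, hm0, map_zero]
  have hEq : E (q.map (algebraMap S (FractionRing S))) ≠ 0 := by
    rw [hmap]
    intro h0
    exact hq (hιinj (by rw [h0, map_zero]))
  have hnd : ¬ m.map (algebraMap S (FractionRing S)) ∣ q.map (algebraMap S (FractionRing S)) := by
    rintro ⟨c, hc⟩
    apply hEq
    rw [hc, map_mul, hEm, zero_mul]
  obtain ⟨v, u, huv⟩ := hirr.coprime_iff_not_dvd.2 hnd
  have hu : E u * E (q.map (algebraMap S (FractionRing S))) = 1 := by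
    have h1 := congrArg E huv
    rw [map_add, map_mul, map_mul, hEm, mul_zero, zero_add, map_one] at h1
    exact h1
  refine ⟨{ carrier := {b | ∃ p, E p = ι b}
            one_mem' := ⟨1, by rw [map_one, map_one]⟩
            mul_mem' := ?_ }, ?_, ?_⟩
  · rintro a b ⟨p, hp⟩ ⟨p', hp'⟩
    exact ⟨p * p', by rw [map_mul, hp, hp', map_mul]⟩
  · intro x r hr
    refine ⟨u * r.map (algebraMap S (FractionRing S)), ?_⟩
    rw [map_mul, hmap, ← hr, map_mul, ← hmap, ← mul_assoc, hu, one_mul]
  · rintro b ⟨p, hp⟩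
    have hdm : (m.map (algebraMap S (FractionRing S))).natDegree = m.natDegree :=
      Polynomial.natDegree_map_eq_of_injective (IsFractionRing.injective S (FractionRing S)) m
    obtain ⟨w, hw⟩ : ∃ w, w = p % m.map (algebraMap S (FractionRing S)) := ⟨_, rfl⟩
    have hEw : E w = ι b := by
      rw [← hp, ← EuclideanDomain.div_add_mod p (m.map (algebraMap S (FractionRing S))), map_add,
        map_mul, hEm, zero_mul, zero_add, hw]
    have hwd : w.natDegree < m.natDegree := by
      rw [hw, ← hdm]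
      exact Polynomial.natDegree_mod_lt p (by rw [hdm]; exact hdeg.ne')
    obtain ⟨a, haM, ha⟩ := IsLocalization.integerNormalization_spec (nonZeroDivisors S) w
    refine ⟨a, nonZeroDivisors.ne_zero haM,
      IsLocalization.integerNormalization (nonZeroDivisors S) w, ?_, ?_⟩
    · refine lt_of_le_of_lt ?_ hwd
      rw [← Polynomial.natDegree_map_eq_of_injective (IsFractionRing.injective S (FractionRing S))
        (IsLocalization.integerNormalization (nonZeroDivisors S) w), ha]
      exact Polynomial.natDegree_smul_le _ _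
    · apply hιinj
      rw [← hmap, ha, map_mul, ← hEw, ← hj]
      have h2 : (a • w : Polynomial (FractionRing S)) =
          Polynomial.C (algebraMap S (FractionRing S) a) * w := by
        rw [← Polynomial.smul_eq_C_mul, algebraMap_smul]
      rw [show (a • w : Polynomial (FractionRing S)) = _ from h2, map_mul]
      congr 1
      rw [hE, Polynomial.eval₂_C]

theorem rep {F : Type*} [Field F] {n : ℕ} {g z : MvPolynomial (Fin n) F} (hinj : Function.Injective (th g))
    {m : Polynomial (MvPolynomial (Fin n) F)} (hm : IsMin g z m) (q : Polynomial (MvPolynomial (Fin n) F))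
    (r : Fin n → Polynomial (MvPolynomial (Fin n) F)) (hq : ez g z q ≠ 0)
    (hr : ∀ i, ez g z q * X i = ez g z (r i)) (s : Finset (Fin n →₀ ℕ)) :
    ∃ c₀ : MvPolynomial (Fin n) F, c₀ ≠ 0 ∧ ∃ Q : (Fin n →₀ ℕ) → Polynomial (MvPolynomial (Fin n) F),
      (∀ e ∈ s, (Q e).natDegree < m.natDegree) ∧ ∀ e ∈ s, th g c₀ * monomial e 1 = ez g z (Q e) := by
  classical
  obtain ⟨Rp, h1, h2⟩ := FamR_gen (th g : MvPolynomial (Fin n) F →+* MvPolynomial (Fin n) F) hinj z
    (m := m) hm.2.1 (hm.irreducible hinj _) (hm.natDegree_pos hinj) q hq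
  have hX : ∀ i, (X i : MvPolynomial (Fin n) F) ∈ Rp := fun i => h1 _ (r i) (hr i)
  have hmon : ∀ e : Fin n →₀ ℕ, (monomial e 1 : MvPolynomial (Fin n) F) ∈ Rp := by
    intro e
    rw [monomial_eq, map_one, one_mul]
    exact Submonoid.prod_mem _ fun i _ => Submonoid.pow_mem _ (hX i) _
  have h3 : ∀ e : Fin n →₀ ℕ, ∃ a : MvPolynomial (Fin n) F, a ≠ 0 ∧
      ∃ Q : Polynomial (MvPolynomial (Fin n) F), Q.natDegree < m.natDegree ∧
        th g a * monomial e 1 = ez g z Q := fun e => h2 _ (hmon e)
  choose a ha Q hQ1 hQ2 using h3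
  refine ⟨∏ e ∈ s, a e, Finset.prod_ne_zero_iff.2 fun e _ => ha e,
    fun e => Polynomial.C (∏ e' ∈ s.erase e, a e') * Q e, ?_, ?_⟩
  · intro e _
    exact lt_of_le_of_lt (Polynomial.natDegree_C_mul_le _ _) (hQ1 e)
  · intro e he
    rw [← Finset.mul_prod_erase s a he, map_mul, map_mul, ← hQ2]
    have h4 : ez g z (Polynomial.C (∏ e' ∈ s.erase e, a e')) = th g (∏ e' ∈ s.erase e, a e') := by
      unfold ez
      rw [Polynomial.coe_eval₂RingHom, Polynomial.eval₂_C]
      rfl
    rw [h4]
    ring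

end MPadcHP
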