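import Mathlib

/-!
# Partial homomorphisms

`frac_adjoin`: `Algebra.adjoin_induction` (over `ℤ`): integers: `a = algebraMap`, `c = 1` (`π 1 = 1 ≠ 0`); sums: `x c = a`, `x' c' = a'`: `(x + x') c c' = a c' + a' c`, products: `x x' c c' = a a'`.
`ext_hom`: choose `a x`, `c x` for `x ∈ R` and put `ψ x = π (a x) / π (c x)`. Well-definedness: if `x ι c = ι a`, `x ι c' = ι a'` then `ι (a c') = ι (a' c)`, so `a c' = a' c`, `π a π c' = π a' π c`, `π a / π c = π a' / π c'` (`div_eq_div_iff`). So `ψ x = π a / π c` for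
every such pair, which gives `ψ 1 = 1`, additivity and multiplicativity with the pairs of `frac_adjoin`.
-/

set_option autoImplicit false

namespace MPadcHP

theorem frac_adjoin {A K E : Type*} [CommRing A] [Field K] [Field E] (ι : A →+* K) (π : A →+* E) (G : Set K)
    (hG : ∀ x ∈ G, ∃ a c, π c ≠ 0 ∧ x * ι c = ι a) :
    ∀ x ∈ Algebra.adjoin ℤ G, ∃ a c, π c ≠ 0 ∧ x * ι c = ι a := by
  intro x hx
  induction hx using Algebra.adjoin_induction with
  | mem x hx => exact hG x hx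
  | algebraMap r =>
    refine ⟨(r : A), 1, ?_, ?_⟩
    · rw [map_one]
      exact one_ne_zero
    · rw [map_one, mul_one, map_intCast]
      simp
  | add x y _ _ hx hy =>
    obtain ⟨a, c, h1, h2⟩ := hx
    obtain ⟨a', c', h1', h2'⟩ := hy
    refine ⟨a * c' + a' * c, c * c', ?_, ?_⟩
    · rw [map_mul]
      exact mul_ne_zero h1 h1'
    · rw [map_mul, map_add, map_mul, map_mul, ← h2, ← h2']
      ring
  | mul x y _ _ hx hy =>
    obtain ⟨a, c, h1, h2⟩ := hx
    obtain ⟨a', c', h1', h2'⟩ := hy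
    refine ⟨a * a', c * c', ?_, ?_⟩
    · rw [map_mul]
      exact mul_ne_zero h1 h1'
    · rw [map_mul, map_mul, ← h2, ← h2']
      ring

theorem ext_hom {A K E : Type*} [CommRing A] [Field K] [Field E] (ι : A →+* K) (hι : Function.Injective ι)
    (π : A →+* E) (R : Subalgebra ℤ K) (hR : ∀ x ∈ R, ∃ a c, π c ≠ 0 ∧ x * ι c = ι a) :
    ∃ ψ : R →+* E, ∀ (x : R) (a c : A), π c ≠ 0 → (x : K) * ι c = ι a → ψ x = π a / π c := by
  classical
  have key : ∀ (x : K) (a₁ c₁ a₂ c₂ : A), π c₁ ≠ 0 → π c₂ ≠ 0 → x * ι c₁ = ι a₁ →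
      x * ι c₂ = ι a₂ → π a₁ / π c₁ = π a₂ / π c₂ := by
    intro x a₁ c₁ a₂ c₂ h1 h2 h3 h4
    have h5 : a₁ * c₂ = a₂ * c₁ := by
      apply hι
      rw [map_mul, map_mul, ← h3, ← h4]
      ring
    rw [div_eq_div_iff h1 h2, ← map_mul, ← map_mul, h5]
  choose! a c hc h using hR
  refine ⟨{ toFun := fun x => π (a x) / π (c x), map_one' := ?_, map_mul' := ?_,
            map_zero' := ?_, map_add' := ?_ }, ?_⟩
  · have h1 := key 1 (a ((1 : R) : K)) (c ((1 : R) : K)) 1 1 (hc _ (1 : R).2)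
      (by rw [map_one]; exact one_ne_zero) (h _ (1 : R).2) (by rw [one_mul])
    rw [h1, map_one, div_one]
  · intro x y
    have h1 := key ((x * y : R) : K) (a ((x * y : R) : K)) (c ((x * y : R) : K))
      (a x * a y) (c x * c y) (hc _ (x * y).2)
      (by rw [map_mul]; exact mul_ne_zero (hc _ x.2) (hc _ y.2)) (h _ (x * y).2)
      (by
        rw [map_mul, map_mul, ← h _ x.2, ← h _ y.2]
        show ((x : K) * (y : K)) * _ = _
        ring)
    rw [h1, map_mul, map_mul, div_mul_div_comm]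
  · have h1 := key 0 (a ((0 : R) : K)) (c ((0 : R) : K)) 0 1 (hc _ (0 : R).2)
      (by rw [map_one]; exact one_ne_zero) (h _ (0 : R).2) (by rw [zero_mul, map_zero])
    rw [h1, map_zero, zero_div]
  · intro x y
    have h1 := key ((x + y : R) : K) (a ((x + y : R) : K)) (c ((x + y : R) : K))
      (a x * c y + c x * a y) (c x * c y) (hc _ (x + y).2)
      (by rw [map_mul]; exact mul_ne_zero (hc _ x.2) (hc _ y.2)) (h _ (x + y).2)
      (by
        rw [map_add, map_mul, map_mul, map_mul, ← h _ x.2, ← h _ y.2]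
        show ((x : K) + (y : K)) * _ = _
        ring)
    rw [h1, map_add, map_mul, map_mul, map_mul, div_add_div _ _ (hc _ x.2) (hc _ y.2)]
  · intro x a₁ c₁ h1 h2
    exact key x _ _ _ _ (hc _ x.2) h1 (h _ x.2) h2

end MPadcHP
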