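import Pool.Agent.Lib.MP_adc574_ag_HP.InfC

/-!
# JOB FinA: the lattices `EE k`

`EE nab br k` is the `κ[t]`-span of the `[x^e]_j`, `j ≤ k` (so it contains all `[P]_j`, `P` over `κ`, `j ≤ k`; constants of `κ` act through `κ[t]`: `IsScalarTower κ κ[X] H`).
* `EE_fg0`: `EE 0` is generated by the `[x^e]_0` with `wt e < max M d` (a finite set): strong induction on `wt e` with `red0`. `H_finite`: the same set spans `H` over `K` (`hG.span`).
* `EE_succ`: for `x ∈ EE (k+1)` there is `p ∈ κ[t]` with `x - p • [1]_{k+1} ∈ EE k`. It is enough for the generators `[x^e]_{k+1}` (the set of such `x` is a submodule). Let `p(T) = (monomial e 1)(ξ(T)) = ∏ (ξ_i)^(e i) ∈ κ[T]`;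
  `x^e - aeval φ p ∈ Jac φ` (`hS.gen`: modulo `Jac φ` `x_i = ξ_i(φ)`), `= ∑ B_j ∂_j φ`, and `[∑ B_j ∂_j φ]_{k+1} = (k+1)⁻¹ [dvg B]_k ∈ EE k` (`lv_exa`). And `[aeval φ p]_{k+1} - p(t) [1]_{k+1} ∈ EE k`: by linearity for
  `p = T^m`: `[φ^m]_{k+1} - t^m [1]_{k+1} = ∑_{s<m} t^s [φ^(m-1-s)]_k` (induction on `m` with `lv_mul`).
* `EE_delta`: `δ • [1]_{k+1} ∈ EE k`: the same with `aeval φ δ ∈ Jac φ` (`hS.ann`).
* `EE_nab`: `nab (EE k) ⊂ EE (k+1)`: `nab (p h) = p' h + p nab h` (`leib`, `DK_poly`), `nab_lv`.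
* `EE_fg`: induction with `EE_succ`: `EE (k+1) = EE k ⊔ span {[1]_{k+1}}`.
* `EE_bd`: for a finitely generated `κ[t]`-submodule and a functional `l` a common denominator of the `l` of the generators.
* `EE_span`: every `h ∈ H` has a multiple `p • h ∈ EE 0`, `p ≠ 0` (`hG.span`, common denominators).
-/

set_option autoImplicit false

namespace MPadcHP

open MvPolynomial

universe u

variable {κ : Type u} [Field κ] [CharZero κ] {n : ℕ} {S : Dat κ n} {H : Type u} [AddCommGroup H]
  [Module (RatFunc κ) H] [Module κ H] [IsScalarTower κ (RatFunc κ) H] [Module (Polynomial κ) H]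
  [IsScalarTower (Polynomial κ) (RatFunc κ) H] [IsScalarTower κ (Polynomial κ) H]
  {nab : H →ₗ[κ] H} {br : MvPolynomial (Fin n) κ →ₗ[κ] H}

omit [CharZero κ] [Module (RatFunc κ) H] [IsScalarTower κ (RatFunc κ) H]
  [IsScalarTower (Polynomial κ) (RatFunc κ) H] in
private theorem finAa_mem (j : ℕ) (W : Submodule (Polynomial κ) H) (P : MvPolynomial (Fin n) κ)
    (hW : ∀ e ∈ P.support, lv nab br j (monomial e 1) ∈ W) : lv nab br j P ∈ W := by
  have h1 : P = ∑ e ∈ P.support, coeff e P • monomial e (1 : κ) := by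
    conv_lhs => rw [P.as_sum]
    refine Finset.sum_congr rfl fun e _ => ?_
    rw [smul_monomial, smul_eq_mul, mul_one]
  rw [h1, map_sum]
  refine Submodule.sum_mem _ fun e he => ?_
  rw [map_smul]
  exact Submodule.smul_of_tower_mem W _ (hW e he)

theorem EE_mem (k j : ℕ) (hj : j ≤ k) (P : MvPolynomial (Fin n) κ) :
    lv nab br j P ∈ EE nab br k := by
  refine finAa_mem j _ P fun e _ => Submodule.subset_span ⟨j, e, hj, rfl⟩

private def finAa_F (S : Dat κ n) : Set (Fin n →₀ ℕ) := {e | wt S.w e < max S.M S.d}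

omit [CharZero κ] in
private theorem finAa_finite (hS : S.Ok) : (finAa_F S).Finite := by
  refine (Set.finite_Iic (Finsupp.equivFunOnFinite.symm
    (fun _ : Fin n => max S.M S.d))).subset ?_
  intro e he
  rw [Set.mem_Iic]
  intro i
  show e i ≤ max S.M S.d
  have h1 : wt S.w e < max S.M S.d := he
  have h2 : S.w i * e i ≤ wt S.w e :=
    Finset.single_le_sum (f := fun i => S.w i * e i) (fun _ _ => Nat.zero_le _)
      (Finset.mem_univ i)
  have h3 : e i ≤ S.w i * e i := Nat.le_mul_of_pos_left _ (hS.w_pos i)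
  omega

private theorem finAa_gen (hn : 0 < n) (hS : S.Ok) (hG : IsGM S nab br) :
    ∀ N : ℕ, ∀ e : Fin n →₀ ℕ, wt S.w e < N → lv nab br 0 (monomial e 1) ∈
      Submodule.span (Polynomial κ)
        ((fun e : Fin n →₀ ℕ => lv nab br 0 (monomial e 1)) '' finAa_F S) := by
  intro N
  induction N with
  | zero =>
    intro e he
    exact absurd he (Nat.not_lt_zero _)
  | succ N ih =>
    intro e he
    by_cases h1 : wt S.w e < max S.M S.d
    · exact Submodule.subset_span ⟨e, h1, rfl⟩
    · obtain ⟨P1, P2, h2, h3, h4⟩ := red0 hn hS hG e (by omega) (by omega)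
      have hd := hS.d_pos
      have h5 : (RatFunc.X : RatFunc κ) • lv nab br 0 P1 =
          (Polynomial.X : Polynomial κ) • lv nab br 0 P1 := by
        rw [← RatFunc.algebraMap_X, algebraMap_smul]
      rw [h4, h5]
      refine Submodule.add_mem _ (Submodule.smul_mem _ _ ?_) ?_
      · refine finAa_mem 0 _ P1 fun e' he' => ih e' ?_
        have h6 := h2 e' he'
        omega
      · refine finAa_mem 0 _ P2 fun e' he' => ih e' ?_
        have h6 := h3 e' he'
        omega

theorem EE_fg0 (hn : 0 < n) (hS : S.Ok) (hG : IsGM S nab br) : (EE nab br 0).FG := by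
  have h1 : EE nab br 0 = Submodule.span (Polynomial κ)
      ((fun e : Fin n →₀ ℕ => lv nab br 0 (monomial e 1)) '' finAa_F S) := by
    apply le_antisymm
    · refine Submodule.span_le.mpr ?_
      rintro _ ⟨j, e, hj, rfl⟩
      have h2 : j = 0 := Nat.le_zero.mp hj
      rw [h2]
      exact finAa_gen hn hS hG (wt S.w e + 1) e (Nat.lt_succ_self _)
    · refine Submodule.span_le.mpr ?_
      rintro _ ⟨e, _, rfl⟩
      exact Submodule.subset_span ⟨0, e, le_refl 0, rfl⟩
  rw [h1]
  exact Submodule.fg_span ((finAa_finite hS).image _)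

theorem H_finite (hn : 0 < n) (hS : S.Ok) (hG : IsGM S nab br) :
    Module.Finite (RatFunc κ) H := by
  have h1 : Submodule.span (RatFunc κ)
      ((fun e : Fin n →₀ ℕ => lv nab br 0 (monomial e 1)) '' finAa_F S) = ⊤ := by
    rw [eq_top_iff, ← hG.span]
    refine Submodule.span_le.mpr ?_
    rintro _ ⟨P, rfl⟩
    have h2 : lv nab br 0 P ∈ Submodule.span (Polynomial κ)
        ((fun e : Fin n →₀ ℕ => lv nab br 0 (monomial e 1)) '' finAa_F S) :=
      finAa_mem 0 _ P fun e _ => finAa_gen hn hS hG (wt S.w e + 1) e (Nat.lt_succ_self _)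
    rw [lv_zero] at h2
    exact Submodule.span_le_restrictScalars (Polynomial κ) (RatFunc κ) _ h2
  rw [Module.finite_def, ← h1]
  exact Submodule.fg_span ((finAa_finite hS).image _)

omit [CharZero κ] [IsScalarTower κ (RatFunc κ) H] [IsScalarTower κ (Polynomial κ) H]
  [Module κ H] in
theorem finab_X (h : H) : (RatFunc.X : RatFunc κ) • h = (Polynomial.X : Polynomial κ) • h := by
  rw [← RatFunc.algebraMap_X, algebraMap_smul]

omit [CharZero κ] [Module (RatFunc κ) H] [IsScalarTower κ (RatFunc κ) H]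
  [IsScalarTower (Polynomial κ) (RatFunc κ) H] in
theorem finab_C (a : κ) (h : H) : (Polynomial.C a : Polynomial κ) • h = a • h := by
  rw [← Polynomial.algebraMap_eq, algebraMap_smul]

omit [CharZero κ] [Module (RatFunc κ) H] [IsScalarTower κ (RatFunc κ) H]
  [IsScalarTower (Polynomial κ) (RatFunc κ) H] in
theorem finab_smul (W : Submodule (Polynomial κ) H) (a : κ) (h : H) (hh : h ∈ W) : a • h ∈ W := by
  rw [← finab_C]
  exact W.smul_mem _ hh

omit [CharZero κ] [Module (RatFunc κ) H] [IsScalarTower κ (RatFunc κ) H]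
  [IsScalarTower (Polynomial κ) (RatFunc κ) H] [IsScalarTower κ (Polynomial κ) H] in
theorem finab_mono (k : ℕ) : EE nab br k ≤ EE nab br (k + 1) := by
  apply Submodule.span_mono
  rintro h ⟨j, e, hj, rfl⟩
  exact ⟨j, e, hj.trans (Nat.le_succ k), rfl⟩

theorem finab_pow (hG : IsGM S nab br) (k m : ℕ) :
    lv nab br (k + 1) (S.φ ^ m) - (Polynomial.X ^ m : Polynomial κ) • lv nab br (k + 1) 1 ∈
      EE nab br k := by
  induction m with
  | zero =>
    rw [pow_zero, pow_zero, one_smul, sub_self]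
    exact Submodule.zero_mem _
  | succ m ih =>
    have e : lv nab br (k + 1) (S.φ ^ (m + 1)) -
        (Polynomial.X ^ (m + 1) : Polynomial κ) • lv nab br (k + 1) 1 =
        (Polynomial.X : Polynomial κ) • (lv nab br (k + 1) (S.φ ^ m) -
          (Polynomial.X ^ m : Polynomial κ) • lv nab br (k + 1) 1) + lv nab br k (S.φ ^ m) := by
      rw [pow_succ', lv_mul hG, pow_succ', mul_smul, smul_sub, finab_X]
      abel
    rw [e]
    exact Submodule.add_mem _ (Submodule.smul_mem _ _ ih) (EE_mem k k le_rfl _)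

theorem finab_aeval (hG : IsGM S nab br) (k : ℕ) (p : Polynomial κ) :
    lv nab br (k + 1) (Polynomial.aeval S.φ p) - p • lv nab br (k + 1) 1 ∈ EE nab br k := by
  induction p using Polynomial.induction_on' with
  | add p q hp hq =>
    have e : lv nab br (k + 1) (Polynomial.aeval S.φ (p + q)) - (p + q) • lv nab br (k + 1) 1 =
        (lv nab br (k + 1) (Polynomial.aeval S.φ p) - p • lv nab br (k + 1) 1) +
        (lv nab br (k + 1) (Polynomial.aeval S.φ q) - q • lv nab br (k + 1) 1) := by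
      rw [map_add, map_add, add_smul]
      abel
    rw [e]
    exact Submodule.add_mem _ hp hq
  | monomial m a =>
    have e : lv nab br (k + 1) (Polynomial.aeval S.φ (Polynomial.monomial m a)) -
        (Polynomial.monomial m a) • lv nab br (k + 1) 1 =
        a • (lv nab br (k + 1) (S.φ ^ m) -
          (Polynomial.X ^ m : Polynomial κ) • lv nab br (k + 1) 1) := by
      rw [Polynomial.aeval_monomial, ← Polynomial.C_mul_X_pow_eq_monomial, mul_smul, finab_C,
        ← Algebra.smul_def, map_smul, smul_sub]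
    rw [e]
    exact finab_smul _ _ _ (finab_pow hG k m)

theorem finab_jac (hG : IsGM S nab br) (k : ℕ) (P : MvPolynomial (Fin n) κ) (hP : P ∈ Jac S.φ) :
    lv nab br (k + 1) P ∈ EE nab br k := by
  have key : ∀ P ∈ Jac S.φ, ∀ Q, lv nab br (k + 1) (Q * P) ∈ EE nab br k := by
    intro P hP
    refine Submodule.span_induction ?_ ?_ ?_ ?_ hP
    · rintro x ⟨j, rfl⟩ Q
      have h := lv_exa hG k j Q
      have hk : ((k : κ) + 1) ≠ 0 := by exact_mod_cast Nat.succ_ne_zero k
      have h2 : lv nab br (k + 1) (Q * pderiv j S.φ) =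
          ((k : κ) + 1)⁻¹ • lv nab br k (pderiv j Q) := by
        rw [h, smul_smul, inv_mul_cancel₀ hk, one_smul]
      rw [h2]
      exact finab_smul _ _ _ (EE_mem k k le_rfl _)
    · intro Q
      rw [mul_zero, map_zero]
      exact Submodule.zero_mem _
    · intro x y _ _ hx hy Q
      rw [mul_add, map_add]
      exact Submodule.add_mem _ (hx Q) (hy Q)
    · intro a x _ hx Q
      rw [smul_eq_mul, ← mul_assoc]
      exact hx (Q * a)
  have := key P hP 1
  rwa [one_mul] at this

theorem finab_lift (hG : IsGM S nab br) (k : ℕ) (P : MvPolynomial (Fin n) κ)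
    (p : Polynomial κ) (hp : P - Polynomial.aeval S.φ p ∈ Jac S.φ) :
    lv nab br (k + 1) P - p • lv nab br (k + 1) 1 ∈ EE nab br k := by
  have e : lv nab br (k + 1) P - p • lv nab br (k + 1) 1 =
      lv nab br (k + 1) (P - Polynomial.aeval S.φ p) +
      (lv nab br (k + 1) (Polynomial.aeval S.φ p) - p • lv nab br (k + 1) 1) := by
    rw [map_sub]
    abel
  rw [e]
  exact Submodule.add_mem _ (finab_jac hG k _ hp) (finab_aeval hG k p)

omit [CharZero κ] in
theorem finab_ex (hS : S.Ok) (P : MvPolynomial (Fin n) κ) :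
    ∃ p : Polynomial κ, P - Polynomial.aeval S.φ p ∈ Jac S.φ := by
  induction P using MvPolynomial.induction_on with
  | C a =>
    refine ⟨Polynomial.C a, ?_⟩
    rw [Polynomial.aeval_C, MvPolynomial.algebraMap_eq, sub_self]
    exact Ideal.zero_mem _
  | add P Q hP hQ =>
    obtain ⟨p, hp⟩ := hP
    obtain ⟨q, hq⟩ := hQ
    refine ⟨p + q, ?_⟩
    have e : P + Q - Polynomial.aeval S.φ (p + q) =
        (P - Polynomial.aeval S.φ p) + (Q - Polynomial.aeval S.φ q) := by
      rw [map_add]
      ring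
    rw [e]
    exact Ideal.add_mem _ hp hq
  | mul_X P i hP =>
    obtain ⟨p, hp⟩ := hP
    refine ⟨p * S.ξ i, ?_⟩
    have e : P * X i - Polynomial.aeval S.φ (p * S.ξ i) =
        X i * (P - Polynomial.aeval S.φ p) +
          Polynomial.aeval S.φ p * (X i - Polynomial.aeval S.φ (S.ξ i)) := by
      rw [map_mul]
      ring
    rw [e]
    exact Ideal.add_mem _ (Ideal.mul_mem_left _ _ hp) (Ideal.mul_mem_left _ _ (hS.gen i))

theorem EE_succ (hS : S.Ok) (hG : IsGM S nab br) (k : ℕ) (x : H) (hx : x ∈ EE nab br (k + 1)) :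
    ∃ p : Polynomial κ, x - p • lv nab br (k + 1) 1 ∈ EE nab br k := by
  refine Submodule.span_induction ?_ ?_ ?_ ?_ hx
  · rintro h ⟨j, e, hj, rfl⟩
    rcases Nat.lt_or_ge k j with hk | hk
    · obtain rfl : j = k + 1 := le_antisymm hj hk
      obtain ⟨p, hp⟩ := finab_ex hS (monomial e (1 : κ))
      exact ⟨p, finab_lift hG k _ p hp⟩
    · refine ⟨0, ?_⟩
      rw [zero_smul, sub_zero]
      exact EE_mem k j hk _
  · refine ⟨0, ?_⟩
    rw [zero_smul, sub_zero]
    exact Submodule.zero_mem _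
  · rintro x y _ _ ⟨p, hp⟩ ⟨q, hq⟩
    refine ⟨p + q, ?_⟩
    have e : x + y - (p + q) • lv nab br (k + 1) 1 =
        (x - p • lv nab br (k + 1) 1) + (y - q • lv nab br (k + 1) 1) := by
      rw [add_smul]
      abel
    rw [e]
    exact Submodule.add_mem _ hp hq
  · rintro a x _ ⟨p, hp⟩
    refine ⟨a * p, ?_⟩
    rw [mul_smul, ← smul_sub]
    exact Submodule.smul_mem _ _ hp

theorem EE_lift (hS : S.Ok) (hG : IsGM S nab br) (k : ℕ) (P : MvPolynomial (Fin n) κ)
    (p : Polynomial κ) (hp : P - Polynomial.aeval S.φ p ∈ Jac S.φ) :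
    lv nab br (k + 1) P - p • lv nab br (k + 1) 1 ∈ EE nab br k :=
  finab_lift hG k P p hp

theorem EE_delta (hS : S.Ok) (hG : IsGM S nab br) (k : ℕ) :
    S.δ • lv nab br (k + 1) 1 ∈ EE nab br k := by
  have h0 : (0 : MvPolynomial (Fin n) κ) - Polynomial.aeval S.φ S.δ ∈ Jac S.φ := by
    rw [zero_sub]
    exact (Jac S.φ).neg_mem hS.ann
  have h := finab_lift (nab := nab) (br := br) hG k 0 S.δ h0
  rw [map_zero, zero_sub] at h
  exact (Submodule.neg_mem_iff _).1 h

theorem EE_nab (hG : IsGM S nab br) (k : ℕ) (x : H) (hx : x ∈ EE nab br k) :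
    nab x ∈ EE nab br (k + 1) := by
  refine Submodule.span_induction (p := fun x _ => nab x ∈ EE nab br (k + 1)) ?_ ?_ ?_ ?_ hx
  · rintro h ⟨j, e, hj, rfl⟩
    rw [nab_lv]
    exact finab_smul _ _ _ (EE_mem (k + 1) (j + 1) (Nat.succ_le_succ hj) _)
  · rw [map_zero]
    exact Submodule.zero_mem _
  · intro x y _ _ hx hy
    rw [map_add]
    exact Submodule.add_mem _ hx hy
  · intro p x hx hnx
    have e : nab (p • x) = Polynomial.derivative p • x + p • nab x := by
      rw [← algebraMap_smul (RatFunc κ) p x, hG.leib, DK_poly, algebraMap_smul, algebraMap_smul]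
    rw [e]
    exact Submodule.add_mem _ (Submodule.smul_mem _ _ (finab_mono k hx))
      (Submodule.smul_mem _ _ hnx)

theorem EE_fg (hn : 0 < n) (hS : S.Ok) (hG : IsGM S nab br) (k : ℕ) : (EE nab br k).FG := by
  induction k with
  | zero => exact EE_fg0 hn hS hG
  | succ k ih =>
    have e : EE nab br (k + 1) = EE nab br k ⊔ Submodule.span (Polynomial κ)
        {lv nab br (k + 1) (1 : MvPolynomial (Fin n) κ)} := by
      apply le_antisymm
      · intro x hx
        obtain ⟨p, hp⟩ := EE_succ hS hG k x hx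
        have e : x = (x - p • lv nab br (k + 1) 1) + p • lv nab br (k + 1) 1 := by abel
        rw [e]
        exact Submodule.add_mem_sup hp
          (Submodule.smul_mem _ _ (Submodule.mem_span_singleton_self _))
      · apply sup_le (finab_mono k)
        rw [Submodule.span_singleton_le_iff_mem]
        exact EE_mem (k + 1) (k + 1) le_rfl _
    rw [e]
    exact ih.sup (Submodule.fg_span_singleton _)

theorem EE_bd (hn : 0 < n) (hS : S.Ok) (hG : IsGM S nab br) (k : ℕ)
    (l : H →ₗ[RatFunc κ] RatFunc κ) : ∃ p : Polynomial κ, p ≠ 0 ∧ ∀ x ∈ EE nab br k,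
      ∃ a : Polynomial κ, algebraMap (Polynomial κ) (RatFunc κ) p * l x =
        algebraMap (Polynomial κ) (RatFunc κ) a := by
  classical
  obtain ⟨G, hGs⟩ := EE_fg (S := S) hn hS hG k
  obtain ⟨b, hb⟩ := IsLocalization.exist_integer_multiples_of_finset
    (nonZeroDivisors (Polynomial κ)) (G.image l)
  refine ⟨(b : Polynomial κ), nonZeroDivisors.ne_zero b.2, ?_⟩
  intro x hx
  rw [← hGs] at hx
  refine Submodule.span_induction ?_ ?_ ?_ ?_ hx
  · intro g hg
    obtain ⟨a, ha⟩ := hb (l g) (Finset.mem_image_of_mem _ hg)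
    refine ⟨a, ?_⟩
    rw [ha, Algebra.smul_def]
  · exact ⟨0, by rw [map_zero, mul_zero, map_zero]⟩
  · rintro x y _ _ ⟨a, ha⟩ ⟨c, hc⟩
    exact ⟨a + c, by rw [map_add, mul_add, ha, hc, map_add]⟩
  · rintro c x _ ⟨a, ha⟩
    refine ⟨c * a, ?_⟩
    rw [← algebraMap_smul (RatFunc κ) c x, map_smul, smul_eq_mul, mul_left_comm, ha, map_mul]

theorem EE_span (hG : IsGM S nab br) (k : ℕ) (h : H) :
    ∃ p : Polynomial κ, p ≠ 0 ∧ p • h ∈ EE nab br k := by
  have h1 : h ∈ Submodule.span (RatFunc κ) (Set.range br) := by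
    rw [hG.span]
    exact Submodule.mem_top
  induction h1 using Submodule.span_induction with
  | mem x hx =>
    obtain ⟨P, rfl⟩ := hx
    refine ⟨1, one_ne_zero, ?_⟩
    rw [one_smul, ← lv_zero (nab := nab) (br := br) P]
    exact EE_mem k 0 (Nat.zero_le k) P
  | zero =>
    refine ⟨1, one_ne_zero, ?_⟩
    rw [smul_zero]
    exact Submodule.zero_mem _
  | add x y _ _ hx hy =>
    obtain ⟨p, hp, hp'⟩ := hx
    obtain ⟨q, hq, hq'⟩ := hy
    refine ⟨p * q, mul_ne_zero hp hq, ?_⟩
    rw [smul_add]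
    refine Submodule.add_mem _ ?_ ?_
    · rw [mul_comm, mul_smul]
      exact Submodule.smul_mem _ _ hp'
    · rw [mul_smul]
      exact Submodule.smul_mem _ _ hq'
  | smul r x _ hx =>
    obtain ⟨p, hp, hp'⟩ := hx
    refine ⟨r.denom * p, mul_ne_zero r.denom_ne_zero hp, ?_⟩
    have h2 : (r.denom * p) • (r • x) = r.num • (p • x) := by
      rw [← algebraMap_smul (RatFunc κ) (r.denom * p), ← algebraMap_smul (RatFunc κ) r.num,
        ← algebraMap_smul (RatFunc κ) p, smul_smul, smul_smul, map_mul]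
      congr 1
      have h3 : algebraMap (Polynomial κ) (RatFunc κ) r.denom ≠ 0 := by
        rw [Ne, map_eq_zero_iff _ (RatFunc.algebraMap_injective κ)]
        exact r.denom_ne_zero
      have h4 : algebraMap (Polynomial κ) (RatFunc κ) r.num =
          r * algebraMap (Polynomial κ) (RatFunc κ) r.denom := by
        conv_rhs => rw [← r.num_div_denom]
        rw [RatFunc.num_div_denom]
        rw [← div_eq_iff h3]
        exact RatFunc.num_div_denom r
      rw [h4]
      ring
    rw [h2]
    exact Submodule.smul_mem _ _ hp'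

end MPadcHP
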