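import Pool.Agent.Lib.MP_adc574_ag_HP.Defs

/-!
# JOB FinB: the trace identity

`φ_i = ∂_i φ`, `J = Jac φ`, `φ_ij = ∂_j ∂_i φ`. By `hS.ann` `δ(φ) = ∑ q_i φ_i`, by `hS.gen` `x_l - ξ_l(φ) = ∑_i r_li φ_i`.
(1) Apply `∂_j` to the second identity: `[l = j] - ξ_l'(φ) φ_j = ∑_i (∂_j r_li) φ_i + ∑_i r_li φ_ij`, so `∑_i r_li φ_ij ≡ [l = j] mod J`: over the commutative ring `κ[x]/J` the matrices `R = (r_li)` and
`Hs = (φ_ij)` satisfy `R Hs = 1`, hence `Hs R = 1` (`Matrix.mul_eq_one_comm`).
(2) Apply `∂_j` to the first: `δ'(φ) φ_j = ∑_i (∂_j q_i) φ_i + ∑_i q_i φ_ij`, so `∑_i q_i φ_ij ≡ 0`, i.e. `q Hs = 0`, hence `q_i ≡ 0 mod J`.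
(3) Apply `∂_l` to (2): `δ''(φ) φ_l φ_j + δ'(φ) φ_jl = ∑_i (∂_l ∂_j q_i) φ_i + ∑_i (∂_j q_i) φ_il + ∑_i (∂_l q_i) φ_ij + ∑_i q_i ∂_l φ_ij`. Modulo `J`, with `Qm_ji = ∂_j q_i` and `Hs` symmetric:
`δ'(φ) Hs ≡ Qm Hs + (Qm Hs)ᵀ = Qm Hs + Hs Qmᵀ`. Multiply by `R` on the right: `δ'(φ) 1 ≡ Qm + Hs Qmᵀ R`; trace: `n δ'(φ) ≡ tr Qm + tr (Qmᵀ R Hs) = 2 tr Qm = 2 dvg q`.
(`Polynomial.aeval` and `pderiv`: `pderiv j (aeval φ p) = aeval φ p' * pderiv j φ`: `Derivation.leibniz`-induction, e.g. `Polynomial.induction_on'`, or `Derivation.comp_aeval_eq`.)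
-/

set_option autoImplicit false

namespace MPadcHP

open MvPolynomial

universe u

private theorem finB_comm {κ : Type u} [Field κ] {n : ℕ} (i j : Fin n)
    (P : MvPolynomial (Fin n) κ) : pderiv i (pderiv j P) = pderiv j (pderiv i P) := by
  have h : ⁅(pderiv i : Derivation κ (MvPolynomial (Fin n) κ) (MvPolynomial (Fin n) κ)),
      (pderiv j : Derivation κ (MvPolynomial (Fin n) κ) (MvPolynomial (Fin n) κ))⁆ = 0 := by
    apply MvPolynomial.derivation_ext
    intro k
    rw [Derivation.commutator_apply, pderiv_X, pderiv_X, Derivation.zero_apply]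
    have h1 : ∀ (a b : Fin n), (Pi.single a 1 : Fin n → MvPolynomial (Fin n) κ) b =
        C (if b = a then 1 else 0) := by
      intro a b
      by_cases hab : b = a
      · subst hab
        simp
      · simp [hab]
    rw [h1, h1, pderiv_C, pderiv_C, sub_zero]
  have h2 := DFunLike.congr_fun h P
  rw [Derivation.commutator_apply, Derivation.zero_apply, sub_eq_zero] at h2
  exact h2

/-- the derivative of a combination of the `∂_i φ` modulo `J` -/
private theorem finB_sum {κ : Type u} [Field κ] {n : ℕ} {A : Type*} [CommRing A]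
    (p : MvPolynomial (Fin n) κ →+* A) (φ : MvPolynomial (Fin n) κ)
    (hp : ∀ i, p (pderiv i φ) = 0) (f : Fin n → MvPolynomial (Fin n) κ) (j : Fin n) :
    p (pderiv j (∑ i, f i * pderiv i φ)) = ∑ i, p (f i) * p (pderiv j (pderiv i φ)) := by
  rw [map_sum, map_sum]
  refine Finset.sum_congr rfl fun i _ => ?_
  rw [pderiv_mul, map_add, map_mul, map_mul, hp, mul_zero, zero_add]

private theorem finB_chain {κ : Type u} [Field κ] {n : ℕ} (φ : MvPolynomial (Fin n) κ)
    (p : Polynomial κ) (j : Fin n) :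
    pderiv j (Polynomial.aeval φ p) =
      Polynomial.aeval φ (Polynomial.derivative p) * pderiv j φ := by
  have h := Derivation.comp_aeval_eq (a := φ) (pderiv j) p
  rw [h, smul_eq_mul]

private theorem finB_vec {A : Type*} [CommRing A] {n : ℕ} (H R : Matrix (Fin n) (Fin n) A)
    (h1 : R * H = 1) (v : Fin n → A) (h2 : Matrix.vecMul v H = 0) (i : Fin n) : v i = 0 := by
  have h1' : H * R = 1 := mul_eq_one_comm.mp h1
  have h3 := congrArg (fun v => Matrix.vecMul v R) h2
  simp only [Matrix.vecMul_vecMul, h1', Matrix.vecMul_one, Matrix.zero_vecMul] at h3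
  exact congrFun h3 i

private theorem finB_matrix {A : Type*} [CommRing A] {n : ℕ} (H R Q : Matrix (Fin n) (Fin n) A)
    (e : A) (h1 : R * H = 1) (hsym : H.transpose = H)
    (h3 : e • H = Q * H + (Q * H).transpose) : 2 * Q.trace = (n : A) * e := by
  have h1' : H * R = 1 := mul_eq_one_comm.mp h1
  have h4 : e • (1 : Matrix (Fin n) (Fin n) A) = Q + H * Q.transpose * R := by
    have h5 := congrArg (fun M => M * R) h3
    rw [Matrix.smul_mul, h1', Matrix.add_mul, Matrix.mul_assoc, h1', Matrix.mul_one,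
      Matrix.transpose_mul, hsym] at h5
    exact h5
  have h5 := congrArg Matrix.trace h4
  rw [Matrix.trace_smul, Matrix.trace_one, Matrix.trace_add, Matrix.trace_mul_comm,
    ← Matrix.mul_assoc, h1, Matrix.one_mul, Matrix.trace_transpose, Fintype.card_fin,
    smul_eq_mul] at h5
  rw [mul_comm (n : A), h5]
  ring

private theorem finB_core {κ : Type u} [Field κ] {n : ℕ} {A : Type*} [CommRing A]
    (p : MvPolynomial (Fin n) κ →+* A) (φ : MvPolynomial (Fin n) κ) (δ : Polynomial κ)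
    (ξ : Fin n → Polynomial κ)
    (hp0 : ∀ i, p (pderiv i φ) = 0)
    (q : Fin n → MvPolynomial (Fin n) κ) (hq : ∑ i, q i * pderiv i φ = Polynomial.aeval φ δ)
    (r : Fin n → Fin n → MvPolynomial (Fin n) κ)
    (hr : ∀ l, ∑ i, r l i * pderiv i φ = X l - Polynomial.aeval φ (ξ l)) :
    2 * p (dvg q) = (n : A) * p (Polynomial.aeval φ (Polynomial.derivative δ)) := by
  have h1 : (Matrix.of fun l i => p (r l i)) *
      (Matrix.of fun i j => p (pderiv j (pderiv i φ))) = 1 := by
    ext l j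
    rw [Matrix.mul_apply]
    change ∑ i, p (r l i) * p (pderiv j (pderiv i φ)) = _
    rw [← finB_sum p φ hp0 (r l) j, hr l, map_sub, finB_chain, map_sub, map_mul, hp0, mul_zero,
      sub_zero, pderiv_X, Matrix.one_apply]
    by_cases hlj : l = j
    · subst hlj
      simp
    · rw [if_neg hlj, Pi.single_eq_of_ne hlj, map_zero]
  have h2 : Matrix.vecMul (fun i => p (q i)) (Matrix.of fun i j => p (pderiv j (pderiv i φ))) =
      0 := by
    funext j
    change ∑ i, p (q i) * p (pderiv j (pderiv i φ)) = 0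
    rw [← finB_sum p φ hp0 q j, hq, finB_chain, map_mul, hp0, mul_zero]
  have h2' : ∀ i, p (q i) = 0 := finB_vec _ _ h1 _ h2
  have hsym : (Matrix.of fun i j => p (pderiv j (pderiv i φ))).transpose =
      Matrix.of fun i j => p (pderiv j (pderiv i φ)) := by
    ext i j
    change p (pderiv i (pderiv j φ)) = p (pderiv j (pderiv i φ))
    rw [finB_comm]
  have h3 : p (Polynomial.aeval φ (Polynomial.derivative δ)) •
      (Matrix.of fun i j => p (pderiv j (pderiv i φ))) =
      (Matrix.of fun j i => p (pderiv j (q i))) * (Matrix.of fun i j => p (pderiv j (pderiv i φ))) +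
      ((Matrix.of fun j i => p (pderiv j (q i))) *
        (Matrix.of fun i j => p (pderiv j (pderiv i φ)))).transpose := by
    ext j l
    rw [Matrix.smul_apply, smul_eq_mul, Matrix.add_apply, Matrix.transpose_apply, Matrix.mul_apply,
      Matrix.mul_apply]
    change p (Polynomial.aeval φ (Polynomial.derivative δ)) * p (pderiv l (pderiv j φ)) =
      ∑ i, p (pderiv j (q i)) * p (pderiv l (pderiv i φ)) +
        ∑ i, p (pderiv l (q i)) * p (pderiv j (pderiv i φ))
    have e1 : pderiv l (pderiv j (∑ i, q i * pderiv i φ)) =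
        pderiv l (Polynomial.aeval φ (Polynomial.derivative δ) * pderiv j φ) := by
      rw [hq, finB_chain]
    have e3 : p (pderiv l (Polynomial.aeval φ (Polynomial.derivative δ) * pderiv j φ)) =
        p (Polynomial.aeval φ (Polynomial.derivative δ)) * p (pderiv l (pderiv j φ)) := by
      rw [pderiv_mul, map_add, map_mul, map_mul, hp0, mul_zero, zero_add]
    rw [← e3, ← e1, map_sum, map_sum, map_sum, ← Finset.sum_add_distrib]
    refine Finset.sum_congr rfl fun i _ => ?_
    rw [pderiv_mul, map_add, pderiv_mul, pderiv_mul, map_add, map_add, map_add, map_mul, map_mul,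
      map_mul, map_mul, hp0, h2', mul_zero, zero_mul, zero_add, add_zero]
  have h6 : p (dvg q) = (Matrix.of fun j i => p (pderiv j (q i))).trace := by
    unfold dvg Matrix.trace
    rw [map_sum]
    rfl
  rw [h6]
  exact finB_matrix _ _ _ _ h1 hsym h3

theorem trace_id {κ : Type u} [Field κ] {n : ℕ} (S : Dat κ n) (hS : S.Ok) :
    ∃ q : Fin n → MvPolynomial (Fin n) κ,
      Polynomial.aeval S.φ S.δ = ∑ i, q i * pderiv i S.φ ∧
      2 * dvg q - (n : MvPolynomial (Fin n) κ) *
        Polynomial.aeval S.φ (Polynomial.derivative S.δ) ∈ Jac S.φ := by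
  obtain ⟨q, hq⟩ := Ideal.mem_span_range_iff_exists_fun.mp hS.ann
  have hgen : ∀ l, ∃ r : Fin n → MvPolynomial (Fin n) κ,
      ∑ i, r i * pderiv i S.φ = X l - Polynomial.aeval S.φ (S.ξ l) :=
    fun l => Ideal.mem_span_range_iff_exists_fun.mp (hS.gen l)
  choose r hr using hgen
  refine ⟨q, hq.symm, ?_⟩
  have hp0 : ∀ i, Ideal.Quotient.mk (Jac S.φ) (pderiv i S.φ) = 0 := fun i =>
    Ideal.Quotient.eq_zero_iff_mem.mpr (Ideal.subset_span ⟨i, rfl⟩)
  have h := finB_core (Ideal.Quotient.mk (Jac S.φ)) S.φ S.δ S.ξ hp0 q hq r hr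
  apply Ideal.Quotient.eq_zero_iff_mem.mp
  rw [map_sub, map_mul, map_mul, map_natCast, map_ofNat, h, sub_self]

end MPadcHP
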