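import Pool.Agent.Lib.MP_adc574_ag_HP.Defs

/-!
# JOB KosD: divergence free polynomial vector fields

`poincare`: `n ≥ 2`, `B_j` with monomials `wtp e ≤ N + w j`, divergence 0. Let `E` be the operator on monomials: for `B_j` put
`S_j(x^e) = (wtp e - w j)⁻¹ x^e` (`wtp e ≥ ∑ w > w j` since `n ≥ 2`, `w > 0`, so `wtp e - w j > 0`), extended linearly, `B'_j = S_j B_j`. Put
`A i j = w_i x_i B'_j - w_j x_j B'_i` (antisymmetric, diagonal 0). Its monomials: `e + [i]` with `e ∈ B_j`: `wtp (e + [i]) = wtp e + w i ≤ N + w i + w j`.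
`∑ i, ∂_i A i j = ∑_i w_i ∂_i(x_i B'_j) - w_j ∂_j(x_j ...)...`: on the monomial `x^e` of `B'_j`: `∑ i, ∂_i (w_i x_i x^e) = wtp(e) x^e`; and
`∑ i, ∂_i (w_j x_j B'_i) = w_j B'_j + w_j x_j dvg B'`. `dvg B' = 0`: the monomial `x^f` of `∂_i B_i` comes from `e = f + [i]`, `wtp e - w i = wtp f` does not depend on `i`, so
`dvg B' = ∑_f (wtp f)⁻¹ (coefficient of x^f in dvg B) x^f = 0`. So `∑ i, ∂_i A i j = ∑_e (wtp e - w j) (coefficient of B'_j) x^e = B_j`.

`zz_mul`: `zz (f A) (∂ f) = f * zz A (∂ f)` since `∑_{i,j} (∂_i f) A_ij (∂_j f) = 0`.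
`dvg_asym`: `dvg (fun j => ∑ i, C i j * g i) = ...`: for `C` antisymmetric and `g i = ∂_i f`: `∑ j, ∂_j (∑ i, C i j ∂_i f) = - zz C (∂ f)`:
`∑_{i,j} (∂_j C_ij) ∂_i f + ∑ C_ij ∂_j ∂_i f`, the last sum is 0 and `∑_i (∑_j ∂_j C_ij) ∂_i f = - ∑_i (∑_j ∂_j C_ji) ∂_i f = - zz C (∂ f)`.
`dvg_dvg`: `dvg (fun j => ∑ i, ∂_i A i j) = 0` for `A` antisymmetric (characteristic 0: `∂_i ∂_j` is symmetric).
-/

set_option autoImplicit false

namespace MPadcHP

open MvPolynomial

variable {K : Type*} [Field K] [CharZero K] {n : ℕ}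

private noncomputable def kosd_sc (h : (Fin n →₀ ℕ) → K) (P : MvPolynomial (Fin n) K) :
    MvPolynomial (Fin n) K :=
  ∑ e ∈ P.support, monomial e (h e * coeff e P)

omit [CharZero K] in
private theorem kosd_coeff (h : (Fin n →₀ ℕ) → K) (P : MvPolynomial (Fin n) K) (e : Fin n →₀ ℕ) :
    coeff e (kosd_sc h P) = h e * coeff e P := by
  classical
  unfold kosd_sc
  rw [coeff_sum]
  simp only [coeff_monomial]
  rw [Finset.sum_ite_eq' P.support e (fun x => h x * coeff x P)]
  split_ifs with h1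
  · rfl
  · rw [notMem_support_iff.1 h1, mul_zero]

private theorem kosd_double (S : MvPolynomial (Fin n) K) (h : S = - S) : S = 0 := by
  have h1 : (2 : MvPolynomial (Fin n) K) * S = 0 := by
    have h2 : S + S = 0 := by
      nth_rewrite 1 [h]
      exact neg_add_cancel S
    rw [two_mul, h2]
  rcases mul_eq_zero.1 h1 with h2 | h2
  · exact absurd h2 two_ne_zero
  · exact h2

omit [CharZero K] in
private theorem kosd_comm (i j : Fin n) (P : MvPolynomial (Fin n) K) :
    pderiv i (pderiv j P) = pderiv j (pderiv i P) := by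
  classical
  ext e
  rw [coeff_pderiv, coeff_pderiv, coeff_pderiv, coeff_pderiv]
  have h1 : e + Finsupp.single i 1 + Finsupp.single j 1 =
      e + Finsupp.single j 1 + Finsupp.single i 1 := by
    rw [add_assoc, add_comm (Finsupp.single i 1), ← add_assoc]
  rw [h1]
  by_cases hij : i = j
  · subst hij
    rfl
  · have h2 : (e + Finsupp.single i 1 : Fin n →₀ ℕ) j = e j := by
      rw [Finsupp.add_apply, Finsupp.single_eq_of_ne (fun h => hij h.symm), add_zero]
    have h3 : (e + Finsupp.single j 1 : Fin n →₀ ℕ) i = e i := by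
      rw [Finsupp.add_apply, Finsupp.single_eq_of_ne hij, add_zero]
    rw [h2, h3]
    ring

private theorem kosd_anti (A s : Fin n → Fin n → MvPolynomial (Fin n) K) (hA : Asym A)
    (hs : ∀ i j, s i j = s j i) : ∑ j, ∑ i, A i j * s i j = 0 := by
  apply kosd_double
  calc ∑ j, ∑ i, A i j * s i j = ∑ i, ∑ j, A i j * s i j := Finset.sum_comm
    _ = ∑ i, ∑ j, -(A j i * s j i) := by
        refine Finset.sum_congr rfl fun i _ => Finset.sum_congr rfl fun j _ => ?_
        rw [hA.2 i j, hs i j, neg_mul]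
    _ = - ∑ j, ∑ i, A i j * s i j := by
        simp only [Finset.sum_neg_distrib]

theorem poincare (hn : 2 ≤ n) (w : Fin n → ℕ) (hw : ∀ i, 0 < w i) (N : ℕ)
    (B : Fin n → MvPolynomial (Fin n) K) (hB : ∀ j, ∀ e ∈ (B j).support, wtp w e ≤ N + w j)
    (hdiv : dvg B = 0) :
    ∃ A : Fin n → Fin n → MvPolynomial (Fin n) K, Asym A ∧
      (∀ i j, ∀ e ∈ (A i j).support, wtp w e ≤ N + w i + w j) ∧
      ∀ j, B j = ∑ i, pderiv i (A i j) := by
  classical
  have hw0 : ∀ (e : Fin n →₀ ℕ) (j : Fin n), w j < wtp w e := by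
    intro e j
    obtain ⟨i, hi⟩ : ∃ i : Fin n, i ≠ j := by
      have : Nontrivial (Fin n) := Fin.nontrivial_iff_two_le.2 hn
      exact exists_ne j
    have h1 : w i * (e i + 1) + w j * (e j + 1) ≤ wtp w e := by
      have h2 := Finset.add_le_sum (s := Finset.univ) (f := fun i => w i * (e i + 1))
        (fun _ _ => Nat.zero_le _) (Finset.mem_univ i) (Finset.mem_univ j) hi
      exact h2
    have h3 : 0 < w i * (e i + 1) := Nat.mul_pos (hw i) (Nat.succ_pos _)
    have h4 : w j ≤ w j * (e j + 1) := Nat.le_mul_of_pos_right _ (Nat.succ_pos _)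
    omega
  have hne : ∀ (e : Fin n →₀ ℕ) (j : Fin n), ((wtp w e : ℕ) : K) - ((w j : ℕ) : K) ≠ 0 := by
    intro e j
    refine sub_ne_zero.2 fun h => ?_
    exact (hw0 e j).ne' (Nat.cast_injective h)
  let h : Fin n → (Fin n →₀ ℕ) → K := fun j e => (((wtp w e : ℕ) : K) - ((w j : ℕ) : K))⁻¹
  let B' : Fin n → MvPolynomial (Fin n) K := fun j => kosd_sc (h j) (B j)
  have hB' : ∀ j e, coeff e (B' j) = h j e * coeff e (B j) := fun j e => kosd_coeff _ _ _
  have hwtp : ∀ (e : Fin n →₀ ℕ) (i : Fin n), wtp w (e + Finsupp.single i 1) = wtp w e + w i := by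
    intro e i
    unfold wtp
    have h1 : ∀ k ∈ (Finset.univ : Finset (Fin n)), w k * ((e + Finsupp.single i 1 : Fin n →₀ ℕ) k + 1) =
        w k * (e k + 1) + (if k = i then w k else 0) := by
      intro k _
      rw [Finsupp.add_apply, Finsupp.single_apply]
      by_cases hk : k = i
      · rw [if_pos hk.symm, if_pos hk]
        ring
      · rw [if_neg (fun h => hk h.symm), if_neg hk]
        ring
    rw [Finset.sum_congr rfl h1, Finset.sum_add_distrib]
    simp
  have hdiv' : dvg B' = 0 := by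
    ext f
    have h1 : coeff f (dvg B) = 0 := by rw [hdiv, coeff_zero]
    unfold dvg at h1 ⊢
    rw [coeff_sum] at h1 ⊢
    have h2 : ∀ i ∈ (Finset.univ : Finset (Fin n)), coeff f (pderiv i (B' i)) =
        ((wtp w f : ℕ) : K)⁻¹ * coeff f (pderiv i (B i)) := by
      intro i _
      rw [coeff_pderiv, coeff_pderiv, hB']
      have h3 : h i (f + Finsupp.single i 1) = ((wtp w f : ℕ) : K)⁻¹ := by
        show (((wtp w (f + Finsupp.single i 1) : ℕ) : K) - ((w i : ℕ) : K))⁻¹ = _
        rw [hwtp, Nat.cast_add, add_sub_cancel_right]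
      rw [h3, mul_assoc]
    rw [Finset.sum_congr rfl h2, ← Finset.mul_sum, h1, mul_zero, coeff_zero]
  have hA1 : ∀ i j, ∀ e ∈ (X i * B' j : MvPolynomial (Fin n) K).support,
      wtp w e ≤ N + w i + w j := by
    intro i j e he
    rw [mem_support_iff, coeff_X_mul'] at he
    split_ifs at he with h1
    · rw [hB'] at he
      have h2 : coeff (e - Finsupp.single i 1) (B j) ≠ 0 := right_ne_zero_of_mul he
      have h3 := hB j _ (mem_support_iff.2 h2)
      have h4 : e = (e - Finsupp.single i 1) + Finsupp.single i 1 := by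
        refine (tsub_add_cancel_of_le ?_).symm
        rw [Finsupp.single_le_iff]
        exact Nat.one_le_iff_ne_zero.2 (Finsupp.mem_support_iff.1 h1)
      rw [h4, hwtp]
      omega
    · exact absurd rfl he
  refine ⟨fun i j => C ((w i : ℕ) : K) * (X i * B' j) - C ((w j : ℕ) : K) * (X j * B' i),
    ⟨fun i => sub_self _, fun i j => by ring⟩, fun i j e he => ?_, fun j => ?_⟩
  · rw [mem_support_iff, coeff_sub, coeff_C_mul, coeff_C_mul] at he
    by_cases h1 : coeff e (X i * B' j) = 0
    · by_cases h2 : coeff e (X j * B' i) = 0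
      · rw [h1, h2, mul_zero, mul_zero, sub_zero] at he
        exact absurd rfl he
      · have h3 := hA1 j i e (mem_support_iff.2 h2)
        omega
    · exact hA1 i j e (mem_support_iff.2 h1)
  · have h1 : ∀ i ∈ (Finset.univ : Finset (Fin n)),
        pderiv i (C ((w i : ℕ) : K) * (X i * B' j) - C ((w j : ℕ) : K) * (X j * B' i)) =
        C ((w i : ℕ) : K) * pderiv i (X i * B' j) -
          C ((w j : ℕ) : K) * ((if i = j then B' i else 0) + X j * pderiv i (B' i)) := by
      intro i _
      rw [map_sub, pderiv_C_mul, pderiv_C_mul]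
      congr 2
      rw [pderiv_mul]
      by_cases hij : i = j
      · subst hij
        rw [pderiv_X_self, one_mul, if_pos rfl]
      · rw [pderiv_X_of_ne (fun h => hij h.symm), zero_mul, if_neg hij]
    rw [Finset.sum_congr rfl h1, Finset.sum_sub_distrib, ← Finset.mul_sum,
      Finset.sum_add_distrib, ← Finset.mul_sum]
    have h2 : ∑ i, pderiv i (B' i) = 0 := hdiv'
    rw [h2, mul_zero, add_zero, Finset.sum_ite_eq' Finset.univ j B', if_pos (Finset.mem_univ j)]
    ext e
    rw [coeff_sub, coeff_sum, coeff_C_mul, hB']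
    have h3 : ∀ i ∈ (Finset.univ : Finset (Fin n)),
        coeff e (C ((w i : ℕ) : K) * pderiv i (X i * B' j)) =
        ((w i * (e i + 1) : ℕ) : K) * (h j e * coeff e (B j)) := by
      intro i _
      rw [coeff_C_mul, coeff_pderiv, add_comm e, coeff_X_mul, hB']
      push_cast
      ring
    rw [Finset.sum_congr rfl h3, ← Finset.sum_mul, ← Nat.cast_sum]
    have h4 : (∑ i, w i * (e i + 1)) = wtp w e := rfl
    rw [h4]
    have h5 : (((wtp w e : ℕ) : K) - ((w j : ℕ) : K)) * h j e = 1 :=
      mul_inv_cancel₀ (hne e j)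
    calc coeff e (B j) = ((((wtp w e : ℕ) : K) - ((w j : ℕ) : K)) * h j e) * coeff e (B j) := by
          rw [h5, one_mul]
      _ = _ := by ring

theorem zz_mul (f : MvPolynomial (Fin n) K) (A : Fin n → Fin n → MvPolynomial (Fin n) K)
    (hA : Asym A) :
    zz (fun i j => f * A i j) (fun j => pderiv j f) = f * zz A (fun j => pderiv j f) := by
  unfold zz
  have h1 : ∀ j ∈ (Finset.univ : Finset (Fin n)),
      (∑ i, pderiv i (f * A i j)) * pderiv j f =
      (∑ i, A i j * (pderiv i f * pderiv j f)) + f * ((∑ i, pderiv i (A i j)) * pderiv j f) := by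
    intro j _
    have h2 : ∀ i ∈ (Finset.univ : Finset (Fin n)), pderiv i (f * A i j) =
        A i j * pderiv i f + f * pderiv i (A i j) := by
      intro i _
      rw [pderiv_mul]
      ring
    rw [Finset.sum_congr rfl h2, Finset.sum_add_distrib, add_mul, Finset.sum_mul,
      ← Finset.mul_sum, mul_assoc]
    congr 1
    refine Finset.sum_congr rfl fun i _ => ?_
    ring
  rw [Finset.sum_congr rfl h1, Finset.sum_add_distrib, ← Finset.mul_sum,
    kosd_anti A (fun i j => pderiv i f * pderiv j f) hA (fun i j => mul_comm _ _), zero_add]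

theorem dvg_asym (f : MvPolynomial (Fin n) K) (A : Fin n → Fin n → MvPolynomial (Fin n) K)
    (hA : Asym A) :
    dvg (fun j => ∑ i, A i j * pderiv i f) = - zz A (fun j => pderiv j f) := by
  unfold dvg zz
  have h1 : ∀ j ∈ (Finset.univ : Finset (Fin n)),
      pderiv j (∑ i, A i j * pderiv i f) =
      (∑ i, pderiv j (A i j) * pderiv i f) + ∑ i, A i j * pderiv j (pderiv i f) := by
    intro j _
    rw [map_sum, ← Finset.sum_add_distrib]
    refine Finset.sum_congr rfl fun i _ => ?_
    rw [pderiv_mul]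
  rw [Finset.sum_congr rfl h1, Finset.sum_add_distrib,
    kosd_anti A (fun i j => pderiv j (pderiv i f)) hA (fun i j => kosd_comm j i f), add_zero,
    Finset.sum_comm, ← Finset.sum_neg_distrib]
  refine Finset.sum_congr rfl fun i _ => ?_
  rw [← neg_mul, ← Finset.sum_neg_distrib, Finset.sum_mul]
  refine Finset.sum_congr rfl fun j _ => ?_
  rw [hA.2 i j, map_neg]

theorem dvg_dvg (A : Fin n → Fin n → MvPolynomial (Fin n) K) (hA : Asym A) :
    dvg (fun j => ∑ i, pderiv i (A i j)) = 0 := by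
  unfold dvg
  apply kosd_double
  calc ∑ j, pderiv j (∑ i, pderiv i (A i j)) = ∑ j, ∑ i, pderiv j (pderiv i (A i j)) := by
        refine Finset.sum_congr rfl fun j _ => ?_
        rw [map_sum]
    _ = ∑ i, ∑ j, pderiv j (pderiv i (A i j)) := Finset.sum_comm
    _ = ∑ i, -(pderiv i (∑ j, pderiv j (A j i))) := by
        refine Finset.sum_congr rfl fun i _ => ?_
        rw [map_sum, ← Finset.sum_neg_distrib]
        refine Finset.sum_congr rfl fun j _ => ?_
        rw [hA.2 i j, map_neg, map_neg, kosd_comm]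
    _ = - ∑ j, pderiv j (∑ i, pderiv i (A i j)) := by
        rw [Finset.sum_neg_distrib]

end MPadcHP
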