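import Pool.Agent.Lib.MP_adc574_ag_HP.GMA

/-!
# JOB GMC: the Gauss-Manin connection on `H`

`K = RatFunc κ`, `f = S.fK`. `cD P := ∑ e ∈ P.support, monomial e (DK κ (coeff e P))`, the coefficientwise derivation of `K[x]` (a `κ`-linear map; it can be built as
`Finsupp.mapRange`-like map: `coeff e (cD P) = DK κ (coeff e P)`; Leibniz: `cD (P Q) = cD P * Q + P * cD Q`; commutes with `pderiv`; `cD f = -1`, `cD (∂_j f) = 0` because
`f = φ - t`, `φ` has coefficients in `κ`).
`nab0 P := mk (cD P) + lam P : K[x] →ₗ[κ] H`, `lam` from `exists_lam` and `unit_rel`. It kills `Zmod f`: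
`P = C1 f`: `cD (C1 f) = cD C1 * f - C1`, `lam (C1 f) = mk C1`. `P = zz A (∂ f) = ∑ j, b_j * ∂_j f`, `b_j = ∑ i, ∂_i A i j`: `lam P = mk (dvg b) = 0` (`dvg_dvg`), `cD P = zz (cD A) (∂ f) ∈ Zmod f`
(`cD` commutes with `pderiv`, `cD (∂_j f) = 0`). So it descends to `nab : H →ₗ[κ] H` (`Submodule.liftQ` for the underlying `κ`-submodule, or define it on the
quotient by hand). `IsGM`: `leib`: `cD (x P) = DK x • P + x • cD P`, `lam` is `K`-linear. `mul`: `mk (φ P) = t • mk P` since `mk (P f) = 0`. `exa`: `P = Q * ∂_i f` (`Q` over `κ`, so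
`cD P = 0`) `lam P = mk (∂_i Q)`. `lev`: by definition of `Zmod`. `span`: monomials `x^e` with coefficients in `K`: `mk P = ∑ coeff e P • mk (x^e)`.
`nab_mk` is the defining property.
-/

set_option autoImplicit false

namespace MPadcHP

open MvPolynomial

universe u

section

variable {κ : Type u} [Field κ] {n : ℕ}

private theorem gmc_coeff_sum (P : MvPolynomial (Fin n) (RatFunc κ)) (m : Fin n →₀ ℕ) :
    coeff m (∑ e ∈ P.support, monomial e (DK κ (coeff e P))) = DK κ (coeff m P) := by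
  classical
  rw [coeff_sum]
  simp only [coeff_monomial]
  rw [Finset.sum_ite_eq' P.support m (fun e => DK κ (coeff e P))]
  by_cases h : m ∈ P.support
  · rw [if_pos h]
  · rw [if_neg h]
    rw [MvPolynomial.notMem_support_iff] at h
    rw [h, map_zero]

/-- the coefficientwise derivation -/
private noncomputable def gmcD (κ : Type u) [Field κ] (n : ℕ) :
    MvPolynomial (Fin n) (RatFunc κ) →ₗ[κ] MvPolynomial (Fin n) (RatFunc κ) where
  toFun P := ∑ e ∈ P.support, monomial e (DK κ (coeff e P))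
  map_add' P Q := by
    ext m
    rw [coeff_add, gmc_coeff_sum, gmc_coeff_sum, gmc_coeff_sum, coeff_add, map_add]
  map_smul' a P := by
    ext m
    rw [RingHom.id_apply, coeff_smul, gmc_coeff_sum, gmc_coeff_sum, coeff_smul, Derivation.map_smul]

private theorem gmcD_apply (P : MvPolynomial (Fin n) (RatFunc κ)) :
    gmcD κ n P = ∑ e ∈ P.support, monomial e (DK κ (coeff e P)) := rfl

private theorem gmcD_coeff (P : MvPolynomial (Fin n) (RatFunc κ)) (m : Fin n →₀ ℕ) :
    coeff m (gmcD κ n P) = DK κ (coeff m P) := gmc_coeff_sum P m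

private theorem gmcD_mul (P Q : MvPolynomial (Fin n) (RatFunc κ)) :
    gmcD κ n (P * Q) = gmcD κ n P * Q + P * gmcD κ n Q := by
  classical
  ext m
  rw [gmcD_coeff, coeff_add, coeff_mul, coeff_mul, coeff_mul, map_sum, ← Finset.sum_add_distrib]
  refine Finset.sum_congr rfl fun x _ => ?_
  rw [gmcD_coeff, gmcD_coeff, Derivation.leibniz, smul_eq_mul, smul_eq_mul]
  ring

private theorem gmcD_smul (x : RatFunc κ) (P : MvPolynomial (Fin n) (RatFunc κ)) :
    gmcD κ n (x • P) = DK κ x • P + x • gmcD κ n P := by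
  ext m
  rw [gmcD_coeff, coeff_add, coeff_smul, coeff_smul, coeff_smul, gmcD_coeff, smul_eq_mul,
    smul_eq_mul, smul_eq_mul, Derivation.leibniz, smul_eq_mul, smul_eq_mul]
  ring

private theorem gmcD_pderiv (i : Fin n) (P : MvPolynomial (Fin n) (RatFunc κ)) :
    gmcD κ n (pderiv i P) = pderiv i (gmcD κ n P) := by
  ext m
  rw [gmcD_coeff, coeff_pderiv, coeff_pderiv, gmcD_coeff, Derivation.leibniz, smul_eq_mul,
    smul_eq_mul]
  have h : DK κ ((m i : RatFunc κ) + 1) = 0 := by
    rw [map_add, Derivation.map_natCast, Derivation.map_one_eq_zero, add_zero]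
  rw [h, mul_zero, zero_add]
  ring

private theorem gmcD_map (P : MvPolynomial (Fin n) κ) :
    gmcD κ n (P.map (algebraMap κ (RatFunc κ))) = 0 := by
  ext m
  rw [gmcD_coeff, coeff_map, coeff_zero, DK_C]

private theorem gmcD_fK (S : Dat κ n) : gmcD κ n S.fK = -1 := by
  classical
  unfold Dat.fK
  rw [map_sub, gmcD_map, zero_sub, neg_inj]
  ext m
  rw [gmcD_coeff, coeff_C, coeff_one]
  by_cases h : 0 = m
  · rw [if_pos h, if_pos h, DK_X]
  · rw [if_neg h, if_neg h, map_zero]

private theorem gmcD_dfK (S : Dat κ n) (j : Fin n) : gmcD κ n (pderiv j S.fK) = 0 := by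
  rw [gmcD_pderiv, gmcD_fK, map_neg, Derivation.map_one_eq_zero, neg_zero]

private theorem gmc_dfK (S : Dat κ n) (j : Fin n) :
    pderiv j S.fK = (pderiv j S.φ).map (algebraMap κ (RatFunc κ)) := by
  unfold Dat.fK
  rw [map_sub, pderiv_map, pderiv_C, sub_zero]

private theorem gmcD_zz (S : Dat κ n) (A : Fin n → Fin n → MvPolynomial (Fin n) (RatFunc κ)) :
    gmcD κ n (zz A fun j => pderiv j S.fK) =
      zz (fun i j => gmcD κ n (A i j)) fun j => pderiv j S.fK := by
  unfold zz
  rw [map_sum]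
  refine Finset.sum_congr rfl fun j _ => ?_
  rw [gmcD_mul, gmcD_dfK, mul_zero, add_zero, map_sum]
  refine congrArg₂ (· * ·) ?_ rfl
  exact Finset.sum_congr rfl fun i _ => gmcD_pderiv i (A i j)

private theorem gmc_mem (f : MvPolynomial (Fin n) (RatFunc κ))
    (A : Fin n → Fin n → MvPolynomial (Fin n) (RatFunc κ))
    (C' : MvPolynomial (Fin n) (RatFunc κ)) (hA : Asym A) :
    (zz A fun j => pderiv j f) + C' * f ∈ Zmod f := ⟨A, C', hA, rfl⟩

private theorem gmc_mem' (f C' : MvPolynomial (Fin n) (RatFunc κ)) : C' * f ∈ Zmod f := by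
  have h := gmc_mem f (fun _ _ => 0) C' ⟨fun _ => rfl, fun _ _ => by simp⟩
  have h1 : (zz (fun _ _ => (0 : MvPolynomial (Fin n) (RatFunc κ))) fun j => pderiv j f) = 0 := by
    simp [zz]
  rwa [h1, zero_add] at h

private theorem gmc_span (f : MvPolynomial (Fin n) (RatFunc κ))
    (P : MvPolynomial (Fin n) (RatFunc κ)) :
    (Zmod f).mkQ P = ∑ e ∈ P.support, coeff e P • (Zmod f).mkQ (monomial e 1) := by
  conv_lhs => rw [P.as_sum]
  rw [map_sum]
  refine Finset.sum_congr rfl fun e _ => ?_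
  rw [← map_smul, smul_monomial, smul_eq_mul, mul_one]

end

theorem exists_nab {κ : Type u} [Field κ] [CharZero κ] {n : ℕ} (S : Dat κ n) (hS : S.Ok) :
    ∃ nab : HH S.fK →ₗ[κ] HH S.fK, IsGM S nab S.br ∧
      ∀ (B : Fin n → MvPolynomial (Fin n) (RatFunc κ)) (C1 P : MvPolynomial (Fin n) (RatFunc κ)),
        P = ∑ j, B j * pderiv j S.fK + C1 * S.fK →
        nab ((Zmod S.fK).mkQ P) = (Zmod S.fK).mkQ
          ((∑ e ∈ P.support, monomial e (DK κ (coeff e P))) + (dvg B + C1)) := by
  classical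
  obtain ⟨c, c0, hc⟩ := unit_rel S hS
  obtain ⟨lam, hlam⟩ := exists_lam S.fK c c0 hc
  let nab0 : MvPolynomial (Fin n) (RatFunc κ) →ₗ[κ] HH S.fK :=
    ((Zmod S.fK).mkQ.restrictScalars κ).comp (gmcD κ n) + lam.restrictScalars κ
  have hnab0 : ∀ P, nab0 P = (Zmod S.fK).mkQ (gmcD κ n P) + lam P := fun P => rfl
  have hk : (Zmod S.fK).restrictScalars κ ≤ LinearMap.ker nab0 := by
    rintro P hP
    rw [LinearMap.mem_ker, hnab0]
    obtain ⟨A, C', hA, rfl⟩ : P ∈ Zmod S.fK := hP
    have h1 : lam ((zz A fun j => pderiv j S.fK) + C' * S.fK) = (Zmod S.fK).mkQ C' := by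
      have h2 := hlam (fun j => ∑ i, pderiv i (A i j)) C'
      rw [dvg_dvg A hA, zero_add] at h2
      exact h2
    have h3 : gmcD κ n ((zz A fun j => pderiv j S.fK) + C' * S.fK) =
        ((zz (fun i j => gmcD κ n (A i j)) fun j => pderiv j S.fK) + gmcD κ n C' * S.fK) - C' := by
      rw [map_add, gmcD_zz, gmcD_mul, gmcD_fK]
      ring
    have h4 : Asym (fun i j => gmcD κ n (A i j)) := by
      refine ⟨fun i => ?_, fun i j => ?_⟩
      · show gmcD κ n (A i i) = 0
        rw [hA.1 i, map_zero]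
      · show gmcD κ n (A i j) = - gmcD κ n (A j i)
        rw [hA.2 i j, map_neg]
    have h5 : (Zmod S.fK).mkQ
        ((zz (fun i j => gmcD κ n (A i j)) fun j => pderiv j S.fK) + gmcD κ n C' * S.fK) = 0 :=
      (Submodule.Quotient.mk_eq_zero _).2 (gmc_mem S.fK _ _ h4)
    rw [h1, h3, map_sub, h5, zero_sub, neg_add_cancel]
  let nab : HH S.fK →ₗ[κ] HH S.fK :=
    (((Zmod S.fK).restrictScalars κ).liftQ nab0 hk).comp
      (Submodule.Quotient.restrictScalarsEquiv κ (Zmod S.fK)).symm.toLinearMap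
  have hnab : ∀ P, nab ((Zmod S.fK).mkQ P) = (Zmod S.fK).mkQ (gmcD κ n P) + lam P := fun P => rfl
  have hbr : ∀ P, S.br P = (Zmod S.fK).mkQ (P.map (algebraMap κ (RatFunc κ))) := fun P => rfl
  have hmap : S.φ.map (algebraMap κ (RatFunc κ)) = S.fK + C RatFunc.X := by
    unfold Dat.fK
    ring
  refine ⟨nab, ⟨?_, ?_, ?_, ?_, ?_⟩, ?_⟩
  · intro x h
    obtain ⟨P, rfl⟩ := (Zmod S.fK).mkQ_surjective h
    rw [← map_smul, hnab, hnab, gmcD_smul, map_add, map_smul, map_smul, map_smul, smul_add, add_assoc]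
  · intro P
    rw [hbr, hbr, map_mul, hmap, add_mul, map_add, mul_comm S.fK]
    have h1 : (Zmod S.fK).mkQ (P.map (algebraMap κ (RatFunc κ)) * S.fK) = 0 :=
      (Submodule.Quotient.mk_eq_zero _).2 (gmc_mem' S.fK _)
    rw [h1, zero_add, ← map_smul, MvPolynomial.smul_eq_C_mul]
  · intro i Q
    rw [hbr, hbr, hnab, gmcD_map, map_zero, zero_add]
    have h1 : (Q * pderiv i S.φ).map (algebraMap κ (RatFunc κ)) =
        ∑ j, (if j = i then Q.map (algebraMap κ (RatFunc κ)) else 0) * pderiv j S.fK +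
          0 * S.fK := by
      rw [map_mul, ← gmc_dfK, zero_mul, add_zero]
      simp only [ite_mul, zero_mul]
      rw [Finset.sum_ite_eq' Finset.univ i, if_pos (Finset.mem_univ i)]
    rw [h1, hlam]
    unfold dvg
    rw [add_zero]
    refine congrArg _ ?_
    rw [Finset.sum_eq_single i]
    · show pderiv i (if i = i then Q.map (algebraMap κ (RatFunc κ)) else 0) = _
      rw [if_pos rfl, pderiv_map]
    · intro j _ hj
      show pderiv j (if j = i then Q.map (algebraMap κ (RatFunc κ)) else 0) = 0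
      rw [if_neg hj, map_zero]
    · intro h
      exact absurd (Finset.mem_univ i) h
  · intro A hA
    rw [hbr]
    have h1 : (zz A fun j => pderiv j S.φ).map (algebraMap κ (RatFunc κ)) =
        (zz (fun i j => (A i j).map (algebraMap κ (RatFunc κ))) fun j => pderiv j S.fK) +
          0 * S.fK := by
      unfold zz
      rw [map_sum, zero_mul, add_zero]
      refine Finset.sum_congr rfl fun j _ => ?_
      rw [map_mul]
      refine congrArg₂ (· * ·) ?_ (gmc_dfK S j).symm
      rw [map_sum]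
      exact Finset.sum_congr rfl fun i _ => pderiv_map.symm
    rw [h1]
    refine (Submodule.Quotient.mk_eq_zero _).2 (gmc_mem S.fK _ _ ⟨fun i => ?_, fun i j => ?_⟩)
    · show (A i i).map (algebraMap κ (RatFunc κ)) = 0
      rw [hA.1 i, map_zero]
    · show (A i j).map (algebraMap κ (RatFunc κ)) = - (A j i).map (algebraMap κ (RatFunc κ))
      rw [hA.2 i j, map_neg]
  · rw [eq_top_iff]
    rintro h -
    obtain ⟨P, rfl⟩ := (Zmod S.fK).mkQ_surjective h
    rw [gmc_span]
    refine Submodule.sum_mem _ fun e _ => Submodule.smul_mem _ _ (Submodule.subset_span ?_)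
    refine ⟨monomial e 1, ?_⟩
    rw [hbr, map_monomial, map_one]
  · intro B C1 P hP
    rw [hnab, ← gmcD_apply, map_add]
    refine congrArg₂ (· + ·) rfl ?_
    rw [hP]
    exact hlam B C1

end MPadcHP
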