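import Pool.Agent.Lib.MP_adc574_ag_HP.GMC

/-!
# JOB GMD: periods are horizontal functionals on `H`

`L ⊃ K = κ(t)`, `f_L = S.eqn L` is the image of `f = S.fK`, `c` a period (`IsPer`). Put `cb0 P = c 0 (P.map (algebraMap K L))` for `P ∈ K[x]`, `K`-linear.
* `c 0 (Q f_L) = 0` for `Q ∈ L[x]`: enough for `Q = ∂_i Q1` (every polynomial is `∂_i Q1`, characteristic 0, `n ≥ 1`: monomial `x^e = ∂_i (x^{e+[i]} / (e i + 1))`). `exact` at
  `k = 0`, `i`, `f_L * Q1`: `0 = c 1 (f_L ∂_i (f_L Q1) - f_L Q1 ∂_i f_L) = c 1 (f_L (f_L ∂_i Q1)) = c 0 (f_L ∂_i Q1)` (`mul`).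
* `c 0 (z(A)) = 0` for antisymmetric `A` over `L`: sum of `exact` at `k = 0` for `Q_i = ∑ j, A i j ∂_j f`: `∑_i (f ∂_i Q_i - Q_i ∂_i f) = f * zz A (∂ f) + f ∑ A_ij ∂_i∂_j f - ∑ A_ij ∂_i f ∂_j f = f * zz A (∂ f)`, and
  `c 1 (f P) = c 0 P`.
  So `cb0` kills `Zmod f` and gives `cb : H →ₗ[K] L` (`Submodule.liftQ`).
* `DL (cb h) = cb (nab h)`: `h = mk P`, `P = ∑ B_j ∂_j f + C1 f` over `K` (`unit_rel`). `DL (c 0 (P.map)) = ∑_e DL (coeff e P * c 0 (x^e)) = c 0 (cD P) + c 1 (P.map)` (`deriv` at `k = 0`,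
  `hD`), and `c 1 (P.map) = ∑ c 1 (B_j ∂_j f) + c 1 (C1 f) = c 0 (dvg B) + c 0 C1` (`exact` at `k = 0`: `c 1 (B_j ∂_j f) = c 1 (f ∂_j B_j) = c 0 (∂_j B_j)`). Compare with the formula for `nab`.
* `cb (lv nab br k (x^e)) = c k (x^e)`: induction on `k`: `nab (lv k P) = (k+1) • lv (k+1) P` and `DL (c k (x^e)) = (k+1) c (k+1) (x^e)`; `L` has characteristic 0.
-/

set_option autoImplicit false

namespace MPadcHP

open MvPolynomial

universe u

section Aux

variable {L : Type u} [Field L] [CharZero L] {n : ℕ}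

private theorem gmd_anti (i : Fin n) (Q : MvPolynomial (Fin n) L) : ∃ Q1, pderiv i Q1 = Q := by
  induction Q using MvPolynomial.induction_on' with
  | monomial e a =>
    refine ⟨monomial (e + Finsupp.single i 1) (a / ((e i : L) + 1)), ?_⟩
    rw [pderiv_monomial]
    have h1 : e + Finsupp.single i 1 - Finsupp.single i 1 = e := add_tsub_cancel_right _ _
    have h2 : ((e + Finsupp.single i 1 : Fin n →₀ ℕ) i : L) = (e i : L) + 1 := by
      rw [Finsupp.add_apply, Finsupp.single_eq_same]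
      push_cast
      ring
    have h3 : (e i : L) + 1 ≠ 0 := by
      have h4 : ((e i + 1 : ℕ) : L) ≠ 0 := Nat.cast_ne_zero.2 (Nat.succ_ne_zero _)
      rw [Nat.cast_add, Nat.cast_one] at h4
      exact h4
    rw [h1, h2, div_mul_cancel₀ _ h3]
  | add p q hp hq =>
    obtain ⟨p1, rfl⟩ := hp
    obtain ⟨q1, rfl⟩ := hq
    exact ⟨p1 + q1, map_add _ _ _⟩

private theorem gmd_f (hn : 0 < n) {f : MvPolynomial (Fin n) L} {DL : Derivation ℤ L L}
    {c : ℕ → MvPolynomial (Fin n) L →ₗ[L] L} (hc : IsPer f DL c) (Q : MvPolynomial (Fin n) L) :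
    c 0 (Q * f) = 0 := by
  obtain ⟨Q1, hQ1⟩ := gmd_anti (⟨0, hn⟩ : Fin n) Q
  have h1 := hc.exact 0 ⟨0, hn⟩ (f * Q1)
  have h2 : f * pderiv (⟨0, hn⟩ : Fin n) (f * Q1) - (((0 : ℕ) : L) + 1) • (f * Q1 * pderiv (⟨0, hn⟩ : Fin n) f) =
      (Q * f) * f := by
    rw [Derivation.leibniz, hQ1, Nat.cast_zero, zero_add, one_smul, smul_eq_mul, smul_eq_mul]
    ring
  rw [h2, hc.mul] at h1
  exact h1

private theorem gmd_asym (A M : Fin n → Fin n → MvPolynomial (Fin n) L) (hA : ∀ i j, A i j = - A j i)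
    (hM : ∀ i j, M i j = M j i) : ∑ i, ∑ j, A i j * M i j = 0 := by
  have h1 : ∑ i, ∑ j, A i j * M i j = - ∑ i, ∑ j, A i j * M i j := by
    conv_lhs => rw [Finset.sum_comm]
    rw [← Finset.sum_neg_distrib]
    refine Finset.sum_congr rfl fun i _ => ?_
    rw [← Finset.sum_neg_distrib]
    refine Finset.sum_congr rfl fun j _ => ?_
    rw [hA j i, hM j i]
    ring
  exact self_eq_neg.1 h1

private theorem gmd_comm (f : MvPolynomial (Fin n) L) (i j : Fin n) :
    pderiv i (pderiv j f) = pderiv j (pderiv i f) := by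
  induction f using MvPolynomial.induction_on with
  | C a => simp
  | add p q hp hq => simp only [map_add, hp, hq]
  | mul_X p k hp =>
    simp only [Derivation.leibniz, map_add, smul_eq_mul, hp, pderiv_X]
    have h1 : ∀ i' j' : Fin n, pderiv i' ((Pi.single j' 1 : Fin n → MvPolynomial (Fin n) L) k) = 0 := by
      intro i' j'
      by_cases h2 : j' = k
      · subst h2
        rw [Pi.single_eq_same]
        exact Derivation.map_one_eq_zero _
      · rw [Pi.single_eq_of_ne (Ne.symm h2), map_zero]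
    rw [h1, h1]
    ring

private theorem gmd_zz {f : MvPolynomial (Fin n) L} {DL : Derivation ℤ L L}
    {c : ℕ → MvPolynomial (Fin n) L →ₗ[L] L} (hc : IsPer f DL c)
    (A : Fin n → Fin n → MvPolynomial (Fin n) L) (hA : Asym A) :
    c 0 (zz A fun j => pderiv j f) = 0 := by
  have h1 : ∑ i, c (0 + 1) (f * pderiv i (∑ j, A i j * pderiv j f) -
      (((0 : ℕ) : L) + 1) • ((∑ j, A i j * pderiv j f) * pderiv i f)) = 0 :=
    Finset.sum_eq_zero fun i _ => hc.exact 0 i _
  rw [← map_sum] at h1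
  have h2 : ∑ i, (f * pderiv i (∑ j, A i j * pderiv j f) -
      (((0 : ℕ) : L) + 1) • ((∑ j, A i j * pderiv j f) * pderiv i f)) =
      (zz A fun j => pderiv j f) * f := by
    have h3 : ∀ i, f * pderiv i (∑ j, A i j * pderiv j f) -
        (((0 : ℕ) : L) + 1) • ((∑ j, A i j * pderiv j f) * pderiv i f) =
        f * (∑ j, pderiv i (A i j) * pderiv j f) + f * (∑ j, A i j * pderiv i (pderiv j f)) -
          ∑ j, A i j * (pderiv j f * pderiv i f) := by
      intro i
      rw [Nat.cast_zero, zero_add, one_smul, map_sum, Finset.sum_mul]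
      have h4 : ∀ j, pderiv i (A i j * pderiv j f) =
          pderiv i (A i j) * pderiv j f + A i j * pderiv i (pderiv j f) := by
        intro j
        rw [Derivation.leibniz, smul_eq_mul, smul_eq_mul]
        ring
      rw [Finset.sum_congr rfl fun j _ => h4 j, Finset.sum_add_distrib, mul_add]
      congr 1
      exact Finset.sum_congr rfl fun j _ => by ring
    rw [Finset.sum_congr rfl fun i _ => h3 i, Finset.sum_sub_distrib, Finset.sum_add_distrib,
      ← Finset.mul_sum, ← Finset.mul_sum,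
      gmd_asym A (fun i j => pderiv i (pderiv j f)) hA.2 (fun i j => gmd_comm f i j),
      gmd_asym A (fun i j => pderiv j f * pderiv i f) hA.2 (fun i j => mul_comm _ _), mul_zero, add_zero, sub_zero,
      mul_comm]
    congr 1
    unfold zz
    rw [Finset.sum_comm]
    exact Finset.sum_congr rfl fun j _ => (Finset.sum_mul _ _ _).symm
  rw [h2, hc.mul] at h1
  exact h1

private theorem gmd_div {f : MvPolynomial (Fin n) L} {DL : Derivation ℤ L L}
    {c : ℕ → MvPolynomial (Fin n) L →ₗ[L] L} (hc : IsPer f DL c)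
    (B : Fin n → MvPolynomial (Fin n) L) (C1 : MvPolynomial (Fin n) L) :
    c 1 (∑ j, B j * pderiv j f + C1 * f) = c 0 (dvg B + C1) := by
  have h0 : c 1 (C1 * f) = c 0 C1 := hc.mul 0 C1
  have h1 : ∀ j, c 1 (B j * pderiv j f) = c 0 (pderiv j (B j)) := by
    intro j
    have h2 := hc.exact 0 j (B j)
    rw [Nat.cast_zero, zero_add, zero_add, one_smul, map_sub] at h2
    have h3 : c 1 (pderiv j (B j) * f) = c 0 (pderiv j (B j)) := hc.mul 0 _
    rw [← h3, mul_comm (pderiv j (B j))]
    exact (sub_eq_zero.1 h2).symm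
  rw [map_add, map_add, h0, map_sum, Finset.sum_congr rfl fun j _ => h1 j, ← map_sum]
  rfl

end Aux

private theorem gmd_lin {K L : Type u} [Field K] [Field L] [Algebra K L] {n : ℕ}
    (l : MvPolynomial (Fin n) L →ₗ[L] L) (s : Finset (Fin n →₀ ℕ)) (a : (Fin n →₀ ℕ) → K) :
    l ((∑ e ∈ s, monomial e (a e)).map (algebraMap K L)) =
      ∑ e ∈ s, algebraMap K L (a e) * l (monomial e 1) := by
  rw [map_sum, map_sum]
  refine Finset.sum_congr rfl fun e _ => ?_
  have h1 : (monomial e (algebraMap K L (a e)) : MvPolynomial (Fin n) L) =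
      algebraMap K L (a e) • monomial e 1 := by
    rw [smul_monomial, smul_eq_mul, mul_one]
  rw [map_monomial, h1, map_smul, smul_eq_mul]

private theorem gmd_lv0 {κ : Type u} [Field κ] [CharZero κ] {n : ℕ} {H : Type u} [AddCommGroup H]
    [Module κ H] (nab : H →ₗ[κ] H) (br : MvPolynomial (Fin n) κ →ₗ[κ] H)
    (P : MvPolynomial (Fin n) κ) : lv nab br 0 P = br P := by
  unfold lv
  rw [Nat.factorial_zero, Nat.cast_one, inv_one, one_smul, pow_zero, LinearMap.comp_apply,
    Module.End.one_apply]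

private theorem gmd_lv {κ : Type u} [Field κ] [CharZero κ] {n : ℕ} (S : Dat κ n)
    (nab : HH S.fK →ₗ[κ] HH S.fK) (k : ℕ) (P : MvPolynomial (Fin n) κ) :
    nab (lv nab S.br k P) = ((k : κ) + 1) • lv nab S.br (k + 1) P := by
  unfold lv
  rw [LinearMap.smul_apply, LinearMap.smul_apply, LinearMap.comp_apply, LinearMap.comp_apply, map_smul, smul_smul,
    pow_succ', Module.End.mul_apply]
  congr 1
  have h1 : ((k : κ) + 1) ≠ 0 := by
    have h4 : ((k + 1 : ℕ) : κ) ≠ 0 := Nat.cast_ne_zero.2 (Nat.succ_ne_zero _)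
    rw [Nat.cast_add, Nat.cast_one] at h4
    exact h4
  rw [Nat.factorial_succ, Nat.cast_mul, Nat.cast_add, Nat.cast_one, mul_inv, ← mul_assoc, mul_inv_cancel₀ h1,
    one_mul]

theorem exists_functional {κ : Type u} [Field κ] [CharZero κ] {n : ℕ} (hn : 0 < n) (S : Dat κ n)
    (hS : S.Ok) (nab : HH S.fK →ₗ[κ] HH S.fK)
    (hnab : ∀ (B : Fin n → MvPolynomial (Fin n) (RatFunc κ))
      (C1 P : MvPolynomial (Fin n) (RatFunc κ)),
        P = ∑ j, B j * pderiv j S.fK + C1 * S.fK →
        nab ((Zmod S.fK).mkQ P) = (Zmod S.fK).mkQ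
          ((∑ e ∈ P.support, monomial e (DK κ (coeff e P))) + (dvg B + C1)))
    {L : Type u} [Field L] [Algebra (RatFunc κ) L] (DL : Derivation ℤ L L)
    (hD : ∀ x, DL (algebraMap (RatFunc κ) L x) = algebraMap (RatFunc κ) L (DK κ x))
    (c : ℕ → MvPolynomial (Fin n) L →ₗ[L] L) (hc : IsPer (S.eqn L) DL c) :
    ∃ cb : HH S.fK →ₗ[RatFunc κ] L, (∀ h, DL (cb h) = cb (nab h)) ∧
      ∀ (k : ℕ) (e : Fin n →₀ ℕ), cb (lv nab S.br k (monomial e 1)) = c k (monomial e 1) := by
  have hK : CharZero (RatFunc κ) := charZero_of_injective_algebraMap (algebraMap κ (RatFunc κ)).injective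
  have hL : CharZero L := charZero_of_injective_algebraMap (algebraMap (RatFunc κ) L).injective
  have hfL : S.fK.map (algebraMap (RatFunc κ) L) = S.eqn L := by
    unfold Dat.fK Dat.eqn
    rw [map_sub, map_C]
  have hpd : ∀ (j : Fin n) (P : MvPolynomial (Fin n) (RatFunc κ)),
      (pderiv j P).map (algebraMap (RatFunc κ) L) = pderiv j (P.map (algebraMap (RatFunc κ) L)) :=
    fun j P => (pderiv_map).symm
  let cb0 : MvPolynomial (Fin n) (RatFunc κ) →ₗ[RatFunc κ] L :=
    { toFun := fun P => c 0 (P.map (algebraMap (RatFunc κ) L))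
      map_add' := fun P Q => by rw [map_add, map_add]
      map_smul' := fun a P => by
        rw [RingHom.id_apply, MvPolynomial.smul_eq_C_mul, map_mul, map_C, ← MvPolynomial.smul_eq_C_mul, map_smul,
          smul_eq_mul, Algebra.smul_def] }
  have hcb0 : ∀ P, cb0 P = c 0 (P.map (algebraMap (RatFunc κ) L)) := fun P => rfl
  have hker : Zmod S.fK ≤ LinearMap.ker cb0 := by
    rintro P ⟨A, C', hA, rfl⟩
    rw [LinearMap.mem_ker, hcb0, map_add, map_mul, hfL, map_add, gmd_f hn hc, add_zero]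
    have h1 : (zz A fun j => pderiv j S.fK).map (algebraMap (RatFunc κ) L) =
        zz (fun i j => (A i j).map (algebraMap (RatFunc κ) L)) (fun j => pderiv j (S.eqn L)) := by
      unfold zz
      rw [map_sum]
      refine Finset.sum_congr rfl fun j _ => ?_
      rw [map_mul, map_sum, hpd, hfL]
      congr 1
      exact Finset.sum_congr rfl fun i _ => hpd _ _
    rw [h1]
    refine gmd_zz hc _ ⟨fun i => ?_, fun i j => ?_⟩
    · show (A i i).map (algebraMap (RatFunc κ) L) = 0
      rw [hA.1 i, map_zero]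
    · show (A i j).map (algebraMap (RatFunc κ) L) = - (A j i).map (algebraMap (RatFunc κ) L)
      rw [hA.2 i j, map_neg]
  let cb : HH S.fK →ₗ[RatFunc κ] L := (Zmod S.fK).liftQ cb0 hker
  have hcb : ∀ P, cb ((Zmod S.fK).mkQ P) = c 0 (P.map (algebraMap (RatFunc κ) L)) := fun P =>
    Submodule.liftQ_apply _ _ _
  have hder : ∀ h, DL (cb h) = cb (nab h) := by
    intro h
    obtain ⟨P, rfl⟩ := Submodule.mkQ_surjective _ h
    obtain ⟨u, u0, hu⟩ := unit_rel S hS
    have hP : P = ∑ j, (P * u j) * pderiv j S.fK + (P * u0) * S.fK := by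
      calc P = P * (∑ j, u j * pderiv j S.fK + u0 * S.fK) := by rw [hu, mul_one]
        _ = _ := by
          rw [mul_add, Finset.mul_sum]
          congr 1
          · exact Finset.sum_congr rfl fun j _ => by ring
          · ring
    rw [hnab (fun j => P * u j) (P * u0) P hP, hcb, hcb]
    have h1 : c 1 (P.map (algebraMap (RatFunc κ) L)) =
        c 0 ((dvg (fun j => P * u j) + P * u0).map (algebraMap (RatFunc κ) L)) := by
      have h2 := gmd_div hc (fun j => (P * u j).map (algebraMap (RatFunc κ) L))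
        ((P * u0).map (algebraMap (RatFunc κ) L))
      have h3 : ∑ j, (P * u j).map (algebraMap (RatFunc κ) L) * pderiv j (S.eqn L) +
          (P * u0).map (algebraMap (RatFunc κ) L) * S.eqn L = P.map (algebraMap (RatFunc κ) L) := by
        conv_rhs => rw [hP]
        rw [map_add, map_sum, map_mul (MvPolynomial.map _) (P * u0), hfL]
        congr 1
        refine Finset.sum_congr rfl fun j _ => ?_
        rw [map_mul (MvPolynomial.map _) (P * u j), hpd, hfL]
      rw [h3] at h2
      rw [h2]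
      congr 1
      rw [map_add]
      congr 1
      unfold dvg
      rw [map_sum]
      exact Finset.sum_congr rfl fun j _ => (hpd _ _).symm
    rw [map_add (MvPolynomial.map _), map_add, ← h1, gmd_lin (c 0)]
    have h4 : P.map (algebraMap (RatFunc κ) L) =
        (∑ e ∈ P.support, monomial e (coeff e P)).map (algebraMap (RatFunc κ) L) := by
      rw [support_sum_monomial_coeff]
    rw [h4, gmd_lin (c 0), gmd_lin (c 1), map_sum, ← Finset.sum_add_distrib]
    refine Finset.sum_congr rfl fun e _ => ?_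
    rw [Derivation.leibniz, hc.deriv, hD, Nat.cast_zero, zero_add, one_mul, zero_add, smul_eq_mul, smul_eq_mul]
    ring
  refine ⟨cb, hder, fun k => ?_⟩
  induction k with
  | zero =>
    intro e
    have hb : S.br (monomial e 1) = (Zmod S.fK).mkQ ((monomial e 1).map (algebraMap κ (RatFunc κ))) := rfl
    have h1 : lv nab S.br 0 (monomial e 1) = S.br (monomial e 1) := gmd_lv0 nab S.br _
    rw [h1, hb, hcb, map_monomial, map_monomial, map_one, map_one]
  | succ k ih =>
    intro e
    have h1 := hder (lv nab S.br k (monomial e 1))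
    have h6 := gmd_lv S nab k (monomial e 1)
    rw [ih e, hc.deriv, h6] at h1
    have h2 : (((k : κ) + 1) • lv nab S.br (k + 1) (monomial e 1) : HH S.fK) =
        (algebraMap κ (RatFunc κ) ((k : κ) + 1)) • lv nab S.br (k + 1) (monomial e 1) := by
      rw [algebraMap_smul]
    have h5 : algebraMap (RatFunc κ) L (algebraMap κ (RatFunc κ) ((k : κ) + 1)) = (k : L) + 1 := by
      rw [map_add, map_add, map_one, map_one, map_natCast, map_natCast]
    rw [h2, map_smul, Algebra.smul_def, h5] at h1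
    have h3 : ((k : L) + 1) ≠ 0 := by
      have h4 : ((k + 1 : ℕ) : L) ≠ 0 := Nat.cast_ne_zero.2 (Nat.succ_ne_zero _)
      rw [Nat.cast_add, Nat.cast_one] at h4
      exact h4
    exact (mul_left_cancel₀ h3 h1).symm

end MPadcHP
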