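import Pool.Agent.Lib.MP_adc574_ag_HP.Defs

/-!
# The module `H = K[x] / Z_f`: definitions
-/

set_option autoImplicit false

namespace MPadcHP

open MvPolynomial

universe u

section

variable {K : Type u} [Field K] {n : ℕ}

/-- The relations: `z(A) + C f`. -/
noncomputable def Zmod (f : MvPolynomial (Fin n) K) : Submodule K (MvPolynomial (Fin n) K) where
  carrier := {P | ∃ (A : Fin n → Fin n → MvPolynomial (Fin n) K) (C' : MvPolynomial (Fin n) K),
    Asym A ∧ P = (zz A fun j => pderiv j f) + C' * f}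
  zero_mem' := ⟨fun _ _ => 0, 0, ⟨fun _ => rfl, fun _ _ => by simp⟩, by simp [zz]⟩
  add_mem' := by
    rintro P Q ⟨A, C1, hA, rfl⟩ ⟨B, C2, hB, rfl⟩
    refine ⟨fun i j => A i j + B i j, C1 + C2, ⟨fun i => ?_, fun i j => ?_⟩, ?_⟩
    · simp [hA.1 i, hB.1 i]
    · simp only [hA.2 i j, hB.2 i j]
      ring
    · simp only [zz, map_add, Finset.sum_add_distrib, add_mul]
      ring
  smul_mem' := by
    rintro a P ⟨A, C1, hA, rfl⟩
    refine ⟨fun i j => a • A i j, a • C1, ⟨fun i => ?_, fun i j => ?_⟩, ?_⟩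
    · simp [hA.1 i]
    · simp only [hA.2 i j, smul_neg]
    · simp only [zz, Derivation.map_smul, smul_add, Finset.smul_sum, smul_mul_assoc]
      congr 1
      refine Finset.sum_congr rfl fun j _ => ?_
      rw [← Finset.smul_sum, smul_mul_assoc]

/-- The module `H`. -/
abbrev HH (f : MvPolynomial (Fin n) K) : Type u := MvPolynomial (Fin n) K ⧸ Zmod f

end

/-- The affine equation `φ - t` over `κ(t)`. -/
noncomputable def Dat.fK {κ : Type u} [Field κ] {n : ℕ} (S : Dat κ n) :
    MvPolynomial (Fin n) (RatFunc κ) :=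
  S.φ.map (algebraMap κ (RatFunc κ)) - C RatFunc.X

/-- The class of a polynomial over `κ`. -/
noncomputable def Dat.br {κ : Type u} [Field κ] {n : ℕ} (S : Dat κ n) :
    MvPolynomial (Fin n) κ →ₗ[κ] HH S.fK where
  toFun P := (Zmod S.fK).mkQ (P.map (algebraMap κ (RatFunc κ)))
  map_add' P Q := by simp
  map_smul' a P := by
    rw [RingHom.id_apply, MvPolynomial.smul_eq_C_mul, map_mul, map_C, ← MvPolynomial.smul_eq_C_mul,
      map_smul, algebraMap_smul]

end MPadcHP
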