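import Pool.Agent.Lib.MP_adc574_ag_HP.Defs

/-!
# JOB InfA: relations between the `[P]_k`

`lv k P = (k!)⁻¹ • nab^k (br P)`. All statements follow from `IsGM` and the definition (`pow_succ'`, `Nat.factorial_succ`, characteristic 0).
* `nab_smul_X`: `nab (t • h) = h + t • nab h` (`leib`, `DK_X`); by induction `nab^(k+1) (t • h) = t • nab^(k+1) h + (k+1) • nab^k h`, which with `mul` gives
  `lv_mul`: `[φ P]_{k+1} = t [P]_{k+1} + [P]_k`.
* `lv_exa`: `nab^(k+1) (br (Q ∂_i φ)) = nab^k (br (∂_i Q))`.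
* `psi_deg`: the coefficient of `x^e` in `ψ = d φ - ∑ w_i x_i ∂_i φ` is `(d - wt e) φ_e`; it vanishes for `wt e = d`, and for `wt e > d` since `φ_e = 0` (`hS.deg`).
* `EU`: `∑ i, ∂_i (w_i x_i x^e) = wtp(e) x^e`; `lv_exa` for `Q = w_i x_i x^e`: `wtp(e) [x^e]_k = (k+1) [x^e ∑ w_i x_i ∂_i φ]_{k+1} = (k+1) [x^e (d φ - ψ)]_{k+1}`
  `= (k+1) d (t [x^e]_{k+1} + [x^e]_k) - (k+1) [x^e ψ]_{k+1}` (`lv_mul`).
-/

set_option autoImplicit false

namespace MPadcHP

open MvPolynomial

universe u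

variable {κ : Type u} [Field κ] [CharZero κ] {n : ℕ} {S : Dat κ n} {H : Type u} [AddCommGroup H]
  [Module (RatFunc κ) H] [Module κ H] [IsScalarTower κ (RatFunc κ) H] {nab : H →ₗ[κ] H}
  {br : MvPolynomial (Fin n) κ →ₗ[κ] H}

private theorem infa_fact (k : ℕ) :
    ((k : κ) + 1) * (((k + 1).factorial : κ)⁻¹) = ((k.factorial : κ)⁻¹) := by
  have h1 : (k.factorial : κ) ≠ 0 := Nat.cast_ne_zero.2 (Nat.factorial_ne_zero k)
  have h2 : ((k : κ) + 1) ≠ 0 := by exact_mod_cast Nat.succ_ne_zero k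
  rw [Nat.factorial_succ, Nat.cast_mul, Nat.cast_add, Nat.cast_one, mul_inv, ← mul_assoc,
    mul_inv_cancel₀ h2, one_mul]

omit [CharZero κ] [Module (RatFunc κ) H] [IsScalarTower κ (RatFunc κ) H] in
private theorem infa_lv (k : ℕ) (P : MvPolynomial (Fin n) κ) :
    lv nab br k P = ((k.factorial : κ)⁻¹) • (nab ^ k) (br P) := rfl

private theorem infa_smul (hG : IsGM S nab br) (k : ℕ) (h : H) :
    (nab ^ (k + 1)) ((RatFunc.X : RatFunc κ) • h) =
      (RatFunc.X : RatFunc κ) • (nab ^ (k + 1)) h + ((k : κ) + 1) • (nab ^ k) h := by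
  induction k with
  | zero =>
    rw [zero_add, pow_one, pow_zero, hG.leib, DK_X, Nat.cast_zero, zero_add, one_smul, one_smul,
      add_comm]
    rfl
  | succ k ih =>
    rw [pow_succ', Module.End.mul_apply, ih, map_add, hG.leib, DK_X, one_smul, map_smul,
      ← Module.End.mul_apply, ← pow_succ', ← Module.End.mul_apply, ← pow_succ', Nat.cast_add,
      Nat.cast_one, add_smul ((k : κ) + 1) 1, one_smul]
    abel

omit [CharZero κ] in
private theorem infa_coeff (e : Fin n →₀ ℕ) (i : Fin n) (P : MvPolynomial (Fin n) κ) :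
    coeff e (X i * pderiv i P) = (e i : κ) * coeff e P := by
  induction P using MvPolynomial.induction_on' with
  | monomial u a =>
    rw [X_mul_pderiv_monomial, coeff_smul, coeff_monomial]
    split_ifs with h
    · rw [h, nsmul_eq_mul]
    · rw [smul_zero, mul_zero]
  | add p q hp hq =>
    rw [map_add, mul_add, coeff_add, coeff_add, hp, hq, mul_add]

omit [CharZero κ] in
private theorem infa_psi (e : Fin n →₀ ℕ) :
    coeff e S.psi = ((S.d : κ) - (wt S.w e : κ)) * coeff e S.φ := by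
  unfold Dat.psi wt
  rw [coeff_sub, coeff_smul, coeff_sum, sub_mul, smul_eq_mul, Nat.cast_sum, Finset.sum_mul]
  refine congrArg₂ (fun a b => a - b) rfl (Finset.sum_congr rfl fun i _ => ?_)
  rw [coeff_smul, infa_coeff, smul_eq_mul, Nat.cast_mul, mul_assoc]

omit [CharZero κ] in
private theorem infa_pd (e : Fin n →₀ ℕ) (i : Fin n) :
    pderiv i (X i * monomial e (1 : κ)) = ((e i : κ) + 1) • monomial e (1 : κ) := by
  rw [Derivation.leibniz, pderiv_X_self, smul_eq_mul, smul_eq_mul, mul_one,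
    X_mul_pderiv_monomial, add_smul, one_smul, ← Nat.cast_smul_eq_nsmul κ]

theorem lv_zero (P : MvPolynomial (Fin n) κ) : lv nab br 0 P = br P := by
  rw [infa_lv, Nat.factorial_zero, Nat.cast_one, inv_one, one_smul, pow_zero]
  rfl

theorem nab_lv (k : ℕ) (P : MvPolynomial (Fin n) κ) :
    nab (lv nab br k P) = ((k : κ) + 1) • lv nab br (k + 1) P := by
  rw [infa_lv, infa_lv, map_smul, smul_smul, infa_fact, ← Module.End.mul_apply, ← pow_succ']

theorem lv_mul (hG : IsGM S nab br) (k : ℕ) (P : MvPolynomial (Fin n) κ) :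
    lv nab br (k + 1) (S.φ * P) =
      (RatFunc.X : RatFunc κ) • lv nab br (k + 1) P + lv nab br k P := by
  rw [infa_lv, infa_lv, infa_lv, hG.mul, infa_smul hG, smul_add, smul_smul, mul_comm _ ((k : κ) + 1),
    infa_fact, smul_comm]

theorem lv_exa (hG : IsGM S nab br) (k : ℕ) (i : Fin n) (Q : MvPolynomial (Fin n) κ) :
    lv nab br k (pderiv i Q) = ((k : κ) + 1) • lv nab br (k + 1) (Q * pderiv i S.φ) := by
  rw [infa_lv, infa_lv, smul_smul, infa_fact, pow_succ, Module.End.mul_apply, hG.exa]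

theorem psi_deg (hS : S.Ok) : ∀ e ∈ S.psi.support, wt S.w e < S.d := by
  intro e he
  rw [mem_support_iff, infa_psi] at he
  have h1 : coeff e S.φ ≠ 0 := right_ne_zero_of_mul he
  have h2 : wt S.w e ≤ S.d := hS.deg e (mem_support_iff.2 h1)
  refine lt_of_le_of_ne h2 fun h3 => he ?_
  rw [h3, sub_self, zero_mul]

theorem EU (hG : IsGM S nab br) (k : ℕ) (e : Fin n →₀ ℕ) :
    (((k : κ) + 1) * S.d) • (RatFunc.X : RatFunc κ) • lv nab br (k + 1) (monomial e 1) =
      ((k : κ) + 1) • lv nab br (k + 1) (monomial e 1 * S.psi) -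
        (((k : κ) + 1) * S.d - (wtp S.w e : κ)) • lv nab br k (monomial e 1) := by
  have h1 : ∑ i, lv nab br k (pderiv i (((S.w i : ℕ) : κ) • (X i * monomial e (1 : κ)))) =
      (wtp S.w e : κ) • lv nab br k (monomial e 1) := by
    have h2 : ∀ i : Fin n, lv nab br k (pderiv i (((S.w i : ℕ) : κ) • (X i * monomial e (1 : κ)))) =
        (((S.w i * (e i + 1) : ℕ) : κ)) • lv nab br k (monomial e 1) := by
      intro i
      rw [Derivation.map_smul, infa_pd, map_smul, map_smul, smul_smul, Nat.cast_mul, Nat.cast_add,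
        Nat.cast_one]
    rw [Finset.sum_congr rfl fun i _ => h2 i, ← Finset.sum_smul, ← Nat.cast_sum]
    rfl
  have h3 : ∑ i, lv nab br k (pderiv i (((S.w i : ℕ) : κ) • (X i * monomial e (1 : κ)))) =
      ((k : κ) + 1) • lv nab br (k + 1) (monomial e 1 * ∑ i, ((S.w i : ℕ) : κ) • (X i * pderiv i S.φ)) := by
    rw [Finset.mul_sum, map_sum, Finset.smul_sum]
    refine Finset.sum_congr rfl fun i _ => ?_
    rw [lv_exa hG]
    refine congrArg (fun z => ((k : κ) + 1) • lv nab br (k + 1) z) ?_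
    rw [smul_mul_assoc, mul_smul_comm]
    refine congrArg (fun z => ((S.w i : ℕ) : κ) • z) ?_
    ring
  have h4 : ∑ i, ((S.w i : ℕ) : κ) • (X i * pderiv i S.φ) = (S.d : κ) • S.φ - S.psi := by
    unfold Dat.psi
    rw [sub_sub_cancel]
  have h5 : monomial e (1 : κ) * ((S.d : κ) • S.φ - S.psi) =
      (S.d : κ) • (S.φ * monomial e 1) - monomial e 1 * S.psi := by
    rw [mul_sub, mul_smul_comm, mul_comm S.φ]
  rw [h1, h4, h5, map_sub, map_smul, lv_mul hG, smul_sub, smul_smul, smul_add] at h3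
  rw [sub_smul, h3]
  abel

end MPadcHP
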