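import Pool.Agent.Lib.MP_adc574_ag_HP.InfA

/-!
# JOB InfC: reduction to monomials of small degree

* `hom_rep`: for `wt e ≥ M` write `x^e = ∑ B_j ∂_j φ_d` (`hS.jac`, `φ_d = part w d φ`; `Ideal.span` of a range) and keep from `B_j` only the monomials `e'` with
  `wt e' + d = wt e + w j` (`∂_j φ_d` is homogeneous: `wt e2 + w j = d` for `e2 ∈ (∂_j φ_d).support`); compare the monomials of weight `wt e`.
* `G0`: `B_j` with `wt e' = D0 + w j` for all monomials: `hG.lev` for `A i j = w_i x_i B_j - w_j x_j B_i`: `∑ i, ∂_i A i j = (W + D0) B_j - w_j x_j dvg B`, `W = ∑ w`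
  (`∑ i, ∂_i (w_i x_i x^e') = wtp(e') x^e' = (W + D0 + w_j) x^e'`, and `∑ i, ∂_i (w_j x_j B_i) = w_j B_j + w_j x_j dvg B`). So
  `(W + D0) br (∑ B_j ∂_j φ) = br ((∑ w_j x_j ∂_j φ) dvg B) = br ((d φ - ψ) dvg B) = d t br (dvg B) - br (ψ dvg B)` (`hG.mul`).
* `red0`: `wt e ≥ M`, `wt e ≥ d`: `B` from `hom_rep`, `D0 = wt e - d`; `W + D0 > 0` (`n > 0`). `[x^e]_0 = [∑ B_j ∂_j φ]_0 - [∑ B_j ∂_j (φ - φ_d)]_0`, `P1 = (d / (W + D0)) dvg B`
  (weight `wt e - d`), `P2 = - (W + D0)⁻¹ ψ dvg B - ∑ B_j ∂_j (φ - φ_d)` (monomials of weight `< wt e`: `psi_deg`; `∂_j (φ - φ_d)` has monomials with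
  `wt + w j < d`).
* `redk`: `[x^e]_{k+1} = [∑ B_j ∂_j φ]_{k+1} - [∑ B_j ∂_j (φ - φ_d)]_{k+1}` and `[∑ B_j ∂_j φ]_{k+1} = (k+1)⁻¹ [dvg B]_k` (`lv_exa`).
-/

set_option autoImplicit false

namespace MPadcHP

open MvPolynomial

universe u

variable {κ : Type u} [Field κ] [CharZero κ] {n : ℕ} {S : Dat κ n} {H : Type u} [AddCommGroup H]
  [Module (RatFunc κ) H] [Module κ H] [IsScalarTower κ (RatFunc κ) H] {nab : H →ₗ[κ] H}
  {br : MvPolynomial (Fin n) κ →ₗ[κ] H}

omit [CharZero κ] in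
private theorem infca_coeff (e : Fin n →₀ ℕ) (i : Fin n) (P : MvPolynomial (Fin n) κ) :
    coeff e (X i * pderiv i P) = (e i : κ) * coeff e P := by
  induction P using MvPolynomial.induction_on' with
  | monomial u a =>
    rw [X_mul_pderiv_monomial, coeff_smul, coeff_monomial]
    split_ifs with h
    · rw [h, nsmul_eq_mul]
    · rw [smul_zero, mul_zero]
  | add p q hp hq =>
    rw [map_add, mul_add, coeff_add, coeff_add, hp, hq, mul_add]

private theorem infca_wt_add (w : Fin n → ℕ) (a b : Fin n →₀ ℕ) :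
    wt w (a + b) = wt w a + wt w b := by
  unfold wt
  rw [← Finset.sum_add_distrib]
  exact Finset.sum_congr rfl fun i _ => by rw [Finsupp.add_apply, mul_add]

private theorem infca_wt_single (w : Fin n → ℕ) (j : Fin n) :
    wt w (Finsupp.single j 1) = w j := by
  unfold wt
  rw [Finset.sum_eq_single j]
  · rw [Finsupp.single_eq_same, mul_one]
  · intro i _ hi
    rw [Finsupp.single_eq_of_ne hi, mul_zero]
  · intro h
    exact absurd (Finset.mem_univ j) h

private theorem infca_weight (w : Fin n → ℕ) (a : Fin n →₀ ℕ) :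
    Finsupp.weight w a = wt w a := by
  unfold wt
  rw [Finsupp.weight_apply, Finsupp.sum_fintype a (fun i c => c • w i) (fun i => zero_smul _ _)]
  exact Finset.sum_congr rfl fun i _ => by rw [smul_eq_mul, mul_comm]

omit [CharZero κ] in
/-- monomials of the partial derivative of the homogeneous part -/
private theorem infca_hom (w : Fin n → ℕ) (d : ℕ) (P : MvPolynomial (Fin n) κ) (j : Fin n)
    (b : Fin n →₀ ℕ) (hb : coeff b (pderiv j (part w d P)) ≠ 0) : wt w b + w j = d := by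
  rw [coeff_pderiv] at hb
  have h1 : coeff (b + Finsupp.single j 1) (part w d P) ≠ 0 := by
    intro h
    rw [h, zero_mul] at hb
    exact hb rfl
  unfold part at h1
  rw [coeff_weightedHomogeneousComponent, infca_weight, infca_wt_add, infca_wt_single] at h1
  by_contra h2
  rw [if_neg h2] at h1
  exact h1 rfl

open Classical in
/-- the monomials with a property -/
private noncomputable def infca_flt (p : (Fin n →₀ ℕ) → Prop) (P : MvPolynomial (Fin n) κ) :
    MvPolynomial (Fin n) κ :=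
  ∑ a ∈ P.support.filter p, monomial a (coeff a P)

open Classical in
omit [CharZero κ] in
private theorem infca_flt_coeff (p : (Fin n →₀ ℕ) → Prop) (P : MvPolynomial (Fin n) κ)
    (a : Fin n →₀ ℕ) : coeff a (infca_flt p P) = if p a then coeff a P else 0 := by
  unfold infca_flt
  rw [coeff_sum]
  simp only [coeff_monomial]
  rw [Finset.sum_ite_eq']
  by_cases hp : p a
  · rw [if_pos hp]
    by_cases h0 : coeff a P = 0
    · rw [h0, ite_self]
    · rw [if_pos (Finset.mem_filter.2 ⟨mem_support_iff.2 h0, hp⟩)]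
  · rw [if_neg hp, if_neg (fun h => hp (Finset.mem_filter.1 h).2)]

omit [CharZero κ] in
/-- Euler's relation for homogeneous polynomials -/
private theorem infca_euler (w : Fin n → ℕ) (N : ℕ) (P : MvPolynomial (Fin n) κ)
    (hP : ∀ e ∈ P.support, wt w e = N) :
    ∑ i, ((w i : ℕ) : κ) • pderiv i (X i * P) = (((∑ i, w i : ℕ) : κ) + N) • P := by
  refine MvPolynomial.ext _ _ fun e => ?_
  rw [coeff_sum, coeff_smul]
  have h1 : ∀ i : Fin n, coeff e (((w i : ℕ) : κ) • pderiv i (X i * P)) =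
      ((w i : ℕ) : κ) * coeff e P + ((w i * e i : ℕ) : κ) * coeff e P := by
    intro i
    rw [coeff_smul, Derivation.leibniz, pderiv_X_self]
    simp only [smul_eq_mul]
    rw [mul_one, coeff_add, infca_coeff, Nat.cast_mul]
    ring
  rw [Finset.sum_congr rfl fun i _ => h1 i, Finset.sum_add_distrib, ← Finset.sum_mul,
    ← Finset.sum_mul, ← Nat.cast_sum, ← Nat.cast_sum, smul_eq_mul, add_mul]
  by_cases h0 : coeff e P = 0
  · rw [h0, mul_zero, mul_zero, mul_zero]
  · have h2 : ∑ i, w i * e i = N := hP e (mem_support_iff.2 h0)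
    rw [h2]

theorem hom_rep (hS : S.Ok) (e : Fin n →₀ ℕ) (he : S.M ≤ wt S.w e) :
    ∃ B : Fin n → MvPolynomial (Fin n) κ,
      monomial e (1 : κ) = ∑ j, B j * pderiv j (part S.w S.d S.φ) ∧
      ∀ j, ∀ e' ∈ (B j).support, wt S.w e' + S.d = wt S.w e + S.w j := by
  obtain ⟨C, hC⟩ := Ideal.mem_span_range_iff_exists_fun.1 (hS.jac e he)
  refine ⟨fun j => infca_flt (fun a => wt S.w a + S.d = wt S.w e + S.w j) (C j), ?_, ?_⟩
  · refine MvPolynomial.ext _ _ fun m => ?_
    rw [← hC, coeff_sum, coeff_sum]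
    by_cases hm : wt S.w m = wt S.w e
    · refine Finset.sum_congr rfl fun j _ => ?_
      rw [coeff_mul, coeff_mul]
      refine Finset.sum_congr rfl fun x hx => ?_
      by_cases h0 : coeff x.2 (pderiv j (part S.w S.d S.φ)) = 0
      · rw [h0, mul_zero, mul_zero]
      · have h1 := infca_hom S.w S.d S.φ j x.2 h0
        have h2 : wt S.w x.1 + wt S.w x.2 = wt S.w m := by
          rw [← infca_wt_add, Finset.HasAntidiagonal.mem_antidiagonal.1 hx]
        rw [infca_flt_coeff, if_pos (by omega)]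
    · rw [← coeff_sum, hC, coeff_monomial, if_neg (fun h => hm (by rw [h]))]
      symm
      refine Finset.sum_eq_zero fun j _ => ?_
      rw [coeff_mul]
      refine Finset.sum_eq_zero fun x hx => ?_
      by_cases h0 : coeff x.2 (pderiv j (part S.w S.d S.φ)) = 0
      · rw [h0, mul_zero]
      · have h1 := infca_hom S.w S.d S.φ j x.2 h0
        have h2 : wt S.w x.1 + wt S.w x.2 = wt S.w m := by
          rw [← infca_wt_add, Finset.HasAntidiagonal.mem_antidiagonal.1 hx]
        rw [infca_flt_coeff, if_neg (by omega), zero_mul]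
  · intro j e' he'
    rw [mem_support_iff, infca_flt_coeff] at he'
    by_contra h
    rw [if_neg h] at he'
    exact he' rfl

theorem G0 (hG : IsGM S nab br) (D0 : ℕ) (B : Fin n → MvPolynomial (Fin n) κ)
    (hB : ∀ j, ∀ e' ∈ (B j).support, wt S.w e' = D0 + S.w j) :
    (((∑ i, S.w i : ℕ) : κ) + D0) • br (∑ j, B j * pderiv j S.φ) =
      (S.d : κ) • (RatFunc.X : RatFunc κ) • br (dvg B) - br (S.psi * dvg B) := by
  have hA : Asym (fun i j => ((S.w i : ℕ) : κ) • (X i * B j) - ((S.w j : ℕ) : κ) • (X j * B i)) := by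
    refine ⟨fun i => sub_self _, fun i j => ?_⟩
    rw [neg_sub]
  have h1 := hG.lev _ hA
  have h2 : zz (fun i j => ((S.w i : ℕ) : κ) • (X i * B j) - ((S.w j : ℕ) : κ) • (X j * B i))
      (fun j => pderiv j S.φ) =
      (((∑ i, S.w i : ℕ) : κ) + D0) • (∑ j, B j * pderiv j S.φ) -
        ((S.d : κ) • (S.φ * dvg B) - S.psi * dvg B) := by
    have h3 : ∀ j : Fin n, ∑ i, pderiv i (((S.w i : ℕ) : κ) • (X i * B j) -
        ((S.w j : ℕ) : κ) • (X j * B i)) =
        (((∑ i, S.w i : ℕ) : κ) + D0) • B j - ((S.w j : ℕ) : κ) • (X j * dvg B) := by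
      intro j
      have h4 : ∀ i : Fin n, pderiv i (((S.w i : ℕ) : κ) • (X i * B j) -
          ((S.w j : ℕ) : κ) • (X j * B i)) =
          ((S.w i : ℕ) : κ) • pderiv i (X i * B j) - ((S.w j : ℕ) : κ) • pderiv i (X j * B i) := by
        intro i
        rw [map_sub, Derivation.map_smul, Derivation.map_smul]
      have h5 : ∑ i, pderiv i (X j * B i) = B j + X j * dvg B := by
        have h6 : ∀ i : Fin n, pderiv i (X j * B i) =
            (if i = j then B i else 0) + X j * pderiv i (B i) := by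
          intro i
          rw [Derivation.leibniz, smul_eq_mul, smul_eq_mul, add_comm]
          by_cases hij : i = j
          · rw [if_pos hij, hij, pderiv_X_self, mul_one]
          · rw [if_neg hij, pderiv_X_of_ne (fun h => hij h.symm), mul_zero]
        rw [Finset.sum_congr rfl fun i _ => h6 i, Finset.sum_add_distrib, Finset.sum_ite_eq',
          if_pos (Finset.mem_univ j), ← Finset.mul_sum]
        rfl
      rw [Finset.sum_congr rfl fun i _ => h4 i, Finset.sum_sub_distrib, ← Finset.smul_sum, h5,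
        infca_euler S.w (D0 + S.w j) (B j) (hB j), Nat.cast_add]
      module
    unfold zz
    have h7 : ∀ j : Fin n, (∑ i, pderiv i (((S.w i : ℕ) : κ) • (X i * B j) -
        ((S.w j : ℕ) : κ) • (X j * B i))) * pderiv j S.φ =
        (((∑ i, S.w i : ℕ) : κ) + D0) • (B j * pderiv j S.φ) -
          (((S.w j : ℕ) : κ) • (X j * pderiv j S.φ)) * dvg B := by
      intro j
      rw [h3 j, sub_mul, smul_mul_assoc, smul_mul_assoc, smul_mul_assoc]
      refine congrArg (fun z => (((∑ i, S.w i : ℕ) : κ) + D0) • (B j * pderiv j S.φ) -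
        ((S.w j : ℕ) : κ) • z) ?_
      ring
    have h8 : ∑ i, ((S.w i : ℕ) : κ) • (X i * pderiv i S.φ) = (S.d : κ) • S.φ - S.psi := by
      unfold Dat.psi
      rw [sub_sub_cancel]
    rw [Finset.sum_congr rfl fun j _ => h7 j, Finset.sum_sub_distrib, ← Finset.smul_sum,
      ← Finset.sum_mul, h8, sub_mul, smul_mul_assoc]
  rw [h2, map_sub, map_smul, map_sub, map_smul, hG.mul, sub_eq_zero] at h1
  exact h1

private theorem infCb_wt_add (w : Fin n → ℕ) (e e' : Fin n →₀ ℕ) :
    wt w (e + e') = wt w e + wt w e' := by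
  unfold wt
  rw [← Finset.sum_add_distrib]
  refine Finset.sum_congr rfl fun i _ => ?_
  rw [Finsupp.add_apply, mul_add]

private theorem infCb_wt_single (w : Fin n → ℕ) (j : Fin n) :
    wt w (Finsupp.single j 1) = w j := by
  unfold wt
  rw [Finset.sum_eq_single j]
  · rw [Finsupp.single_eq_same, mul_one]
  · intro i _ hi
    rw [Finsupp.single_eq_of_ne hi, mul_zero]
  · intro h
    exact absurd (Finset.mem_univ j) h

private theorem infCb_weight (w : Fin n → ℕ) (e : Fin n →₀ ℕ) :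
    Finsupp.weight w e = wt w e := by
  rw [Finsupp.weight_apply, Finsupp.sum_fintype]
  · unfold wt
    refine Finset.sum_congr rfl fun i _ => ?_
    rw [smul_eq_mul, mul_comm]
  · intro i
    exact zero_smul _ _

omit [CharZero κ] in
private theorem infCb_pderiv_support (i : Fin n) (P : MvPolynomial (Fin n) κ) (e : Fin n →₀ ℕ)
    (he : e ∈ (pderiv i P).support) : e + Finsupp.single i 1 ∈ P.support := by
  rw [mem_support_iff] at he ⊢
  intro h
  apply he
  rw [coeff_pderiv, h, zero_mul]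

omit [CharZero κ] in
private theorem infCb_dvg (w : Fin n → ℕ) (D0 : ℕ) (B : Fin n → MvPolynomial (Fin n) κ)
    (hB : ∀ j, ∀ e' ∈ (B j).support, wt w e' = D0 + w j) :
    ∀ e' ∈ (dvg B).support, wt w e' = D0 := by
  classical
  intro e' he'
  unfold dvg at he'
  obtain ⟨i, _, hi⟩ := Finset.mem_biUnion.mp (support_sum he')
  have h1 := hB i _ (infCb_pderiv_support i (B i) e' hi)
  rw [infCb_wt_add, infCb_wt_single] at h1
  omega

omit [CharZero κ] in
private theorem infCb_sub_part (w : Fin n → ℕ) (d : ℕ) (φ : MvPolynomial (Fin n) κ)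
    (hφ : DegLe w d φ) : ∀ e ∈ (φ - part w d φ).support, wt w e < d := by
  intro e he
  rw [mem_support_iff, coeff_sub] at he
  have h1 : coeff e (part w d φ) = if Finsupp.weight w e = d then coeff e φ else 0 :=
    by
    classical
    unfold part
    rw [coeff_weightedHomogeneousComponent]
  rw [h1, infCb_weight] at he
  by_cases h2 : wt w e = d
  · rw [if_pos h2, sub_self] at he
    exact absurd rfl he
  · rw [if_neg h2, sub_zero] at he
    have h3 := hφ e (mem_support_iff.mpr he)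
    omega

omit [CharZero κ] in
private theorem infCb_low (w : Fin n → ℕ) (d N : ℕ) (φ : MvPolynomial (Fin n) κ)
    (hφ : DegLe w d φ) (B : Fin n → MvPolynomial (Fin n) κ)
    (hB : ∀ j, ∀ e' ∈ (B j).support, wt w e' + d = N + w j) :
    ∀ e' ∈ (∑ j, B j * pderiv j (φ - part w d φ)).support, wt w e' < N := by
  classical
  intro e' he'
  obtain ⟨j, _, hj⟩ := Finset.mem_biUnion.mp (support_sum he')
  obtain ⟨e1, h1, e2, h2, h3⟩ := Finset.mem_add.mp (support_mul _ _ hj)
  have h4 := hB j e1 h1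
  have h5 := infCb_sub_part w d φ hφ _ (infCb_pderiv_support j _ e2 h2)
  rw [infCb_wt_add, infCb_wt_single] at h5
  rw [← h3, infCb_wt_add]
  omega

omit [CharZero κ] in
private theorem infCb_split (w : Fin n → ℕ) (d : ℕ) (φ : MvPolynomial (Fin n) κ)
    (B : Fin n → MvPolynomial (Fin n) κ) :
    ∑ j, B j * pderiv j (part w d φ) =
      ∑ j, B j * pderiv j φ - ∑ j, B j * pderiv j (φ - part w d φ) := by
  rw [← Finset.sum_sub_distrib]
  refine Finset.sum_congr rfl fun j _ => ?_
  rw [map_sub]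
  ring

theorem red0 (hn : 0 < n) (hS : S.Ok) (hG : IsGM S nab br) (e : Fin n →₀ ℕ)
    (he : S.M ≤ wt S.w e) (he' : S.d ≤ wt S.w e) :
    ∃ P1 P2 : MvPolynomial (Fin n) κ, (∀ e' ∈ P1.support, wt S.w e' + S.d = wt S.w e) ∧
      (∀ e' ∈ P2.support, wt S.w e' < wt S.w e) ∧
      lv nab br 0 (monomial e 1) =
        (RatFunc.X : RatFunc κ) • lv nab br 0 P1 + lv nab br 0 P2 := by
  classical
  obtain ⟨B, hB1, hB2⟩ := hom_rep hS e he
  obtain ⟨D0, hD0⟩ : ∃ D0 : ℕ, wt S.w e = D0 + S.d := ⟨wt S.w e - S.d, by omega⟩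
  have hB3 : ∀ j, ∀ e' ∈ (B j).support, wt S.w e' = D0 + S.w j := by
    intro j e' h
    have h1 := hB2 j e' h
    omega
  obtain ⟨s, hs⟩ : ∃ s : κ, s = ((∑ i, S.w i : ℕ) : κ) + D0 := ⟨_, rfl⟩
  have hs0 : s ≠ 0 := by
    have h1 : 0 < ∑ i, S.w i :=
      Finset.sum_pos (fun i _ => hS.w_pos i) ⟨⟨0, hn⟩, Finset.mem_univ _⟩
    have h2 : ((∑ i, S.w i + D0 : ℕ) : κ) ≠ 0 := by
      rw [Nat.cast_ne_zero]
      omega
    rw [hs]
    rwa [Nat.cast_add] at h2
  have hG0 := G0 hG D0 B hB3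
  rw [← hs] at hG0
  have hbr : br (∑ j, B j * pderiv j S.φ) =
      s⁻¹ • ((S.d : κ) • (RatFunc.X : RatFunc κ) • br (dvg B) - br (S.psi * dvg B)) := by
    rw [← hG0, smul_smul, inv_mul_cancel₀ hs0, one_smul]
  refine ⟨(s⁻¹ * (S.d : κ)) • dvg B, -(s⁻¹ • (S.psi * dvg B)) -
    ∑ j, B j * pderiv j (S.φ - part S.w S.d S.φ), ?_, ?_, ?_⟩
  · intro e' he'
    have h1 := infCb_dvg S.w D0 B hB3 e' (support_smul he')
    omega
  · intro e' he'
    rcases Finset.mem_union.mp (support_sub (Fin n) _ _ he') with h1 | h1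
    · rw [support_neg] at h1
      obtain ⟨e1, h2, e2, h3, h4⟩ := Finset.mem_add.mp (support_mul _ _ (support_smul h1))
      have h5 := psi_deg hS e1 h2
      have h6 := infCb_dvg S.w D0 B hB3 e2 h3
      rw [← h4, infCb_wt_add]
      omega
    · exact infCb_low S.w S.d (wt S.w e) S.φ hS.deg B hB2 e' h1
  · rw [lv_zero, lv_zero, lv_zero, hB1, infCb_split, map_sub, hbr, map_sub, map_neg, map_smul,
      map_smul, smul_sub, smul_smul, smul_comm (RatFunc.X : RatFunc κ)]
    abel

theorem redk (hS : S.Ok) (hG : IsGM S nab br) (k : ℕ) (e : Fin n →₀ ℕ)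
    (he : S.M ≤ wt S.w e) (he' : S.d ≤ wt S.w e) :
    ∃ P1 P2 : MvPolynomial (Fin n) κ, (∀ e' ∈ P1.support, wt S.w e' + S.d = wt S.w e) ∧
      (∀ e' ∈ P2.support, wt S.w e' < wt S.w e) ∧
      lv nab br (k + 1) (monomial e 1) = lv nab br k P1 + lv nab br (k + 1) P2 := by
  obtain ⟨B, hB1, hB2⟩ := hom_rep hS e he
  obtain ⟨D0, hD0⟩ : ∃ D0 : ℕ, wt S.w e = D0 + S.d := ⟨wt S.w e - S.d, by omega⟩
  have hB3 : ∀ j, ∀ e' ∈ (B j).support, wt S.w e' = D0 + S.w j := by
    intro j e' h
    have h1 := hB2 j e' h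
    omega
  have hk0 : ((k : κ) + 1) ≠ 0 := Nat.cast_add_one_ne_zero k
  refine ⟨((k : κ) + 1)⁻¹ • dvg B, - ∑ j, B j * pderiv j (S.φ - part S.w S.d S.φ), ?_, ?_, ?_⟩
  · intro e' he'
    have h1 := infCb_dvg S.w D0 B hB3 e' (support_smul he')
    omega
  · intro e' he'
    rw [support_neg] at he'
    exact infCb_low S.w S.d (wt S.w e) S.φ hS.deg B hB2 e' he'
  · have h1 : lv nab br k (dvg B) =
        ((k : κ) + 1) • lv nab br (k + 1) (∑ j, B j * pderiv j S.φ) := by
      unfold dvg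
      rw [map_sum, map_sum, Finset.smul_sum]
      exact Finset.sum_congr rfl fun j _ => lv_exa hG k j (B j)
    rw [map_smul, h1, smul_smul, inv_mul_cancel₀ hk0, one_smul, map_neg, hB1, infCb_split,
      map_sub]
    abel

end MPadcHP
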