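import Pool.Agent.Lib.MP_adc574_ag_HP.InfC

/-!
# JOB InfD: degree bounds

`Bd d N x` means `x = 0` or `d deg x ≤ N` (`RatFunc.intDegree`, `K = RatFunc κ`, `d > 0`).
* `Bd_add`, `Bd_sum`: `RatFunc.intDegree_add_le` (`x + y ≠ 0`); `Bd_smul` (constants `a : κ`); `Bd_X`: `t x` has degree `deg x + 1`.
* `bound0`: for `l : H → K` linear there is `C` with `Bd d (wtp e - d + C) (l [x^e]_0)` for all `e`. For the finitely many `e` with `wt e < max M d` (finite: `wt e ≥ e i` as `w > 0`)
  take a maximum; for `wt e ≥ max M d` by strong induction on `wt e`: `red0`: `[x^e]_0 = t [P1]_0 + [P2]_0`; `[P1]_0 = ∑ coeff • [x^e']_0` with `wt e' = wt e - d`, so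
  `d deg (t l[x^e']_0) ≤ d + wtp e' - d + C = wtp e - d + C`; the terms of `P2` have `wtp e' ≤ wtp e - 1`. (`wtp e = wt e + ∑ w`, lemma `wtp_eq`.)
* `bound_step`: (a) a bound `C'` at level `k+1` exists: finitely many `e` with `wt e < max M d`, then induction on `wt e` with `redk`: `[x^e]_{k+1} = [P1]_k + [P2]_{k+1}`, `wtp e' - d (k+1) + Ck = wtp e - d (k+2) + Ck`
  for `e'` in `P1` (`wt e' = wt e - d`). So with `C' = max (Ck) (finite max)` fine. (b) If `C'` is a bound at level `k+1` then `max Ck (C' - 1)` is a bound: `EU`: `(k+1) d t [x^e]_{k+1} = (k+1)[x^e ψ]_{k+1} - c [x^e]_k`: the monomials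
  `e + b` of `x^e ψ` have `wtp (e + b) ≤ wtp e + d - 1` (`psi_deg`), so `d deg (t l[x^e]_{k+1}) ≤ max (wtp e + d - 1 - d(k+2) + C') (wtp e - d(k+1) + Ck)`, subtract `d`. Iterating (b) `C' - Ck` times gives the bound `Ck` at level `k+1`.
* `bound_all`: induction on `k` with the SAME constant.
-/

set_option autoImplicit false

namespace MPadcHP

open MvPolynomial

universe u

section

variable {κ : Type u} [Field κ]

theorem wtp_eq {n : ℕ} (w : Fin n → ℕ) (e : Fin n →₀ ℕ) : wtp w e = wt w e + ∑ i, w i := by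
  unfold wtp wt
  rw [← Finset.sum_add_distrib]
  apply Finset.sum_congr rfl
  intro i _
  ring

theorem Bd_add {d : ℕ} {N : ℤ} {x y : RatFunc κ} (hx : Bd d N x) (hy : Bd d N y) :
    Bd d N (x + y) := by
  by_cases h0 : x + y = 0
  · exact Or.inl h0
  · rcases hx with hx | hx
    · rw [hx, zero_add]
      exact hy
    · rcases hy with hy | hy
      · rw [hy, add_zero]
        exact Or.inr hx
      · by_cases hy0 : y = 0
        · rw [hy0, add_zero]
          exact Or.inr hx
        · right
          have h1 := RatFunc.intDegree_add_le hy0 h0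
          have hd : (0 : ℤ) ≤ (d : ℤ) := Int.natCast_nonneg d
          rcases le_max_iff.1 h1 with h2 | h2
          · exact (mul_le_mul_of_nonneg_left h2 hd).trans hx
          · exact (mul_le_mul_of_nonneg_left h2 hd).trans hy

theorem Bd_mono {d : ℕ} {N N' : ℤ} {x : RatFunc κ} (hx : Bd d N x) (h : N ≤ N') : Bd d N' x := by
  rcases hx with hx | hx
  · exact Or.inl hx
  · exact Or.inr (hx.trans h)

theorem Bd_smul {d : ℕ} {N : ℤ} {x : RatFunc κ} (a : κ) (hx : Bd d N x) : Bd d N (a • x) := by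
  by_cases ha : a = 0
  · left
    rw [ha, zero_smul]
  · rcases hx with hx | hx
    · left
      rw [hx, smul_zero]
    · by_cases hx0 : x = 0
      · left
        rw [hx0, smul_zero]
      · right
        have h1 : a • x = RatFunc.C a * x := by
          rw [Algebra.smul_def, RatFunc.algebraMap_eq_C]
        have h2 : (RatFunc.C a : RatFunc κ) ≠ 0 := by
          intro h
          exact ha (RatFunc.C_injective (by rw [h, map_zero]))
        rw [h1, RatFunc.intDegree_mul h2 hx0, RatFunc.intDegree_C, zero_add]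
        exact hx

theorem Bd_X {d : ℕ} {N : ℤ} {x : RatFunc κ} : Bd d (N + d) (RatFunc.X * x) ↔ Bd d N x := by
  have hX0 : (RatFunc.X : RatFunc κ) ≠ 0 := RatFunc.X_ne_zero
  unfold Bd
  by_cases hx0 : x = 0
  · rw [hx0, mul_zero]
    exact ⟨fun _ => Or.inl rfl, fun _ => Or.inl rfl⟩
  · have h1 : RatFunc.X * x ≠ 0 := mul_ne_zero hX0 hx0
    rw [RatFunc.intDegree_mul hX0 hx0, RatFunc.intDegree_X]
    constructor
    · rintro (h | h)
      · exact absurd h h1
      · right
        linarith
    · rintro (h | h)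
      · exact absurd h hx0
      · right
        linarith

end

variable {κ : Type u} [Field κ] [CharZero κ] {n : ℕ} {S : Dat κ n} {H : Type u} [AddCommGroup H]
  [Module (RatFunc κ) H] [Module κ H] [IsScalarTower κ (RatFunc κ) H] {nab : H →ₗ[κ] H}
  {br : MvPolynomial (Fin n) κ →ₗ[κ] H}

omit [CharZero κ] in
theorem InfDa_lin {d : ℕ} {N : ℤ} (l : H →ₗ[RatFunc κ] RatFunc κ) (k : ℕ)
    (P : MvPolynomial (Fin n) κ)
    (hP : ∀ e ∈ P.support, Bd d N (l (lv nab br k (monomial e 1)))) :
    Bd d N (l (lv nab br k P)) := by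
  classical
  have h1 : P = ∑ e ∈ P.support, coeff e P • monomial e (1 : κ) := by
    conv_lhs => rw [P.as_sum]
    apply Finset.sum_congr rfl
    intro e _
    rw [smul_monomial, smul_eq_mul, mul_one]
  have h2 : ∀ T : Finset (Fin n →₀ ℕ), T ⊆ P.support →
      Bd d N (l (lv nab br k (∑ e ∈ T, coeff e P • monomial e (1 : κ)))) := by
    intro T
    induction T using Finset.induction_on with
    | empty =>
      intro _
      left
      rw [Finset.sum_empty, map_zero, map_zero]
    | insert a T ha ih =>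
      intro hT
      rw [Finset.sum_insert ha, map_add, map_add, map_smul]
      apply Bd_add
      · have h3 : l (coeff a P • lv nab br k (monomial a 1)) =
            coeff a P • l (lv nab br k (monomial a 1)) := by
          rw [← algebraMap_smul (RatFunc κ) (coeff a P) (lv nab br k (monomial a 1)), map_smul,
            algebraMap_smul]
        rw [h3]
        exact Bd_smul _ (hP a (hT (Finset.mem_insert_self _ _)))
      · exact ih ((Finset.subset_insert _ _).trans hT)
  rw [h1]
  exact h2 P.support (Finset.Subset.refl _)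

theorem bound0 (hn : 0 < n) (hS : S.Ok) (hG : IsGM S nab br) (l : H →ₗ[RatFunc κ] RatFunc κ) :
    ∃ C : ℤ, ∀ e : Fin n →₀ ℕ,
      Bd S.d ((wtp S.w e : ℤ) - S.d + C) (l (lv nab br 0 (monomial e 1))) := by
  have hSd : (0 : ℤ) < (S.d : ℤ) := by exact_mod_cast hS.d_pos
  let c : (Fin n →₀ ℕ) → ℤ := fun e =>
    (S.d : ℤ) * (l (lv nab br 0 (monomial e 1))).intDegree - wtp S.w e + S.d
  have hfin : ({e : Fin n →₀ ℕ | wt S.w e < max S.M S.d}).Finite := by
    apply (Set.finite_Iic (Finsupp.equivFunOnFinite.symm (fun _ : Fin n => max S.M S.d))).subset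
    intro e he
    rw [Set.mem_Iic, Finsupp.le_def]
    intro i
    have h1 : S.w i * e i ≤ wt S.w e := by
      unfold wt
      exact Finset.single_le_sum (f := fun i => S.w i * e i) (fun _ _ => Nat.zero_le _)
        (Finset.mem_univ i)
    have h2 : e i ≤ S.w i * e i := Nat.le_mul_of_pos_left _ (hS.w_pos i)
    have h3 : wt S.w e < max S.M S.d := he
    change e i ≤ max S.M S.d
    omega
  let C : ℤ := ∑ e ∈ hfin.toFinset, |c e|
  refine ⟨C, ?_⟩
  have hind : ∀ m : ℕ, ∀ e : Fin n →₀ ℕ, wt S.w e = m →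
      Bd S.d ((wtp S.w e : ℤ) - S.d + C) (l (lv nab br 0 (monomial e 1))) := by
    intro m
    induction m using Nat.strong_induction_on with
    | _ m ih =>
      intro e he
      by_cases hlt : wt S.w e < max S.M S.d
      · right
        have h1 : |c e| ≤ C := Finset.single_le_sum (f := fun e => |c e|)
          (fun _ _ => abs_nonneg _) (hfin.mem_toFinset.2 hlt)
        have h2 : c e ≤ C := (le_abs_self _).trans h1
        change (S.d : ℤ) * (l (lv nab br 0 (monomial e 1))).intDegree - wtp S.w e + S.d ≤ C at h2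
        linarith
      · have hM : S.M ≤ wt S.w e := (le_max_left _ _).trans (not_lt.1 hlt)
        have hd : S.d ≤ wt S.w e := (le_max_right _ _).trans (not_lt.1 hlt)
        obtain ⟨P1, P2, h1, h2, h3⟩ := red0 hn hS hG e hM hd
        rw [h3, map_add, map_smul, smul_eq_mul]
        apply Bd_add
        · have h4 : Bd S.d ((wtp S.w e : ℤ) - S.d + C - S.d) (l (lv nab br 0 P1)) := by
            apply InfDa_lin
            intro e' he'
            have h5 := h1 e' he'
            have h6 := ih (wt S.w e') (by have := hS.d_pos; omega) e' rfl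
            have h7 : (wtp S.w e' : ℤ) = (wtp S.w e : ℤ) - S.d := by
              rw [wtp_eq, wtp_eq, ← h5]
              push_cast
              ring
            rw [h7] at h6
            exact Bd_mono h6 (by linarith)
          have h5 := Bd_X.2 h4
          exact Bd_mono h5 (by linarith)
        · apply InfDa_lin
          intro e' he'
          have h5 := h2 e' he'
          have h6 := ih (wt S.w e') (by omega) e' rfl
          have h7 : (wtp S.w e' : ℤ) ≤ (wtp S.w e : ℤ) := by
            rw [wtp_eq, wtp_eq]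
            push_cast
            have : (wt S.w e' : ℤ) ≤ wt S.w e := by exact_mod_cast h5.le
            linarith
          exact Bd_mono h6 (by linarith)
  intro e
  exact hind _ e rfl

private theorem infdb_fin {d : ℕ} (w : Fin n → ℕ) (hw : ∀ i, 0 < w i) (T : ℕ) (f : (Fin n →₀ ℕ) → RatFunc κ)
    (g : (Fin n →₀ ℕ) → ℤ) : ∃ C : ℤ, ∀ e, wt w e < T → Bd d (g e + C) (f e) := by
  have hfin : {e : Fin n →₀ ℕ | wt w e < T}.Finite := by
    refine Set.Finite.subset (Set.finite_Icc (0 : Fin n →₀ ℕ) (Finsupp.equivFunOnFinite.symm fun _ => T)) ?_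
    intro e he
    refine ⟨fun i => Nat.zero_le _, fun i => ?_⟩
    have h1 : w i * e i ≤ wt w e := by
      unfold wt
      exact Finset.single_le_sum (f := fun i => w i * e i) (fun j _ => Nat.zero_le _) (Finset.mem_univ i)
    have h2 : e i ≤ w i * e i := Nat.le_mul_of_pos_left _ (hw i)
    have h3 : wt w e < T := he
    simp only [Finsupp.equivFunOnFinite_symm_apply_apply]
    omega
  obtain ⟨C, hC⟩ := (hfin.image fun e => (d : ℤ) * (f e).intDegree - g e).bddAbove
  refine ⟨C, fun e he => Or.inr ?_⟩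
  have h1 : (d : ℤ) * (f e).intDegree - g e ≤ C :=
    hC (Set.mem_image_of_mem (fun e => (d : ℤ) * (f e).intDegree - g e) he)
  linarith

private theorem infdb_poly (l : H →ₗ[RatFunc κ] RatFunc κ) {d : ℕ} (k : ℕ) (N : ℤ) (P : MvPolynomial (Fin n) κ)
    (h : ∀ e' ∈ P.support, Bd d N (l (lv nab br k (monomial e' 1)))) : Bd d N (l (lv nab br k P)) := by
  have h1 : l (lv nab br k P) = ∑ e' ∈ P.support, (coeff e' P) • l (lv nab br k (monomial e' 1)) := by
    conv_lhs => rw [P.as_sum]
    rw [map_sum, map_sum]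
    refine Finset.sum_congr rfl fun e' _ => ?_
    have h2 : (monomial e') (coeff e' P) = (coeff e' P) • (monomial e' (1 : κ)) := by
      rw [smul_monomial, smul_eq_mul, mul_one]
    rw [h2, map_smul, LinearMap.map_smul_of_tower]
  rw [h1]
  refine Finset.sum_induction _ (Bd d N) (fun a b ha hb => Bd_add ha hb) (Or.inl rfl) ?_
  intro e' he'
  exact Bd_smul _ (h e' he')

private theorem infdb_wtp_add (w : Fin n → ℕ) (e b : Fin n →₀ ℕ) : wtp w (e + b) = wtp w e + wt w b := by
  unfold wtp wt
  rw [← Finset.sum_add_distrib]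
  refine Finset.sum_congr rfl fun i _ => ?_
  rw [Finsupp.add_apply]
  ring

private theorem infdb_a (hS : S.Ok) (hG : IsGM S nab br)
    (l : H →ₗ[RatFunc κ] RatFunc κ) (k : ℕ) (C : ℤ)
    (hC : ∀ e : Fin n →₀ ℕ,
      Bd S.d ((wtp S.w e : ℤ) - S.d * ((k : ℤ) + 1) + C) (l (lv nab br k (monomial e 1)))) :
    ∃ m : ℕ, ∀ e : Fin n →₀ ℕ,
      Bd S.d ((wtp S.w e : ℤ) - S.d * ((k : ℤ) + 2) + (C + m)) (l (lv nab br (k + 1) (monomial e 1))) := by
  obtain ⟨C1, hC1⟩ := infdb_fin (d := S.d) S.w hS.w_pos (max S.M S.d)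
    (fun e => l (lv nab br (k + 1) (monomial e 1))) (fun e => (wtp S.w e : ℤ) - S.d * ((k : ℤ) + 2))
  obtain ⟨m, hm⟩ : ∃ m : ℕ, C1 ≤ C + m := ⟨(C1 - C).toNat, by have := Int.self_le_toNat (C1 - C); linarith⟩
  refine ⟨m, ?_⟩
  have key : ∀ N : ℕ, ∀ e : Fin n →₀ ℕ, wt S.w e = N →
      Bd S.d ((wtp S.w e : ℤ) - S.d * ((k : ℤ) + 2) + (C + m)) (l (lv nab br (k + 1) (monomial e 1))) := by
    intro N
    induction N using Nat.strong_induction_on with
    | _ N ih =>
      intro e he
      by_cases hT : wt S.w e < max S.M S.d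
      · exact Bd_mono (hC1 e hT) (by linarith)
      · have h1 : S.M ≤ wt S.w e := le_trans (le_max_left _ _) (not_lt.mp hT)
        have h2 : S.d ≤ wt S.w e := le_trans (le_max_right _ _) (not_lt.mp hT)
        obtain ⟨P1, P2, hP1, hP2, heq⟩ := redk hS hG k e h1 h2
        rw [heq, map_add]
        refine Bd_add ?_ ?_
        · refine infdb_poly l k _ P1 fun e' he' => Bd_mono (hC e') ?_
          have h3 := hP1 e' he'
          have h4 := wtp_eq S.w e'
          have h5 := wtp_eq S.w e
          have h6 : (wtp S.w e' : ℤ) + S.d = wtp S.w e := by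
            have : wtp S.w e' + S.d = wtp S.w e := by omega
            exact_mod_cast this
          have h7 : (0 : ℤ) ≤ m := Int.natCast_nonneg m
          nlinarith
        · refine infdb_poly l (k + 1) _ P2 fun e' he' => ?_
          have h3 := hP2 e' he'
          refine Bd_mono (ih (wt S.w e') (by omega) e' rfl) ?_
          have h4 := wtp_eq S.w e'
          have h5 := wtp_eq S.w e
          have h6 : (wtp S.w e' : ℤ) ≤ wtp S.w e := by
            have : wtp S.w e' ≤ wtp S.w e := by omega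
            exact_mod_cast this
          linarith
  exact fun e => key _ e rfl

private theorem infdb_b (hS : S.Ok) (hG : IsGM S nab br)
    (l : H →ₗ[RatFunc κ] RatFunc κ) (k : ℕ) (C : ℤ)
    (hC : ∀ e : Fin n →₀ ℕ,
      Bd S.d ((wtp S.w e : ℤ) - S.d * ((k : ℤ) + 1) + C) (l (lv nab br k (monomial e 1)))) (m : ℕ)
    (hm : ∀ e : Fin n →₀ ℕ,
      Bd S.d ((wtp S.w e : ℤ) - S.d * ((k : ℤ) + 2) + (C + (m + 1))) (l (lv nab br (k + 1) (monomial e 1))))
    (e : Fin n →₀ ℕ) :
      Bd S.d ((wtp S.w e : ℤ) - S.d * ((k : ℤ) + 2) + (C + m)) (l (lv nab br (k + 1) (monomial e 1))) := by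
  have hEU := congrArg l (EU hG k e)
  rw [map_sub, LinearMap.map_smul_of_tower, map_smul, LinearMap.map_smul_of_tower, LinearMap.map_smul_of_tower] at hEU
  set N : ℤ := (wtp S.w e : ℤ) - S.d * ((k : ℤ) + 2) + (C + m) with hN
  have h1 : Bd S.d (N + S.d) (l (lv nab br (k + 1) (monomial e 1 * S.psi))) := by
    refine infdb_poly l (k + 1) _ _ fun e' he' => ?_
    rw [mem_support_iff, coeff_monomial_mul'] at he'
    have hle : e ≤ e' := by
      by_contra hle
      rw [if_neg hle] at he'
      exact he' rfl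
    rw [if_pos hle, one_mul] at he'
    obtain ⟨b, rfl⟩ := exists_add_of_le hle
    rw [add_tsub_cancel_left] at he'
    refine Bd_mono (hm (e + b)) ?_
    have h4 := psi_deg hS b (mem_support_iff.mpr he')
    have h5 := infdb_wtp_add S.w e b
    have h6 : (wtp S.w (e + b) : ℤ) + 1 ≤ wtp S.w e + S.d := by
      have : wtp S.w (e + b) + 1 ≤ wtp S.w e + S.d := by omega
      exact_mod_cast this
    rw [hN]
    linarith
  have h2 : Bd S.d (N + S.d) (l (lv nab br k (monomial e 1))) := by
    refine Bd_mono (hC e) ?_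
    have h7 : (0 : ℤ) ≤ m := Int.natCast_nonneg m
    rw [hN]
    nlinarith
  have hne : (((k : κ) + 1) * S.d) ≠ 0 := by
    have h3 : ((k : κ) + 1) ≠ 0 := by exact_mod_cast Nat.succ_ne_zero k
    have h4 : (S.d : κ) ≠ 0 := by exact_mod_cast hS.d_pos.ne'
    exact mul_ne_zero h3 h4
  have h3 : Bd S.d (N + S.d) ((((k : κ) + 1) * S.d) • (RatFunc.X : RatFunc κ) • l (lv nab br (k + 1) (monomial e 1))) := by
    rw [hEU, sub_eq_add_neg, ← neg_smul]
    exact Bd_add (Bd_smul _ h1) (Bd_smul _ h2)
  have h4 := Bd_smul ((((k : κ) + 1) * S.d)⁻¹) h3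
  rw [smul_smul, inv_mul_cancel₀ hne, one_smul, smul_eq_mul] at h4
  exact Bd_X.mp h4

theorem bound_step (hn : 0 < n) (hS : S.Ok) (hG : IsGM S nab br)
    (l : H →ₗ[RatFunc κ] RatFunc κ) (k : ℕ) (C : ℤ)
    (hC : ∀ e : Fin n →₀ ℕ,
      Bd S.d ((wtp S.w e : ℤ) - S.d * ((k : ℤ) + 1) + C) (l (lv nab br k (monomial e 1)))) :
    ∀ e : Fin n →₀ ℕ,
      Bd S.d ((wtp S.w e : ℤ) - S.d * ((k : ℤ) + 2) + C) (l (lv nab br (k + 1) (monomial e 1))) := by
  obtain ⟨m, hm⟩ := infdb_a hS hG l k C hC
  induction m with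
  | zero =>
    intro e
    have := hm e
    rwa [Nat.cast_zero, add_zero] at this
  | succ m ih =>
    refine ih (infdb_b hS hG l k C hC m ?_)
    intro e
    have := hm e
    rwa [Nat.cast_succ] at this

theorem bound_all (hn : 0 < n) (hS : S.Ok) (hG : IsGM S nab br)
    (l : H →ₗ[RatFunc κ] RatFunc κ) :
    ∃ C : ℤ, ∀ (k : ℕ) (e : Fin n →₀ ℕ),
      Bd S.d ((wtp S.w e : ℤ) - S.d * ((k : ℤ) + 1) + C) (l (lv nab br k (monomial e 1))) := by
  obtain ⟨C, hC⟩ := bound0 hn hS hG l
  refine ⟨C, fun k => ?_⟩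
  induction k with
  | zero =>
    intro e
    have := hC e
    rwa [Nat.cast_zero, zero_add, mul_one]
  | succ k ih =>
    intro e
    have h1 := bound_step hn hS hG l k C ih e
    have h2 : ((k + 1 : ℕ) : ℤ) + 1 = (k : ℤ) + 2 := by push_cast; ring
    rwa [h2]

end MPadcHP
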