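import Pool.Agent.Lib.MP_adc574_ag_HP.InfD

/-!
# JOB InfF: the filtration at infinity

`VV S nab br q` is the `κ`-span of the generators `t^j [x^e]_k` with `wtp e < d (k+1)` and weight `d j + wtp e - d (k+1) ≤ q`.
* `VV_mono`. `VV_zpow`: `t^m • VV q ⊂ VV (q + d m)`.
* `VV_nab`: for `x ∈ VV q`: `t • nab x - (q / d) • x ∈ VV (q - 1)`. On a generator `g` of weight `q' ≤ q`: `nab (t^j h) = j t^(j-1) h + t^j nab h` (`leib`; `DK (X ^ j) = j X ^ (j-1)` for `j : ℤ`),
  `nab [x^e]_k = (k+1) [x^e]_{k+1}` (`nab_lv`), `EU`: `t (k+1) [x^e]_{k+1} = (1/d)((k+1) [x^e ψ]_{k+1} - ((k+1) d - wtp e) [x^e]_k)`. So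
  `t nab g = (q'/d) g + ((k+1)/d) t^j [x^e ψ]_{k+1}`, and the monomials `e + b` of `x^e ψ` have `wtp (e+b) ≤ wtp e + d - 1 < d (k+2)`, weight `≤ q' - 1`. Then
  `t nab g - (q/d) g = ((q'-q)/d) g + ..`: for `q' = q` the first term is 0, for `q' < q` `g ∈ VV (q-1)`.
* `VV_nab'`: `nab x ∈ VV (q - d)` (from `VV_nab` and `VV_zpow` with `m = -1`).
* `VV_zero`: `VV 0 ≤ VV (-1)`. A generator of weight `< 0` is clear. Weight 0: `d j = d (k+1) - wtp e > 0`, so `j = l ≥ 1`, and `wtp e > 0` (`n > 0`, `w > 0`) gives `l ≤ k`. Induction on `l`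
  (for all `k`, `e` with `d l + wtp e = d (k+1)`): `k = k1 + 1`, `EU` at `k1`: `t [x^e]_k = (1/d) [x^e ψ]_k - ((k d - wtp e)/(k d)) [x^e]_{k-1}` and `k d - wtp e = d (l-1)`. Multiply by `t^(l-1)`: the first
  term has weight `≤ d (l-1) + wtp e + d - 1 - d (k+1) = -1` (and `wtp (e+b) < d (k+1)` since `wtp e ≤ d k`); the second is 0 for `l = 1`, and for `l > 1` it is a multiple of `t^(l-1) [x^e]_{k-1}`,
  `d (l-1) + wtp e = d k`: in `VV (-1)` by induction.
* `VV_bd`: `Bd d (q + C) (l x)` for `x ∈ VV q` (`bound_all`; `Bd` of `t^j y`: degree `+ j`).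
* `VV_exh`: for `h ∈ Hprim` there are `p ≠ 0` and `q` with `p • h ∈ VV q`: `h = ∑ a_i g_i` (`Submodule.span_induction` or `mem_span_set`), `p` a common denominator, `p a_i` polynomials, `t^m g ∈ VV`.
-/

set_option autoImplicit false

namespace MPadcHP

open MvPolynomial

universe u

variable {κ : Type u} [Field κ] [CharZero κ] {n : ℕ} {S : Dat κ n} {H : Type u} [AddCommGroup H]
  [Module (RatFunc κ) H] [Module κ H] [IsScalarTower κ (RatFunc κ) H] {nab : H →ₗ[κ] H}
  {br : MvPolynomial (Fin n) κ →ₗ[κ] H}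

theorem VV_mono {q q' : ℤ} (h : q ≤ q') : VV S nab br q ≤ VV S nab br q' := by
  apply Submodule.span_mono
  rintro x ⟨j, k, e, h1, h2, h3⟩
  exact ⟨j, k, e, h1, h2.trans h, h3⟩

private theorem inffa_gen {q : ℤ} (j : ℤ) (k : ℕ) (e : Fin n →₀ ℕ)
    (h1 : wtp S.w e < S.d * (k + 1)) (h2 : (S.d : ℤ) * j + wtp S.w e - S.d * (k + 1) ≤ q) :
    (RatFunc.X : RatFunc κ) ^ j • lv nab br k (monomial e 1) ∈ VV S nab br q :=
  Submodule.subset_span ⟨j, k, e, h1, h2, rfl⟩

theorem VV_zpow {q : ℤ} (m : ℤ) {x : H} (hx : x ∈ VV S nab br q) :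
    (RatFunc.X : RatFunc κ) ^ m • x ∈ VV S nab br (q + S.d * m) := by
  have hX : (RatFunc.X : RatFunc κ) ≠ 0 := RatFunc.X_ne_zero
  unfold VV at hx
  induction hx using Submodule.span_induction with
  | mem x hx =>
    obtain ⟨j, k, e, h1, h2, rfl⟩ := hx
    rw [smul_smul, ← zpow_add₀ hX]
    apply inffa_gen _ _ _ h1
    have e1 : (S.d : ℤ) * (m + j) = S.d * m + S.d * j := by ring
    rw [e1]
    linarith
  | zero => rw [smul_zero]; exact Submodule.zero_mem _
  | add x y _ _ hx hy => rw [smul_add]; exact Submodule.add_mem _ hx hy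
  | smul a x _ hx =>
    rw [smul_comm]
    exact Submodule.smul_mem _ _ hx

private theorem inffa_wtp (e b : Fin n →₀ ℕ) (w : Fin n → ℕ) :
    wtp w (e + b) = wtp w e + wt w b := by
  unfold wtp wt
  rw [← Finset.sum_add_distrib]
  refine Finset.sum_congr rfl fun i _ => ?_
  rw [Finsupp.add_apply]
  ring

private theorem inffa_lvmul (k : ℕ) (e : Fin n →₀ ℕ) (P : MvPolynomial (Fin n) κ) :
    lv nab br k (monomial e 1 * P) =
      ∑ b ∈ P.support, coeff b P • lv nab br k (monomial (e + b) 1) := by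
  conv_lhs => rw [P.as_sum]
  rw [Finset.mul_sum, map_sum]
  refine Finset.sum_congr rfl fun b _ => ?_
  rw [monomial_mul, one_mul, ← map_smul, smul_monomial, smul_eq_mul, mul_one]

private theorem inffa_psi (hS : S.Ok) {q : ℤ} (j : ℤ) (k : ℕ) (e : Fin n →₀ ℕ)
    (h1 : wtp S.w e < S.d * (k + 1)) (h2 : (S.d : ℤ) * j + wtp S.w e - S.d * (k + 1) ≤ q) :
    (RatFunc.X : RatFunc κ) ^ j • lv nab br (k + 1) (monomial e 1 * S.psi) ∈
      VV S nab br (q - 1) := by
  rw [inffa_lvmul, Finset.smul_sum]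
  refine Submodule.sum_mem _ fun b hb => ?_
  rw [smul_comm]
  refine Submodule.smul_mem _ _ ?_
  have hb' := psi_deg hS b hb
  have e1 : S.d * (k + 1 + 1) = S.d * (k + 1) + S.d := by ring
  have e2 : (S.d : ℤ) * (k + 1 + 1) = S.d * (k + 1) + S.d := by ring
  apply inffa_gen
  · rw [inffa_wtp, e1]
    omega
  · rw [inffa_wtp]
    push_cast
    rw [e2]
    have hb'' : (wt S.w b : ℤ) + 1 ≤ S.d := by exact_mod_cast hb'
    linarith

private theorem inffa_DK (j : ℤ) :
    DK κ ((RatFunc.X : RatFunc κ) ^ j) = (j : RatFunc κ) * RatFunc.X ^ (j - 1) := by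
  rw [Derivation.leibniz_zpow, DK_X, smul_eq_mul, mul_one, zsmul_eq_mul]

private theorem inffa_alg {K : Type*} [Field K] {V : Type*} [AddCommGroup V] [Module K V]
    (X dd jj kk ww y : K) (hX : X ≠ 0) (hd : dd ≠ 0) (h h' p : V)
    (hEU : (kk * dd) • X • h' = kk • p - (kk * dd - ww) • h) :
    X • ((jj * (y * X⁻¹)) • h + y • (kk • h')) =
      ((dd * jj + ww - dd * kk) / dd) • y • h + (kk / dd) • y • p := by
  have hfin : X • ((jj * (y * X⁻¹)) • h + y • (kk • h')) -
      (((dd * jj + ww - dd * kk) / dd) • y • h + (kk / dd) • y • p) =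
      (y / dd) • ((kk * dd) • X • h' - (kk • p - (kk * dd - ww) • h)) := by
    match_scalars
    all_goals (field_simp; try ring)
  rw [hEU, sub_self, smul_zero, sub_eq_zero] at hfin
  exact hfin

private theorem inffa_nabgen (hS : S.Ok) (hG : IsGM S nab br) (j : ℤ) (k : ℕ)
    (e : Fin n →₀ ℕ) :
    (RatFunc.X : RatFunc κ) • nab ((RatFunc.X : RatFunc κ) ^ j • lv nab br k (monomial e 1)) =
      (((S.d : κ) * j + wtp S.w e - S.d * (k + 1)) / S.d) •
          ((RatFunc.X : RatFunc κ) ^ j • lv nab br k (monomial e 1)) +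
        (((k : κ) + 1) / S.d) •
          ((RatFunc.X : RatFunc κ) ^ j • lv nab br (k + 1) (monomial e 1 * S.psi)) := by
  have hX : (RatFunc.X : RatFunc κ) ≠ 0 := RatFunc.X_ne_zero
  have hd : (S.d : RatFunc κ) ≠ 0 := by
    have : (S.d : κ) ≠ 0 := by exact_mod_cast hS.d_pos.ne'
    intro h
    apply this
    have h2 : algebraMap κ (RatFunc κ) (S.d : κ) = 0 := by rw [map_natCast]; exact h
    exact (map_eq_zero _).1 h2
  have hEU := EU hG k e
  have hj : (RatFunc.X : RatFunc κ) ^ (j - 1) = RatFunc.X ^ j * (RatFunc.X)⁻¹ := by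
    rw [zpow_sub_one₀ hX]
  rw [hG.leib, inffa_DK, nab_lv, hj]
  generalize lv nab br k (monomial e 1) = h at *
  generalize lv nab br (k + 1) (monomial e 1 * S.psi) = p at *
  generalize lv nab br (k + 1) (monomial e 1) = h' at *
  generalize (RatFunc.X : RatFunc κ) ^ j = y at *
  have hc : ∀ (a : κ) (v : H), a • v = algebraMap κ (RatFunc κ) a • v := fun a v =>
    (algebraMap_smul (RatFunc κ) a v).symm
  simp only [hc] at hEU ⊢
  simp only [map_div₀, map_sub, map_add, map_mul, map_natCast, map_intCast, map_one] at hEU ⊢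
  exact inffa_alg _ _ _ _ _ _ hX hd _ _ _ hEU

theorem VV_nab (hS : S.Ok) (hG : IsGM S nab br) {q : ℤ} {x : H} (hx : x ∈ VV S nab br q) :
    (RatFunc.X : RatFunc κ) • nab x - ((q : κ) / S.d) • x ∈ VV S nab br (q - 1) := by
  unfold VV at hx
  induction hx using Submodule.span_induction with
  | mem x hx =>
    obtain ⟨j, k, e, h1, h2, rfl⟩ := hx
    have hd : (S.d : κ) ≠ 0 := by exact_mod_cast hS.d_pos.ne'
    rw [inffa_nabgen hS hG]
    have hp : (RatFunc.X : RatFunc κ) ^ j • lv nab br (k + 1) (monomial e 1 * S.psi) ∈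
      VV S nab br (q - 1) := inffa_psi hS j k e h1 h2
    have hrew : ∀ (a b c : κ) (x y : H), a • x + b • y - c • x = (a - c) • x + b • y := by
      intro a b c x y
      rw [sub_smul]
      abel
    rw [hrew]
    refine Submodule.add_mem _ ?_ (Submodule.smul_mem _ _ hp)
    rcases h2.lt_or_eq with h3 | h3
    · refine Submodule.smul_mem _ _ ?_
      apply inffa_gen _ _ _ h1
      omega
    · have h4 : ((S.d : κ) * j + wtp S.w e - S.d * (k + 1)) = (q : κ) := by
        have := congrArg (Int.cast : ℤ → κ) h3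
        push_cast at this
        exact this
      rw [h4, sub_self, zero_smul]
      exact Submodule.zero_mem _
  | zero =>
    rw [map_zero, smul_zero, smul_zero, sub_zero]
    exact Submodule.zero_mem _
  | add x y _ _ hx hy =>
    have e1 : (RatFunc.X : RatFunc κ) • nab (x + y) - ((q : κ) / S.d) • (x + y) =
        ((RatFunc.X : RatFunc κ) • nab x - ((q : κ) / S.d) • x) +
          ((RatFunc.X : RatFunc κ) • nab y - ((q : κ) / S.d) • y) := by
      rw [map_add, smul_add, smul_add]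
      abel
    rw [e1]
    exact Submodule.add_mem _ hx hy
  | smul a x _ hx =>
    have e1 : (RatFunc.X : RatFunc κ) • nab (a • x) - ((q : κ) / S.d) • (a • x) =
        a • ((RatFunc.X : RatFunc κ) • nab x - ((q : κ) / S.d) • x) := by
      rw [map_smul, smul_sub, smul_comm (RatFunc.X : RatFunc κ) a, smul_comm ((q : κ) / S.d) a]
    rw [e1]
    exact Submodule.smul_mem _ _ hx

theorem VV_nab' (hS : S.Ok) (hG : IsGM S nab br) {q : ℤ} {x : H} (hx : x ∈ VV S nab br q) :
    nab x ∈ VV S nab br (q - S.d) := by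
  have hX : (RatFunc.X : RatFunc κ) ≠ 0 := RatFunc.X_ne_zero
  have h1 : (RatFunc.X : RatFunc κ) • nab x ∈ VV S nab br q := by
    have h2 := VV_mono (by omega) (VV_nab hS hG hx) (q' := q)
    have h3 := Submodule.add_mem _ h2 (Submodule.smul_mem _ ((q : κ) / S.d) hx)
    rwa [sub_add_cancel] at h3
  have h2 := VV_zpow (-1) h1
  rw [smul_smul, zpow_neg_one, inv_mul_cancel₀ hX, one_smul] at h2
  have e1 : q - (S.d : ℤ) = q + S.d * (-1) := by ring
  rw [e1]
  exact h2

private theorem infFb_wtp (w : Fin n → ℕ) (e b : Fin n →₀ ℕ) : wtp w (e + b) = wtp w e + wt w b := by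
  unfold wtp wt
  rw [← Finset.sum_add_distrib]
  refine Finset.sum_congr rfl fun i _ => ?_
  rw [Finsupp.add_apply]
  ring

private theorem infFb_wtp_pos {w : Fin n → ℕ} (hn : 0 < n) (hw : ∀ i, 0 < w i) (e : Fin n →₀ ℕ) : 0 < wtp w e := by
  unfold wtp
  refine Finset.sum_pos (fun i _ => Nat.mul_pos (hw i) (Nat.succ_pos _)) ⟨⟨0, hn⟩, Finset.mem_univ _⟩

private theorem infFb_poly {W : Submodule κ H} {x : RatFunc κ} {k : ℕ} (P : MvPolynomial (Fin n) κ)
    (h : ∀ e ∈ P.support, x • lv nab br k (monomial e 1) ∈ W) : x • lv nab br k P ∈ W := by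
  have h1 : lv nab br k P = ∑ e ∈ P.support, (coeff e P) • lv nab br k (monomial e 1) := by
    conv_lhs => rw [P.as_sum]
    rw [map_sum]
    refine Finset.sum_congr rfl fun e _ => ?_
    rw [← map_smul, smul_monomial, smul_eq_mul, mul_one]
  rw [h1, Finset.smul_sum]
  refine Submodule.sum_mem _ fun e he => ?_
  rw [smul_comm]
  exact Submodule.smul_mem _ _ (h e he)

private theorem infFb_gen {q j : ℤ} {k : ℕ} {e : Fin n →₀ ℕ} (h1 : wtp S.w e < S.d * (k + 1))
    (h2 : S.d * j + wtp S.w e - S.d * (k + 1) ≤ q) :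
    (RatFunc.X : RatFunc κ) ^ j • lv nab br k (monomial e 1) ∈ VV S nab br q :=
  Submodule.subset_span ⟨j, k, e, h1, h2, rfl⟩

private theorem infFb_zero (hn : 0 < n) (hS : S.Ok) (hG : IsGM S nab br) (l : ℕ) :
    ∀ (k : ℕ) (e : Fin n →₀ ℕ), S.d * (l + 1) + wtp S.w e = S.d * (k + 1) →
      (RatFunc.X : RatFunc κ) ^ ((l + 1 : ℕ) : ℤ) • lv nab br k (monomial e 1) ∈ VV S nab br (-1) := by
  have hd := hS.d_pos
  induction l with
  | zero =>
    intro k e h
    have hp := infFb_wtp_pos hn hS.w_pos e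
    obtain ⟨k1, rfl⟩ : ∃ k1, k = k1 + 1 := by
      rcases k with _ | k1
      · exfalso
        omega
      · exact ⟨k1, rfl⟩
    have hw : wtp S.w e = S.d * (k1 + 1) := by
      have h2 : S.d * (k1 + 1 + 1) = S.d * (k1 + 1) + S.d := by ring
      omega
    have hEU := EU (nab := nab) (br := br) hG k1 e
    have hc : ((k1 : κ) + 1) * S.d - (wtp S.w e : κ) = 0 := by
      rw [hw]
      push_cast
      ring
    rw [hc, zero_smul, sub_zero] at hEU
    have ha : ((k1 : κ) + 1) * (S.d : κ) ≠ 0 := by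
      refine mul_ne_zero ?_ (Nat.cast_ne_zero.2 hd.ne')
      exact_mod_cast Nat.succ_ne_zero k1
    rw [← Submodule.smul_mem_iff _ ha]
    have e1 : (RatFunc.X : RatFunc κ) ^ ((0 + 1 : ℕ) : ℤ) = RatFunc.X := by
      rw [zero_add, Nat.cast_one, zpow_one]
    rw [e1, hEU]
    refine Submodule.smul_mem _ _ ?_
    have h3 := infFb_poly (nab := nab) (br := br) (W := VV S nab br (-1)) (x := 1) (k := k1 + 1)
      (monomial e 1 * S.psi) (by
      intro e' he'
      rw [mem_support_iff, coeff_monomial_mul'] at he'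
      by_cases hle : e ≤ e'
      · rw [if_pos hle, one_mul] at he'
        have h4 := psi_deg hS (e' - e) (mem_support_iff.2 he')
        have h5 : e' = e + (e' - e) := (add_tsub_cancel_of_le hle).symm
        have h6 := infFb_wtp S.w e (e' - e)
        rw [← h5] at h6
        have h7 := infFb_gen (S := S) (nab := nab) (br := br) (q := -1) (j := 0) (k := k1 + 1) (e := e') (by
          have h8 : S.d * (k1 + 1 + 1) = S.d * (k1 + 1) + S.d := by ring
          omega) (by
          rw [h6, hw]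
          push_cast
          have h8 : (S.d : ℤ) * 0 + ((S.d : ℤ) * ((k1 : ℤ) + 1) + (wt S.w (e' - e) : ℤ)) -
            (S.d : ℤ) * ((k1 : ℤ) + 1 + 1) = (wt S.w (e' - e) : ℤ) - S.d := by ring
          rw [h8]
          omega)
        rw [zpow_zero] at h7
        exact h7
      · rw [if_neg hle] at he'
        exact absurd rfl he')
    rw [one_smul] at h3
    exact h3
  | succ l ih =>
    intro k e h
    obtain ⟨k1, rfl⟩ : ∃ k1, k = k1 + 1 := by
      rcases k with _ | k1
      · exfalso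
        have h2 : S.d * (l + 1 + 1) = S.d * l + S.d + S.d := by ring
        have h3 : S.d * (0 + 1) = S.d := by ring
        omega
      · exact ⟨k1, rfl⟩
    have hw : S.d * (l + 1) + wtp S.w e = S.d * (k1 + 1) := by
      have h2 : S.d * (k1 + 1 + 1) = S.d * (k1 + 1) + S.d := by ring
      have h3 : S.d * (l + 1 + 1) = S.d * (l + 1) + S.d := by ring
      omega
    have hEU := EU (nab := nab) (br := br) hG k1 e
    have ha : ((k1 : κ) + 1) * (S.d : κ) ≠ 0 := by
      refine mul_ne_zero ?_ (Nat.cast_ne_zero.2 hd.ne')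
      exact_mod_cast Nat.succ_ne_zero k1
    rw [← Submodule.smul_mem_iff _ ha]
    have e1 : (RatFunc.X : RatFunc κ) ^ ((l + 1 + 1 : ℕ) : ℤ) =
        RatFunc.X ^ ((l + 1 : ℕ) : ℤ) * RatFunc.X := by
      rw [Nat.cast_succ, zpow_add_one₀ RatFunc.X_ne_zero]
    rw [e1, mul_smul ((RatFunc.X : RatFunc κ) ^ ((l + 1 : ℕ) : ℤ)) RatFunc.X _,
      smul_comm (((k1 : κ) + 1) * (S.d : κ)) ((RatFunc.X : RatFunc κ) ^ ((l + 1 : ℕ) : ℤ)) _,
      hEU, smul_sub, smul_comm _ ((k1 : κ) + 1),
      smul_comm _ (((k1 : κ) + 1) * S.d - (wtp S.w e : κ))]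
    refine Submodule.sub_mem _ (Submodule.smul_mem _ _ ?_) (Submodule.smul_mem _ _ (ih k1 e hw))
    refine infFb_poly _ ?_
    intro e' he'
    rw [mem_support_iff, coeff_monomial_mul'] at he'
    by_cases hle : e ≤ e'
    · rw [if_pos hle, one_mul] at he'
      have h4 := psi_deg hS (e' - e) (mem_support_iff.2 he')
      have h5 : e' = e + (e' - e) := (add_tsub_cancel_of_le hle).symm
      have h6 := infFb_wtp S.w e (e' - e)
      rw [← h5] at h6
      refine infFb_gen ?_ ?_
      · have h8 : S.d * (k1 + 1 + 1) = S.d * (k1 + 1) + S.d := by ring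
        omega
      · have hw' : (S.d : ℤ) * ((l : ℤ) + 1) + (wtp S.w e : ℤ) = (S.d : ℤ) * ((k1 : ℤ) + 1) := by
          exact_mod_cast hw
        rw [h6]
        push_cast
        have h8 : (S.d : ℤ) * ((l : ℤ) + 1) + ((wtp S.w e : ℤ) + (wt S.w (e' - e) : ℤ)) -
            (S.d : ℤ) * ((k1 : ℤ) + 1 + 1) = (wt S.w (e' - e) : ℤ) - S.d := by
          linear_combination hw'
        rw [h8]
        omega
    · rw [if_neg hle] at he'
      exact absurd rfl he'

theorem VV_zero (hn : 0 < n) (hS : S.Ok) (hG : IsGM S nab br) :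
    VV S nab br 0 ≤ VV S nab br (-1) := by
  refine Submodule.span_le.2 ?_
  rintro h ⟨j, k, e, h1, h2, rfl⟩
  rcases lt_or_eq_of_le h2 with h3 | h3
  · exact infFb_gen h1 (by omega)
  · have hd := hS.d_pos
    have hj : 0 < j := by
      by_contra hcon
      rw [not_lt] at hcon
      have h4 : (wtp S.w e : ℤ) < S.d * ((k : ℤ) + 1) := by exact_mod_cast h1
      have h5 : (S.d : ℤ) * j ≤ 0 := mul_nonpos_of_nonneg_of_nonpos (by omega) hcon
      omega
    obtain ⟨l, rfl⟩ : ∃ l : ℕ, j = ((l + 1 : ℕ) : ℤ) := ⟨(j - 1).toNat, by omega⟩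
    refine infFb_zero hn hS hG l k e ?_
    have h4 : (S.d : ℤ) * (((l + 1 : ℕ) : ℤ)) + (wtp S.w e : ℤ) = S.d * ((k : ℤ) + 1) := by linarith
    exact_mod_cast h4

private theorem infFb_nat {d : ℕ} {N : ℤ} {x : RatFunc κ} (h : Bd d N x) (j : ℕ) :
    Bd d (N + d * j) (RatFunc.X ^ j * x) := by
  induction j with
  | zero =>
    rw [pow_zero, one_mul, Nat.cast_zero, mul_zero, add_zero]
    exact h
  | succ j ih =>
    rw [pow_succ', mul_assoc]
    have h1 : N + (d : ℤ) * ((j + 1 : ℕ) : ℤ) = (N + d * j) + d := by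
      push_cast
      ring
    rw [h1, Bd_X]
    exact ih

private theorem infFb_zpow {d : ℕ} {N : ℤ} {x : RatFunc κ} (h : Bd d N x) (j : ℤ) :
    Bd d (N + d * j) (RatFunc.X ^ j * x) := by
  obtain ⟨m, rfl | rfl⟩ := Int.eq_nat_or_neg j
  · rw [zpow_natCast]
    exact infFb_nat h m
  · have h1 : ∀ m : ℕ, ∀ y : RatFunc κ, ∀ N' : ℤ, Bd d (N' + d * m) (RatFunc.X ^ m * y) → Bd d N' y := by
      intro m
      induction m with
      | zero =>
        intro y N' hy
        rw [pow_zero, one_mul, Nat.cast_zero, mul_zero, add_zero] at hy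
        exact hy
      | succ m ih =>
        intro y N' hy
        refine ih y N' ?_
        rw [pow_succ', mul_assoc] at hy
        have h2 : N' + (d : ℤ) * ((m + 1 : ℕ) : ℤ) = (N' + d * m) + d := by
          push_cast
          ring
        rw [h2, Bd_X] at hy
        exact hy
    refine h1 m _ _ ?_
    have h3 : (RatFunc.X : RatFunc κ) ^ m * (RatFunc.X ^ (-(m : ℤ)) * x) = x := by
      rw [← mul_assoc, ← zpow_natCast, ← zpow_add₀ RatFunc.X_ne_zero, add_neg_cancel, zpow_zero, one_mul]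
    rw [h3]
    have h4 : N + (d : ℤ) * -(m : ℤ) + d * m = N := by ring
    rw [h4]
    exact h

theorem VV_bd (hn : 0 < n) (hS : S.Ok) (hG : IsGM S nab br) (l : H →ₗ[RatFunc κ] RatFunc κ) :
    ∃ C : ℤ, ∀ (q : ℤ) (x : H), x ∈ VV S nab br q → Bd S.d (q + C) (l x) := by
  obtain ⟨C, hC⟩ := bound_all hn hS hG l
  refine ⟨C, fun q x hx => ?_⟩
  unfold VV at hx
  induction hx using Submodule.span_induction with
  | mem x h =>
    obtain ⟨j, k, e, h1, h2, rfl⟩ := h
    rw [map_smul, smul_eq_mul]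
    refine Bd_mono (infFb_zpow (hC k e) j) ?_
    linarith
  | zero =>
    rw [map_zero]
    exact Or.inl rfl
  | add x y _ _ hx hy =>
    rw [map_add]
    exact Bd_add hx hy
  | smul a x _ hx =>
    rw [LinearMap.map_smul_of_tower]
    exact Bd_smul a hx

private theorem infFb_mul {q : ℤ} {x : H} (hx : x ∈ VV S nab br q) (r : Polynomial κ) :
    (algebraMap (Polynomial κ) (RatFunc κ) r) • x ∈ VV S nab br (q + S.d * r.natDegree) := by
  have h1 : (algebraMap (Polynomial κ) (RatFunc κ) r) • x =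
      ∑ i ∈ Finset.range (r.natDegree + 1), (r.coeff i) • ((RatFunc.X : RatFunc κ) ^ (i : ℤ) • x) := by
    conv_lhs => rw [r.as_sum_range_C_mul_X_pow]
    rw [map_sum, Finset.sum_smul]
    refine Finset.sum_congr rfl fun i _ => ?_
    rw [map_mul, map_pow, RatFunc.algebraMap_X, RatFunc.algebraMap_C, mul_smul, zpow_natCast]
    have h2 : (RatFunc.C (r.coeff i) : RatFunc κ) = (r.coeff i) • (1 : RatFunc κ) := by
      rw [RatFunc.smul_eq_C_mul, mul_one]
    rw [h2, smul_assoc, one_smul]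
  rw [h1]
  refine Submodule.sum_mem _ fun i hi => Submodule.smul_mem _ _ ?_
  refine VV_mono ?_ (VV_zpow (i : ℤ) hx)
  have h3 : (i : ℤ) ≤ r.natDegree := by
    have := Finset.mem_range.1 hi
    omega
  have h4 : (S.d : ℤ) * i ≤ S.d * r.natDegree := mul_le_mul_of_nonneg_left h3 (by omega)
  omega

theorem VV_exh (h : H) (hh : h ∈ Hprim S nab br) :
    ∃ p : Polynomial κ, p ≠ 0 ∧ ∃ q : ℤ,
      (algebraMap (Polynomial κ) (RatFunc κ) p) • h ∈ VV S nab br q := by
  unfold Hprim at hh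
  induction hh using Submodule.span_induction with
  | mem x hx =>
    obtain ⟨k, e, h1, rfl⟩ := hx
    refine ⟨1, one_ne_zero, (wtp S.w e : ℤ) - S.d * ((k : ℤ) + 1), ?_⟩
    rw [map_one]
    have h2 := infFb_gen (S := S) (nab := nab) (br := br) (j := 0) (k := k) (e := e) h1
      (q := (wtp S.w e : ℤ) - S.d * ((k : ℤ) + 1)) (by
        rw [mul_zero, zero_add])
    rw [zpow_zero] at h2
    exact h2
  | zero =>
    refine ⟨1, one_ne_zero, 0, ?_⟩
    rw [smul_zero]
    exact Submodule.zero_mem _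
  | add x y _ _ hx hy =>
    obtain ⟨p1, hp1, q1, h1⟩ := hx
    obtain ⟨p2, hp2, q2, h2⟩ := hy
    refine ⟨p1 * p2, mul_ne_zero hp1 hp2, max (q1 + S.d * p2.natDegree) (q2 + S.d * p1.natDegree), ?_⟩
    rw [smul_add, map_mul]
    refine Submodule.add_mem _ ?_ ?_
    · rw [mul_comm (algebraMap (Polynomial κ) (RatFunc κ) p1) (algebraMap (Polynomial κ) (RatFunc κ) p2),
        mul_smul]
      exact VV_mono (le_max_left _ _) (infFb_mul h1 p2)
    · rw [mul_smul]
      exact VV_mono (le_max_right _ _) (infFb_mul h2 p1)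
  | smul a x _ hx =>
    obtain ⟨p, hp, q, h1⟩ := hx
    refine ⟨p * a.denom, mul_ne_zero hp (RatFunc.denom_ne_zero a), q + S.d * a.num.natDegree, ?_⟩
    have hd : (algebraMap (Polynomial κ) (RatFunc κ) a.denom) ≠ 0 :=
      RatFunc.algebraMap_ne_zero (RatFunc.denom_ne_zero a)
    have h2 : (algebraMap (Polynomial κ) (RatFunc κ) (p * a.denom)) * a =
        (algebraMap (Polynomial κ) (RatFunc κ) a.num) * (algebraMap (Polynomial κ) (RatFunc κ) p) := by
      conv_lhs => rw [← RatFunc.num_div_denom a]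
      rw [RatFunc.num_div_denom a, map_mul]
      have h3 := RatFunc.num_div_denom a
      rw [div_eq_iff hd] at h3
      rw [h3]
      ring
    rw [← mul_smul, h2, mul_smul]
    exact infFb_mul h1 a.num

end MPadcHP
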