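import Pool.Agent.Lib.MP_adc574_ag_HP.InfF

/-!
# JOB InfG: no lattice is stable under `nab`

`inf_lemma`. `K = RatFunc κ`; `H' ⊂ Hprim` a `nab`-stable `K`-subspace, `𝓔 ⊂ Hprim` a `κ[t]`-submodule which is bounded at finite places (`hbd`) with `nab 𝓔 ⊂ 𝓔 + H'`. Then `𝓔 ⊂ H'`.

(Sep) There is `q0` such that every `x` with `x - e ∈ H'` for some `e ∈ 𝓔` and `x - v ∈ H'` for some `v ∈ VV q0` is in `H'`. Proof: the quotient `H ⧸ H'` is finite dimensional over `K`; take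
the coordinate functionals of a basis composed with `H → H ⧸ H'`: `l_1 .. l_r : H → K` vanishing on `H'`, and `x ∈ H'` iff all `l_i x = 0`. `hbd` gives `p_i ≠ 0` with `p_i l_i(e)` polynomial for `e ∈ 𝓔`, so
`l_i x = l_i e` is 0 or has degree `≥ - deg p_i`; `VV_bd`: `l_i x = l_i v` is 0 or `d deg ≤ q0 + C_i`. Choose `q0 < - d deg p_i - C_i` for all `i`. (The same for every `q ≤ q0` by `VV_mono`.)
Suppose `x ∈ 𝓔`, `x ∉ H'`. By `VV_exh` `p • x ∈ VV q`; replace `x` by `p • x` (in `𝓔`; not in `H'`, a `K`-subspace). Let `x_j = nab^j x`: by induction `x_j ∈ 𝓔 + H'` (`hnab`, `hst`) and `x_j ∈ VV (q - d j) + H'`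
(`VV_nab'`; even without `H'`: `x_j ∈ VV (q - d j)`). For large `j` `q - d j ≤ q0`, so `x_j ∈ H'`. Let `j ≥ 1` be minimal with `x_j ∈ H'` (`Nat.find`), `y = x_{j-1}`: `y ∉ H'`, `nab y ∈ H'`, `y ∈ 𝓔 + H'`, `y ∈ VV q1` for some `q1`.
The set of the `q'` with `y ∈ VV q' + H'` is bounded below by `q0` (Sep); take the minimal one `q'` (`Int.exists_least_of_bdd`). `y = v + h'`, `v ∈ VV q'`, `h' ∈ H'`. `VV_nab`: `t nab v - (q'/d) v ∈ VV (q'-1)`, and `nab v = nab y - nab h' ∈ H'`.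
So `(q'/d) v ∈ VV (q'-1) + H'`. If `q' ≠ 0`: `v ∈ VV (q'-1) + H'` and `y ∈ VV (q'-1) + H'`, contradiction. If `q' = 0`: `v ∈ VV 0 ≤ VV (-1)` (`VV_zero`), contradiction.
-/

set_option autoImplicit false

namespace MPadcHP

open MvPolynomial

universe u

variable {κ : Type u} [Field κ] [CharZero κ] {n : ℕ} {S : Dat κ n} {H : Type u} [AddCommGroup H]
  [Module (RatFunc κ) H] [Module κ H] [IsScalarTower κ (RatFunc κ) H] [Module (Polynomial κ) H]
  [IsScalarTower (Polynomial κ) (RatFunc κ) H] {nab : H →ₗ[κ] H}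
  {br : MvPolynomial (Fin n) κ →ₗ[κ] H}

theorem inf_lemma (hn : 0 < n) (hS : S.Ok) (hG : IsGM S nab br)
    [Module.Finite (RatFunc κ) H] (H' : Submodule (RatFunc κ) H) (hH' : H' ≤ Hprim S nab br)
    (hst : ∀ h ∈ H', nab h ∈ H') (𝓔 : Submodule (Polynomial κ) H)
    (hle : ∀ x ∈ 𝓔, x ∈ Hprim S nab br)
    (hbd : ∀ l : H →ₗ[RatFunc κ] RatFunc κ, ∃ p : Polynomial κ, p ≠ 0 ∧ ∀ x ∈ 𝓔,
      ∃ a : Polynomial κ, algebraMap (Polynomial κ) (RatFunc κ) p * l x =
        algebraMap (Polynomial κ) (RatFunc κ) a)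
    (hnab : ∀ x ∈ 𝓔, ∃ y ∈ 𝓔, nab x - y ∈ H') : ∀ x ∈ 𝓔, x ∈ H' := by
  classical
  have hsm : ∀ (c : κ) (h : H), h ∈ H' → c • h ∈ H' := by
    intro c h hh
    rw [← algebraMap_smul (RatFunc κ) c h]
    exact H'.smul_mem _ hh
  have hd : (0 : ℤ) < S.d := by exact_mod_cast hS.d_pos
  have hdκ : (S.d : κ) ≠ 0 := by exact_mod_cast hS.d_pos.ne'
  obtain ⟨q0, hsep⟩ : ∃ q0 : ℤ, ∀ x e v : H, e ∈ 𝓔 → x - e ∈ H' → v ∈ VV S nab br q0 →
      x - v ∈ H' → x ∈ H' := by
    let b := Module.finBasis (RatFunc κ) (H ⧸ H')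
    let l : Fin (Module.finrank (RatFunc κ) (H ⧸ H')) → (H →ₗ[RatFunc κ] RatFunc κ) :=
      fun i => (b.coord i).comp H'.mkQ
    have hl0 : ∀ i x, x ∈ H' → l i x = 0 := by
      intro i x hx
      have h1 : H'.mkQ x = 0 := by
        rw [Submodule.mkQ_apply]
        exact (Submodule.Quotient.mk_eq_zero H').mpr hx
      change b.coord i (H'.mkQ x) = 0
      rw [h1, map_zero]
    have hl1 : ∀ x, (∀ i, l i x = 0) → x ∈ H' := by
      intro x hx
      have h1 : H'.mkQ x = 0 := b.forall_coord_eq_zero_iff.mp hx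
      rw [Submodule.mkQ_apply] at h1
      exact (Submodule.Quotient.mk_eq_zero H').mp h1
    choose p hp0 hp using fun i => hbd (l i)
    choose C hC using fun i => VV_bd hn hS hG (l i)
    obtain ⟨m, hm⟩ := (Set.finite_range
      (fun i => - ((S.d : ℤ) * ((p i).natDegree : ℤ)) - C i)).bddBelow
    refine ⟨m - 1, fun x e v he hxe hv hxv => hl1 x fun i => ?_⟩
    by_contra hne
    have h1 : l i x = l i e := by
      have := hl0 i _ hxe
      rwa [map_sub, sub_eq_zero] at this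
    have h2 : l i x = l i v := by
      have := hl0 i _ hxv
      rwa [map_sub, sub_eq_zero] at this
    obtain ⟨a, ha⟩ := hp i e he
    rw [← h1] at ha
    have hp1 : algebraMap (Polynomial κ) (RatFunc κ) (p i) ≠ 0 := by
      intro h
      exact hp0 i ((map_eq_zero_iff _ (RatFunc.algebraMap_injective κ)).mp h)
    have h3 : (p i).natDegree + (l i x).intDegree = (a.natDegree : ℤ) := by
      rw [← RatFunc.intDegree_polynomial (p := p i), ← RatFunc.intDegree_mul hp1 hne, ha,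
        RatFunc.intDegree_polynomial]
    have h4 : Bd S.d (m - 1 + C i) (l i x) := by
      rw [h2]
      exact hC i _ v hv
    rcases h4 with h4 | h4
    · exact hne h4
    · have h5 : m ≤ - ((S.d : ℤ) * ((p i).natDegree : ℤ)) - C i := hm ⟨i, rfl⟩
      have h6 : (0 : ℤ) ≤ S.d * (a.natDegree : ℤ) := by positivity
      rw [← h3, mul_add] at h6
      linarith
  have hsep' : ∀ (q : ℤ), q ≤ q0 → ∀ x e v : H, e ∈ 𝓔 → x - e ∈ H' → v ∈ VV S nab br q →
      x - v ∈ H' → x ∈ H' := fun q hq x e v he hxe hv hxv =>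
    hsep x e v he hxe (VV_mono hq hv) hxv
  intro x0 hx0
  by_contra hx0'
  obtain ⟨p, hp, q, hpq⟩ := VV_exh x0 (hle x0 hx0)
  have hp1 : algebraMap (Polynomial κ) (RatFunc κ) p ≠ 0 := by
    intro h
    exact hp ((map_eq_zero_iff _ (RatFunc.algebraMap_injective κ)).mp h)
  set x := (algebraMap (Polynomial κ) (RatFunc κ) p) • x0 with hx
  have hxE : x ∈ 𝓔 := by
    rw [hx, algebraMap_smul]
    exact 𝓔.smul_mem _ hx0
  have hxH : x ∉ H' := by
    intro h
    apply hx0'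
    have h1 := H'.smul_mem (algebraMap (Polynomial κ) (RatFunc κ) p)⁻¹ h
    rwa [hx, smul_smul, inv_mul_cancel₀ hp1, one_smul] at h1
  have hE : ∀ j : ℕ, ∃ e ∈ 𝓔, (⇑nab)^[j] x - e ∈ H' := by
    intro j
    induction j with
    | zero => exact ⟨x, hxE, by simp⟩
    | succ j ih =>
      obtain ⟨e, he, hxe⟩ := ih
      obtain ⟨y, hy, hey⟩ := hnab e he
      refine ⟨y, hy, ?_⟩
      rw [Function.iterate_succ_apply']
      have h1 := hst _ hxe
      rw [map_sub] at h1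
      have h2 := H'.add_mem h1 hey
      rwa [sub_add_sub_cancel] at h2
  have hV : ∀ j : ℕ, (⇑nab)^[j] x ∈ VV S nab br (q - S.d * j) := by
    intro j
    induction j with
    | zero => simpa using hpq
    | succ j ih =>
      rw [Function.iterate_succ_apply']
      have h1 := VV_nab' hS hG ih
      have h2 : q - (S.d : ℤ) * j - S.d = q - S.d * ((j + 1 : ℕ) : ℤ) := by
        push_cast
        ring
      rwa [h2] at h1
  have hex : ∃ j : ℕ, (⇑nab)^[j] x ∈ H' := by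
    refine ⟨(q - q0).toNat, ?_⟩
    obtain ⟨e, he, hxe⟩ := hE (q - q0).toNat
    refine hsep' _ ?_ _ e _ he hxe (hV (q - q0).toNat) (by simp)
    have h1 : q - q0 ≤ ((q - q0).toNat : ℤ) := Int.self_le_toNat _
    have h2 : ((q - q0).toNat : ℤ) ≤ S.d * ((q - q0).toNat : ℤ) := by
      nlinarith [Int.natCast_nonneg (q - q0).toNat]
    linarith
  obtain ⟨j, hj, hjmin⟩ : ∃ j : ℕ, (⇑nab)^[j] x ∈ H' ∧ ∀ i < j, (⇑nab)^[i] x ∉ H' :=
    ⟨Nat.find hex, Nat.find_spec hex, fun i hi => Nat.find_min hex hi⟩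
  obtain ⟨k, rfl⟩ : ∃ k, j = k + 1 := by
    cases j with
    | zero => exact absurd hj hxH
    | succ k => exact ⟨k, rfl⟩
  rw [Function.iterate_succ_apply'] at hj
  have hyH := hjmin k (Nat.lt_succ_self k)
  obtain ⟨e, he, hye⟩ := hE k
  have hyV := hV k
  generalize (⇑nab)^[k] x = y at hj hyH hye hyV
  obtain ⟨q', ⟨v, hv, hyv⟩, hmin⟩ := Int.exists_least_of_bdd
    (P := fun q' : ℤ => ∃ v ∈ VV S nab br q', y - v ∈ H')
    ⟨q0, fun z ⟨v, hv, hyv⟩ => by
      by_contra hz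
      exact hyH (hsep' z (le_of_lt (not_le.mp hz)) y e v he hye hv hyv)⟩
    ⟨_, y, hyV, by simp⟩
  have hnv : nab v ∈ H' := by
    have h1 := hst _ hyv
    rw [map_sub] at h1
    have h2 := H'.sub_mem hj h1
    rwa [sub_sub_cancel] at h2
  by_cases hq' : q' = 0
  · subst hq'
    have h1 := hmin (-1) ⟨v, VV_zero hn hS hG hv, hyv⟩
    omega
  · have hqκ : (q' : κ) ≠ 0 := by exact_mod_cast hq'
    have h1 := VV_nab hS hG hv
    have h2 := (VV S nab br (q' - 1)).smul_mem (-((S.d : κ) / q')) h1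
    have h3 : (-((S.d : κ) / q')) • ((RatFunc.X : RatFunc κ) • nab v - ((q' : κ) / S.d) • v) =
        v - ((S.d : κ) / q') • ((RatFunc.X : RatFunc κ) • nab v) := by
      rw [smul_sub, smul_smul, neg_smul]
      have h4 : -((S.d : κ) / q') * ((q' : κ) / S.d) = -1 := by
        field_simp
      rw [h4, neg_smul, one_smul]
      abel
    rw [h3] at h2
    have h5 := hmin (q' - 1) ⟨_, h2, by
      rw [← sub_add]
      exact H'.add_mem hyv (hsm _ _ (H'.smul_mem _ hnv))⟩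
    omega

end MPadcHP
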