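import Pool.Agent.Lib.MP_adc574_ag_HP.Defs

/-!
# JOB KeyB: the `θ` trick

`r` is an array over `L` with `D r = act Γ r` (`Γ` over `K`), `μ` an array over `K` with `μ . r = 0`. For every `K`-linear
`θ : L → K` the array `θ ∘ r` over `K` satisfies `μ . nablahat^k (θ ∘ r) = 0` for all `k`, where `nablahat = nabT DK 1 Γ`.

Proof. Put `θ' x = DK (θ x) - θ (DL x)`. It is `K`-linear: `θ'(a x) = DK(a θ x) - θ((DK a) x + a DL x) = a θ' x`
(`DL (a • x) = (DK a) • x + a • DL x` by `hD` and the Leibniz rule). `nabT DK 1 Γ (θ ∘ r) = 1 * DK (θ (r σ)) - act Γ (θ ∘ r) σ`, and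
`act Γ (θ ∘ r) σ = θ (act (Γ.map) r σ) = θ (DL (r σ))` by linearity, so `nabT DK 1 Γ (θ ∘ r) = θ' ∘ r`. Induction on `k` for all `θ`
(`Function.iterate_succ_apply`); `k = 0`: `∑ μ J * θ (r J) = θ (∑ (μ J) • r J) = 0`.
-/

set_option autoImplicit false

namespace MPadcHP

open MPadcLP

variable {γ ι : Type} [Fintype γ] [DecidableEq γ] [Fintype ι] [DecidableEq ι]

/-- the map `x ↦ DK (θ x) - θ (DL x)` -/
private def keyb_th {K L : Type*} [Field K] [Field L] [Algebra K L] (DK' : Der K) (DL : Der L)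
    (hD : ∀ x, DL (algebraMap K L x) = algebraMap K L (DK' x)) (θ : L →ₗ[K] K) : L →ₗ[K] K where
  toFun x := DK' (θ x) - θ (DL x)
  map_add' x y := by
    rw [map_add, map_add, map_add, map_add]
    ring
  map_smul' a x := by
    have h1 : DL (a • x) = a • DL x + (DK' a) • x := by
      rw [Algebra.smul_def, Derivation.leibniz, hD, smul_eq_mul, smul_eq_mul, Algebra.smul_def, Algebra.smul_def]
      ring
    have h2 : θ (a • x) = a * θ x := by rw [map_smul, smul_eq_mul]
    have h3 : θ (a • DL x + (DK' a) • x) = a * θ (DL x) + DK' a * θ x := by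
      rw [map_add, map_smul, map_smul, smul_eq_mul, smul_eq_mul]
    have h4 : DK' (a * θ x) = a * DK' (θ x) + θ x * DK' a := by
      rw [Derivation.leibniz, smul_eq_mul, smul_eq_mul]
    rw [h1, h2, h3, h4, RingHom.id_apply, smul_eq_mul]
    ring

theorem theta_nab {K L : Type*} [Field K] [Field L] [Algebra K L] (DK' : Der K) (DL : Der L)
    (hD : ∀ x, DL (algebraMap K L x) = algebraMap K L (DK' x)) (Γ : Matrix ι ι K)
    (r : (γ → ι) → L) (hr : ∀ J, DL (r J) = act (Γ.map (algebraMap K L)) r J)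
    (μ : (γ → ι) → K) (hμ : ∑ J, algebraMap K L (μ J) * r J = 0) (θ : L →ₗ[K] K) (k : ℕ) :
    μ ⬝ᵥ ((nabT DK' 1 Γ)^[k] fun J => θ (r J)) = 0 := by
  induction k generalizing θ with
  | zero =>
    show ∑ J, μ J * θ (r J) = 0
    have h1 : ∑ J, μ J * θ (r J) = θ (∑ J, algebraMap K L (μ J) * r J) := by
      rw [map_sum]
      refine Finset.sum_congr rfl fun J _ => ?_
      rw [← Algebra.smul_def, map_smul, smul_eq_mul]
    rw [h1, hμ, map_zero]
  | succ k ih =>
    rw [Function.iterate_succ_apply]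
    have h : nabT DK' 1 Γ (fun J => θ (r J)) = fun J => (keyb_th DK' DL hD θ) (r J) := by
      funext σ
      show 1 * DK' (θ (r σ)) - act Γ (fun J => θ (r J)) σ = DK' (θ (r σ)) - θ (DL (r σ))
      rw [one_mul, hr]
      congr 1
      unfold act
      rw [map_sum]
      refine Finset.sum_congr rfl fun j _ => ?_
      rw [map_sum]
      refine Finset.sum_congr rfl fun i _ => ?_
      rw [Matrix.map_apply, mul_comm (r _), ← Algebra.smul_def, map_smul, smul_eq_mul, mul_comm]
    rw [h]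
    exact ih _

end MPadcHP
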