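import Mathlib

/-!
# JOB KeyD: a determinant identity

`m` square over `L`, `m y = 0`. Then for every `u`: `y_{u0} det (m; column u replaced by x') = y_u det (m; column u0 replaced by x')`:
for `u = u0` trivial. For `u ≠ u0`: in `det (m; u ← x')` multiply the column `u0` by `y_{u0}` and replace it, using
`y_{u0} m_{u0} = - ∑_{w ≠ u0} y_w m_w`: the terms with `w ≠ u` vanish (two equal columns), `w = u` gives
`- y_u det (m; u ← x', u0 ← m_u) = y_u det (m; u ← m_u, u0 ← x')` (exchange of two columns) `= y_u det (m; u0 ← x')`.
Finally `det (m; u0 ← x') = ∑ v, adjugate m u0 v * x' v` (`Matrix.cramer`, `Matrix.cramer_eq_adjugate_mulVec`,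
`Matrix.cramer_apply`). The statement is over a commutative ring `T` into which `L` maps (`m.map i`,
`RingHom.map_adjugate`). An alternative proof: `cramer (m.map i) x'` is a vector; use the identity for the adjugate
`adj_{u,v} y_{u0} = adj_{u0,v} y_u`.
-/

set_option autoImplicit false

namespace MPadcHP

private theorem keyD_swap {T : Type*} [CommRing T] {g : Type*} [Fintype g] [DecidableEq g]
    (m : Matrix g g T) {u v : g} (h : u ≠ v) (a b : g → T) :
    ((m.updateCol u a).updateCol v b).det = - ((m.updateCol u b).updateCol v a).det := by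
  have h0 : ((m.updateCol u (a + b)).updateCol v (a + b)).det = 0 := by
    refine Matrix.det_zero_of_column_eq h fun k => ?_
    rw [Matrix.updateCol_ne h, Matrix.updateCol_self, Matrix.updateCol_self]
  have haa : ((m.updateCol u a).updateCol v a).det = 0 := by
    refine Matrix.det_zero_of_column_eq h fun k => ?_
    rw [Matrix.updateCol_ne h, Matrix.updateCol_self, Matrix.updateCol_self]
  have hbb : ((m.updateCol u b).updateCol v b).det = 0 := by
    refine Matrix.det_zero_of_column_eq h fun k => ?_
    rw [Matrix.updateCol_ne h, Matrix.updateCol_self, Matrix.updateCol_self]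
  rw [Matrix.det_updateCol_add, Matrix.updateCol_comm _ h, Matrix.det_updateCol_add,
    Matrix.updateCol_comm m h (a + b) b, Matrix.det_updateCol_add,
    Matrix.updateCol_comm m h.symm a a, Matrix.updateCol_comm m h.symm a b,
    Matrix.updateCol_comm m h.symm b a, Matrix.updateCol_comm m h.symm b b, haa, hbb] at h0
  linear_combination h0

private theorem keyD_col {T : Type*} [CommRing T] {g : Type*} [Fintype g] [DecidableEq g]
    (m : Matrix g g T) (y : g → T) (hy : m.mulVec y = 0) (u0 u : g) (x' : g → T) :
    y u0 * (m.updateCol u x').det = y u * (m.updateCol u0 x').det := by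
  by_cases h : u = u0
  · rw [h]
  set N := m.updateCol u x' with hN
  have h1 : N.mulVec y = y u • (x' - fun k => m k u) := by
    funext k
    have h2 : (m.mulVec y) k = 0 := by rw [hy]; rfl
    have h3 : (N.mulVec y) k - (m.mulVec y) k = y u * (x' k - m k u) := by
      simp only [Matrix.mulVec, dotProduct]
      rw [← Finset.sum_sub_distrib, Finset.sum_eq_single u]
      · rw [hN, Matrix.updateCol_self]; ring
      · intro b _ hb
        rw [hN, Matrix.updateCol_ne hb]; ring
      · intro hu; exact absurd (Finset.mem_univ u) hu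
    rw [h2, sub_zero] at h3
    rw [h3]
    rfl
  have h4 : N.det • y = y u • (N.cramer x' - N.cramer (fun k => m k u)) := by
    have h5 : N.adjugate.mulVec (N.mulVec y) = N.det • y := by
      rw [Matrix.mulVec_mulVec, Matrix.adjugate_mul, Matrix.smul_mulVec, Matrix.one_mulVec]
    rw [← h5, h1, Matrix.mulVec_smul, Matrix.mulVec_sub, ← Matrix.cramer_eq_adjugate_mulVec,
      ← Matrix.cramer_eq_adjugate_mulVec]
  have h6 : (N.cramer x') u0 = 0 := by
    rw [Matrix.cramer_apply]
    refine Matrix.det_zero_of_column_eq h fun k => ?_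
    rw [Matrix.updateCol_ne h, Matrix.updateCol_self, hN, Matrix.updateCol_self]
  have h7 : (N.cramer (fun k => m k u)) u0 = - (m.updateCol u0 x').det := by
    rw [Matrix.cramer_apply, hN, keyD_swap m h, Matrix.updateCol_eq_self]
  have h8 := congrFun h4 u0
  simp only [Pi.smul_apply, Pi.sub_apply, smul_eq_mul] at h8
  rw [h6, h7] at h8
  linear_combination h8

theorem det_split {L T : Type*} [Field L] [CommRing T] (i : L →+* T) {g : Type*} [Fintype g]
    [DecidableEq g] (m : Matrix g g L) (y : g → L) (hy : m.mulVec y = 0) (u0 : g)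
    (x' y' : g → T) :
    i (y u0) * ∑ u, y' u * ((m.map i).updateCol u x').det =
      (∑ u, i (y u) * y' u) * ∑ v, i (m.adjugate u0 v) * x' v := by
  have hy' : (m.map i).mulVec (fun u => i (y u)) = 0 := by
    funext k
    have h2 : (m.mulVec y) k = 0 := by rw [hy]; rfl
    have h3 := congrArg i h2
    simp only [Matrix.mulVec, dotProduct, map_sum, map_mul, map_zero] at h3
    exact h3
  have h1 : ∑ v, i (m.adjugate u0 v) * x' v = ((m.map i).updateCol u0 x').det := by
    rw [← Matrix.cramer_apply, Matrix.cramer_eq_adjugate_mulVec]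
    have h2 : (m.map i).adjugate = m.adjugate.map i := (RingHom.map_adjugate i m).symm
    rw [h2]
    rfl
  rw [h1, Finset.mul_sum, Finset.sum_mul]
  refine Finset.sum_congr rfl fun u _ => ?_
  have h2 := keyD_col (m.map i) (fun u => i (y u)) hy' u0 u x'
  linear_combination y' u * h2

end MPadcHP
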