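import Pool.Agent.Lib.MP_adc574_ag_HP.KeyA
import Pool.Agent.Lib.MP_adc574_ag_HP.KeyB
import Pool.Agent.Lib.MP_adc574_ag_HP.KeyC
import Pool.Agent.Lib.MP_adc574_ag_HP.KeyD

/-!
# JOB KeyE: the key lemma

Proof. Induction on `g` (for all `c`, `f`); `g = 0`: the determinant of the empty matrix is 1. Step `g + 1`: suppose the determinant of
`m v u = c_v . f_u` is 0. For all `v0`, `u0` the submatrix without row `v0` and column `u0` has nonzero determinant
by induction (subfamilies `c ∘ v0.succAbove`, `f ∘ u0.succAbove` of independent families are independent), so all entries of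
`m.adjugate` are nonzero (`Matrix.adjugate_fin_succ_eq_det_submatrix`).
Let `r0 = dform c`. `r0` is alternating (`dform_alt`), `DL (r0 J) = act (Γ.map) r0 J` (`dform_deriv`). Let
`μ J = ∏ u, f u (J u)` (over `K`): `∑ (μ J) r0 J = ev (dform c) f = det m = 0` (`ev_dform`). For `θ : L → K` linear `θ ∘ r0` is alternating,
`theta_nab` and `hLJ` give `μ . act N (θ ∘ r0) = 0` in `E`, `N = vecMulVec a l`, so by `tensor_act` the same holds for `r0` in
`T = L ⊗[K] E`: `μ . act N' r0' = 0`. Now `μ . act N' r0' = ev (act N' (dform c')) f'` (`c' = c ⊗ 1`, `f'` the image of `f`, definition of `ev`)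
`= ∑ u, ev (dform c') (update f' u (N' f'_u))` (`MPadcLP.ev_act`) `= ∑ u, det (m'; column u replaced by c'_v . (N' f'_u))` (`ev_dform`), and
`N' f'_u = (l' . f'_u) a'`, so the column is `(l' . f'_u) x'`, `x'_v = c'_v . a'`: the sum is `∑ u, y'_u det (m'; u ← x')`, `y'_u = l' . f'_u`.
`det m = 0`: there is `y ≠ 0` with `m y = 0` (`Matrix.exists_mulVec_eq_zero_iff`), `y u0 ≠ 0`. `det_split` gives
`(∑ u, y_u y'_u) (∑ v, adj_{u0,v} x'_v) = 0` in the domain `T`. So one factor vanishes:
* `∑ u, y_u ⊗ (l . f_u) = ∑ i, (∑ u, y_u f_u(i)) ⊗ l_i = 0`. The vector `z_i = ∑ u, y_u f_u(i)` in `L^ι` is not 0 (`f` stays linearly independent over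
  `L`: `LinearIndependent` over a field extension, e.g. by a nonzero minor, or `LinearIndependent.map`/base change), but the `l_i`
  are `K`-linearly independent in `E`, so `∑ z_i ⊗ l_i = 0` implies `z = 0` (`LinearIndependent` and flatness; e.g.
  apply `θ ⊗ id` for all `θ : L → K`: `∑ θ(z_i) l_i = 0`, so `θ(z_i) = 0` for all `θ`). Contradiction.
* `∑ v, adj_{u0,v} (c_v . a) = ∑ i, (∑ v, adj_{u0,v} c_v(i)) ⊗ a_i = 0`, the same with the `L`-linear independence of the `c_v`.
-/

set_option autoImplicit false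

namespace MPadcHP

open MPadcLP
open scoped TensorProduct

private theorem keyE_ten {K L E : Type*} [Field K] [Field L] [Field E] [Algebra K L]
    [Algebra K E] {ι : Type} [Fintype ι] (l : ι → E) (hl : LinearIndependent K l) (z : ι → L)
    (h : ∑ i, z i ⊗ₜ[K] l i = 0) : ∀ i, z i = 0 := by
  intro i
  refine (Module.forall_dual_apply_eq_zero_iff K (z i)).1 fun θ => ?_
  have h1 : ∑ i, θ (z i) • l i = 0 := by
    have h2 : (TensorProduct.lid K E) (LinearMap.rTensor E θ (∑ i, z i ⊗ₜ[K] l i)) = 0 := by
      rw [h, map_zero, map_zero]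
    rw [map_sum, map_sum] at h2
    rw [← h2]
    refine Finset.sum_congr rfl fun i _ => ?_
    rw [LinearMap.rTensor_tmul, TensorProduct.lid_tmul]
  exact Fintype.linearIndependent_iff.1 hl _ h1 i

theorem key {K L E : Type*} [Field K] [CharZero K] [Field L] [Field E] [Algebra K L]
    [Algebra K E] [IsDomain (L ⊗[K] E)] (DK' : Der K) (DL : Der L)
    (hD : ∀ x, DL (algebraMap K L x) = algebraMap K L (DK' x))
    {ι : Type} [Fintype ι] [DecidableEq ι] (Γ : Matrix ι ι K) (a l : ι → E)
    (ha : LinearIndependent K a) (hl : LinearIndependent K l)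
    (hLJ : ∀ (g : ℕ) (c : (Fin g → ι) → K), Alt c → ∀ μ : (Fin g → ι) → K,
      (∀ k : ℕ, μ ⬝ᵥ ((nabT DK' 1 Γ)^[k] c) = 0) →
      (fun J => algebraMap K E (μ J)) ⬝ᵥ
        act (Matrix.vecMulVec a l) (fun J => algebraMap K E (c J)) = 0)
    (g : ℕ) (c : Fin g → ι → L) (hc : ∀ v j, DL (c v j) = ∑ i, c v i * algebraMap K L (Γ i j))
    (hci : LinearIndependent L c) (f : Fin g → ι → K) (hf : LinearIndependent K f) :
    (Matrix.of fun v u : Fin g => ∑ i, c v i * algebraMap K L (f u i)).det ≠ 0 := by
  classical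
  induction g with
  | zero =>
    rw [Matrix.det_fin_zero]
    exact one_ne_zero
  | succ g ih =>
    intro hdet
    obtain ⟨m, hm⟩ : ∃ m : Matrix (Fin (g + 1)) (Fin (g + 1)) L,
        m = Matrix.of fun v u => ∑ i, c v i * algebraMap K L (f u i) := ⟨_, rfl⟩
    rw [← hm] at hdet
    have hadj : ∀ u v, m.adjugate u v ≠ 0 := by
      intro u v h0
      rw [Matrix.adjugate_fin_succ_eq_det_submatrix] at h0
      have h1 := ih (c ∘ v.succAbove) (fun v' j => hc _ _)
        (hci.comp _ Fin.succAbove_right_injective) (f ∘ u.succAbove)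
        (hf.comp _ Fin.succAbove_right_injective)
      have h2 : (Matrix.of fun v' u' : Fin g => ∑ i, (c ∘ v.succAbove) v' i *
          algebraMap K L ((f ∘ u.succAbove) u' i)) =
          m.submatrix v.succAbove u.succAbove := by
        rw [hm]
        rfl
      rw [h2] at h1
      rcases mul_eq_zero.1 h0 with h3 | h3
      · exact pow_ne_zero _ (neg_ne_zero.2 one_ne_zero) h3
      · exact h1 h3
    obtain ⟨μ, hμdef⟩ : ∃ μ : (Fin (g + 1) → ι) → K, μ = fun J => ∏ u, f u (J u) := ⟨_, rfl⟩
    have hr0 : ∀ J, DL (dform c J) = act (Γ.map (algebraMap K L)) (dform c) J :=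
      dform_deriv DL (Γ.map (algebraMap K L)) c (fun v j => hc v j)
    have hμ : ∑ J, algebraMap K L (μ J) * dform c J = 0 := by
      have h1 := ev_dform c (fun u i => algebraMap K L (f u i))
      have h2 : ev (dform c) (fun u i => algebraMap K L (f u i)) =
          ∑ J, algebraMap K L (μ J) * dform c J := by
        unfold ev
        refine Finset.sum_congr rfl fun J _ => ?_
        rw [hμdef, map_prod, mul_comm]
      rw [← h2, h1, ← hm]
      exact hdet
    have hθ : ∀ θ : L →ₗ[K] K, (fun J => algebraMap K E (μ J)) ⬝ᵥ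
        act (Matrix.vecMulVec a l) (fun J => algebraMap K E (θ (dform c J))) = 0 := by
      intro θ
      refine hLJ (g + 1) (fun J => θ (dform c J)) ?_ μ
        (fun k => theta_nab DK' DL hD Γ (dform c) hr0 μ hμ θ k)
      obtain ⟨h1, h2⟩ := dform_alt c
      constructor
      · intro σ j k hjk
        show θ (dform c (σ ∘ Equiv.swap j k)) = -θ (dform c σ)
        rw [h1 σ j k hjk, map_neg]
      · intro σ j k hjk h
        show θ (dform c σ) = 0
        rw [h2 σ j k hjk h, map_zero]
    have hT := tensor_act (Matrix.vecMulVec a l) (dform c) μ hθ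
    obtain ⟨iL, hiL⟩ : ∃ iL : L →+* L ⊗[K] E, ∀ x, iL x = x ⊗ₜ[K] (1 : E) :=
      ⟨Algebra.TensorProduct.includeLeftRingHom, fun x => rfl⟩
    obtain ⟨x', hx'⟩ : ∃ x' : Fin (g + 1) → L ⊗[K] E,
        x' = fun v => ∑ i, iL (c v i) * ((1 : L) ⊗ₜ[K] a i) := ⟨_, rfl⟩
    obtain ⟨y', hy'⟩ : ∃ y' : Fin (g + 1) → L ⊗[K] E,
        y' = fun u => ∑ i, ((1 : L) ⊗ₜ[K] l i) * iL (algebraMap K L (f u i)) := ⟨_, rfl⟩
    have hKT : ∀ x : K, algebraMap K (L ⊗[K] E) x = iL (algebraMap K L x) := by
      intro x
      rw [hiL]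
      rfl
    have hN : ∀ u, ((Matrix.vecMulVec a l).map fun x => (1 : L) ⊗ₜ[K] x).mulVec
        (fun i => iL (algebraMap K L (f u i))) = fun i => y' u * ((1 : L) ⊗ₜ[K] a i) := by
      intro u
      funext i
      show ∑ j, ((1 : L) ⊗ₜ[K] (a i * l j)) * iL (algebraMap K L (f u j)) = _
      rw [hy', Finset.sum_mul]
      refine Finset.sum_congr rfl fun j _ => ?_
      have h1 : ((1 : L) ⊗ₜ[K] (a i * l j) : L ⊗[K] E) =
          ((1 : L) ⊗ₜ[K] a i) * ((1 : L) ⊗ₜ[K] l j) := by
        rw [Algebra.TensorProduct.tmul_mul_tmul, one_mul]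
      rw [h1]
      ring
    have hS : ∑ j, y' j * ((m.map iL).updateCol j x').det = 0 := by
      have e1 : (fun J => algebraMap K (L ⊗[K] E) (μ J)) ⬝ᵥ
          act ((Matrix.vecMulVec a l).map fun x => (1 : L) ⊗ₜ[K] x)
            (fun J => dform c J ⊗ₜ[K] (1 : E)) =
          ev (act ((Matrix.vecMulVec a l).map fun x => (1 : L) ⊗ₜ[K] x)
            (dform fun v i => iL (c v i))) (fun u i => iL (algebraMap K L (f u i))) := by
        have e0 : (fun J => dform c J ⊗ₜ[K] (1 : E)) = dform fun v i => iL (c v i) := by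
          funext J
          rw [← hiL]
          unfold dform
          rw [RingHom.map_det]
          rfl
        rw [e0]
        unfold ev
        refine Finset.sum_congr rfl fun J _ => ?_
        show algebraMap K (L ⊗[K] E) (μ J) * _ = _
        rw [mul_comm, hμdef, hKT, map_prod, map_prod]
      rw [e1, ev_act] at hT
      rw [← hT]
      refine Finset.sum_congr rfl fun j _ => ?_
      rw [ev_dform, hN]
      have e2 : (Matrix.of fun v u => ∑ i, iL (c v i) *
          Function.update (fun u i => iL (algebraMap K L (f u i))) j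
            (fun i => y' j * ((1 : L) ⊗ₜ[K] a i)) u i) =
          (m.map iL).updateCol j (y' j • x') := by
        ext v u
        rw [Matrix.of_apply, Matrix.updateCol_apply]
        by_cases huj : u = j
        · rw [if_pos huj, huj, Function.update_self]
          show _ = y' j * x' v
          rw [hx', Finset.mul_sum]
          refine Finset.sum_congr rfl fun i _ => ?_
          ring
        · rw [if_neg huj, Function.update_of_ne huj, Matrix.map_apply, hm, Matrix.of_apply,
            map_sum]
          refine Finset.sum_congr rfl fun i _ => ?_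
          rw [map_mul]
      rw [e2, Matrix.det_updateCol_smul]
    obtain ⟨y, hy0, hy⟩ := Matrix.exists_mulVec_eq_zero_iff.2 hdet
    obtain ⟨u0, hu0⟩ : ∃ u0, y u0 ≠ 0 := Function.ne_iff.1 hy0
    have hsplit := det_split iL m y hy u0 x' y'
    rw [hS, mul_zero] at hsplit
    rcases mul_eq_zero.1 hsplit.symm with h1 | h1
    · have h2 : ∑ i, (∑ u, y u * algebraMap K L (f u i)) ⊗ₜ[K] l i = 0 := by
        rw [← h1, hy']
        simp only [Finset.mul_sum]
        rw [Finset.sum_comm]
        refine Finset.sum_congr rfl fun i _ => ?_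
        rw [TensorProduct.sum_tmul]
        refine Finset.sum_congr rfl fun u _ => ?_
        rw [hiL, hiL, Algebra.TensorProduct.tmul_mul_tmul, Algebra.TensorProduct.tmul_mul_tmul,
          one_mul, one_mul, mul_one]
      have h3 := keyE_ten l hl _ h2
      have h4 : y u0 = 0 := by
        refine (Module.forall_dual_apply_eq_zero_iff K (y u0)).1 fun θ => ?_
        have h5 : ∑ u, θ (y u) • f u = 0 := by
          funext i
          have h6 := congrArg θ (h3 i)
          rw [map_sum, map_zero] at h6
          rw [Finset.sum_apply, Pi.zero_apply, ← h6]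
          refine Finset.sum_congr rfl fun u _ => ?_
          have h7 : y u * algebraMap K L (f u i) = f u i • y u := by
            rw [Algebra.smul_def, mul_comm]
          rw [h7, map_smul, Pi.smul_apply, smul_eq_mul, smul_eq_mul, mul_comm]
        exact Fintype.linearIndependent_iff.1 hf _ h5 u0
      exact hu0 h4
    · have h2 : ∑ i, (∑ v, m.adjugate u0 v * c v i) ⊗ₜ[K] a i = 0 := by
        rw [← h1, hx']
        simp only [Finset.mul_sum]
        rw [Finset.sum_comm]
        refine Finset.sum_congr rfl fun i _ => ?_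
        rw [TensorProduct.sum_tmul]
        refine Finset.sum_congr rfl fun v _ => ?_
        rw [hiL, hiL, Algebra.TensorProduct.tmul_mul_tmul, Algebra.TensorProduct.tmul_mul_tmul,
          one_mul, one_mul, mul_one]
      have h3 := keyE_ten a ha _ h2
      have h5 : ∑ v, m.adjugate u0 v • c v = 0 := by
        funext i
        rw [Finset.sum_apply, Pi.zero_apply, ← h3 i]
        rfl
      exact hadj u0 0 (Fintype.linearIndependent_iff.1 hci _ h5 0)

end MPadcHP
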