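import Mathlib

/-!
# JOB KosA: grade sensitivity of the Koszul complex, abstract form

`P → R` (functions on a finite set `P`, graded by `deg : P → ℕ`, `deg ≤ n`); `z` has degree `i` if it is supported on `deg = i`.
`d` a differential lowering the degree, `s k` (`k : Fin n`) operators raising the degree with `d (s k z) + s k (d z) = y k • z`.
`I j = span {y k | k < j}`; `y j` is a nonzerodivisor modulo `I j`.

Claim(j), `j ≤ n`: if `Z` has degree `j + 1` and all values of `d Z` are in `I j`, then there is `T` of degree `j + 2` such that all values of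
`Z - d T` are in `I j`. Proof by decreasing induction on `j` (`Nat.decreasingInduction` or induction on `n - j`).
`j = n`: `Z = 0` since `deg ≤ n`; `T = 0`. Step from `j + 1` to `j` (`j < n`, `y_j := y ⟨j, _⟩`): `W = s j Z` has degree `j + 2` and
`d W = y_j Z - s j (d Z)`. `s j` and `d` are `R`-linear, so they map functions with values in an ideal `I` to such functions
(`z = ∑ p, z p • Pi.single p 1`). So `d W` has values in `I (j+1)` (`y_j ∈ I (j+1)`, `I j ≤ I (j+1)`). By Claim(j+1) there is `T'` of
degree `j + 3` such that `W - d T'` has values in `I (j+1) = span {y_j} ⊔ I j`: `W - d T' = y_j • U + r`, `U` of degree `j + 2` (choose `U p = 0`, `r p = 0`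
where `deg p ≠ j + 2`, there `(W - d T') p = 0`), `r` with values in `I j`. Apply `d`: `d W = y_j • d U + d r` (`d d = 0`). So
`y_j • (Z - d U) = s j (d Z) + d r` has values in `I j`, hence `Z - d U` has values in `I j` (`hreg`). Take `T = U`.
Claim(0): `I 0 = ⊥`, `Z` of degree 1 with `d Z = 0` is `d T`.
-/

set_option autoImplicit false

namespace MPadcHP

private theorem kosA_lin {R : Type*} [CommRing R] {P : Type*} [Fintype P] [DecidableEq P]
    (f : (P → R) →ₗ[R] (P → R)) (I : Ideal R) (z : P → R) (hz : ∀ p, z p ∈ I) (q : P) :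
    f z q ∈ I := by
  have h1 : f z = ∑ i, z i • f (fun j => if i = j then 1 else 0) := by
    conv_lhs => rw [pi_eq_sum_univ z]
    rw [map_sum]
    exact Finset.sum_congr rfl fun i _ => map_smul _ _ _
  rw [h1, Finset.sum_apply]
  refine Ideal.sum_mem _ fun i _ => ?_
  rw [Pi.smul_apply, smul_eq_mul]
  exact I.mul_mem_right _ (hz i)

theorem kos_abstract {R : Type*} [CommRing R] {n : ℕ} {P : Type*} [Fintype P] [DecidableEq P]
    (deg : P → ℕ) (hdeg : ∀ p, deg p ≤ n) (d : (P → R) →ₗ[R] (P → R))
    (s : Fin n → (P → R) →ₗ[R] (P → R)) (y : Fin n → R)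
    (hdd : ∀ z, d (d z) = 0) (hds : ∀ k z, d (s k z) + s k (d z) = y k • z)
    (hd : ∀ (i : ℕ) (z : P → R), (∀ p, deg p ≠ i + 1 → z p = 0) → ∀ p, deg p ≠ i → d z p = 0)
    (hs : ∀ (k : Fin n) (i : ℕ) (z : P → R), (∀ p, deg p ≠ i → z p = 0) →
      ∀ p, deg p ≠ i + 1 → s k z p = 0)
    (hreg : ∀ (j : Fin n) (x : R),
      y j * x ∈ Ideal.span (y '' {k | k < j}) → x ∈ Ideal.span (y '' {k | k < j}))
    (z : P → R) (hz : ∀ p, deg p ≠ 1 → z p = 0) (hdz : d z = 0) :
    ∃ T : P → R, (∀ p, deg p ≠ 2 → T p = 0) ∧ z = d T := by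
  classical
  let I : ℕ → Ideal R := fun j => Ideal.span (y '' {k | (k : ℕ) < j})
  have claim : ∀ m j : ℕ, j + m = n → ∀ Z : P → R, (∀ p, deg p ≠ j + 1 → Z p = 0) →
      (∀ p, d Z p ∈ I j) → ∃ T : P → R, (∀ p, deg p ≠ j + 2 → T p = 0) ∧
        ∀ p, Z p - d T p ∈ I j := by
    intro m
    induction m with
    | zero =>
      intro j hj Z hZ _
      refine ⟨0, fun p _ => rfl, fun p => ?_⟩
      have h1 : Z p = 0 := hZ p (by have := hdeg p; omega)
      rw [h1, map_zero, Pi.zero_apply, sub_zero]
      exact (I j).zero_mem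
    | succ m ih =>
      intro j hj Z hZ hdZ
      have hjn : j < n := by omega
      let k : Fin n := ⟨j, hjn⟩
      have hset : (y '' {l : Fin n | (l : ℕ) < j + 1}) = insert (y k) (y '' {l : Fin n | (l : ℕ) < j}) := by
        have h1 : {l : Fin n | (l : ℕ) < j + 1} = insert k {l : Fin n | (l : ℕ) < j} := by
          ext l
          simp only [Set.mem_ofPred_eq, Set.mem_insert_iff, Fin.ext_iff, k]
          omega
        rw [h1, Set.image_insert_eq]
      have hle : I j ≤ I (j + 1) := by
        refine Ideal.span_mono ?_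
        rw [hset]
        exact Set.subset_insert _ _
      have hk : y k ∈ I (j + 1) := by
        refine Ideal.subset_span ?_
        rw [hset]
        exact Set.mem_insert _ _
      have hW : ∀ p, deg p ≠ j + 1 + 1 → s k Z p = 0 := hs k (j + 1) Z hZ
      have hdW : ∀ p, d (s k Z) p = y k * Z p - s k (d Z) p := by
        intro p
        have h1 := congrFun (hds k Z) p
        rw [Pi.add_apply, Pi.smul_apply, smul_eq_mul] at h1
        rw [← h1]
        ring
      obtain ⟨T', hT1, hT2⟩ := ih (j + 1) (by omega) (s k Z) hW (fun p => by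
        rw [hdW p]
        exact (I (j + 1)).sub_mem ((I (j + 1)).mul_mem_right _ hk)
          (hle (kosA_lin (s k) (I j) (d Z) hdZ p)))
      have hdec : ∀ p, ∃ u : R, s k Z p - d T' p - y k * u ∈ I j := by
        intro p
        have h1 := hT2 p
        have h2 : s k Z p - d T' p ∈ Ideal.span (insert (y k) (y '' {l : Fin n | (l : ℕ) < j})) := by
          rw [← hset]
          exact h1
        obtain ⟨a, r, hr, he⟩ := Ideal.mem_span_insert.1 h2
        refine ⟨a, ?_⟩
        have h3 : s k Z p - d T' p - y k * a = r := by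
          rw [he]
          ring
        rw [h3]
        exact hr
      choose u hu using hdec
      let U : P → R := fun p => if deg p = j + 2 then u p else 0
      have hU : ∀ p, deg p ≠ j + 2 → U p = 0 := fun p hp => if_neg hp
      have hr : ∀ p, (s k Z - d T' - y k • U) p ∈ I j := by
        intro p
        rw [Pi.sub_apply, Pi.sub_apply, Pi.smul_apply, smul_eq_mul]
        by_cases hp : deg p = j + 2
        · have h1 : U p = u p := if_pos hp
          rw [h1]
          exact hu p
        · have h1 : s k Z p = 0 := hW p hp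
          have h2 : d T' p = 0 := hd (j + 2) T' hT1 p hp
          rw [h1, h2, hU p hp, mul_zero, sub_zero, sub_zero]
          exact (I j).zero_mem
      refine ⟨U, hU, fun p => ?_⟩
      have h1 : d (s k Z - d T' - y k • U) p = d (s k Z) p - y k * d U p := by
        rw [map_sub, map_sub, hdd, sub_zero, map_smul, Pi.sub_apply, Pi.smul_apply, smul_eq_mul]
      have h2 : y k * (Z p - d U p) = s k (d Z) p + d (s k Z - d T' - y k • U) p := by
        rw [h1, hdW p]
        ring
      have h3 : y k * (Z p - d U p) ∈ I j := by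
        rw [h2]
        exact (I j).add_mem (kosA_lin (s k) (I j) (d Z) hdZ p) (kosA_lin d (I j) _ hr p)
      exact hreg k _ h3
  obtain ⟨T, hT1, hT2⟩ := claim n 0 (by omega) z hz (fun p => by
    rw [hdz, Pi.zero_apply]
    exact (I 0).zero_mem)
  refine ⟨T, hT1, ?_⟩
  funext p
  have h1 := hT2 p
  have h2 : I 0 = ⊥ := by
    show Ideal.span (y '' {k : Fin n | (k : ℕ) < 0}) = ⊥
    have h3 : {k : Fin n | (k : ℕ) < 0} = ∅ := by
      ext l
      simp
    rw [h3, Set.image_empty, Ideal.span_empty]
  rw [h2, Ideal.mem_bot] at h1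
  exact sub_eq_zero.1 h1

end MPadcHP
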