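import Pool.Agent.Lib.MP_adc574_ag_HP.KosA

/-!
# JOB KosB: first syzygies of a sequence generating a regular sequence

Apply `kos_abstract` with `P = Finset (Fin n)`, `deg = card`. Signs: `sg j S = (-1) ^ #{i ∈ S | i < j}`.
`ann j z S = if j ∈ S then 0 else sg j S * z (insert j S)`, `cre j z S = if j ∈ S then sg j S * z (S.erase j) else 0`
(linear in `z`). Relations: `ann j (cre j z) + cre j (ann j z) = z`; `ann j (cre k z) = - cre k (ann j z)`, `ann j (ann k z) = - ann k (ann j z)` for `j ≠ k`,
`ann j (ann j z) = 0` (pointwise case distinction; `sg j (insert k S) = - sg j S` if `k < j`, `k ∉ S`, and `= sg j S` if `j < k`; exactly one of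
`k < j`, `j < k`). `d = ∑ j, h j • ann j`, `s k = ∑ j, c k j • cre j`: `d d = 0` (`∑_{j,k} h_j h_k ann j ann k`, antisymmetric), and
`d s_k + s_k d = ∑_{j,l} h_j c_kl (ann j cre l + cre l ann j) = ∑_j h_j c_kj = y k`.
`z S = ∑ j, if S = {j} then Q j else 0`; `d z ∅ = ∑ h_j Q_j = 0`, and `d z S = 0` for `card S ≠ 0`. From `z = d T`, `T` of degree 2, evaluate at `{i}`:
`Q i = ∑_{j ≠ i} h_j sg j {i} T {i, j}`. Put `A i j = if i = j then 0 else sg j {i} * T {i, j}`; `sg j {i} = -1` if `i < j` and `1` if `j < i`, so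
`A i j = - A j i`.
-/

set_option autoImplicit false

namespace MPadcHP

private def kosB_sg (R : Type*) [CommRing R] {n : ℕ} (j : Fin n) (S : Finset (Fin n)) : R :=
  (-1) ^ (S.filter (fun i => i < j)).card

private theorem kosB_sg_sq {R : Type*} [CommRing R] {n : ℕ} (j : Fin n) (S : Finset (Fin n)) :
    kosB_sg R j S * kosB_sg R j S = 1 := by
  unfold kosB_sg
  rw [← mul_pow, neg_one_mul, neg_neg, one_pow]

private theorem kosB_sg_lt {R : Type*} [CommRing R] {n : ℕ} {j k : Fin n} {S : Finset (Fin n)} (h : k < j)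
    (hk : k ∉ S) : kosB_sg R j (insert k S) = - kosB_sg R j S := by
  unfold kosB_sg
  rw [Finset.filter_insert, if_pos h, Finset.card_insert_of_notMem (fun h2 => hk (Finset.mem_filter.1 h2).1),
    pow_succ, mul_neg_one]

private theorem kosB_sg_ge {R : Type*} [CommRing R] {n : ℕ} {j k : Fin n} {S : Finset (Fin n)} (h : ¬ k < j) :
    kosB_sg R j (insert k S) = kosB_sg R j S := by
  unfold kosB_sg
  rw [Finset.filter_insert, if_neg h]

/-- the sign rule -/
private theorem kosB_sg_comm {R : Type*} [CommRing R] {n : ℕ} {j k : Fin n} {S : Finset (Fin n)} (h : j ≠ k)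
    (hj : j ∉ S) (hk : k ∉ S) :
    kosB_sg R j S * kosB_sg R k (insert j S) = - (kosB_sg R k S * kosB_sg R j (insert k S)) := by
  rcases lt_or_gt_of_ne h with h1 | h1
  · rw [kosB_sg_lt h1 hj, kosB_sg_ge (not_lt.2 h1.le)]
    ring
  · rw [kosB_sg_lt h1 hk, kosB_sg_ge (not_lt.2 h1.le)]
    ring

private def kosB_ann {R : Type*} [CommRing R] {n : ℕ} (j : Fin n) :
    (Finset (Fin n) → R) →ₗ[R] (Finset (Fin n) → R) where
  toFun z S := if j ∈ S then 0 else kosB_sg R j S * z (insert j S)
  map_add' z w := by
    funext S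
    show (if j ∈ S then 0 else kosB_sg R j S * (z (insert j S) + w (insert j S))) =
      (if j ∈ S then 0 else kosB_sg R j S * z (insert j S)) + (if j ∈ S then 0 else kosB_sg R j S * w (insert j S))
    split_ifs
    · rw [add_zero]
    · rw [mul_add]
  map_smul' a z := by
    funext S
    show (if j ∈ S then 0 else kosB_sg R j S * (a * z (insert j S))) =
      a * (if j ∈ S then 0 else kosB_sg R j S * z (insert j S))
    split_ifs
    · rw [mul_zero]
    · ring

private def kosB_cre {R : Type*} [CommRing R] {n : ℕ} (j : Fin n) :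
    (Finset (Fin n) → R) →ₗ[R] (Finset (Fin n) → R) where
  toFun z S := if j ∈ S then kosB_sg R j (S.erase j) * z (S.erase j) else 0
  map_add' z w := by
    funext S
    show (if j ∈ S then kosB_sg R j (S.erase j) * (z (S.erase j) + w (S.erase j)) else 0) =
      (if j ∈ S then kosB_sg R j (S.erase j) * z (S.erase j) else 0) +
        (if j ∈ S then kosB_sg R j (S.erase j) * w (S.erase j) else 0)
    split_ifs
    · rw [mul_add]
    · rw [add_zero]
  map_smul' a z := by
    funext S
    show (if j ∈ S then kosB_sg R j (S.erase j) * (a * z (S.erase j)) else 0) =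
      a * (if j ∈ S then kosB_sg R j (S.erase j) * z (S.erase j) else 0)
    split_ifs
    · ring
    · rw [mul_zero]

private theorem kosB_ann_in {R : Type*} [CommRing R] {n : ℕ} {j : Fin n} {S : Finset (Fin n)} (h : j ∈ S)
    (z : Finset (Fin n) → R) : kosB_ann j z S = 0 := if_pos h

private theorem kosB_ann_out {R : Type*} [CommRing R] {n : ℕ} {j : Fin n} {S : Finset (Fin n)} (h : j ∉ S)
    (z : Finset (Fin n) → R) : kosB_ann j z S = kosB_sg R j S * z (insert j S) := if_neg h

private theorem kosB_cre_in {R : Type*} [CommRing R] {n : ℕ} {j : Fin n} {S : Finset (Fin n)} (h : j ∉ S)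
    (z : Finset (Fin n) → R) : kosB_cre j z (insert j S) = kosB_sg R j S * z S := by
  show (if j ∈ insert j S then kosB_sg R j ((insert j S).erase j) * z ((insert j S).erase j) else 0) = _
  rw [if_pos (Finset.mem_insert_self _ _), Finset.erase_insert h]

private theorem kosB_cre_out {R : Type*} [CommRing R] {n : ℕ} {j : Fin n} {S : Finset (Fin n)} (h : j ∉ S)
    (z : Finset (Fin n) → R) : kosB_cre j z S = 0 := if_neg h

private theorem kosB_one {R : Type*} [CommRing R] {n : ℕ} (j : Fin n) (z : Finset (Fin n) → R) :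
    kosB_ann j (kosB_cre j z) + kosB_cre j (kosB_ann j z) = z := by
  funext S
  rw [Pi.add_apply]
  by_cases h : j ∈ S
  · obtain ⟨T, hT, rfl⟩ : ∃ T, j ∉ T ∧ S = insert j T :=
      ⟨S.erase j, Finset.notMem_erase _ _, (Finset.insert_erase h).symm⟩
    rw [kosB_ann_in h, kosB_cre_in hT, kosB_ann_out hT, ← mul_assoc, kosB_sg_sq]
    ring
  · rw [kosB_cre_out h, kosB_ann_out h, kosB_cre_in h, ← mul_assoc, kosB_sg_sq]
    ring

private theorem kosB_anti {R : Type*} [CommRing R] {n : ℕ} {j k : Fin n} (hjk : j ≠ k) (z : Finset (Fin n) → R) :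
    kosB_ann j (kosB_cre k z) + kosB_cre k (kosB_ann j z) = 0 := by
  funext S
  rw [Pi.add_apply, Pi.zero_apply]
  by_cases hk : k ∈ S
  · obtain ⟨T, hT, rfl⟩ : ∃ T, k ∉ T ∧ S = insert k T :=
      ⟨S.erase k, Finset.notMem_erase _ _, (Finset.insert_erase hk).symm⟩
    rw [kosB_cre_in hT]
    by_cases hj : j ∈ T
    · rw [kosB_ann_in hj, kosB_ann_in (Finset.mem_insert_of_mem hj)]
      ring
    · have hj2 : j ∉ insert k T := by
        intro h
        rcases Finset.mem_insert.1 h with h | h
        · exact hjk h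
        · exact hj h
      have hk2 : k ∉ insert j T := by
        intro h
        rcases Finset.mem_insert.1 h with h | h
        · exact hjk h.symm
        · exact hT h
      rw [kosB_ann_out hj2, Finset.insert_comm, kosB_cre_in hk2, kosB_ann_out hj]
      rcases lt_or_gt_of_ne hjk with h1 | h1
      · rw [kosB_sg_lt (j := k) (k := j) h1 hj, kosB_sg_ge (j := j) (k := k) (not_lt.2 h1.le)]
        ring
      · rw [kosB_sg_ge (j := k) (k := j) (not_lt.2 h1.le), kosB_sg_lt (j := j) (k := k) h1 hT]
        ring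
  · rw [kosB_cre_out hk, add_zero]
    by_cases hj : j ∈ S
    · exact kosB_ann_in hj _
    · have hk2 : k ∉ insert j S := by
        intro h
        rcases Finset.mem_insert.1 h with h | h
        · exact hjk h.symm
        · exact hk h
      rw [kosB_ann_out hj, kosB_cre_out hk2, mul_zero]

private theorem kosB_annann {R : Type*} [CommRing R] {n : ℕ} (j k : Fin n) (z : Finset (Fin n) → R) :
    kosB_ann j (kosB_ann k z) + kosB_ann k (kosB_ann j z) = 0 := by
  funext S
  rw [Pi.add_apply, Pi.zero_apply]
  by_cases hj : j ∈ S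
  · rw [kosB_ann_in hj]
    by_cases hk : k ∈ S
    · rw [kosB_ann_in hk, add_zero]
    · rw [kosB_ann_out hk, kosB_ann_in (Finset.mem_insert_of_mem hj)]
      ring
  · by_cases hk : k ∈ S
    · rw [kosB_ann_in hk, kosB_ann_out hj, kosB_ann_in (Finset.mem_insert_of_mem hk)]
      ring
    · rw [kosB_ann_out hj, kosB_ann_out hk]
      by_cases hjk : j = k
      · subst hjk
        rw [kosB_ann_in (Finset.mem_insert_self _ _)]
        ring
      · have hj2 : j ∉ insert k S := by
          intro h
          rcases Finset.mem_insert.1 h with h | h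
          · exact hjk h
          · exact hj h
        have hk2 : k ∉ insert j S := by
          intro h
          rcases Finset.mem_insert.1 h with h | h
          · exact hjk h.symm
          · exact hk h
        rw [kosB_ann_out hj2, kosB_ann_out hk2, Finset.insert_comm k j]
        have h1 := kosB_sg_comm (R := R) hjk hj hk
        linear_combination (z (insert j (insert k S))) * h1

private theorem kosB_ann_self {R : Type*} [CommRing R] {n : ℕ} (j : Fin n) (z : Finset (Fin n) → R) :
    kosB_ann j (kosB_ann j z) = 0 := by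
  funext S
  rw [Pi.zero_apply]
  by_cases hj : j ∈ S
  · exact kosB_ann_in hj _
  · rw [kosB_ann_out hj, kosB_ann_in (Finset.mem_insert_self _ _), mul_zero]

/-- sums of antisymmetric families -/
private theorem kosB_sum {M : Type*} [AddCommGroup M] {n : ℕ} (a : Fin n → Fin n → M) (h0 : ∀ i, a i i = 0)
    (h1 : ∀ i j, a i j + a j i = 0) : ∑ i, ∑ j, a i j = 0 := by
  classical
  rw [← Finset.sum_product']
  refine Finset.sum_involution (fun p _ => (p.2, p.1)) (fun p _ => h1 p.1 p.2) (fun p _ hp h2 => hp ?_)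
    (fun _ _ => Finset.mem_product.2 ⟨Finset.mem_univ _, Finset.mem_univ _⟩) (fun _ _ => rfl)
  have h3 : p.2 = p.1 := congrArg Prod.fst h2
  show a p.1 p.2 = 0
  rw [h3]
  exact h0 _

theorem koszul_h1 {R : Type*} [CommRing R] {n : ℕ} (h : Fin n → R) (y : Fin n → R)
    (c : Fin n → Fin n → R) (hy : ∀ k, y k = ∑ j, c k j * h j)
    (hreg : ∀ (j : Fin n) (x : R),
      y j * x ∈ Ideal.span (y '' {k | k < j}) → x ∈ Ideal.span (y '' {k | k < j}))
    (Q : Fin n → R) (hQ : ∑ j, Q j * h j = 0) :
    ∃ A : Fin n → Fin n → R, (∀ i, A i i = 0) ∧ (∀ i j, A i j = - A j i) ∧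
      ∀ i, Q i = ∑ j, A i j * h j := by
  classical
  let d : (Finset (Fin n) → R) →ₗ[R] (Finset (Fin n) → R) := ∑ j, h j • kosB_ann j
  let s : Fin n → (Finset (Fin n) → R) →ₗ[R] (Finset (Fin n) → R) := fun k => ∑ j, c k j • kosB_cre j
  have hdz : ∀ z, d z = ∑ j, h j • kosB_ann j z := by
    intro z
    show (∑ j, h j • kosB_ann j : (Finset (Fin n) → R) →ₗ[R] (Finset (Fin n) → R)) z = _
    rw [LinearMap.sum_apply]
    rfl
  have hsz : ∀ k z, s k z = ∑ j, c k j • kosB_cre j z := by
    intro k z
    show (∑ j, c k j • kosB_cre j : (Finset (Fin n) → R) →ₗ[R] (Finset (Fin n) → R)) z = _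
    rw [LinearMap.sum_apply]
    rfl
  have hdS : ∀ z S, d z S = ∑ j, h j * kosB_ann j z S := by
    intro z S
    rw [hdz, Finset.sum_apply]
    rfl
  have hdd : ∀ z, d (d z) = 0 := by
    intro z
    have e1 : d (d z) = ∑ j, ∑ k, (h j * h k) • kosB_ann j (kosB_ann k z) := by
      rw [hdz (d z)]
      refine Finset.sum_congr rfl fun j _ => ?_
      rw [hdz z, map_sum, Finset.smul_sum]
      refine Finset.sum_congr rfl fun k _ => ?_
      rw [map_smul, smul_smul]
    rw [e1]
    refine kosB_sum _ (fun i => ?_) (fun i j => ?_)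
    · rw [kosB_ann_self, smul_zero]
    · rw [mul_comm (h j) (h i), ← smul_add, kosB_annann, smul_zero]
  have hds : ∀ k z, d (s k z) + s k (d z) = y k • z := by
    intro k z
    have e1 : d (s k z) = ∑ j, ∑ l, (h j * c k l) • kosB_ann j (kosB_cre l z) := by
      rw [hdz (s k z)]
      refine Finset.sum_congr rfl fun j _ => ?_
      rw [hsz k z, map_sum, Finset.smul_sum]
      refine Finset.sum_congr rfl fun l _ => ?_
      rw [map_smul, smul_smul]
    have e2 : s k (d z) = ∑ j, ∑ l, (h j * c k l) • kosB_cre l (kosB_ann j z) := by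
      rw [hsz k (d z), Finset.sum_comm]
      refine Finset.sum_congr rfl fun l _ => ?_
      rw [hdz z, map_sum, Finset.smul_sum]
      refine Finset.sum_congr rfl fun j _ => ?_
      rw [map_smul, smul_smul, mul_comm (h j)]
    rw [e1, e2, ← Finset.sum_add_distrib, hy k, Finset.sum_smul]
    refine Finset.sum_congr rfl fun j _ => ?_
    rw [← Finset.sum_add_distrib, Finset.sum_eq_single j]
    · rw [← smul_add, kosB_one, mul_comm]
    · intro l _ hl
      rw [← smul_add, kosB_anti (Ne.symm hl), smul_zero]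
    · intro hj
      exact absurd (Finset.mem_univ _) hj
  have hd : ∀ (i : ℕ) (z : Finset (Fin n) → R), (∀ p : Finset (Fin n), p.card ≠ i + 1 → z p = 0) →
      ∀ p : Finset (Fin n), p.card ≠ i → d z p = 0 := by
    intro i z hz p hp
    rw [hdS]
    refine Finset.sum_eq_zero fun j _ => ?_
    by_cases hj : j ∈ p
    · rw [kosB_ann_in hj, mul_zero]
    · rw [kosB_ann_out hj, hz (insert j p) (by
        rw [Finset.card_insert_of_notMem hj]
        omega), mul_zero, mul_zero]
  have hs : ∀ (k : Fin n) (i : ℕ) (z : Finset (Fin n) → R), (∀ p : Finset (Fin n), p.card ≠ i → z p = 0) →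
      ∀ p : Finset (Fin n), p.card ≠ i + 1 → s k z p = 0 := by
    intro k i z hz p hp
    rw [hsz, Finset.sum_apply]
    refine Finset.sum_eq_zero fun j _ => ?_
    rw [Pi.smul_apply]
    by_cases hj : j ∈ p
    · obtain ⟨T, hT, rfl⟩ : ∃ T, j ∉ T ∧ p = insert j T :=
        ⟨p.erase j, Finset.notMem_erase _ _, (Finset.insert_erase hj).symm⟩
      rw [Finset.card_insert_of_notMem hT] at hp
      rw [kosB_cre_in hT, hz T (by omega), mul_zero, smul_zero]
    · rw [kosB_cre_out hj, smul_zero]
  have hz1 : ∀ p : Finset (Fin n), p.card ≠ 1 → (∑ j, if p = {j} then Q j else 0) = 0 := by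
    intro p hp
    refine Finset.sum_eq_zero fun j _ => if_neg ?_
    rintro rfl
    exact hp (Finset.card_singleton _)
  have hzj : ∀ i : Fin n, (∑ j, if ({i} : Finset (Fin n)) = {j} then Q j else 0) = Q i := by
    intro i
    rw [Finset.sum_eq_single i]
    · rw [if_pos rfl]
    · intro j _ hj
      rw [if_neg]
      intro h2
      exact hj (Finset.singleton_injective h2).symm
    · intro hi
      exact absurd (Finset.mem_univ _) hi
  have hdz0 : d (fun S => ∑ j, if S = {j} then Q j else 0) = 0 := by
    funext S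
    rw [Pi.zero_apply]
    by_cases hS : S.card = 0
    · rw [Finset.card_eq_zero] at hS
      subst hS
      rw [hdS]
      refine Eq.trans (Finset.sum_congr rfl fun j _ => ?_) hQ
      rw [kosB_ann_out (Finset.notMem_empty j)]
      have e1 : (∑ l, if insert j (∅ : Finset (Fin n)) = {l} then Q l else 0) = Q j := hzj j
      have e2 : kosB_sg R j (∅ : Finset (Fin n)) = 1 := by
        unfold kosB_sg
        rw [Finset.filter_empty, Finset.card_empty, pow_zero]
      show h j * (kosB_sg R j ∅ * ∑ l, if insert j (∅ : Finset (Fin n)) = {l} then Q l else 0) = Q j * h j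
      rw [e1, e2]
      ring
    · exact hd 0 _ hz1 S hS
  obtain ⟨T, -, hT⟩ := kos_abstract (fun p : Finset (Fin n) => p.card)
    (fun p => by
      have h2 := Finset.card_le_univ p
      rwa [Fintype.card_fin] at h2) d s y hdd hds hd hs hreg
    (fun S => ∑ j, if S = {j} then Q j else 0) hz1 hdz0
  refine ⟨fun i j => kosB_ann j T {i}, fun i => kosB_ann_in (Finset.mem_singleton_self i) _, fun i j => ?_, fun i => ?_⟩
  · show kosB_ann j T {i} = - kosB_ann i T {j}
    by_cases hij : i = j
    · subst hij
      rw [kosB_ann_in (Finset.mem_singleton_self i), neg_zero]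
    · rw [kosB_ann_out (fun h2 => hij (Finset.mem_singleton.1 h2).symm),
        kosB_ann_out (fun h2 => hij (Finset.mem_singleton.1 h2)), Finset.pair_comm j i]
      have h1 := kosB_sg_comm (R := R) hij (Finset.notMem_empty i) (Finset.notMem_empty j)
      have e2 : ∀ l : Fin n, kosB_sg R l (∅ : Finset (Fin n)) = 1 := by
        intro l
        unfold kosB_sg
        rw [Finset.filter_empty, Finset.card_empty, pow_zero]
      rw [e2, e2, one_mul, one_mul] at h1
      have h2 : kosB_sg R j {i} = - kosB_sg R i {j} := h1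
      rw [h2]
      ring
  · have h1 := congrFun hT {i}
    rw [hdS] at h1
    rw [← hzj i]
    refine h1.trans (Finset.sum_congr rfl fun j _ => mul_comm _ _)

end MPadcHP
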