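import Pool.Agent.Lib.MP_adc574_ag_HP.KosE

/-!
# JOB KosF: regular forms are not exact

`ind_forms`: if `P = z(A) + C f` (`z(A) = zz A (∂ f)`) and all monomials of `P` have `wtp e < d`, then `P = 0`.
Proof: claim(N): if `P = z(A) + C f`, `A` of level `N` (`wtp e ≤ N + w i + w j`), `wtp e ≤ N` for `e ∈ C.support`, then `P = 0`. Induction on `N`; every
`A`, `C` has some level `N`. `N = 0`: `C = 0` (`wtp e ≥ ∑ w > 0`) and `A i j` is a constant (`wtp e ≤ w i + w j ≤ ∑ w ≤ wtp e`, so `wtp e = ∑ w`,
`e = 0`, for `i ≠ j`; `A i i = 0`), so `z(A) = 0`, `P = 0`.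
Step, `N > 0`: `P` has no monomials with `wtp e = N + d`. Let `a`, `b` be as in `lemS`, `c` the part of `C` with `wtp e = N`, `f_d = part w d f`, `h j = ∂_j f_d`;
Euler: `d f_d = ∑ w_j x_j h j`. Compare the monomials with `wtp e = N + d`: `∑ j, b j * h j + c * f_d = 0`, so `∑ j, (b j + d⁻¹ w_j x_j c) * h j = 0`,
where `Q j = b j + d⁻¹ w_j x_j c` has `wtp e = N + w j`. `koszul_hom`: `Q j = ∑ i, G i j * h i`, `Asym G`, `wtp e + d = N + w i + w j` on `G i j`. Divergence: `dvg Q = 0 + d⁻¹ N c`
(`∑ j, ∂_j (w_j x_j x^e) = wtp(e) x^e = N x^e`), and `dvg Q = - zz G h` (`dvg_asym` for `f_d`). So `c = zz G' h`, `G' = - (d / N) G`. If `N < d` then `G = 0`, `c = 0` and `G'' := 0`; otherwise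
`G'' := G'` has level `N - d`. `z(G'') f = z(f G'')` (`zz_mul`), so `P = z(A + f G'') + (C - z(G'')) f`, where `A + f G''` has level `N` (`wtp` of a monomial of `f G''` is `≤ wtp + d`), and
`C1 = C - z(G'')` has monomials with `wtp e ≤ N - 1` (those with `wtp e = N` cancel: the part of `z(G'')` with `wtp e = N = (N - d) + d` is `zz G' h = c`). Now the coefficients of `z(A + f G'') = P - C1 f` at `wtp e = N + d` vanish; by `lemS` it is `z(A')`
with `A'` of level `N - 1`. Apply claim(N-1).
-/

set_option autoImplicit false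

namespace MPadcHP

open MvPolynomial

variable {K : Type*} [Field K] [CharZero K] {n : ℕ}

private theorem kosf_wt_add (w : Fin n → ℕ) (e f : Fin n →₀ ℕ) :
    wt w (e + f) = wt w e + wt w f := by
  unfold wt
  rw [← Finset.sum_add_distrib]
  exact Finset.sum_congr rfl fun i _ => by rw [Finsupp.add_apply]; ring

private theorem kosf_wt_single (w : Fin n → ℕ) (i : Fin n) : wt w (Finsupp.single i 1) = w i := by
  unfold wt
  rw [Finset.sum_eq_single i]
  · rw [Finsupp.single_eq_same, mul_one]
  · intro j _ hj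
    rw [Finsupp.single_eq_of_ne hj, mul_zero]
  · intro h
    exact absurd (Finset.mem_univ i) h

private theorem kosf_wtp (w : Fin n → ℕ) (e : Fin n →₀ ℕ) : wtp w e = wt w e + ∑ i, w i := by
  unfold wtp wt
  rw [← Finset.sum_add_distrib]
  exact Finset.sum_congr rfl fun i _ => by ring

/-- the weights of the monomials of `P` are in `S` -/
private def KosfSp (w : Fin n → ℕ) (S : Set ℤ) (P : MvPolynomial (Fin n) K) : Prop :=
  ∀ e, coeff e P ≠ 0 → ((wt w e : ℕ) : ℤ) ∈ S

omit [CharZero K] in
private theorem kosf_mono {w : Fin n → ℕ} {S S' : Set ℤ} {P : MvPolynomial (Fin n) K}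
    (h : KosfSp w S P) (hS : ∀ m ∈ S, m ∈ S') : KosfSp w S' P := fun e he => hS _ (h e he)

omit [CharZero K] in
private theorem kosf_add {w : Fin n → ℕ} {S : Set ℤ} {P Q : MvPolynomial (Fin n) K}
    (hP : KosfSp w S P) (hQ : KosfSp w S Q) : KosfSp w S (P + Q) := by
  intro e he
  rw [coeff_add] at he
  by_cases h : coeff e P = 0
  · refine hQ e fun h' => he ?_
    rw [h, h', add_zero]
  · exact hP e h

omit [CharZero K] in
private theorem kosf_sub {w : Fin n → ℕ} {S : Set ℤ} {P Q : MvPolynomial (Fin n) K}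
    (hP : KosfSp w S P) (hQ : KosfSp w S Q) : KosfSp w S (P - Q) := by
  intro e he
  rw [coeff_sub] at he
  by_cases h : coeff e P = 0
  · refine hQ e fun h' => he ?_
    rw [h, h', sub_zero]
  · exact hP e h

omit [CharZero K] in
private theorem kosf_sum {w : Fin n → ℕ} {S : Set ℤ} {ι : Type*} {s : Finset ι}
    {P : ι → MvPolynomial (Fin n) K} (hP : ∀ i ∈ s, KosfSp w S (P i)) :
    KosfSp w S (∑ i ∈ s, P i) := by
  intro e he
  rw [coeff_sum] at he
  obtain ⟨i, hi, h⟩ := Finset.exists_ne_zero_of_sum_ne_zero he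
  exact hP i hi e h

omit [CharZero K] in
private theorem kosf_mul {w : Fin n → ℕ} {S S' S'' : Set ℤ} {P Q : MvPolynomial (Fin n) K}
    (hP : KosfSp w S P) (hQ : KosfSp w S' Q) (h : ∀ a ∈ S, ∀ b ∈ S', a + b ∈ S'') :
    KosfSp w S'' (P * Q) := by
  classical
  intro e he
  rw [coeff_mul] at he
  obtain ⟨x, hx, hne⟩ := Finset.exists_ne_zero_of_sum_ne_zero he
  have h1 := hP x.1 (left_ne_zero_of_mul hne)
  have h2 := hQ x.2 (right_ne_zero_of_mul hne)
  have h3 := h _ h1 _ h2
  rw [← Finset.HasAntidiagonal.mem_antidiagonal.1 hx, kosf_wt_add]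
  push_cast
  exact h3

omit [CharZero K] in
private theorem kosf_C_mul {w : Fin n → ℕ} {S : Set ℤ} {P : MvPolynomial (Fin n) K} (a : K)
    (hP : KosfSp w S P) : KosfSp w S (C a * P) := by
  intro e he
  rw [coeff_C_mul] at he
  exact hP e (right_ne_zero_of_mul he)

omit [CharZero K] in
private theorem kosf_X (w : Fin n → ℕ) (j : Fin n) :
    KosfSp w {(w j : ℤ)} (X j : MvPolynomial (Fin n) K) := by
  classical
  intro e he
  rw [coeff_X] at he
  by_cases h : Finsupp.single j 1 = e
  · rw [← h, kosf_wt_single]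
    rfl
  · rw [if_neg h] at he
    exact absurd rfl he

omit [CharZero K] in
private theorem kosf_pderiv {w : Fin n → ℕ} {S S' : Set ℤ} {P : MvPolynomial (Fin n) K} {i : Fin n}
    (hP : KosfSp w S P) (h : ∀ m, m + (w i : ℤ) ∈ S → m ∈ S') : KosfSp w S' (pderiv i P) := by
  intro e he
  rw [coeff_pderiv] at he
  have h1 := hP _ (left_ne_zero_of_mul he)
  rw [kosf_wt_add, kosf_wt_single] at h1
  push_cast at h1
  exact h _ h1

/-- the part of weight `m` -/
private noncomputable def kosfPa (w : Fin n → ℕ) (m : ℤ) (P : MvPolynomial (Fin n) K) :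
    MvPolynomial (Fin n) K :=
  ∑ e ∈ P.support.filter (fun e => ((wt w e : ℕ) : ℤ) = m), monomial e (coeff e P)

omit [CharZero K] in
private theorem kosf_coeff_pa (w : Fin n → ℕ) (m : ℤ) (P : MvPolynomial (Fin n) K)
    (e : Fin n →₀ ℕ) :
    coeff e (kosfPa w m P) = if ((wt w e : ℕ) : ℤ) = m then coeff e P else 0 := by
  classical
  unfold kosfPa
  rw [coeff_sum]
  simp only [coeff_monomial]
  rw [Finset.sum_ite_eq']
  by_cases h : ((wt w e : ℕ) : ℤ) = m
  · rw [if_pos h]
    by_cases h2 : coeff e P = 0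
    · rw [h2]
      exact ite_self _
    · rw [if_pos (Finset.mem_filter.2 ⟨mem_support_iff.2 h2, h⟩)]
  · have h4 : e ∉ P.support.filter (fun e => ((wt w e : ℕ) : ℤ) = m) := by
      intro h3
      exact h (Finset.mem_filter.1 h3).2
    rw [if_neg h, if_neg h4]

omit [CharZero K] in
private theorem kosf_pa_sp (w : Fin n → ℕ) (m : ℤ) (P : MvPolynomial (Fin n) K) :
    KosfSp w {m} (kosfPa w m P) := by
  intro e he
  rw [kosf_coeff_pa] at he
  by_contra h
  exact he (if_neg h)

omit [CharZero K] in
private theorem kosf_pa_of_sp {w : Fin n → ℕ} {m : ℤ} {P : MvPolynomial (Fin n) K}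
    (h : KosfSp w {m} P) : kosfPa w m P = P := by
  ext e
  rw [kosf_coeff_pa]
  by_cases h1 : ((wt w e : ℕ) : ℤ) = m
  · rw [if_pos h1]
  · rw [if_neg h1]
    by_contra h2
    exact h1 (h e (Ne.symm h2))

omit [CharZero K] in
private theorem kosf_pa_zero {w : Fin n → ℕ} {m : ℤ} {P : MvPolynomial (Fin n) K} {S : Set ℤ}
    (h : KosfSp w S P) (hm : m ∉ S) : kosfPa w m P = 0 := by
  ext e
  rw [kosf_coeff_pa, coeff_zero]
  by_cases h1 : ((wt w e : ℕ) : ℤ) = m
  · rw [if_pos h1]
    by_contra h2
    exact hm (h1 ▸ h e h2)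
  · rw [if_neg h1]

omit [CharZero K] in
private theorem kosf_pa_top {w : Fin n → ℕ} {m : ℤ} {P : MvPolynomial (Fin n) K}
    (h : KosfSp w (Set.Iic m) P) (h0 : kosfPa w m P = 0) : KosfSp w (Set.Iic (m - 1)) P := by
  intro e he
  have h1 := h e he
  rw [Set.mem_Iic] at h1 ⊢
  rcases lt_or_eq_of_le h1 with h2 | h2
  · omega
  · exfalso
    have h3 := kosf_coeff_pa w m P e
    rw [if_pos h2, h0, coeff_zero] at h3
    exact he h3.symm

omit [CharZero K] in
private theorem kosf_pa_add (w : Fin n → ℕ) (m : ℤ) (P Q : MvPolynomial (Fin n) K) :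
    kosfPa w m (P + Q) = kosfPa w m P + kosfPa w m Q := by
  ext e
  simp only [coeff_add, kosf_coeff_pa]
  by_cases h1 : ((wt w e : ℕ) : ℤ) = m
  · simp only [if_pos h1]
  · simp only [if_neg h1, add_zero]

omit [CharZero K] in
private theorem kosf_pa_sub (w : Fin n → ℕ) (m : ℤ) (P Q : MvPolynomial (Fin n) K) :
    kosfPa w m (P - Q) = kosfPa w m P - kosfPa w m Q := by
  ext e
  simp only [coeff_sub, kosf_coeff_pa]
  by_cases h1 : ((wt w e : ℕ) : ℤ) = m
  · simp only [if_pos h1]
  · simp only [if_neg h1, sub_zero]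

omit [CharZero K] in
private theorem kosf_pa_sum {ι : Type*} (w : Fin n → ℕ) (m : ℤ) (s : Finset ι)
    (P : ι → MvPolynomial (Fin n) K) :
    kosfPa w m (∑ i ∈ s, P i) = ∑ i ∈ s, kosfPa w m (P i) := by
  ext e
  simp only [coeff_sum, kosf_coeff_pa]
  by_cases h1 : ((wt w e : ℕ) : ℤ) = m
  · simp only [if_pos h1]
  · simp only [if_neg h1, Finset.sum_const_zero]

omit [CharZero K] in
private theorem kosf_pa_pderiv (w : Fin n → ℕ) (m : ℤ) (i : Fin n) (P : MvPolynomial (Fin n) K) :
    kosfPa w m (pderiv i P) = pderiv i (kosfPa w (m + (w i : ℤ)) P) := by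
  ext e
  rw [kosf_coeff_pa, coeff_pderiv, coeff_pderiv, kosf_coeff_pa, kosf_wt_add, kosf_wt_single]
  push_cast
  by_cases h1 : ((wt w e : ℕ) : ℤ) = m
  · rw [if_pos h1, if_pos (by rw [h1])]
  · rw [if_neg h1, if_neg (by omega), zero_mul]

omit [CharZero K] in
private theorem kosf_pa_mul {w : Fin n → ℕ} {a b : ℤ} {P Q : MvPolynomial (Fin n) K}
    (hP : KosfSp w (Set.Iic a) P) (hQ : KosfSp w (Set.Iic b) Q) :
    kosfPa w (a + b) (P * Q) = kosfPa w a P * kosfPa w b Q := by
  classical
  ext e
  rw [kosf_coeff_pa]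
  by_cases h1 : ((wt w e : ℕ) : ℤ) = a + b
  · rw [if_pos h1, coeff_mul, coeff_mul]
    refine Finset.sum_congr rfl fun x hx => ?_
    rw [kosf_coeff_pa, kosf_coeff_pa]
    have h2 : ((wt w x.1 : ℕ) : ℤ) + ((wt w x.2 : ℕ) : ℤ) = a + b := by
      rw [← h1, ← Finset.HasAntidiagonal.mem_antidiagonal.1 hx, kosf_wt_add]
      push_cast
      rfl
    by_cases h3 : coeff x.1 P = 0
    · rw [h3, ite_self, zero_mul, zero_mul]
    by_cases h4 : coeff x.2 Q = 0
    · rw [h4, ite_self, mul_zero, mul_zero]
    have h5 := hP _ h3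
    have h6 := hQ _ h4
    rw [Set.mem_Iic] at h5 h6
    rw [if_pos (by omega), if_pos (by omega)]
  · rw [if_neg h1]
    by_contra h2
    have h3 : KosfSp w {a + b} (kosfPa w a P * kosfPa w b Q) :=
      kosf_mul (kosf_pa_sp w a P) (kosf_pa_sp w b Q) fun x hx y hy => by
        rw [Set.mem_singleton_iff] at hx hy ⊢
        rw [hx, hy]
    exact h1 (h3 e (Ne.symm h2))

omit [CharZero K] in
private theorem kosf_pa_part (w : Fin n → ℕ) (d : ℕ) (f : MvPolynomial (Fin n) K) :
    kosfPa w (d : ℤ) f = part w d f := by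
  classical
  ext e
  unfold part
  rw [kosf_coeff_pa, coeff_weightedHomogeneousComponent]
  have h : Finsupp.weight w e = wt w e := by
    rw [Finsupp.weight_apply, Finsupp.sum_fintype]
    · unfold wt
      exact Finset.sum_congr rfl fun i _ => by rw [smul_eq_mul, mul_comm]
    · intro i
      rw [zero_smul]
  rw [h]
  by_cases h1 : wt w e = d
  · rw [if_pos h1, if_pos (by rw [h1])]
  · rw [if_neg h1, if_neg (by exact_mod_cast h1)]

omit [CharZero K] in
/-- Euler: the divergence of `w_j x_j c` -/
private theorem kosf_dvg_euler {w : Fin n → ℕ} {N : ℕ} {c : MvPolynomial (Fin n) K} (a : K)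
    (hc : ∀ e, coeff e c ≠ 0 → wtp w e = N) :
    dvg (fun j => C (a * (w j : K)) * (X j * c)) = C (a * (N : K)) * c := by
  unfold dvg
  ext e
  rw [coeff_sum, coeff_C_mul]
  have h1 : ∀ j, coeff e (pderiv j (C (a * (w j : K)) * (X j * c))) =
      a * ((w j : K) * (e j + 1)) * coeff e c := by
    intro j
    rw [coeff_pderiv, coeff_C_mul, add_comm e, coeff_X_mul]
    ring
  rw [Finset.sum_congr rfl fun j _ => h1 j, ← Finset.sum_mul, ← Finset.mul_sum]
  by_cases h2 : coeff e c = 0
  · rw [h2, mul_zero, mul_zero]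
  · have h3 := hc e h2
    have h4 : ((wtp w e : ℕ) : K) = ∑ j, (w j : K) * (e j + 1) := by
      unfold wtp
      push_cast
      rfl
    rw [← h4, h3]

/-- Euler -/
private theorem kosf_euler (w : Fin n → ℕ) (d : ℕ) (hd : 0 < d) (f : MvPolynomial (Fin n) K) :
    ∑ j, C ((d : K)⁻¹ * (w j : K)) * (X j * pderiv j (part w d f)) = part w d f := by
  have h1 : (part w d f).IsWeightedHomogeneous w d :=
    weightedHomogeneousComponent_isWeightedHomogeneous d f
  have h2 := h1.sum_weight_X_mul_pderiv
  have hd0 : (d : K) ≠ 0 := Nat.cast_ne_zero.2 hd.ne'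
  calc ∑ j, C ((d : K)⁻¹ * (w j : K)) * (X j * pderiv j (part w d f))
      = C ((d : K)⁻¹) * ∑ j, w j • (X j * pderiv j (part w d f)) := by
        rw [Finset.mul_sum]
        refine Finset.sum_congr rfl fun j _ => ?_
        rw [nsmul_eq_mul, C_mul, mul_assoc]
        congr 1
    _ = part w d f := by
        rw [h2, nsmul_eq_mul, ← mul_assoc]
        have h3 : ((d : ℕ) : MvPolynomial (Fin n) K) = C (d : K) := by
          rw [map_natCast]
        rw [h3, ← C_mul, inv_mul_cancel₀ hd0, C_1, one_mul]

omit [CharZero K] in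
/-- the top part of `zz A (∂ f)` -/
private theorem kosf_zz {w : Fin n → ℕ} {d : ℕ} {f : MvPolynomial (Fin n) K}
    (hf : KosfSp w (Set.Iic (d : ℤ)) f) {N : ℤ}
    {A : Fin n → Fin n → MvPolynomial (Fin n) K}
    (hlev : ∀ i j, KosfSp w (Set.Iic (N + w i + w j)) (A i j)) :
    KosfSp w (Set.Iic (N + d)) (zz A fun j => pderiv j f) ∧
      kosfPa w (N + d) (zz A fun j => pderiv j f) =
        zz (fun i j => kosfPa w (N + w i + w j) (A i j)) (fun j => pderiv j (part w d f)) := by
  have h1 : ∀ j, KosfSp w (Set.Iic (N + w j)) (∑ i, pderiv i (A i j)) := fun j =>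
    kosf_sum fun i _ => kosf_pderiv (hlev i j) fun m hm => by
      rw [Set.mem_Iic] at hm ⊢
      omega
  have h2 : ∀ j, KosfSp w (Set.Iic ((d : ℤ) - w j)) (pderiv j f) := fun j =>
    kosf_pderiv hf fun m hm => by
      rw [Set.mem_Iic] at hm ⊢
      omega
  constructor
  · unfold zz
    refine kosf_sum fun j _ => kosf_mul (h1 j) (h2 j) fun a ha b hb => ?_
    rw [Set.mem_Iic] at ha hb ⊢
    omega
  · unfold zz
    rw [kosf_pa_sum]
    refine Finset.sum_congr rfl fun j _ => ?_
    have h3 : N + (d : ℤ) = (N + w j) + ((d : ℤ) - w j) := by ring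
    rw [h3, kosf_pa_mul (h1 j) (h2 j), kosf_pa_sum, kosf_pa_pderiv]
    have h4 : (d : ℤ) - w j + w j = d := by ring
    rw [h4, kosf_pa_part]
    congr 1
    refine Finset.sum_congr rfl fun i _ => ?_
    rw [kosf_pa_pderiv]
    have h5 : N + (w j : ℤ) + w i = N + w i + w j := by ring
    rw [h5]

omit [CharZero K] in
private theorem kosf_zz_add (A B : Fin n → Fin n → MvPolynomial (Fin n) K)
    (h : Fin n → MvPolynomial (Fin n) K) :
    zz (fun i j => A i j + B i j) h = zz A h + zz B h := by
  unfold zz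
  rw [← Finset.sum_add_distrib]
  refine Finset.sum_congr rfl fun j _ => ?_
  rw [← add_mul, ← Finset.sum_add_distrib]
  congr 1
  exact Finset.sum_congr rfl fun i _ => map_add _ _ _

omit [CharZero K] in
private theorem kosf_zz_C (a : K) (A : Fin n → Fin n → MvPolynomial (Fin n) K)
    (h : Fin n → MvPolynomial (Fin n) K) :
    zz (fun i j => C a * A i j) h = C a * zz A h := by
  unfold zz
  rw [Finset.mul_sum]
  refine Finset.sum_congr rfl fun j _ => ?_
  rw [← mul_assoc, Finset.mul_sum]
  congr 1
  exact Finset.sum_congr rfl fun i _ => pderiv_C_mul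

private theorem kosf_claim (hn : 2 ≤ n) (w : Fin n → ℕ) (hw : ∀ i, 0 < w i) (d : ℕ) (hd : 0 < d)
    (f : MvPolynomial (Fin n) K) (hf : DegLe w d f) (M : ℕ)
    (hJ : ∀ i, (X i : MvPolynomial (Fin n) K) ^ M ∈ Jac (part w d f))
    (P : MvPolynomial (Fin n) K) (hdeg : ∀ e ∈ P.support, wtp w e < d) (N : ℕ) :
    ∀ (A : Fin n → Fin n → MvPolynomial (Fin n) K) (C' : MvPolynomial (Fin n) K), Asym A →
      (∀ i j, ∀ e ∈ (A i j).support, wtp w e ≤ N + w i + w j) →
      (∀ e ∈ C'.support, wtp w e ≤ N) →
      P = (zz A fun j => pderiv j f) + C' * f → P = 0 := by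
  classical
  have hW : ∀ i j : Fin n, i ≠ j → w i + w j ≤ ∑ k, w k := by
    intro i j hij
    calc w i + w j = ∑ k ∈ ({i, j} : Finset (Fin n)), w k := by
          rw [Finset.sum_pair hij]
      _ ≤ ∑ k, w k := Finset.sum_le_sum_of_subset (Finset.subset_univ _)
  have hWpos : 0 < ∑ k, w k := by
    have h1 := hW ⟨0, by omega⟩ ⟨1, by omega⟩ (by
      intro h
      have := congrArg Fin.val h
      simp at this)
    have h2 := hw ⟨0, by omega⟩
    omega
  induction N with
  | zero =>
    intro A C' hA hlev hC hP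
    have hC0 : C' = 0 := by
      ext e
      rw [coeff_zero]
      by_contra h
      have h1 := hC e (mem_support_iff.2 h)
      rw [kosf_wtp] at h1
      omega
    have hA0 : ∀ i j, pderiv i (A i j) = 0 := by
      intro i j
      by_cases hij : i = j
      · rw [hij, hA.1 j, map_zero]
      · ext e
        rw [coeff_zero, coeff_pderiv]
        by_contra h
        have h1 := hlev i j _ (mem_support_iff.2 (left_ne_zero_of_mul h))
        rw [kosf_wtp, kosf_wt_add, kosf_wt_single] at h1
        have h2 := hW i j hij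
        have h3 := hw i
        omega
    rw [hP, hC0, zero_mul, add_zero]
    unfold zz
    refine Finset.sum_eq_zero fun j _ => ?_
    rw [Finset.sum_eq_zero fun i _ => hA0 i j, zero_mul]
  | succ N ih =>
    intro A C' hA hlev hC hP
    -- integers
    set W : ℤ := ((∑ k, w k : ℕ) : ℤ) with hWdef
    set L : ℤ := ((N + 1 : ℕ) : ℤ) - W with hL
    have hwtp : ∀ e, ((wtp w e : ℕ) : ℤ) = ((wt w e : ℕ) : ℤ) + W := by
      intro e
      rw [kosf_wtp]
      push_cast
      rw [hWdef]
      push_cast
      rfl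
    have hf' : KosfSp w (Set.Iic (d : ℤ)) f := by
      intro e he
      rw [Set.mem_Iic]
      exact_mod_cast hf e (mem_support_iff.2 he)
    have hlev' : ∀ i j, KosfSp w (Set.Iic (L + w i + w j)) (A i j) := by
      intro i j e he
      rw [Set.mem_Iic]
      have h1 := hlev i j e (mem_support_iff.2 he)
      have h2 := hwtp e
      omega
    have hC1 : KosfSp w (Set.Iic L) C' := by
      intro e he
      rw [Set.mem_Iic]
      have h1 := hC e (mem_support_iff.2 he)
      have h2 := hwtp e
      omega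
    have hPs : KosfSp w (Set.Iic ((d : ℤ) - W - 1)) P := by
      intro e he
      rw [Set.mem_Iic]
      have h1 := hdeg e (mem_support_iff.2 he)
      have h2 := hwtp e
      omega
    obtain ⟨-, hz2⟩ := kosf_zz hf' hlev'
    set fd := part w d f with hfd
    set a : Fin n → Fin n → MvPolynomial (Fin n) K :=
      fun i j => kosfPa w (L + w i + w j) (A i j) with ha
    set c := kosfPa w L C' with hc
    -- the top part of the equation
    have htop : zz a (fun j => pderiv j fd) + c * fd = 0 := by
      have h1 : kosfPa w (L + d) P = 0 :=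
        kosf_pa_zero hPs (by rw [Set.mem_Iic, hL]; omega)
      rw [hP, kosf_pa_add, hz2, kosf_pa_mul hC1 hf', kosf_pa_part] at h1
      exact h1
    have haA : Asym a := by
      constructor
      · intro i
        rw [ha]
        dsimp only
        rw [hA.1 i]
        ext e
        rw [kosf_coeff_pa, coeff_zero, ite_self]
      · intro i j
        rw [ha]
        dsimp only
        rw [hA.2 i j]
        have h1 : L + (w j : ℤ) + w i = L + w i + w j := by ring
        rw [h1]
        ext e
        rw [coeff_neg, kosf_coeff_pa, kosf_coeff_pa, coeff_neg]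
        by_cases h2 : ((wt w e : ℕ) : ℤ) = L + w i + w j
        · rw [if_pos h2, if_pos h2]
        · rw [if_neg h2, if_neg h2, neg_zero]
    have hd0 : (d : K) ≠ 0 := Nat.cast_ne_zero.2 hd.ne'
    have hN0 : ((N + 1 : ℕ) : K) ≠ 0 := Nat.cast_ne_zero.2 (Nat.succ_ne_zero N)
    -- the syzygy
    let Q : Fin n → MvPolynomial (Fin n) K := fun j =>
      (∑ i, pderiv i (a i j)) + C ((d : K)⁻¹ * (w j : K)) * (X j * c)
    have hQ : ∑ j, Q j * pderiv j fd = 0 := by
      have h1 := kosf_euler w d hd f
      rw [← hfd] at h1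
      calc ∑ j, Q j * pderiv j fd
          = zz a (fun j => pderiv j fd) +
            ∑ j, c * (C ((d : K)⁻¹ * (w j : K)) * (X j * pderiv j fd)) := by
            unfold zz
            rw [← Finset.sum_add_distrib]
            refine Finset.sum_congr rfl fun j _ => ?_
            change ((∑ i, pderiv i (a i j)) + C ((d : K)⁻¹ * (w j : K)) * (X j * c)) * _ = _
            ring
        _ = 0 := by
            rw [← Finset.mul_sum, h1]
            exact htop
    have hcs : KosfSp w {L} c := kosf_pa_sp w L C'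
    have hQs : ∀ j, KosfSp w {L + w j} (Q j) := by
      intro j
      refine kosf_add (kosf_sum fun i _ => ?_) (kosf_C_mul _ ?_)
      · refine kosf_pderiv (kosf_pa_sp w _ (A i j)) fun m hm => ?_
        rw [Set.mem_singleton_iff] at hm ⊢
        omega
      · refine kosf_mul (kosf_X w j) hcs fun x hx y hy => ?_
        rw [Set.mem_singleton_iff] at hx hy ⊢
        rw [hx, hy, add_comm]
    have hQN : ∀ j, ∀ e ∈ (Q j).support, wtp w e = (N + 1) + w j := by
      intro j e he
      have h1 := hQs j e (mem_support_iff.1 he)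
      rw [Set.mem_singleton_iff] at h1
      have h2 := hwtp e
      omega
    have hh : ∀ j, ∀ e ∈ (pderiv j fd).support, wt w e + w j = d := by
      intro j e he
      have h1 : KosfSp w {(d : ℤ) - w j} (pderiv j fd) := by
        rw [hfd, ← kosf_pa_part]
        refine kosf_pderiv (kosf_pa_sp w _ f) fun m hm => ?_
        rw [Set.mem_singleton_iff] at hm ⊢
        omega
      have h2 := h1 e (mem_support_iff.1 he)
      rw [Set.mem_singleton_iff] at h2
      omega
    obtain ⟨G, hG, hGs, hQG⟩ := koszul_hom w d (fun j => pderiv j fd) M (fun i => hJ i) hh (N + 1) Q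
      hQN hQ
    -- divergence
    let Gt : Fin n → Fin n → MvPolynomial (Fin n) K := fun i j => G j i
    have hGt : Asym Gt := ⟨fun i => hG.1 i, fun i j => hG.2 j i⟩
    have hdv1 : dvg Q = - zz Gt (fun j => pderiv j fd) := by
      have h1 : Q = fun j => ∑ i, Gt i j * pderiv i fd := funext hQG
      rw [h1]
      exact dvg_asym fd Gt hGt
    have hdv2 : dvg Q = C ((d : K)⁻¹ * ((N + 1 : ℕ) : K)) * c := by
      have h1 : dvg Q = dvg (fun j => ∑ i, pderiv i (a i j)) +
          dvg (fun j => C ((d : K)⁻¹ * (w j : K)) * (X j * c)) := by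
        unfold dvg
        rw [← Finset.sum_add_distrib]
        exact Finset.sum_congr rfl fun j _ => map_add _ _ _
      rw [h1, dvg_dvg a haA, zero_add]
      refine kosf_dvg_euler _ fun e he => ?_
      have h2 := hcs e he
      rw [Set.mem_singleton_iff] at h2
      have h3 := hwtp e
      omega
    let G2 : Fin n → Fin n → MvPolynomial (Fin n) K := fun i j =>
      C (-((d : K) * ((N + 1 : ℕ) : K)⁻¹)) * Gt i j
    have hG2 : Asym G2 := by
      constructor
      · intro i
        change C _ * Gt i i = 0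
        rw [hGt.1 i, mul_zero]
      · intro i j
        change C _ * Gt i j = - (C _ * Gt j i)
        rw [hGt.2 i j, mul_neg]
    have hcG : zz G2 (fun j => pderiv j fd) = c := by
      have h1 : zz Gt (fun j => pderiv j fd) = - (C ((d : K)⁻¹ * ((N + 1 : ℕ) : K)) * c) := by
        rw [← hdv2, hdv1, neg_neg]
      have h2 : zz G2 (fun j => pderiv j fd) =
          C (-((d : K) * ((N + 1 : ℕ) : K)⁻¹)) * zz Gt (fun j => pderiv j fd) :=
        kosf_zz_C _ Gt _
      rw [h2, h1, mul_neg, ← mul_assoc, ← C_mul]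
      have h3 : -((d : K) * ((N + 1 : ℕ) : K)⁻¹) * ((d : K)⁻¹ * ((N + 1 : ℕ) : K)) = -1 := by
        field_simp
      rw [h3, C_neg, C_1]
      ring
    have hG2s : ∀ i j, KosfSp w {L - d + w i + w j} (G2 i j) := by
      intro i j
      refine kosf_C_mul _ fun e he => ?_
      have h1 := hGs j i e (mem_support_iff.2 he)
      have h2 := hwtp e
      rw [Set.mem_singleton_iff]
      omega
    have hG2s' : ∀ i j, KosfSp w (Set.Iic (L - d + w i + w j)) (G2 i j) := fun i j =>
      kosf_mono (hG2s i j) fun m hm => le_of_eq hm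
    obtain ⟨hy1, hy2⟩ := kosf_zz hf' hG2s'
    have hLd : L - d + (d : ℤ) = L := by ring
    rw [hLd] at hy1 hy2
    have hy3 : kosfPa w L (zz G2 fun j => pderiv j f) = c := by
      rw [hy2, ← hcG]
      have h1 : (fun i j => kosfPa w (L - d + w i + w j) (G2 i j)) = G2 :=
        funext fun i => funext fun j => kosf_pa_of_sp (hG2s i j)
      rw [h1]
    let C1 : MvPolynomial (Fin n) K := C' - zz G2 fun j => pderiv j f
    have hC1s : KosfSp w (Set.Iic (L - 1)) C1 := by
      refine kosf_pa_top (kosf_sub hC1 hy1) ?_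
      rw [kosf_pa_sub, hy3, ← hc, sub_self]
    let A1 : Fin n → Fin n → MvPolynomial (Fin n) K := fun i j => A i j + f * G2 i j
    have hA1 : Asym A1 := by
      constructor
      · intro i
        change A i i + f * G2 i i = 0
        rw [hA.1 i, hG2.1 i, mul_zero, add_zero]
      · intro i j
        change A i j + f * G2 i j = - (A j i + f * G2 j i)
        rw [hA.2 i j, hG2.2 i j]
        ring
    have hA1s : ∀ i j, KosfSp w (Set.Iic (L + w i + w j)) (A1 i j) := by
      intro i j
      refine kosf_add (hlev' i j) (kosf_mul hf' (hG2s i j) fun x hx y hy => ?_)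
      rw [Set.mem_Iic] at hx ⊢
      rw [Set.mem_singleton_iff] at hy
      omega
    have hzA1 : zz A1 (fun j => pderiv j f) =
        zz A (fun j => pderiv j f) + f * zz G2 (fun j => pderiv j f) := by
      have h1 : zz A1 (fun j => pderiv j f) =
          zz A (fun j => pderiv j f) + zz (fun i j => f * G2 i j) (fun j => pderiv j f) :=
        kosf_zz_add A (fun i j => f * G2 i j) _
      rw [h1, zz_mul f G2 hG2]
    have hP1 : P = zz A1 (fun j => pderiv j f) + C1 * f := by
      rw [hzA1, hP]
      change _ = _ + (C' - zz G2 fun j => pderiv j f) * f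
      ring
    obtain ⟨A', hA', hA's, hzA'⟩ := lemS hn w hw d hd f hf M hJ (N + 1) A1 hA1
      (by
        intro i j e he
        have h1 := hA1s i j e (mem_support_iff.1 he)
        rw [Set.mem_Iic] at h1
        have h2 := hwtp e
        omega)
      (by
        intro e he
        have h0 : zz A1 (fun j => pderiv j f) = P - C1 * f := by
          rw [hP1]
          ring
        rw [h0, coeff_sub]
        have h1 : coeff e P = 0 := by
          by_contra h
          have h2 := hdeg e (mem_support_iff.2 h)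
          omega
        have h2 : coeff e (C1 * f) = 0 := by
          by_contra h
          have h3 : KosfSp w (Set.Iic (L - 1 + d)) (C1 * f) :=
            kosf_mul hC1s hf' fun x hx y hy => by
              rw [Set.mem_Iic] at hx hy ⊢
              omega
          have h4 := h3 e h
          rw [Set.mem_Iic] at h4
          have h5 := hwtp e
          omega
        rw [h1, h2, sub_zero])
    refine ih A' C1 hA' ?_ ?_ ?_
    · intro i j e he
      have h1 := hA's i j e he
      omega
    · intro e he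
      have h1 := hC1s e (mem_support_iff.1 he)
      rw [Set.mem_Iic] at h1
      have h2 := hwtp e
      omega
    · rw [hzA']
      exact hP1

theorem ind_forms (hn : 2 ≤ n) (w : Fin n → ℕ) (hw : ∀ i, 0 < w i) (d : ℕ) (hd : 0 < d)
    (f : MvPolynomial (Fin n) K) (hf : DegLe w d f) (M : ℕ)
    (hJ : ∀ i, (X i : MvPolynomial (Fin n) K) ^ M ∈ Jac (part w d f))
    (A : Fin n → Fin n → MvPolynomial (Fin n) K) (hA : Asym A) (C' P : MvPolynomial (Fin n) K)
    (hP : P = (zz A fun j => pderiv j f) + C' * f)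
    (hdeg : ∀ e ∈ P.support, wtp w e < d) : P = 0 := by
  classical
  let N : ℕ := (Finset.univ.sup fun i => Finset.univ.sup fun j => (A i j).support.sup (wtp w)) +
    C'.support.sup (wtp w)
  refine kosf_claim hn w hw d hd f hf M hJ P hdeg N A C' hA ?_ ?_ hP
  · intro i j e he
    have h1 : wtp w e ≤ (A i j).support.sup (wtp w) := Finset.le_sup (f := wtp w) he
    have h2 : (A i j).support.sup (wtp w) ≤
        Finset.univ.sup fun j => (A i j).support.sup (wtp w) :=
      Finset.le_sup (f := fun j => (A i j).support.sup (wtp w)) (Finset.mem_univ j)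
    have h3 : (Finset.univ.sup fun j => (A i j).support.sup (wtp w)) ≤
        Finset.univ.sup fun i => Finset.univ.sup fun j => (A i j).support.sup (wtp w) :=
      Finset.le_sup (f := fun i => Finset.univ.sup fun j => (A i j).support.sup (wtp w))
        (Finset.mem_univ i)
    change wtp w e ≤ _ + _ + _ + _
    omega
  · intro e he
    have h1 : wtp w e ≤ C'.support.sup (wtp w) := Finset.le_sup (f := wtp w) he
    change wtp w e ≤ _ + _
    omega

end MPadcHP
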