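import Pool.Agent.Lib.MP_adc574_ag_HP.FDefs
import Pool.Agent.Lib.MP_adc574_ag_GM.CartC

/-!
# Affine parts of weighted homogeneous polynomials
-/

set_option autoImplicit false

namespace MPadcHP

open MvPolynomial MPadcGM

section

variable {R : Type*} [CommRing R] {n : ℕ}

theorem weight_cons (w : Fin n → ℕ) (e : Fin (n + 1) →₀ ℕ) :
    Finsupp.weight (Fin.cons 1 w : Fin (n + 1) → ℕ) e = e 0 + wt w e.tail := by
  rw [Finsupp.weight_apply, Finsupp.sum_fintype]
  swap
  · intro i
    exact zero_smul _ _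
  rw [Fin.sum_univ_succ, Fin.cons_zero, smul_eq_mul, mul_one, wt]
  congr 1
  refine Finset.sum_congr rfl fun i _ => ?_
  rw [Fin.cons_succ, smul_eq_mul, mul_comm, Finsupp.tail_apply]

theorem weight_eq_wt (w : Fin n → ℕ) (e : Fin n →₀ ℕ) : Finsupp.weight w e = wt w e := by
  rw [Finsupp.weight_apply, Finsupp.sum_fintype]
  swap
  · intro i
    exact zero_smul _ _
  rw [wt]
  refine Finset.sum_congr rfl fun i _ => ?_
  rw [smul_eq_mul, mul_comm]

theorem sum_cons_eq (w : Fin n → ℕ) (e : Fin (n + 1) →₀ ℕ) :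
    ∑ i, (Fin.cons 1 w : Fin (n + 1) → ℕ) i * (e i + 1) = (e 0 + 1) + wtp w e.tail := by
  rw [Fin.sum_univ_succ, Fin.cons_zero, one_mul, wtp]
  congr 1

theorem tail_eq_of_weight {w : Fin n → ℕ} {a b : Fin (n + 1) →₀ ℕ} (ht : a.tail = b.tail)
    (hw : Finsupp.weight (Fin.cons 1 w : Fin (n + 1) → ℕ) a =
      Finsupp.weight (Fin.cons 1 w : Fin (n + 1) → ℕ) b) : a = b := by
  rw [weight_cons, weight_cons, ht] at hw
  have h0 : a 0 = b 0 := by omega
  rw [← Finsupp.cons_tail a, ← Finsupp.cons_tail b, ht, h0]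

theorem aff_monomial (e : Fin (n + 1) →₀ ℕ) (a : R) :
    aff (monomial e a) = monomial e.tail a := by
  rw [aff, aeval_monomial, Finsupp.prod_fintype _ _ (fun i => pow_zero _), Fin.prod_univ_succ,
    Fin.cons_zero, one_pow, one_mul, monomial_eq, Finsupp.prod_fintype _ _ (fun i => pow_zero _)]
  rfl

theorem bdr_monomial (e : Fin (n + 1) →₀ ℕ) (a : R) :
    bdr (monomial e a) = if e 0 = 0 then monomial e.tail a else 0 := by
  rw [bdr, aeval_monomial, Finsupp.prod_fintype _ _ (fun i => pow_zero _), Fin.prod_univ_succ,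
    Fin.cons_zero]
  split_ifs with h
  · rw [h, pow_zero, one_mul, monomial_eq, Finsupp.prod_fintype _ _ (fun i => pow_zero _)]
    rfl
  · rw [zero_pow h, zero_mul, mul_zero]

theorem aff_mul (P Q : MvPolynomial (Fin (n + 1)) R) : aff (P * Q) = aff P * aff Q := by
  rw [aff, aff, aff, map_mul]

theorem aff_pow (P : MvPolynomial (Fin (n + 1)) R) (j : ℕ) : aff (P ^ j) = aff P ^ j := by
  rw [aff, aff, map_pow]

theorem aff_add (P Q : MvPolynomial (Fin (n + 1)) R) : aff (P + Q) = aff P + aff Q := by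
  rw [aff, aff, aff, map_add]

theorem aff_sub (P Q : MvPolynomial (Fin (n + 1)) R) : aff (P - Q) = aff P - aff Q := by
  rw [aff, aff, aff, map_sub]

theorem bdr_add (P Q : MvPolynomial (Fin (n + 1)) R) : bdr (P + Q) = bdr P + bdr Q := by
  rw [bdr, bdr, bdr, map_add]

theorem aff_C (a : R) : aff (C a : MvPolynomial (Fin (n + 1)) R) = C a := by
  rw [aff, aeval_C]
  rfl

theorem aff_X_zero : aff (X 0 : MvPolynomial (Fin (n + 1)) R) = 1 := by
  rw [aff, aeval_X, Fin.cons_zero]

theorem aff_sum {ι : Type*} (s : Finset ι) (P : ι → MvPolynomial (Fin (n + 1)) R) :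
    aff (∑ i ∈ s, P i) = ∑ i ∈ s, aff (P i) := by
  rw [aff, map_sum]
  rfl

theorem aff_map {S : Type*} [CommRing S] (ψ : R →+* S) (P : MvPolynomial (Fin (n + 1)) R) :
    aff (P.map ψ) = (aff P).map ψ := by
  induction P using MvPolynomial.induction_on' with
  | monomial e a => rw [map_monomial, aff_monomial, aff_monomial, map_monomial]
  | add P Q hP hQ => rw [map_add, aff_add, aff_add, map_add, hP, hQ]

theorem bdr_map {S : Type*} [CommRing S] (ψ : R →+* S) (P : MvPolynomial (Fin (n + 1)) R) :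
    bdr (P.map ψ) = (bdr P).map ψ := by
  induction P using MvPolynomial.induction_on' with
  | monomial e a =>
    rw [map_monomial, bdr_monomial, bdr_monomial]
    split_ifs with h
    · rw [map_monomial]
    · rw [map_zero]
  | add P Q hP hQ => rw [map_add, bdr_add, bdr_add, map_add, hP, hQ]

theorem coeff_aff (w : Fin n → ℕ) (N : ℕ) (G : MvPolynomial (Fin (n + 1)) R)
    (hG : G.IsWeightedHomogeneous (Fin.cons 1 w : Fin (n + 1) → ℕ) N) (a : Fin (n + 1) →₀ ℕ)
    (ha : Finsupp.weight (Fin.cons 1 w : Fin (n + 1) → ℕ) a = N) :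
    coeff a.tail (aff G) = coeff a G := by
  classical
  have h1 : aff G = ∑ e ∈ G.support, monomial e.tail (coeff e G) := by
    conv_lhs => rw [G.as_sum]
    rw [aff_sum]
    exact Finset.sum_congr rfl fun e _ => aff_monomial e _
  rw [h1, coeff_sum]
  have h2 : ∀ e ∈ G.support, coeff a.tail (monomial e.tail (coeff e G)) =
      if e = a then coeff e G else 0 := by
    intro e he
    rw [coeff_monomial]
    by_cases hea : e = a
    · rw [hea, if_pos rfl, if_pos rfl]
    · rw [if_neg, if_neg hea]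
      intro ht
      exact hea (tail_eq_of_weight ht ((hG (mem_support_iff.1 he)).trans ha.symm))
  rw [Finset.sum_congr rfl h2, Finset.sum_ite_eq']
  split_ifs with h
  · rfl
  · exact (notMem_support_iff.1 h).symm

theorem coeff_bdr (G : MvPolynomial (Fin (n + 1)) R) (b : Fin n →₀ ℕ) :
    coeff b (bdr G) = coeff (Finsupp.cons 0 b) G := by
  classical
  induction G using MvPolynomial.induction_on' with
  | monomial e a =>
    rw [bdr_monomial]
    by_cases h : e 0 = 0
    · rw [if_pos h, coeff_monomial, coeff_monomial]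
      by_cases h2 : e.tail = b
      · rw [if_pos h2, if_pos]
        rw [← h2, ← h, Finsupp.cons_tail]
      · rw [if_neg h2, if_neg]
        intro h3
        apply h2
        rw [h3, Finsupp.tail_cons]
    · rw [if_neg h, coeff_zero, coeff_monomial, if_neg]
      intro h3
      apply h
      rw [h3, Finsupp.cons_zero]
  | add P Q hP hQ => rw [bdr_add, coeff_add, coeff_add, hP, hQ]

theorem degLe_aff (w : Fin n → ℕ) (d : ℕ) (Φ : MvPolynomial (Fin (n + 1)) R)
    (hΦ : Φ.IsWeightedHomogeneous (Fin.cons 1 w : Fin (n + 1) → ℕ) d) : DegLe w d (aff Φ) := by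
  classical
  intro b hb
  have h1 : aff Φ = ∑ e ∈ Φ.support, monomial e.tail (coeff e Φ) := by
    conv_lhs => rw [Φ.as_sum]
    rw [aff_sum]
    exact Finset.sum_congr rfl fun e _ => aff_monomial e _
  rw [h1, mem_support_iff, coeff_sum] at hb
  obtain ⟨e, he, hne⟩ := Finset.exists_ne_zero_of_sum_ne_zero hb
  rw [coeff_monomial] at hne
  have h2 : e.tail = b := by
    by_contra h3
    rw [if_neg h3] at hne
    exact hne rfl
  have h3 := hΦ (mem_support_iff.1 he)
  rw [weight_cons, h2] at h3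
  omega

theorem part_aff (w : Fin n → ℕ) (d : ℕ) (Φ : MvPolynomial (Fin (n + 1)) R)
    (hΦ : Φ.IsWeightedHomogeneous (Fin.cons 1 w : Fin (n + 1) → ℕ) d) :
    part w d (aff Φ) = bdr Φ := by
  classical
  ext b
  rw [coeff_bdr, part, coeff_weightedHomogeneousComponent]
  have h0 : Finsupp.weight (Fin.cons 1 w : Fin (n + 1) → ℕ) (Finsupp.cons 0 b) =
      Finsupp.weight w b := by
    rw [weight_cons, Finsupp.cons_zero, zero_add, Finsupp.tail_cons, weight_eq_wt]
  split_ifs with h
  · have h1 := coeff_aff w d Φ hΦ (Finsupp.cons 0 b) (h0.trans h)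
    rw [Finsupp.tail_cons] at h1
    exact h1
  · symm
    by_contra hne
    exact h (h0.symm.trans (hΦ hne))

end

theorem cart_aff {κ : Type*} [Field κ] {n : ℕ} (p : ℕ) (hp : 0 < p) (w : Fin n → ℕ) (d : ℕ)
    (F : MvPolynomial (Fin (n + 1)) κ)
    (hF : F.IsWeightedHomogeneous (Fin.cons 1 w : Fin (n + 1) → ℕ) d) (v : Fin (n + 1) →₀ ℕ)
    (hv : ∑ i, (Fin.cons 1 w : Fin (n + 1) → ℕ) i * (v i + 1) = d) (k : ℕ) (hk : k ≤ p - 1)
    (e : Fin (n + 1) →₀ ℕ)
    (he : ∑ i, (Fin.cons 1 w : Fin (n + 1) → ℕ) i * (e i + 1) = (k + 1) * d) :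
    cart p F v k (monomial e 1) = cart p (aff F) v.tail k (monomial e.tail 1) := by
  rw [cart_apply, cart_apply]
  have h1 : (monomial e (1 : κ)).IsWeightedHomogeneous (Fin.cons 1 w : Fin (n + 1) → ℕ)
      (Finsupp.weight (Fin.cons 1 w : Fin (n + 1) → ℕ) e) :=
    isWeightedHomogeneous_monomial _ e 1 rfl
  have h2 := h1.mul (hF.pow (p - 1 - k))
  have h3 := coeff_aff w _ _ h2 (p • v + pm1 (n + 1) p) ?_
  · rw [← h3, aff_mul, aff_monomial, aff_pow]
    have h10 : (p • v + pm1 (n + 1) p).tail = p • v.tail + pm1 n p := by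
      ext i
      simp only [Finsupp.tail_apply, Finsupp.coe_add, Pi.add_apply, Finsupp.coe_smul, Pi.smul_apply,
        pm1, Finsupp.equivFunOnFinite_symm_apply_apply]
    rw [h10]
  · have hs : ∀ u : Fin (n + 1) →₀ ℕ, ∑ i, (Fin.cons 1 w : Fin (n + 1) → ℕ) i * (u i + 1) =
        Finsupp.weight (Fin.cons 1 w : Fin (n + 1) → ℕ) u + (1 + ∑ i, w i) := by
      intro u
      rw [sum_cons_eq, weight_cons, wtp, wt]
      have : ∑ i, w i * (u.tail i + 1) = ∑ i, w i * u.tail i + ∑ i, w i := by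
        rw [← Finset.sum_add_distrib]
        exact Finset.sum_congr rfl fun i _ => by ring
      rw [this]
      ring
    rw [hs] at hv he
    have h4 : Finsupp.weight (Fin.cons 1 w : Fin (n + 1) → ℕ) (pm1 (n + 1) p) =
        (p - 1) * (1 + ∑ i, w i) := by
      rw [weight_cons, wt, mul_add, mul_one, Finset.mul_sum]
      congr 1
      refine Finset.sum_congr rfl fun i _ => ?_
      rw [mul_comm]
      rfl
    rw [map_add, map_nsmul, h4, smul_eq_mul, smul_eq_mul]
    obtain ⟨j, rfl⟩ : ∃ j, p = k + 1 + j := ⟨p - 1 - k, by omega⟩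
    have h5 : k + 1 + j - 1 = k + j := by omega
    have h6 : k + 1 + j - 1 - k = j := by omega
    rw [h6, h5]
    have h7 : (k + 1 + j) * Finsupp.weight (Fin.cons 1 w : Fin (n + 1) → ℕ) v +
        (k + 1 + j) * (1 + ∑ i, w i) = (k + 1 + j) * d := by
      rw [← mul_add, hv]
    have h8 : (k + 1 + j) * d = (k + 1) * d + j * d := by ring
    have h9 : (k + 1 + j) * (1 + ∑ i, w i) = (k + j) * (1 + ∑ i, w i) + (1 + ∑ i, w i) := by ring
    omega

end MPadcHP
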