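import Mathlib

/-!
# JOB RegB: linear disjointness from the algebraic closure

`K ⊂ L ⊂ Ω` fields, `K` algebraically closed in `L`.

`minpoly_algClosed`: `g = minpoly L α` divides `(minpoly K α).map` and is monic, so its coefficients are integral over `K`
(`integralClosure.mem_lifts_of_monic_of_dvd_map`: a monic divisor of the image of a monic polynomial has coefficients in the integral
closure), they lie in `L`, hence in `K` by `hcl`. So `g` is the image of a monic polynomial over `K` which kills `α`; `minpoly K α` divides it.

`linIndep_algClosed` (characteristic 0): the finitely many `a i` (`i ∈ a.support`) lie in a finite extension of `K` in `Ω`, which is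
`K(α)` by the primitive element theorem (`Field.exists_primitive_element`), `m = deg (minpoly K α)`: `a i = ∑_{j<m} b_ij α ^ j`, `b_ij ∈ K`
(power basis). Then `0 = ∑_j α ^ j (∑_i b_ij v_i)` with coefficients in `L`, and `1, α, …, α^(m-1)` are linearly independent over
`L` because `deg (minpoly L α) = m` by `minpoly_algClosed`. So `∑_i b_ij v_i = 0` in `L` for all `j`, and `b_ij = 0` as the `v_i` are
linearly independent over `K`.
-/

set_option autoImplicit false

namespace MPadcHP

theorem minpoly_algClosed {K L Ω : Type*} [Field K] [Field L] [Field Ω] [Algebra K L]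
    [Algebra L Ω] [Algebra K Ω] [IsScalarTower K L Ω]
    (hcl : ∀ x : L, IsAlgebraic K x → x ∈ (algebraMap K L).range) (α : Ω) (hα : IsIntegral K α) :
    minpoly L α = (minpoly K α).map (algebraMap K L) := by
  classical
  have hα' : IsIntegral L α := hα.tower_top
  have hd : minpoly L α ∣ (minpoly K α).map (algebraMap K L) := minpoly.dvd_map_of_isScalarTower K L α
  have hm1 : (minpoly L α).Monic := minpoly.monic hα'
  have hm2 : (minpoly K α).Monic := minpoly.monic hα
  have h1 := integralClosure.mem_lifts_of_monic_of_dvd_map L hm2 hm1 hd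
  have h2 : minpoly L α ∈ Polynomial.lifts (algebraMap K L) := by
    rw [Polynomial.lifts_iff_coeff_lifts] at h1 ⊢
    intro j
    obtain ⟨y, hy⟩ := h1 j
    have h3 : IsIntegral K ((minpoly L α).coeff j) := by
      rw [← hy]
      exact y.2
    exact hcl _ h3.isAlgebraic
  obtain ⟨q, hq1, -, hq3⟩ := Polynomial.lifts_and_natDegree_eq_and_monic h2 hm1
  have h4 : Polynomial.aeval α q = 0 := by
    rw [← Polynomial.aeval_map_algebraMap L α q, hq1]
    exact minpoly.aeval L α
  have h5 : (minpoly K α).map (algebraMap K L) ∣ minpoly L α := by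
    rw [← hq1]
    exact Polynomial.map_dvd _ (minpoly.dvd K α h4)
  exact Polynomial.eq_of_monic_of_associated hm1 (hm2.map _) (associated_of_dvd_dvd hd h5)

theorem linIndep_algClosed {K L Ω : Type*} [Field K] [CharZero K] [Field L] [Field Ω]
    [Algebra K L] [Algebra L Ω] [Algebra K Ω] [IsScalarTower K L Ω]
    (hcl : ∀ x : L, IsAlgebraic K x → x ∈ (algebraMap K L).range) {ι : Type*} (v : ι → L)
    (hv : LinearIndependent K v) (a : ι →₀ Ω) (ha : ∀ i, IsIntegral K (a i))
    (h : (a.sum fun i x => x * algebraMap L Ω (v i)) = 0) : a = 0 := by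
  classical
  let S : Set Ω := (fun i => a i) '' (a.support : Set ι)
  have hSf : S.Finite := a.support.finite_toSet.image _
  have : Finite S := hSf.to_subtype
  have hSi : ∀ x ∈ S, IsIntegral K x := by
    rintro x ⟨i, -, rfl⟩
    exact ha i
  have hfd : FiniteDimensional K (IntermediateField.adjoin K S) :=
    IntermediateField.finiteDimensional_adjoin hSi
  let pb : PowerBasis K (IntermediateField.adjoin K S) :=
    Field.powerBasisOfFiniteOfSeparable K (IntermediateField.adjoin K S)
  let α : Ω := (pb.gen : Ω)
  have hα : IsIntegral K α := by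
    have h1 : IsIntegral K pb.gen := IsIntegral.of_finite K pb.gen
    exact h1.map (IntermediateField.adjoin K S).val
  have hdim : (minpoly K α).natDegree = pb.dim := by
    rw [← pb.natDegree_minpoly]
    have h1 : minpoly K (algebraMap (IntermediateField.adjoin K S) Ω pb.gen) = minpoly K pb.gen :=
      minpoly.algebraMap_eq (algebraMap (IntermediateField.adjoin K S) Ω).injective pb.gen
    rw [← h1]
    rfl
  have hp : ∀ i ∈ a.support, ∃ p : Polynomial K, p.natDegree < pb.dim ∧ Polynomial.aeval α p = a i := by
    intro i hi
    obtain ⟨p, hp1, hp2⟩ := pb.exists_eq_aeval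
      ⟨a i, IntermediateField.subset_adjoin K S ⟨i, hi, rfl⟩⟩
    refine ⟨p, hp1, ?_⟩
    have h1 := congrArg (IntermediateField.adjoin K S).val hp2
    rw [← Polynomial.aeval_algHom_apply] at h1
    exact h1.symm
  choose! p hp1 hp2 using hp
  let Q : Polynomial L := ∑ i ∈ a.support, Polynomial.C (v i) * (p i).map (algebraMap K L)
  have hQ : Polynomial.aeval α Q = 0 := by
    show Polynomial.aeval α (∑ i ∈ a.support, Polynomial.C (v i) * (p i).map (algebraMap K L)) = 0
    rw [map_sum, ← h, Finsupp.sum]
    refine Finset.sum_congr rfl fun i hi => ?_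
    rw [map_mul, Polynomial.aeval_C, Polynomial.aeval_map_algebraMap, hp2 i hi, mul_comm]
  have hmin : (minpoly L α).natDegree = pb.dim := by
    rw [minpoly_algClosed hcl α hα, Polynomial.natDegree_map, hdim]
  have hQd : Q.natDegree < pb.dim := by
    have h1 : Q.natDegree ≤ pb.dim - 1 := by
      refine Polynomial.natDegree_sum_le_of_forall_le _ _ fun i hi => ?_
      refine (Polynomial.natDegree_C_mul_le _ _).trans ?_
      rw [Polynomial.natDegree_map]
      have := hp1 i hi
      omega
    have h2 := pb.dim_pos
    omega
  have hQ0 : Q = 0 := by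
    by_contra hne
    have h1 := Polynomial.natDegree_le_natDegree (minpoly.degree_le_of_ne_zero L α hne hQ)
    omega
  have hz : ∀ i ∈ a.support, p i = 0 := by
    intro i hi
    ext j
    have h1 : ∑ i ∈ a.support, (p i).coeff j • v i = 0 := by
      have h2 := congrArg (fun q => Polynomial.coeff q j) hQ0
      simp only [Q, Polynomial.finsetSum_coeff, Polynomial.coeff_C_mul, Polynomial.coeff_map,
        Polynomial.coeff_zero] at h2
      rw [← h2]
      refine Finset.sum_congr rfl fun i _ => ?_
      rw [Algebra.smul_def, mul_comm]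
    rw [Polynomial.coeff_zero]
    exact linearIndependent_iff'.1 hv a.support (fun i => (p i).coeff j) h1 i hi
  ext i
  by_contra hne
  have hi : i ∈ a.support := Finsupp.mem_support_iff.2 hne
  exact hne (by rw [← hp2 i hi, hz i hi, map_zero]; rfl)

end MPadcHP
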