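import Pool.Agent.Lib.MP_adc574_ag_HP.RegA
import Pool.Agent.Lib.MP_adc574_ag_HP.RegB

/-!
# JOB RegC: regular extensions

Proof. `Ω = AlgebraicClosure L`, `Kb = algebraicClosure K Ω` (intermediate field of `Ω / K`, algebraically closed:
instance `algebraicClosure.isAlgClosure`), `Eb = AlgebraicClosure E`, a `K`-embedding `j : Kb → Eb` (`IsAlgClosed.lift`), which makes
`Eb` a `Kb`-algebra. `Ω ⊗[Kb] Eb` is a domain (`tensor_isDomain_of_isAlgClosed`). The `K`-algebra homomorphism
`Ψ : L ⊗[K] E → Ω ⊗[Kb] Eb`, `x ⊗ y ↦ x ⊗ y` (`Algebra.TensorProduct.lift` or `productMap`) is injective: let `v` be a `K`-basis of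
`L`; every element of `L ⊗ E` is a finite sum `∑ v_i ⊗ e_i`; let `∑ v_i ⊗ e_i = 0` in `Ω ⊗[Kb] Eb`. The `v_i` are linearly independent over `Kb`
in `Ω` (`linIndep_algClosed`), so the `v_i ⊗ 1` are linearly independent over `Eb` (extend them to a `Kb`-basis of `Ω`, or use
`LinearIndependent` and flatness: the map `(ι →₀ Kb) → Ω` is injective, tensor with `Eb`), hence `e_i = 0`.
So `L ⊗ E` is a domain (`Function.Injective.isDomain`).
-/

set_option autoImplicit false

namespace MPadcHP

open scoped TensorProduct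

private theorem regc_indep {k M N : Type*} [Field k] [AddCommGroup M] [Module k M] [AddCommGroup N]
    [Module k N] {ι : Type*} (u : ι → M) (hu : LinearIndependent k u) (c : ι →₀ N)
    (h : (c.sum fun i n => u i ⊗ₜ[k] n) = 0) : c = 0 := by
  classical
  have hs := hu.linearIndepOn_id
  let B := Module.Basis.extend hs
  have hmem : ∀ i, u i ∈ hs.extend (Set.subset_univ _) := fun i =>
    Module.Basis.subset_extend hs ⟨i, rfl⟩
  let f : ι ↪ hs.extend (Set.subset_univ _) :=
    ⟨fun i => ⟨u i, hmem i⟩, fun i j hij => hu.injective (congrArg Subtype.val hij)⟩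
  have h1 : c.embDomain f = 0 := by
    refine TensorProduct.sum_tmul_basis_left_eq_zero B (c.embDomain f) ?_
    rw [Finsupp.sum_embDomain]
    rw [← h]
    refine Finsupp.sum_congr fun i _ => ?_
    have h2 : B (f i) = u i := Module.Basis.extend_apply_self hs (f i)
    rw [h2]
  exact Finsupp.embDomain_eq_zero.1 h1

theorem isDomain_tensor {K L E : Type*} [Field K] [CharZero K] [Field L] [Field E] [Algebra K L]
    [Algebra K E] (hcl : ∀ x : L, IsAlgebraic K x → x ∈ (algebraMap K L).range) :
    IsDomain (L ⊗[K] E) := by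
  classical
  let Ω := AlgebraicClosure L
  let Kb := algebraicClosure K Ω
  have hKb : IsAlgClosed Kb := (algebraicClosure.isAlgClosure K Ω).isAlgClosed
  let Eb := AlgebraicClosure E
  let j : Kb →ₐ[K] Eb := IsAlgClosed.lift
  let : Algebra Kb Eb := j.toRingHom.toAlgebra
  have : IsScalarTower K Kb Eb := IsScalarTower.of_algebraMap_eq fun x => (j.commutes x).symm
  have hdom : IsDomain (Ω ⊗[Kb] Eb) := tensor_isDomain_of_isAlgClosed
  let f₁ : L →ₐ[K] (Ω ⊗[Kb] Eb) :=
    ((Algebra.TensorProduct.includeLeft : Ω →ₐ[Kb] Ω ⊗[Kb] Eb).restrictScalars K).comp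
      (IsScalarTower.toAlgHom K L Ω)
  let f₂ : E →ₐ[K] (Ω ⊗[Kb] Eb) :=
    ((Algebra.TensorProduct.includeRight : Eb →ₐ[Kb] Ω ⊗[Kb] Eb).restrictScalars K).comp
      (IsScalarTower.toAlgHom K E Eb)
  let Ψ : L ⊗[K] E →ₐ[K] (Ω ⊗[Kb] Eb) := Algebra.TensorProduct.productMap f₁ f₂
  have hΨ : ∀ (x : L) (e : E), Ψ (x ⊗ₜ[K] e) = algebraMap L Ω x ⊗ₜ[Kb] algebraMap E Eb e := by
    intro x e
    have h1 : Ψ (x ⊗ₜ[K] e) = f₁ x * f₂ e := Algebra.TensorProduct.productMap_apply_tmul f₁ f₂ x e
    have h2 : f₁ x = algebraMap L Ω x ⊗ₜ[Kb] (1 : Eb) := rfl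
    have h3 : f₂ e = (1 : Ω) ⊗ₜ[Kb] algebraMap E Eb e := rfl
    rw [h1, h2, h3, Algebra.TensorProduct.tmul_mul_tmul, mul_one, one_mul]
  have hinj : Function.Injective Ψ := by
    rw [injective_iff_map_eq_zero]
    intro z hz
    let v := Module.Basis.ofVectorSpace K L
    obtain ⟨c, hc⟩ := TensorProduct.eq_repr_basis_left v z
    have hli : LinearIndependent Kb (fun i => algebraMap L Ω (v i)) := by
      rw [linearIndependent_iff]
      intro l hl
      have h1 : l.mapRange (algebraMap Kb Ω) (map_zero _) = 0 := by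
        refine linIndep_algClosed hcl v v.linearIndependent _ (fun i => ?_) ?_
        · rw [Finsupp.mapRange_apply]
          exact mem_algebraicClosure_iff'.1 (l i).2
        · rw [Finsupp.sum_mapRange_index (fun i => zero_mul _)]
          rw [Finsupp.linearCombination_apply] at hl
          rw [← hl]
          refine Finsupp.sum_congr fun i _ => ?_
          rw [Algebra.smul_def]
      ext i
      have h2 := DFunLike.congr_fun h1 i
      rw [Finsupp.mapRange_apply, Finsupp.zero_apply] at h2
      have h3 := (map_eq_zero (algebraMap Kb Ω)).1 h2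
      rw [h3]
      rfl
    have h4 : c.mapRange (algebraMap E Eb) (map_zero _) = 0 := by
      refine regc_indep (k := Kb) _ hli _ ?_
      rw [Finsupp.sum_mapRange_index (fun i => TensorProduct.tmul_zero _ _)]
      rw [← hz, ← hc, Finsupp.sum, Finsupp.sum, map_sum]
      refine Finset.sum_congr rfl fun i _ => ?_
      rw [hΨ]
    have h5 : c = 0 := by
      ext i
      have h2 := DFunLike.congr_fun h4 i
      rw [Finsupp.mapRange_apply, Finsupp.zero_apply] at h2
      rw [(map_eq_zero (algebraMap E Eb)).1 h2]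
      rfl
    rw [← hc, h5, Finsupp.sum_zero_index]
  exact Function.Injective.isDomain Ψ.toRingHom hinj

end MPadcHP
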