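import Pool.Agent.Lib.MP_adc574_ag_HP.GMD
import Pool.Agent.Lib.MP_adc574_ag_HP.AsmA
import Pool.Agent.Lib.MP_adc574_ag_HP.AsmB
import Pool.Agent.Lib.MP_adc574_ag_HP.KosF
import Pool.Agent.Lib.MP_adc574_ag_HP.KeyE
import Pool.Agent.Lib.MP_adc574_ag_HP.RegC

/-!
# JOB AsmC: Theorem C, nonvanishing of the period determinant

If `V` is empty the determinant is 1 (`Matrix.det_isEmpty`). Otherwise `∑ w ≤ wtp (u v) < d` (`wtp_eq`).
`exists_nab` gives `nab` on `H = HH S.fK`, `hG : IsGM S nab S.br` (all module instances on `H` are found by `inferInstance`). `exists_functional` for every `v`: `cb v : H →ₗ[K] L`, `K = RatFunc κ`,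
`DL (cb v h) = cb v (nab h)`, `cb v (lv nab br k (x^e)) = c v k (x^e)`.
`F v := lv nab br 0 (monomial (u v) 1) = mk (x^(u v)) ∈ Hprim`. They are `K`-linearly independent: if `∑ a_v x^(u v) ∈ Zmod f` over `K`, then by `ind_forms` (over `K`, `f = S.fK`, `DegLe w d f`, top part `part w d f` = image of
`part w d φ` as `d > 0`, `hJ`: `X i ^ M' ∈ Jac` from `hS.jac` with exponent `M' = M` (`wt (M [i]) = w i M ≥ M`), mapped to `K`) it is 0 and `a = 0` (`u` injective). In particular `Hprim ≠ ⊥`.
`k := if Even n then n/2 - 1 else 0`, `α := (n : κ)/2 - 1 - k`: `α = 0` for `n` even (`n ≥ 2`), and for `n` odd `α = n/2 - 1` is not an integer (`2 α = n - 2` odd; characteristic 0).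
`local_data` gives `r`, `b`, `G`, `E`, `ε`, `p`. `ΓK i j := algebraMap (G i j) / algebraMap δ`. `irr_coord`, `local_package` (`α`) give a field `E`, `a`, `l`, `hLJ`.
Coordinates: `F v = ∑ i, fc v i • b i` (`hspan`), `fc` is linearly independent over `K`. `C v j := cb v (b j)`: `DL (C v j) = cb v (nab (b j)) = ∑ i, C v i * algebraMap (ΓK i j)` (`nab (b j) = ∑ ΓK i j • b i`; `nab_coord` for `w = Pi.single j 1`). `C` is
linearly independent over `L`: if `∑ lam_v C v j = 0` for all `j` then `∑ lam_v cb v = 0` on `Hprim` (span of `b`), so `∑ lam_v c v k (x^e) = 0` for `wtp e < d (k+1)`, `lam = 0` (`hind`).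
`isDomain_tensor` (`hcl`): `L ⊗[K] E` is a domain. `key` (reindex `V ≃ Fin (card V)`; `DK' := DZ κ`, `DL`, `hD` by `DZ_apply`) with this `C`, `fc`: `det (∑ i, C v i * algebraMap (fc u i)) ≠ 0`, and
`∑ i, C v i * algebraMap (fc u i) = cb v (F u) = c v 0 (x^(u u))`. Transpose (`Matrix.det_transpose`).
-/

set_option autoImplicit false

namespace MPadcHP

open MvPolynomial

universe u

private theorem asmc_wt_single {n : ℕ} (w : Fin n → ℕ) (i : Fin n) (M : ℕ) : wt w (Finsupp.single i M) = w i * M := by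
  unfold wt
  rw [Finset.sum_eq_single i]
  · rw [Finsupp.single_eq_same]
  · intro j _ hj
    rw [Finsupp.single_eq_of_ne hj, mul_zero]
  · intro h
    exact absurd (Finset.mem_univ i) h

private theorem asmc_wt_zero {n : ℕ} (w : Fin n → ℕ) : wt w 0 = 0 := by
  unfold wt
  exact Finset.sum_eq_zero fun i _ => by rw [Finsupp.zero_apply, mul_zero]

private theorem asmc_weight {n : ℕ} (w : Fin n → ℕ) (e : Fin n →₀ ℕ) : Finsupp.weight w e = wt w e := by
  rw [Finsupp.weight_apply]
  refine (Finsupp.sum_fintype e (fun i c => c • w i) (fun i => zero_smul ℕ (w i))).trans ?_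
  unfold wt
  refine Finset.sum_congr rfl fun i _ => ?_
  rw [smul_eq_mul, mul_comm]

private theorem asmc_coeff_fK {κ : Type u} [Field κ] {n : ℕ} (S : Dat κ n) {e : Fin n →₀ ℕ} (he : e ≠ 0) :
    coeff e S.fK = algebraMap κ (RatFunc κ) (coeff e S.φ) := by
  unfold Dat.fK
  rw [coeff_sub, coeff_map, coeff_C, if_neg (Ne.symm he), sub_zero]

private theorem asmc_deg {κ : Type u} [Field κ] {n : ℕ} (S : Dat κ n) (hS : S.Ok) : DegLe S.w S.d S.fK := by
  intro e he
  by_cases h0 : e = 0
  · rw [h0, asmc_wt_zero]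
    exact Nat.zero_le _
  · rw [mem_support_iff, asmc_coeff_fK S h0] at he
    refine hS.deg e (mem_support_iff.mpr fun h => he ?_)
    rw [h, map_zero]

private theorem asmc_part {κ : Type u} [Field κ] {n : ℕ} (S : Dat κ n) (hS : S.Ok) :
    part S.w S.d S.fK = map (algebraMap κ (RatFunc κ)) (part S.w S.d S.φ) := by
  classical
  ext e
  unfold part
  rw [coeff_weightedHomogeneousComponent, coeff_map, coeff_weightedHomogeneousComponent, asmc_weight]
  by_cases h : wt S.w e = S.d
  · rw [if_pos h, if_pos h, asmc_coeff_fK]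
    rintro rfl
    rw [asmc_wt_zero] at h
    have := hS.d_pos
    omega
  · rw [if_neg h, if_neg h, map_zero]

private theorem asmc_jac {κ : Type u} [Field κ] {n : ℕ} (S : Dat κ n) (hS : S.Ok) (i : Fin n) :
    (X i : MvPolynomial (Fin n) (RatFunc κ)) ^ S.M ∈ Jac (part S.w S.d S.fK) := by
  have h1 : monomial (Finsupp.single i S.M) (1 : κ) ∈ Jac (part S.w S.d S.φ) := by
    refine hS.jac _ ?_
    rw [asmc_wt_single]
    exact Nat.le_mul_of_pos_left _ (hS.w_pos i)
  obtain ⟨q, hq⟩ := Ideal.mem_span_range_iff_exists_fun.mp h1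
  rw [asmc_part S hS]
  refine Ideal.mem_span_range_iff_exists_fun.mpr ⟨fun j => map (algebraMap κ (RatFunc κ)) (q j), ?_⟩
  have h2 := congrArg (map (algebraMap κ (RatFunc κ))) hq
  rw [map_sum, map_monomial, map_one, ← X_pow_eq_monomial] at h2
  rw [← h2]
  refine Finset.sum_congr rfl fun j _ => ?_
  rw [map_mul, pderiv_map]

private theorem asmc_alpha {κ : Type u} [Field κ] [CharZero κ] {n : ℕ} (hn : 2 ≤ n) :
    ∃ k : ℕ, ((n : κ) / 2 - 1 - k = 0 ∨ ∀ m : ℤ, (n : κ) / 2 - 1 - k ≠ m) := by
  rcases Nat.even_or_odd' n with ⟨m, hm | hm⟩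
  · refine ⟨m - 1, Or.inl ?_⟩
    have h1 : 1 ≤ m := by omega
    rw [hm]
    push_cast [Nat.cast_sub h1]
    ring
  · refine ⟨0, Or.inr fun z hz => ?_⟩
    rw [hm] at hz
    have h2 : (2 : κ) ≠ 0 := two_ne_zero
    have h3 : ((2 * (m : ℤ) + 1 : ℤ) : κ) = ((2 * (z + 1) : ℤ) : κ) := by
      push_cast at hz ⊢
      field_simp at hz
      linear_combination hz
    have h4 : (2 * (m : ℤ) + 1 : ℤ) = 2 * (z + 1) := by exact_mod_cast h3
    omega

theorem theoremC {κ : Type u} [Field κ] [CharZero κ] {n : ℕ} (hn : 2 ≤ n) (S : Dat κ n)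
    (hS : S.Ok) {L : Type u} [Field L] [Algebra (RatFunc κ) L] (DL : Derivation ℤ L L)
    (hD : ∀ x, DL (algebraMap (RatFunc κ) L x) = algebraMap (RatFunc κ) L (DK κ x))
    (hcl : ∀ x : L, IsAlgebraic (RatFunc κ) x → x ∈ (algebraMap (RatFunc κ) L).range)
    {V : Type} [Fintype V] [DecidableEq V] (c : V → ℕ → MvPolynomial (Fin n) L →ₗ[L] L)
    (hc : ∀ v, IsPer (S.eqn L) DL (c v))
    (hind : ∀ lam : V → L, (∀ (k : ℕ) (e : Fin n →₀ ℕ), wtp S.w e < S.d * (k + 1) →
      ∑ v, lam v * c v k (monomial e 1) = 0) → lam = 0)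
    (u : V → Fin n →₀ ℕ) (hu : Function.Injective u) (hud : ∀ v, wtp S.w (u v) < S.d) :
    (Matrix.of fun a b : V => c b 0 (monomial (u a) 1)).det ≠ 0 := by
  classical
  rcases isEmpty_or_nonempty V with hV | ⟨⟨v0⟩⟩
  · rw [Matrix.det_isEmpty]
    exact one_ne_zero
  have hwd : ∑ i, S.w i < S.d := by
    have := hud v0
    rw [wtp_eq] at this
    omega
  have hn0 : 0 < n := by omega
  have : CharZero (RatFunc κ) := charZero_of_injective_algebraMap (algebraMap κ (RatFunc κ)).injective
  obtain ⟨nab, hG, hnab⟩ := exists_nab S hS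
  choose cb hcb1 hcb2 using fun v => exists_functional hn0 S hS nab hnab DL hD (c v) (hc v)
  set F : V → HH S.fK := fun v => lv nab S.br 0 (monomial (u v) 1) with hF
  have hF0 : ∀ v, F v = (Zmod S.fK).mkQ (monomial (u v) (1 : RatFunc κ)) := by
    intro v
    have h1 : F v = S.br (monomial (u v) 1) := by
      show (((Nat.factorial 0 : ℕ) : κ)⁻¹ • ((nab ^ 0).comp S.br)) (monomial (u v) 1) = _
      rw [LinearMap.smul_apply, Nat.factorial_zero, Nat.cast_one, inv_one]
      exact one_smul κ (S.br (monomial (u v) 1))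
    rw [h1]
    show (Zmod S.fK).mkQ ((monomial (u v) (1 : κ)).map (algebraMap κ (RatFunc κ))) = _
    rw [map_monomial, map_one]
  have hFp : ∀ v, F v ∈ Hprim S nab S.br := by
    intro v
    refine Submodule.subset_span ⟨0, u v, ?_, rfl⟩
    rw [zero_add, mul_one]
    exact hud v
  have hFi : LinearIndependent (RatFunc κ) F := by
    rw [Fintype.linearIndependent_iff]
    intro g hg
    set P : MvPolynomial (Fin n) (RatFunc κ) := ∑ v, g v • monomial (u v) 1 with hP
    have hP0 : P ∈ Zmod S.fK := by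
      rw [← Submodule.ker_mkQ (Zmod S.fK), LinearMap.mem_ker, hP, map_sum, ← hg]
      refine Finset.sum_congr rfl fun v _ => ?_
      rw [map_smul, hF0]
    have hPc : ∀ e, coeff e P = ∑ v, if u v = e then g v else 0 := by
      intro e
      rw [hP, coeff_sum]
      refine Finset.sum_congr rfl fun v _ => ?_
      rw [coeff_smul, coeff_monomial, smul_eq_mul, mul_ite, mul_one, mul_zero]
    obtain ⟨A, C', hA, hPe⟩ := hP0
    have hz := ind_forms hn S.w hS.w_pos S.d hS.d_pos S.fK (asmc_deg S hS) S.M (asmc_jac S hS) A hA C' P hPe (by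
      intro e he
      rw [mem_support_iff, hPc] at he
      obtain ⟨v, _, hv⟩ := Finset.exists_ne_zero_of_sum_ne_zero he
      by_cases h : u v = e
      · rw [← h]
        exact hud v
      · rw [if_neg h] at hv
        exact absurd rfl hv)
    intro v
    have h1 := hPc (u v)
    rw [hz, coeff_zero, Finset.sum_eq_single v] at h1
    · rw [if_pos rfl] at h1
      exact h1.symm
    · intro v' _ hv'
      rw [if_neg (fun h => hv' (hu h))]
    · intro h
      exact absurd (Finset.mem_univ v) h
  have hne : Hprim S nab S.br ≠ ⊥ := by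
    intro h
    have := hFp v0
    rw [h, Submodule.mem_bot] at this
    exact hFi.ne_zero v0 this
  obtain ⟨k, hα'⟩ := asmc_alpha (κ := κ) hn
  obtain ⟨r, b, G, E0, ε, p, hb, hspan, hGb, hGe, hα, hε, hp⟩ := local_data hn0 hS hG hwd hne k
  set δt : RatFunc κ := algebraMap (Polynomial κ) (RatFunc κ) S.δ with hδt
  have hδ0 : δt ≠ 0 := by
    intro h
    exact hS.irr.ne_zero ((map_eq_zero_iff _ (RatFunc.algebraMap_injective κ)).mp h)
  set ΓK : Matrix (Fin r) (Fin r) (RatFunc κ) :=
    fun i j => algebraMap (Polynomial κ) (RatFunc κ) (G i j) / δt with hΓ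
  have hΓK : ∀ i j, δt * ΓK i j = algebraMap (Polynomial κ) (RatFunc κ) (G i j) := by
    intro i j
    show δt * (algebraMap (Polynomial κ) (RatFunc κ) (G i j) / δt) = _
    rw [mul_div_cancel₀ _ hδ0]
  obtain ⟨E, fE, aE, a, l, ha, hl, hLJ⟩ := local_package S.δ hS.irr G E0 ε p hGe _ hα hα' hε hp ΓK hΓK
    (fun W hW => irr_coord hn0 hS hG hwd b hb hspan G hGb ΓK hΓK W hW)
  have hco : ∀ v, ∃ x : Fin r → RatFunc κ, ∑ i, x i • b i = F v := by
    intro v
    have := hFp v
    rw [← hspan] at this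
    exact (Submodule.mem_span_range_iff_exists_fun _).mp this
  choose fc hfc using hco
  have hfi : LinearIndependent (RatFunc κ) fc := by
    rw [Fintype.linearIndependent_iff]
    intro g hg
    rw [Fintype.linearIndependent_iff] at hFi
    refine hFi g ?_
    have h1 : ∑ v, g v • F v = ∑ i, (∑ v, g v * fc v i) • b i := by
      have h2 : ∀ v, g v • F v = ∑ i, (g v * fc v i) • b i := by
        intro v
        rw [← hfc v, Finset.smul_sum]
        exact Finset.sum_congr rfl fun i _ => by rw [smul_smul]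
      rw [Finset.sum_congr rfl fun v _ => h2 v, Finset.sum_comm]
      exact Finset.sum_congr rfl fun i _ => by rw [Finset.sum_smul]
    rw [h1]
    refine Finset.sum_eq_zero fun i _ => ?_
    have h3 : ∑ v, g v * fc v i = 0 := by
      have := congrFun hg i
      rw [Finset.sum_apply] at this
      exact this
    rw [h3, zero_smul]
  have hnb : ∀ j, nab (b j) = ∑ i, ΓK i j • b i := by
    intro j
    have h1 : δt • nab (b j) = δt • ∑ i, ΓK i j • b i := by
      rw [hδt, algebraMap_smul, hGb j, ← hδt, Finset.smul_sum]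
      refine Finset.sum_congr rfl fun i _ => ?_
      rw [smul_smul, hΓK, algebraMap_smul]
    have h2 := congrArg (fun x => δt⁻¹ • x) h1
    simp only [smul_smul, inv_mul_cancel₀ hδ0, one_smul] at h2
    exact h2
  have hcbs : ∀ v (x : RatFunc κ) (h : HH S.fK), cb v (x • h) = cb v h * algebraMap (RatFunc κ) L x := by
    intro v x h
    rw [map_smul, Algebra.smul_def, mul_comm]
  have hCD : ∀ v j, DL (cb v (b j)) = ∑ i, cb v (b i) * algebraMap (RatFunc κ) L (ΓK i j) := by
    intro v j
    rw [hcb1, hnb, map_sum]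
    exact Finset.sum_congr rfl fun i _ => hcbs v _ _
  have hCi : LinearIndependent L (fun v => fun j => cb v (b j)) := by
    rw [Fintype.linearIndependent_iff]
    intro lam hlam v
    have h0 : lam = 0 := by
      refine hind lam fun k e he => ?_
      let Ψ : HH S.fK →ₗ[RatFunc κ] L := ∑ v, (LinearMap.mulLeft (RatFunc κ) (lam v)).comp (cb v)
      have hΨ : ∀ h, Ψ h = ∑ v, lam v * cb v h := by
        intro h
        show (∑ v, (LinearMap.mulLeft (RatFunc κ) (lam v)).comp (cb v)) h = _
        rw [LinearMap.sum_apply]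
        rfl
      have hle : Hprim S nab S.br ≤ LinearMap.ker Ψ := by
        rw [← hspan, Submodule.span_le]
        rintro _ ⟨j, rfl⟩
        show Ψ (b j) = 0
        rw [hΨ]
        have := congrFun hlam j
        rw [Finset.sum_apply] at this
        exact this
      have hm : lv nab S.br k (monomial e 1) ∈ Hprim S nab S.br := Submodule.subset_span ⟨k, e, he, rfl⟩
      have h1 : Ψ (lv nab S.br k (monomial e 1)) = 0 := hle hm
      rw [hΨ] at h1
      rw [← h1]
      exact Finset.sum_congr rfl fun v _ => by rw [hcb2]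
    rw [h0]
    rfl
  let _ := fE
  let _ := aE
  have := isDomain_tensor (K := RatFunc κ) (L := L) (E := E) hcl
  let eV : V ≃ Fin (Fintype.card V) := Fintype.equivFin V
  have hkey := key (K := RatFunc κ) (L := L) (E := E) (DZ κ) DL hD ΓK a l ha hl hLJ (Fintype.card V)
    (fun v j => cb (eV.symm v) (b j)) (fun v j => hCD _ j) (hCi.comp _ eV.symm.injective)
    (fun v => fc (eV.symm v)) (hfi.comp _ eV.symm.injective)
  have hM : (Matrix.of fun a b : V => c b 0 (monomial (u a) 1)) =
      (Matrix.of fun v w : V => ∑ i, cb v (b i) * algebraMap (RatFunc κ) L (fc w i)).transpose := by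
    ext x y
    show c y 0 (monomial (u x) 1) = ∑ i, cb y (b i) * algebraMap (RatFunc κ) L (fc x i)
    rw [← hcb2 y 0 (u x)]
    show cb y (F x) = _
    rw [← hfc x, map_sum]
    exact Finset.sum_congr rfl fun i _ => hcbs y _ _
  rw [hM, Matrix.det_transpose, ← Matrix.det_submatrix_equiv_self eV.symm]
  exact hkey

end MPadcHP
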